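import Pool.Agent.Lib.MP_f0744f_nt.U.B0

/-! # Row Af: affine maps which almost preserve the reference points -/

set_option autoImplicit false

open Polynomial

namespace F0744U

open F0744C F0744D

variable {S : Finset ℤ} {a b : ℤ} {d e : ℕ}
variable {f : PM S a d} {A : AbsoluteValue ℚ ℝ} {R m θ H : ℝ} {cl : ℤ → Fin d}

/-- the sum over `j` (`Equiv.sum_comp`) -/
theorem aff_sum (A : AbsoluteValue ℚ ℝ) {z : Fin d → ℤ} {c3 c0 : ℚ} {E : ℝ} {π : Equiv.Perm (Fin d)}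
    (h : ∀ j, A (c3 * (z j : ℚ) + c0 - z (π j)) ≤ E) :
    A ((c3 - 1) * (∑ j, (z j : ℚ)) + d * c0) ≤ d * E := by
  have e : (c3 - 1) * (∑ j, (z j : ℚ)) + d * c0 = ∑ j, (c3 * (z j : ℚ) + c0 - z (π j)) := by
    rw [Finset.sum_sub_distrib, Finset.sum_add_distrib, ← Finset.mul_sum,
      Equiv.sum_comp π (fun j => (z j : ℚ)), Finset.sum_const, Finset.card_univ, Fintype.card_fin, nsmul_eq_mul]
    ring
  rw [e]
  calc A (∑ j, (c3 * (z j : ℚ) + c0 - z (π j))) ≤ ∑ j, A (c3 * (z j : ℚ) + c0 - z (π j)) := A.sum_le _ _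
    _ ≤ ∑ _j : Fin d, E := Finset.sum_le_sum fun j _ => h j
    _ = d * E := by rw [Finset.sum_const, Finset.card_univ, Fintype.card_fin, nsmul_eq_mul]

/-- Model: the proof of `TA.c3` in `/team-store/k3c_A2b_2.lean`. For `j, k`: `c3 (z j - z k) - (z (π j) - z (π k))` has size at most `2 E`; by induction on `n` `c3 ^ n (z j - z k) - (z (π ^ n j) - z (π ^ n k))` has size at
most `2 n M ^ n E` (`M ≥ 1`). `π ^ (d !) = 1`. -/
theorem aff_pow (A : AbsoluteValue ℚ ℝ) {z : Fin d → ℤ} {c3 c0 : ℚ} {E M : ℝ} (hE : 0 ≤ E) (hM : 1 ≤ M) (hc : A c3 ≤ M)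
    {π : Equiv.Perm (Fin d)} (h : ∀ j, A (c3 * (z j : ℚ) + c0 - z (π j)) ≤ E) (j k : Fin d) :
    A (c3 ^ d.factorial - 1) * A ((z j : ℚ) - z k) ≤ 2 * d.factorial * M ^ d.factorial * E := by
  have key : ∀ n : ℕ, A (c3 ^ n * ((z j : ℚ) - z k) - ((z ((π ^ n) j) : ℚ) - z ((π ^ n) k))) ≤
      2 * n * M ^ n * E := by
    intro n
    induction n with
    | zero => simp
    | succ n ih =>
      have e : c3 ^ (n + 1) * ((z j : ℚ) - z k) - ((z ((π ^ (n + 1)) j) : ℚ) - z ((π ^ (n + 1)) k)) =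
          c3 * (c3 ^ n * ((z j : ℚ) - z k) - ((z ((π ^ n) j) : ℚ) - z ((π ^ n) k))) +
          ((c3 * (z ((π ^ n) j) : ℚ) + c0 - z (π ((π ^ n) j))) -
            (c3 * (z ((π ^ n) k) : ℚ) + c0 - z (π ((π ^ n) k)))) := by
        rw [pow_succ' π n, Equiv.Perm.mul_apply, Equiv.Perm.mul_apply]
        ring
      have hA : A (c3 * (c3 ^ n * ((z j : ℚ) - z k) - ((z ((π ^ n) j) : ℚ) - z ((π ^ n) k)))) ≤
          M * (2 * n * M ^ n * E) := by
        rw [A.map_mul]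
        exact mul_le_mul hc ih (A.nonneg _) (by linarith)
      have hB : A ((c3 * (z ((π ^ n) j) : ℚ) + c0 - z (π ((π ^ n) j))) -
            (c3 * (z ((π ^ n) k) : ℚ) + c0 - z (π ((π ^ n) k)))) ≤ E + E := by
        have h1 := A.sub_le (c3 * (z ((π ^ n) j) : ℚ) + c0 - z (π ((π ^ n) j))) 0
          (c3 * (z ((π ^ n) k) : ℚ) + c0 - z (π ((π ^ n) k)))
        rw [sub_zero, zero_sub, A.map_neg] at h1
        exact h1.trans (add_le_add (h _) (h _))
      have hMn : 1 ≤ M ^ (n + 1) := one_le_pow₀ hM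
      rw [e]
      refine (A.add_le _ _).trans ?_
      have h2 : E + E ≤ 2 * M ^ (n + 1) * E := by nlinarith
      have h3 : M * (2 * n * M ^ n * E) = 2 * n * M ^ (n + 1) * E := by
        rw [pow_succ]
        ring
      have h5 : 2 * ((n + 1 : ℕ) : ℝ) * M ^ (n + 1) * E = 2 * n * M ^ (n + 1) * E + 2 * M ^ (n + 1) * E := by
        push_cast
        ring
      rw [h3] at hA
      rw [h5]
      exact add_le_add hA (hB.trans h2)
  have h1 := key d.factorial
  have hp : π ^ d.factorial = 1 := by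
    have h2 := pow_card_eq_one (x := π)
    rwa [Fintype.card_perm, Fintype.card_fin] at h2
  rw [hp, Equiv.Perm.one_apply, Equiv.Perm.one_apply] at h1
  have e : c3 ^ d.factorial * ((z j : ℚ) - z k) - ((z j : ℚ) - z k) =
      (c3 ^ d.factorial - 1) * ((z j : ℚ) - z k) := by ring
  rw [e, A.map_mul] at h1
  exact h1

end F0744U
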