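import Pool.Agent.Lib.MP_f0744f_nt.U.B0

/-! # Row Af: affine maps which almost preserve the reference points -/

set_option autoImplicit false

open Polynomial

namespace F0744U

open F0744C F0744D

variable {S : Finset ℤ} {a b : ℤ} {d e : ℕ}
variable {f : PM S a d} {A : AbsoluteValue ℚ ℝ} {R m θ H : ℝ} {cl : ℤ → Fin d}

/-- `π j = cl (G j)`; injective: if `cl (G j) = cl (G j')`, `j ≠ j'`, then `c3 (z j - z j')` has size at most `2 E + 2 R exp (- (1 - θ) m)` (`UP.close`) and at least `A c3 * (R exp (- θ m))` (`sep`). The last estimate: `UP.close` for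
`G j` and `z (π j)`. -/
theorem UP.aff (h : UP f A R m θ H cl) {z : Fin d → ℤ} (hz : ∀ c, z c ∈ S ∧ z c ≠ a ∧ cl (z c) = c)
    {c3 c0 : ℚ} {E : ℝ} {G : Fin d → ℤ}
    (hG : ∀ j, G j ∈ S ∧ G j ≠ a ∧ A (c3 * (z j : ℚ) + c0 - (G j : ℤ)) ≤ E)
    (hE : 2 * E + 2 * R * Real.exp (-((1 - θ) * m)) < A c3 * (R * Real.exp (-(θ * m)))) :
    ∃ π : Equiv.Perm (Fin d), ∀ j,
      A (c3 * (z j : ℚ) + c0 - z (π j)) ≤ E + 2 * R * Real.exp (-((1 - θ) * m)) := by
  have hinj : Function.Injective (fun j : Fin d => cl (G j)) := by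
    intro j j' hjj
    by_contra hne
    have hjj' : cl (G j) = cl (G j') := hjj
    obtain ⟨h1, h2, h3⟩ := hG j
    obtain ⟨h1', h2', h3'⟩ := hG j'
    have hcl := h.close h1 h1' h2 h2' hjj'
    obtain ⟨k1, k2, k3⟩ := hz j
    obtain ⟨k1', k2', k3'⟩ := hz j'
    have hsep := h.sep (z j) k1 (z j') k1' k2 k2' (by rw [k3, k3']; exact hne)
    have hlow : A c3 * (R * Real.exp (-(θ * m))) ≤ A (c3 * ((z j : ℚ) - z j')) := by
      rw [map_mul]
      exact mul_le_mul_of_nonneg_left hsep (A.nonneg _)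
    have hup : A (c3 * ((z j : ℚ) - z j')) ≤ E + E + 2 * R * Real.exp (-((1 - θ) * m)) := by
      have e1 : c3 * ((z j : ℚ) - z j') = ((c3 * (z j : ℚ) + c0 - (G j : ℤ)) -
          (c3 * (z j' : ℚ) + c0 - (G j' : ℤ))) + (((G j : ℤ) : ℚ) - (G j' : ℤ)) := by ring
      rw [e1]
      refine (A.add_le _ _).trans ?_
      have e2 : A ((c3 * (z j : ℚ) + c0 - (G j : ℤ)) - (c3 * (z j' : ℚ) + c0 - (G j' : ℤ)))
          ≤ E + E := by
        rw [sub_eq_add_neg]
        refine (A.add_le _ _).trans ?_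
        rw [A.map_neg]
        exact add_le_add h3 h3'
      exact add_le_add e2 hcl
    linarith
  refine ⟨Equiv.ofBijective _ (Finite.injective_iff_bijective.mp hinj), fun j => ?_⟩
  obtain ⟨h1, h2, h3⟩ := hG j
  obtain ⟨k1, k2, k3⟩ := hz (cl (G j))
  have hcl := h.close h1 k1 h2 k2 k3.symm
  have e1 : c3 * (z j : ℚ) + c0 - z (cl (G j)) =
      (c3 * (z j : ℚ) + c0 - (G j : ℤ)) + (((G j : ℤ) : ℚ) - z (cl (G j))) := by ring
  show A (c3 * (z j : ℚ) + c0 - z (cl (G j))) ≤ _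
  rw [e1]
  exact (A.add_le _ _).trans (add_le_add h3 hcl)

end F0744U
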