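import Pool.Agent.Lib.MP_f0744f_nt.U.Defs

/-! # Row B0: basic facts on a good place -/

set_option autoImplicit false

open Polynomial

namespace F0744U

open F0744C F0744D

variable {S : Finset ℤ} {a b : ℤ} {d e : ℕ}
variable {f : PM S a d} {A : AbsoluteValue ℚ ℝ} {R m θ H : ℝ} {cl : ℤ → Fin d}

/-- a larger `θ` and a smaller `H` -/
theorem UP.mono (h : UP f A R m θ H cl) {θ' H' : ℝ} (hθ : θ ≤ θ') (hH : H' ≤ H) :
    UP f A R m θ' H' cl := by
  have hm := h.m0
  have h1 : θ * m ≤ θ' * m := mul_le_mul_of_nonneg_right hθ hm.le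
  refine ⟨h.R1, h.m0, ?_, ?_, h.meq, h.bd, ?_, ?_⟩
  · exact hH.trans (h.big.trans h1)
  · exact (Real.exp_le_exp.mpr (by linarith)).trans h.ad
  · intro x hx y hy hxa hya hc
    refine le_trans ?_ (h.sim x hx y hy hxa hya hc)
    refine mul_le_mul_of_nonneg_right (Real.exp_le_exp.mpr ?_) (A.nonneg _)
    nlinarith
  · intro x hx y hy hxa hya hc
    refine le_trans ?_ (h.sep x hx y hy hxa hya hc)
    refine mul_le_mul_of_nonneg_left (Real.exp_le_exp.mpr (by linarith)) ?_
    exact le_trans zero_le_one h.R1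

theorem FullU.mono {ph : ℤ → ℤ} {cl : ℤ → Fin d} {i j : ℕ} (h : i ≤ j) {T : Finset ℤ}
    (hF : FullU ph cl j T) : FullU ph cl i T := by
  intro ω
  obtain ⟨x, hx, h1⟩ := hF ω
  exact ⟨x, hx, fun k hk => h1 k (lt_of_lt_of_le hk h)⟩

/-- `f.ph` is injective on `S \ {a}`; induction (model: `iter_inj` in `D/X1.lean`). -/
theorem iter_injU (f : PM S a d) {n : ℕ} {x y : ℤ} (hx : x ∈ Dm S a f.ph n) (hy : y ∈ Dm S a f.ph n)
    (h : f.ph^[n] x = f.ph^[n] y) : x = y := by
  induction n generalizing x y with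
  | zero => exact h
  | succ n ih =>
    obtain ⟨hx1, hx2, hx3⟩ := Dm_succ hx
    obtain ⟨hy1, hy2, hy3⟩ := Dm_succ hy
    rw [Function.iterate_succ_apply, Function.iterate_succ_apply] at h
    exact f.inj x hx1 y hy1 hx2 hy2 (ih hx3 hy3 h)

/-- model: `iter_eval` in `D/K0.lean`. -/
theorem iter_evalU (f : PM S a d) {J i : ℕ} (hi : i ≤ J) {x : ℤ}
    (hx : x ∈ Dm S a f.ph J) : (f.F.comp^[i] X).eval (x : ℚ) = ((f.ph^[i] x : ℤ) : ℚ) := by
  induction i with
  | zero => simp
  | succ i ih =>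
    have h1 := iter_mem hx (i := i) (by omega)
    rw [Function.iterate_succ_apply', eval_comp, ih (by omega), Function.iterate_succ_apply']
    exact (f.val _ h1.1 h1.2).symm

end F0744U
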