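import Pool.Agent.Lib.MP_f0744f_nt.U.Defs

/-! # Row B0: basic facts on a good place -/

set_option autoImplicit false

open Polynomial

namespace F0744U

open F0744C F0744D

variable {S : Finset ℤ} {a b : ℤ} {d e : ℕ}
variable {f : PM S a d} {A : AbsoluteValue ℚ ℝ} {R m θ H : ℝ} {cl : ℤ → Fin d}

/-- `meq`: `log (A α) + (d - 1) log R = m`, `α ≠ 0` since `f.F` has degree `d ≥ 1`. -/
theorem UP.lead (h : UP f A R m θ H cl) (hd : 1 ≤ d) :
    A f.F.leadingCoeff * R ^ (d - 1) = Real.exp m := by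
  have hF : f.F ≠ 0 := by
    intro h0
    have h1 := f.deg
    rw [h0, Polynomial.natDegree_zero] at h1
    omega
  have hl : 0 < A f.F.leadingCoeff := A.pos (Polynomial.leadingCoeff_ne_zero.mpr hF)
  have hR : 0 < R := lt_of_lt_of_le one_pos h.R1
  have h2 := h.meq
  unfold mm at h2
  have h3 : ((d : ℝ) - 1) = ((d - 1 : ℕ) : ℝ) := by rw [Nat.cast_sub hd, Nat.cast_one]
  rw [← h2, Real.exp_add, Real.exp_log hl, h3, ← Real.log_pow, Real.exp_log (pow_pos hR _)]

/-- `sim` and `A (f.ph x - f.ph y) ≤ 2 R` (`f.maps`, `bd`). -/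
theorem UP.close (h : UP f A R m θ H cl) {x y : ℤ} (hx : x ∈ S) (hy : y ∈ S) (hxa : x ≠ a)
    (hya : y ≠ a) (hc : cl x = cl y) :
    A ((x : ℚ) - y) ≤ 2 * R * Real.exp (-((1 - θ) * m)) := by
  have h1 := h.sim x hx y hy hxa hya hc
  have h2 : A (((f.ph x : ℤ) : ℚ) - (f.ph y : ℤ)) ≤ 2 * R := by
    have h3 := A.add_le ((f.ph x : ℤ) : ℚ) (-((f.ph y : ℤ) : ℚ))
    rw [AbsoluteValue.map_neg, ← sub_eq_add_neg] at h3
    have h4 := h.bd _ (f.maps x hx hxa)
    have h5 := h.bd _ (f.maps y hy hya)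
    linarith
  have h6 := h1.trans h2
  have h7 : 0 < Real.exp (-((1 - θ) * m)) := Real.exp_pos _
  have h8 := mul_le_mul_of_nonneg_right h6 h7.le
  have h9 : Real.exp ((1 - θ) * m) * A ((x : ℚ) - y) * Real.exp (-((1 - θ) * m)) =
      A ((x : ℚ) - y) := by
    have h10 : Real.exp ((1 - θ) * m) * Real.exp (-((1 - θ) * m)) = 1 := by
      rw [← Real.exp_add, add_neg_cancel, Real.exp_zero]
    calc Real.exp ((1 - θ) * m) * A ((x : ℚ) - y) * Real.exp (-((1 - θ) * m))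
        = (Real.exp ((1 - θ) * m) * Real.exp (-((1 - θ) * m))) * A ((x : ℚ) - y) := by ring
      _ = A ((x : ℚ) - y) := by rw [h10, one_mul]
  rw [h9] at h8
  exact h8

/-- the logarithm of `sim` (`f.inj`: both differences are not zero). -/
theorem UP.uu_same (h : UP f A R m θ H cl) {x y : ℤ} (hx : x ∈ S) (hy : y ∈ S) (hxa : x ≠ a)
    (hya : y ≠ a) (hne : x ≠ y) (hc : cl x = cl y) :
    (1 - θ) * m + uu A R (f.ph x) (f.ph y) ≤ uu A R x y := by
  have h1 := h.sim x hx y hy hxa hya hc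
  have h2 : 0 < A ((x : ℚ) - y) := by
    apply A.pos
    rw [sub_ne_zero]
    exact_mod_cast hne
  have h3 := Real.log_le_log (mul_pos (Real.exp_pos _) h2) h1
  rw [Real.log_mul (Real.exp_pos _).ne' h2.ne', Real.log_exp] at h3
  unfold uu
  linarith

/-- `A (x - y) ≤ 2 R`. -/
theorem UP.uu_any (h : UP f A R m θ H cl) (hH : Real.log 2 ≤ H) {x y : ℤ} (hx : x ∈ S) (hy : y ∈ S)
    (hne : x ≠ y) : -(θ * m) ≤ uu A R x y := by
  have h2 : 0 < A ((x : ℚ) - y) := by
    apply A.pos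
    rw [sub_ne_zero]
    exact_mod_cast hne
  have hR : 0 < R := lt_of_lt_of_le one_pos h.R1
  have h3 : A ((x : ℚ) - y) ≤ 2 * R := by
    have h4 := A.add_le (x : ℚ) (-(y : ℚ))
    rw [AbsoluteValue.map_neg, ← sub_eq_add_neg] at h4
    have h5 := h.bd x hx
    have h6 := h.bd y hy
    linarith
  have h7 := Real.log_le_log h2 h3
  rw [Real.log_mul (by norm_num) hR.ne'] at h7
  have h8 := h.big
  unfold uu
  linarith

end F0744U
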