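import Pool.Agent.Lib.MP_f0744f_nt.U.Defs

/-! # Row C0: real arithmetic of the classes -/

set_option autoImplicit false

namespace F0744U

/-- Real arithmetic. Model: `split_arith` in `D/C0.lean`. From `h` and `hX`: `(1 - ξ) (d / (d - 1)) Q m ≤ (1 + ξ) t ^ 2 m / (d - 1) + (d + 1) ξ t ^ 2 m`, `Q = ∑ u c ^ 2`,
so `d Q ≤ (1 + 8 d ^ 2 ξ) t ^ 2`; `∑ (u c - t / d) ^ 2 = Q - t ^ 2 / d ≤ 8 d ξ t ^ 2`, so `u c ≥ t / (d + 1)` if
`8 d ξ ≤ 1 / (d (d + 1)) ^ 2`. And (with `d Q ≥ t ^ 2`) `X c ≤ m / (d - 1) (2 ξ t ^ 2 + (1 - ξ) u c ^ 2) + d ξ t ^ 2 m`, at most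
`(1 + η1) u c ^ 2 m / (d - 1)` if `(2 + d (d - 1)) ξ (d + 1) ^ 2 ≤ η1`. -/
theorem split_arithU {d : ℕ} (hd : 2 ≤ d) {η1 : ℝ} (hη : 0 < η1) : ∃ ξ : ℝ, 0 < ξ ∧ ξ ≤ 1 / 4 ∧
    ∀ (t m : ℝ) (u X : Fin d → ℝ), 0 < t → 0 < m → (∀ c, 0 ≤ u c) → ∑ c, u c = t →
      (1 - ξ) * (∑ c, u c ^ 2) * m + ∑ c, X c - ξ * t ^ 2 * m ≤
        (1 + ξ) * t ^ 2 * (m / ((d : ℝ) - 1)) →
      (∀ c, (1 - ξ) * u c ^ 2 * (m / ((d : ℝ) - 1)) - ξ * t ^ 2 * m ≤ X c) →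
      ∀ c, t ≤ ((d : ℝ) + 1) * u c ∧ X c ≤ (1 + η1) * u c ^ 2 * (m / ((d : ℝ) - 1)) := by
  obtain ⟨D, hDe⟩ : ∃ D : ℝ, D = (d : ℝ) := ⟨_, rfl⟩
  have hD : 2 ≤ D := by rw [hDe]; exact_mod_cast hd
  rw [← hDe]
  have hD1 : 0 < D - 1 := by linarith
  have hA : 0 < 8 * D ^ 3 * (D + 1) ^ 2 := by positivity
  have hB : 0 < (2 + D * (D - 1)) * (D + 1) ^ 2 := by positivity
  refine ⟨min (1 / 4) (min (1 / (8 * D ^ 3 * (D + 1) ^ 2)) (η1 / ((2 + D * (D - 1)) * (D + 1) ^ 2))), ?_, min_le_left _ _, ?_⟩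
  · exact lt_min (by norm_num) (lt_min (div_pos one_pos hA) (div_pos hη hB))
  intro t m u X ht hm hu hut h hX
  obtain ⟨ξ, hξe⟩ : ∃ ξ : ℝ, ξ = min (1 / 4) (min (1 / (8 * D ^ 3 * (D + 1) ^ 2)) (η1 / ((2 + D * (D - 1)) * (D + 1) ^ 2))) := ⟨_, rfl⟩
  rw [← hξe] at h hX
  have hξ4 : ξ ≤ 1 / 4 := by rw [hξe]; exact min_le_left _ _
  have hξ0 : 0 < ξ := by
    rw [hξe]; exact lt_min (by norm_num) (lt_min (div_pos one_pos hA) (div_pos hη hB))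
  have hξA : ξ * (8 * D ^ 3 * (D + 1) ^ 2) ≤ 1 := by
    have : ξ ≤ 1 / (8 * D ^ 3 * (D + 1) ^ 2) := by
      rw [hξe]; exact (min_le_right _ _).trans (min_le_left _ _)
    rwa [le_div_iff₀ hA] at this
  have hξB : ξ * ((2 + D * (D - 1)) * (D + 1) ^ 2) ≤ η1 := by
    have : ξ ≤ η1 / ((2 + D * (D - 1)) * (D + 1) ^ 2) := by
      rw [hξe]; exact (min_le_right _ _).trans (min_le_right _ _)
    rwa [le_div_iff₀ hB] at this
  obtain ⟨P, hPe⟩ : ∃ P : ℝ, P = m / (D - 1) := ⟨_, rfl⟩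
  have hmP : m = P * (D - 1) := by rw [hPe]; field_simp
  have hP : 0 < P := by rw [hPe]; exact div_pos hm hD1
  rw [← hPe] at h hX ⊢
  obtain ⟨Q, hQe⟩ : ∃ Q : ℝ, Q = ∑ c, u c ^ 2 := ⟨_, rfl⟩
  rw [← hQe] at h
  have hcard : ∀ x : ℝ, ∑ _c : Fin d, x = D * x := by
    intro x
    rw [Finset.sum_const, Finset.card_univ, Fintype.card_fin, nsmul_eq_mul, hDe]
  have hsum : ∑ c, ((1 - ξ) * u c ^ 2 * P - ξ * t ^ 2 * m) = (1 - ξ) * P * Q - D * (ξ * t ^ 2 * m) := by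
    rw [Finset.sum_sub_distrib, hcard, hQe, Finset.mul_sum]
    congr 1
    exact Finset.sum_congr rfl fun c _ => by ring
  have hS1 : (1 - ξ) * P * Q - D * (ξ * t ^ 2 * m) ≤ ∑ c, X c := by
    rw [← hsum]
    exact Finset.sum_le_sum fun c _ => hX c
  have hsq : ∑ c, (D * u c - t) ^ 2 = D * (D * Q - t ^ 2) := by
    have h1 : ∀ c, (D * u c - t) ^ 2 = D ^ 2 * u c ^ 2 - 2 * D * t * u c + t ^ 2 := fun c => by ring
    simp only [h1]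
    rw [Finset.sum_add_distrib, Finset.sum_sub_distrib, hcard, ← Finset.mul_sum, ← Finset.mul_sum, hut, ← hQe]
    ring
  have hCS : t ^ 2 ≤ D * Q := by
    have h1 : 0 ≤ D * (D * Q - t ^ 2) := by
      rw [← hsq]
      exact Finset.sum_nonneg fun c _ => sq_nonneg _
    have h2 := nonneg_of_mul_nonneg_right h1 (by linarith : (0 : ℝ) < D)
    linarith
  have ht2 : 0 < t ^ 2 := by positivity
  have hQ1 : (1 - ξ) * (D * Q) ≤ t ^ 2 * (1 + D ^ 2 * ξ) := by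
    have h1 : P * ((1 - ξ) * (D * Q)) ≤ P * (t ^ 2 * (1 + D ^ 2 * ξ)) := by
      rw [hmP] at h hS1
      nlinarith [h, hS1]
    exact le_of_mul_le_mul_left h1 hP
  have hQ2 : D * Q ≤ t ^ 2 * (1 + 8 * D ^ 2 * ξ) := by
    have h1 : (1 - ξ) * (D * Q) ≤ (1 - ξ) * (t ^ 2 * (1 + 8 * D ^ 2 * ξ)) := by
      refine hQ1.trans ?_
      have h2 : 1 + D ^ 2 * ξ ≤ (1 - ξ) * (1 + 8 * D ^ 2 * ξ) := by
        have h3 : 0 ≤ ξ * (7 * D ^ 2 - 1 - 8 * D ^ 2 * ξ) := by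
          refine mul_nonneg hξ0.le ?_
          have h4 : D ^ 2 * ξ ≤ D ^ 2 * (1 / 4) := mul_le_mul_of_nonneg_left hξ4 (by positivity)
          nlinarith [hD]
        nlinarith [h3]
      calc t ^ 2 * (1 + D ^ 2 * ξ) ≤ t ^ 2 * ((1 - ξ) * (1 + 8 * D ^ 2 * ξ)) :=
            mul_le_mul_of_nonneg_left h2 ht2.le
        _ = (1 - ξ) * (t ^ 2 * (1 + 8 * D ^ 2 * ξ)) := by ring
    exact le_of_mul_le_mul_left h1 (by linarith)
  have hu1 : ∀ c, t ≤ (D + 1) * u c := by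
    intro c
    by_contra hc
    push Not at hc
    have h1 : (D * u c - t) ^ 2 ≤ D * (D * Q - t ^ 2) := by
      rw [← hsq]
      exact Finset.single_le_sum (f := fun c => (D * u c - t) ^ 2) (fun c _ => sq_nonneg _) (Finset.mem_univ c)
    have h2 : D * (D * Q - t ^ 2) ≤ D * (t ^ 2 * (8 * D ^ 2 * ξ)) :=
      mul_le_mul_of_nonneg_left (by linarith) (by linarith)
    have h3 : t < (D + 1) * (t - D * u c) := by nlinarith [hD, hc]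
    have h4 : t ^ 2 < ((D + 1) * (t - D * u c)) ^ 2 := by
      exact pow_lt_pow_left₀ h3 ht.le (by norm_num)
    have h5 : ((D + 1) * (t - D * u c)) ^ 2 ≤ t ^ 2 := by
      calc ((D + 1) * (t - D * u c)) ^ 2 = (D + 1) ^ 2 * (D * u c - t) ^ 2 := by ring
        _ ≤ (D + 1) ^ 2 * (D * (t ^ 2 * (8 * D ^ 2 * ξ))) :=
            mul_le_mul_of_nonneg_left (h1.trans h2) (by positivity)
        _ = t ^ 2 * (ξ * (8 * D ^ 3 * (D + 1) ^ 2)) := by ring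
        _ ≤ t ^ 2 * 1 := mul_le_mul_of_nonneg_left hξA ht2.le
        _ = t ^ 2 := mul_one _
    exact absurd h4 (not_lt.2 h5)
  intro c
  refine ⟨hu1 c, ?_⟩
  have hY : X c - ((1 - ξ) * u c ^ 2 * P - ξ * t ^ 2 * m) ≤
      ∑ c, X c - ((1 - ξ) * P * Q - D * (ξ * t ^ 2 * m)) := by
    rw [← hsum, ← Finset.sum_sub_distrib]
    exact Finset.single_le_sum (f := fun c => X c - ((1 - ξ) * u c ^ 2 * P - ξ * t ^ 2 * m))
      (fun c _ => sub_nonneg.2 (hX c)) (Finset.mem_univ c)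
  have hX1 : X c ≤ P * ((1 - ξ) * u c ^ 2 + (1 + ξ) * t ^ 2 - (1 - ξ) * (D * Q) + D * (D - 1) * (ξ * t ^ 2)) := by
    rw [hmP] at h hY
    nlinarith [h, hY]
  have hX2 : X c ≤ P * (u c ^ 2 + (2 + D * (D - 1)) * (ξ * t ^ 2)) := by
    refine hX1.trans (mul_le_mul_of_nonneg_left ?_ hP.le)
    have h1 : (1 - ξ) * t ^ 2 ≤ (1 - ξ) * (D * Q) := mul_le_mul_of_nonneg_left hCS (by linarith)
    have h2 : 0 ≤ ξ * u c ^ 2 := by positivity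
    nlinarith [h1, h2]
  have ht3 : t ^ 2 ≤ (D + 1) ^ 2 * u c ^ 2 := by
    have := pow_le_pow_left₀ ht.le (hu1 c) 2
    rwa [mul_pow] at this
  have hfin : (2 + D * (D - 1)) * (ξ * t ^ 2) ≤ η1 * u c ^ 2 := by
    calc (2 + D * (D - 1)) * (ξ * t ^ 2) = (2 + D * (D - 1)) * ξ * t ^ 2 := by ring
      _ ≤ (2 + D * (D - 1)) * ξ * ((D + 1) ^ 2 * u c ^ 2) :=
          mul_le_mul_of_nonneg_left ht3 (by positivity)
      _ = ξ * ((2 + D * (D - 1)) * (D + 1) ^ 2) * u c ^ 2 := by ring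
      _ ≤ η1 * u c ^ 2 := mul_le_mul_of_nonneg_right hξB (sq_nonneg _)
  calc X c ≤ P * (u c ^ 2 + (2 + D * (D - 1)) * (ξ * t ^ 2)) := hX2
    _ ≤ P * (u c ^ 2 + η1 * u c ^ 2) := mul_le_mul_of_nonneg_left (by linarith) hP.le
    _ = (1 + η1) * u c ^ 2 * P := by ring

end F0744U
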