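import Pool.Agent.Lib.MP_f0744f_nt.C.A7
import Pool.Agent.Lib.MP_f0744f_nt.C.A8
import Pool.Agent.Lib.MP_f0744f_nt.U.B0
import Pool.Agent.Lib.MP_f0744f_nt.U.C0

/-! # Row C1: a set of small energy is distributed among all classes -/

set_option autoImplicit false

open Polynomial

namespace F0744U

open F0744C F0744D

variable {S : Finset ℤ} {a b : ℤ} {d e : ℕ}

/-- The lower bound of the energy of the image of a subset. Model: `C1_low` in `D/C1.lean` (`d = 2`): `exists_far`, `en_ge`, `wd_sum`; the points `f.ph x`, `x ∈ U`, are in `Dm J`. -/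
theorem UP.low {f : PM S a d} {A : AbsoluteValue ℚ ℝ} {R m θ H ξ : ℝ} {cl : ℤ → Fin d}
    (h : UP f A R m θ H cl) (hd : 2 ≤ d) {T U : Finset ℤ} {J : ℕ} (hUT : U ⊆ T)
    (hT : T ⊆ Dm S a f.ph (J + 1)) (hJ : 1 / (d : ℝ) ^ J ≤ ξ) (hm1 : 1 ≤ m)
    (ht : (4 * (J : ℝ) + 1) + 2 * Real.log T.card ≤ ξ * T.card) :
    (1 - ξ) * (U.card : ℝ) ^ 2 * (m / ((d : ℝ) - 1)) - ξ * (T.card : ℝ) ^ 2 * m ≤
      En A R (U.image f.ph) := by
  have hU : ∀ x ∈ U, x ∈ S ∧ x ≠ a ∧ f.ph x ∈ Dm S a f.ph J := fun x hx => Dm_succ (hT (hUT hx))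
  have hcard : (U.image f.ph).card = U.card :=
    Finset.card_image_of_injOn (fun x hx y hy hxy =>
      f.inj x (hU x hx).1 y (hU y hy).1 (hU x hx).2.1 (hU y hy).2.1 hxy)
  have hsub : U.image f.ph ⊆ Dm S a f.ph J := by
    intro y hy
    obtain ⟨x, hx, rfl⟩ := Finset.mem_image.1 hy
    exact (hU x hx).2.2
  have h1 := En_ge f hd A h.R1 h.bd J hsub (by rw [h.meq]; exact h.m0.le)
  rw [hcard, h.meq] at h1
  have hd2 : (2 : ℝ) ≤ d := by exact_mod_cast hd
  have hd1 : (0 : ℝ) < (d : ℝ) - 1 := by linarith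
  have hm0 := h.m0
  have hq0 : 0 ≤ m / ((d : ℝ) - 1) := by positivity
  have e1 : m * ((1 - 1 / (d : ℝ) ^ J) / ((d : ℝ) - 1) * (U.card : ℝ) ^ 2 - (4 * J + 1) * U.card) =
      (U.card : ℝ) ^ 2 * (m / ((d : ℝ) - 1)) -
        (1 / (d : ℝ) ^ J) * ((U.card : ℝ) ^ 2 * (m / ((d : ℝ) - 1))) -
        (4 * (J : ℝ) + 1) * U.card * m := by
    ring
  rw [e1] at h1
  have hle : (U.card : ℝ) ≤ T.card := by exact_mod_cast Finset.card_le_card hUT
  have hU0 : (0 : ℝ) ≤ U.card := Nat.cast_nonneg _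
  have hT0 : (0 : ℝ) ≤ T.card := Nat.cast_nonneg _
  have hlogT : 0 ≤ Real.log T.card := Real.log_natCast_nonneg _
  have hlog : (U.card : ℝ) * Real.log U.card ≤ T.card * Real.log T.card := by
    rcases Nat.eq_zero_or_pos U.card with h0 | h0
    · rw [h0]
      simp only [Nat.cast_zero, zero_mul]
      positivity
    · exact mul_le_mul hle (Real.log_le_log (by exact_mod_cast h0) hle)
        (Real.log_natCast_nonneg _) hT0
  have h2 : (1 / (d : ℝ) ^ J) * ((U.card : ℝ) ^ 2 * (m / ((d : ℝ) - 1))) ≤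
      ξ * ((U.card : ℝ) ^ 2 * (m / ((d : ℝ) - 1))) :=
    mul_le_mul_of_nonneg_right hJ (mul_nonneg (sq_nonneg _) hq0)
  have h3 : (4 * (J : ℝ) + 1) * U.card * m ≤ (4 * (J : ℝ) + 1) * T.card * m := by
    gcongr
  have h4 : (T.card : ℝ) * Real.log T.card ≤ T.card * Real.log T.card * m :=
    le_mul_of_one_le_right (by positivity) hm1
  have h5 : ((4 * (J : ℝ) + 1) + 2 * Real.log T.card) * (T.card * m) ≤
      (ξ * T.card) * (T.card * m) :=
    mul_le_mul_of_nonneg_right ht (by positivity)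
  linarith

end F0744U
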