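import Pool.Agent.Lib.MP_f0744f_nt.U.C1_1
import Pool.Agent.Lib.MP_f0744f_nt.U.C1_2

/-! # Row C1: a set of small energy is distributed among all classes -/
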