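import Pool.Agent.Lib.MP_f0744f_nt.C.A7
import Pool.Agent.Lib.MP_f0744f_nt.C.A8
import Pool.Agent.Lib.MP_f0744f_nt.U.B0
import Pool.Agent.Lib.MP_f0744f_nt.U.C0

/-! # Row C1: a set of small energy is distributed among all classes -/

set_option autoImplicit false

open Polynomial

namespace F0744U

open F0744C F0744D

variable {S : Finset ℤ} {a b : ℤ} {d e : ℕ}

/-- the energy of an image under an injective map -/
theorem C1_1_image (A : AbsoluteValue ℚ ℝ) (R : ℝ) (T : Finset ℤ) (ph : ℤ → ℤ)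
    (hinj : ∀ x ∈ T, ∀ y ∈ T, ph x = ph y → x = y) :
    En A R (T.image ph) = ∑ x ∈ T, ∑ y ∈ T.erase x, uu A R (ph x) (ph y) := by
  unfold En
  rw [Finset.sum_image (fun x hx y hy h => hinj x hx y hy h)]
  refine Finset.sum_congr rfl ?_
  intro x hx
  have h1 : (T.image ph).erase (ph x) = (T.erase x).image ph := by
    ext z
    simp only [Finset.mem_erase, Finset.mem_image]
    constructor
    · rintro ⟨hz, y, hy, rfl⟩
      exact ⟨y, ⟨fun h => hz (by rw [h]), hy⟩, rfl⟩
    · rintro ⟨y, ⟨hyx, hy⟩, rfl⟩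
      exact ⟨fun h => hyx (hinj y hy x hx h), y, hy, rfl⟩
  rw [h1, Finset.sum_image]
  intro y hy z hz h
  exact hinj y (Finset.mem_of_mem_erase hy) z (Finset.mem_of_mem_erase hz) h

/-- one class -/
theorem C1_1_class {f : PM S a d} {A : AbsoluteValue ℚ ℝ} {R m θ H : ℝ} {cl : ℤ → Fin d}
    (h : UP f A R m θ H cl) (hH : Real.log 2 ≤ H) {T : Finset ℤ} (hT : ∀ x ∈ T, x ∈ S ∧ x ≠ a)
    (c : Fin d) :
    ((T.filter (fun x => cl x = c)).card : ℝ) * (((T.filter (fun x => cl x = c)).card : ℝ) - 1) *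
        ((1 - θ) * m) + En A R ((T.filter (fun x => cl x = c)).image f.ph) -
      ((T.filter (fun x => cl x = c)).card : ℝ) * (T.card : ℝ) * (θ * m) ≤
    ∑ x ∈ T.filter (fun x => cl x = c), ∑ y ∈ T.erase x, uu A R x y := by
  have hθm : 0 ≤ θ * m := (Real.log_nonneg (by norm_num : (1 : ℝ) ≤ 2)).trans (hH.trans h.big)
  set U := T.filter (fun x => cl x = c) with hU
  have hUm : ∀ x ∈ U, x ∈ T ∧ cl x = c := fun x hx => Finset.mem_filter.1 hx
  rw [C1_1_image A R U f.ph (fun x hx y hy hxy => f.inj x (hT x (hUm x hx).1).1 y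
    (hT y (hUm y hy).1).1 (hT x (hUm x hx).1).2 (hT y (hUm y hy).1).2 hxy)]
  have hpt : ∀ x ∈ U, ((U.card : ℝ) - 1) * ((1 - θ) * m) +
      ∑ y ∈ U.erase x, uu A R (f.ph x) (f.ph y) - (T.card : ℝ) * (θ * m) ≤
      ∑ y ∈ T.erase x, uu A R x y := by
    intro x hx
    have hsub : U.erase x ⊆ T.erase x := Finset.erase_subset_erase x (Finset.filter_subset _ _)
    rw [← Finset.sum_sdiff hsub]
    have h1 : ((U.card : ℝ) - 1) * ((1 - θ) * m) + ∑ y ∈ U.erase x, uu A R (f.ph x) (f.ph y) ≤
        ∑ y ∈ U.erase x, uu A R x y := by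
      have h2 : ((U.card : ℝ) - 1) * ((1 - θ) * m) = ∑ _y ∈ U.erase x, (1 - θ) * m := by
        rw [Finset.sum_const, Finset.card_erase_of_mem hx, nsmul_eq_mul,
          Nat.cast_sub (Finset.card_pos.2 ⟨x, hx⟩)]
        simp
      rw [h2, ← Finset.sum_add_distrib]
      refine Finset.sum_le_sum ?_
      intro y hy
      have hyU := Finset.mem_of_mem_erase hy
      exact h.uu_same (hT x (hUm x hx).1).1 (hT y (hUm y hyU).1).1 (hT x (hUm x hx).1).2
        (hT y (hUm y hyU).1).2 (Finset.ne_of_mem_erase hy).symm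
        ((hUm x hx).2.trans (hUm y hyU).2.symm)
    have h3 : -((T.card : ℝ) * (θ * m)) ≤ ∑ y ∈ (T.erase x) \ (U.erase x), uu A R x y := by
      have h4 : -((((T.erase x) \ (U.erase x)).card : ℝ) * (θ * m)) =
          ∑ _y ∈ (T.erase x) \ (U.erase x), -(θ * m) := by
        rw [Finset.sum_const, nsmul_eq_mul]
        ring
      have h5 : (((T.erase x) \ (U.erase x)).card : ℝ) ≤ T.card := by
        exact_mod_cast Finset.card_le_card
          (Finset.sdiff_subset.trans (Finset.erase_subset x T))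
      have h6 : (((T.erase x) \ (U.erase x)).card : ℝ) * (θ * m) ≤ T.card * (θ * m) :=
        mul_le_mul_of_nonneg_right h5 hθm
      have h7 : -((((T.erase x) \ (U.erase x)).card : ℝ) * (θ * m)) ≤
          ∑ y ∈ (T.erase x) \ (U.erase x), uu A R x y := by
        rw [h4]
        refine Finset.sum_le_sum ?_
        intro y hy
        have hy' := Finset.mem_sdiff.1 hy
        exact h.uu_any hH (hT x (hUm x hx).1).1 (hT y (Finset.mem_of_mem_erase hy'.1)).1
          (Finset.ne_of_mem_erase hy'.1).symm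
      linarith
    linarith
  have hsum := Finset.sum_le_sum hpt
  refine le_trans (le_of_eq ?_) hsum
  rw [Finset.sum_sub_distrib, Finset.sum_add_distrib, Finset.sum_const, Finset.sum_const,
    nsmul_eq_mul, nsmul_eq_mul]
  ring

/-- `En T` is the sum over the classes (`uu_same`; `f.ph` is injective on a class: `C1_image` in `D/C1.lean` gives the energy of the image) and over the pairs of
different classes (`uu_any`, at most `t ^ 2` ordered pairs). Model: `C1_class`, `C1_both` in `D/C1.lean`. -/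
theorem UP.energy {f : PM S a d} {A : AbsoluteValue ℚ ℝ} {R m θ H : ℝ} {cl : ℤ → Fin d}
    (h : UP f A R m θ H cl) (hH : Real.log 2 ≤ H) {T : Finset ℤ} (hT : ∀ x ∈ T, x ∈ S ∧ x ≠ a) :
    ∑ c, (((T.filter (fun x => cl x = c)).card : ℝ) * (((T.filter (fun x => cl x = c)).card : ℝ) - 1) *
        ((1 - θ) * m) + En A R ((T.filter (fun x => cl x = c)).image f.ph)) -
      (T.card : ℝ) ^ 2 * (θ * m) ≤ En A R T := by
  have h1 := Finset.sum_le_sum (s := Finset.univ) (fun c _ => C1_1_class h hH hT c)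
  have h2 : ∑ c : Fin d, ∑ x ∈ T.filter (fun x => cl x = c), ∑ y ∈ T.erase x, uu A R x y =
      En A R T := by
    unfold En
    exact Finset.sum_fiberwise T cl (fun x => ∑ y ∈ T.erase x, uu A R x y)
  have h3 : ∑ c : Fin d, ((T.filter (fun x => cl x = c)).card : ℝ) = T.card := by
    have h4 := Finset.card_eq_sum_card_fiberwise (s := T) (t := Finset.univ) (f := cl)
      (fun x _ => Finset.mem_coe.2 (Finset.mem_univ _))
    rw [h4]
    push_cast
    rfl
  rw [h2, Finset.sum_sub_distrib] at h1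
  have h5 : ∑ c : Fin d, ((T.filter (fun x => cl x = c)).card : ℝ) * (T.card : ℝ) * (θ * m) =
      (T.card : ℝ) ^ 2 * (θ * m) := by
    rw [← Finset.sum_mul, ← Finset.sum_mul, h3]
    ring
  rw [h5] at h1
  exact h1

end F0744U
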