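import Pool.Agent.Lib.MP_f0744f_nt.U.C1
import Pool.Agent.Lib.MP_f0744f_nt.D.C1

/-! # Row C2: splitting -/

set_option autoImplicit false

open Polynomial

namespace F0744U

open F0744C F0744D

variable {S : Finset ℤ} {a b : ℤ} {d e : ℕ}

/-- the cardinalities of the classes add up -/
theorem C2_card (T : Finset ℤ) (cl : ℤ → Fin d) :
    ∑ c, ((T.filter (fun x => cl x = c)).card : ℝ) = T.card := by
  have h := Finset.card_eq_sum_card_fiberwise (f := cl) (s := T) (t := Finset.univ)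
    (fun x _ => Finset.mem_coe.2 (Finset.mem_univ (cl x)))
  rw [h]
  push_cast
  rfl

/-- the energy inequality, as `split_arithU` wants it -/
theorem C2_key {ξ θ m t En0 M : ℝ} (u X : Fin d → ℝ) (hθ0 : 0 ≤ θ) (hθ : θ ≤ ξ / 2)
    (hm : 0 < m) (ht : 0 < t) (ht1 : 1 ≤ ξ / 4 * t) (hsum : ∑ c, u c = t)
    (hE : ∑ c, (u c * (u c - 1) * ((1 - θ) * m) + X c) - t ^ 2 * (θ * m) ≤ En0)
    (hE0 : En0 ≤ M) :
    (1 - ξ) * (∑ c, u c ^ 2) * m + ∑ c, X c - ξ * t ^ 2 * m ≤ M := by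
  have hQ0 : 0 ≤ ∑ c, u c ^ 2 := Finset.sum_nonneg (fun c _ => sq_nonneg (u c))
  have e1 : ∑ c, (u c * (u c - 1) * ((1 - θ) * m) + X c) =
      (∑ c, u c ^ 2 - t) * ((1 - θ) * m) + ∑ c, X c := by
    rw [Finset.sum_add_distrib, ← Finset.sum_mul, ← hsum, ← Finset.sum_sub_distrib]
    congr 2
    refine Finset.sum_congr rfl (fun c _ => ?_)
    ring
  rw [e1] at hE
  have k1 : t * m ≤ ξ / 4 * t * (t * m) := le_mul_of_one_le_left (by positivity) ht1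
  have k2 : θ * (t ^ 2 * m) ≤ ξ / 2 * (t ^ 2 * m) :=
    mul_le_mul_of_nonneg_right hθ (by positivity)
  have hξ0 : 0 ≤ ξ := by linarith
  have k3 : 0 ≤ (ξ - θ) * ((∑ c, u c ^ 2) * m) :=
    mul_nonneg (by linarith) (mul_nonneg hQ0 hm.le)
  have k4 : 0 ≤ θ * (t * m) := by positivity
  have k5 : 0 ≤ ξ * (t ^ 2 * m) := by positivity
  nlinarith [k1, k2, k3, k4, k5, hE, hE0]

/-- Model: `split` in `D/C1.lean`. `ξ` from `split_arithU`, `J0` with `d ^ (- J0) ≤ ξ`, `θ0 = ξ / 2`, `η0 = ξ`, `H0 = max 1 (log 2)` (so `m ≥ H0 / θ ≥ 1`), and `t0` such that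
`(4 J0 + 1) + 2 log t ≤ (ξ / 4) t` and `1 ≤ (ξ / 4) t` for `t ≥ t0` (`C1_t0` in `D/C1.lean`). Apply `split_arithU` with `u c` the cardinality of the part `c` and `X c = En (image of the part c)` (`UP.energy`, `UP.low`). -/
theorem splitU (hd : 2 ≤ d) {η1 : ℝ} (hη : 0 < η1) : ∃ (η0 θ0 H0 : ℝ) (J0 t0 : ℕ), 0 < η0 ∧ 0 < θ0 ∧
    ∀ (S : Finset ℤ) (a : ℤ) (f : PM S a d) (A : AbsoluteValue ℚ ℝ) (R m θ H : ℝ) (cl : ℤ → Fin d),
      UP f A R m θ H cl → θ ≤ θ0 → H0 ≤ H → ∀ T ⊆ Dm S a f.ph (J0 + 1), t0 ≤ T.card →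
      En A R T ≤ (1 + η0) * (T.card : ℝ) ^ 2 * (m / ((d : ℝ) - 1)) → ∀ c : Fin d,
        T.card ≤ (d + 1) * (T.filter (fun x => cl x = c)).card ∧
        En A R ((T.filter (fun x => cl x = c)).image f.ph) ≤
          (1 + η1) * ((T.filter (fun x => cl x = c)).card : ℝ) ^ 2 * (m / ((d : ℝ) - 1)) := by
  obtain ⟨ξ, hξ0, hξ4, harith⟩ := split_arithU hd hη
  have hd2 : (2 : ℝ) ≤ d := by exact_mod_cast hd
  have hd1 : (1 / (d : ℝ)) < 1 := by
    rw [div_lt_one (by linarith)]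
    linarith
  obtain ⟨J, hJ⟩ := exists_pow_lt_of_lt_one hξ0 hd1
  have hJ' : 1 / (d : ℝ) ^ J ≤ ξ := by
    rw [one_div_pow] at hJ
    exact hJ.le
  have hξ' : 0 < ξ / 4 := by positivity
  obtain ⟨t0, ht01, ht0⟩ := C1_t0 hξ' J
  refine ⟨ξ, ξ / 2, 1, J, t0, hξ0, by positivity, ?_⟩
  intro S a f A R m θ H cl h hθ hH T hT hcard hEn
  obtain ⟨hc1, hc2⟩ := ht0 T.card hcard
  have hm0 := h.m0
  have hTt : (0 : ℝ) < T.card := by
    have : 0 < T.card := by omega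
    exact_mod_cast this
  have hbig := h.big
  have hlog2 : Real.log 2 ≤ H := by
    have := Real.log_two_lt_d9
    linarith
  have hm1 : 1 ≤ m := by
    have h5 : θ * m ≤ ξ / 2 * m := mul_le_mul_of_nonneg_right hθ hm0.le
    have h6 : ξ / 2 * m ≤ 1 / 8 * m := mul_le_mul_of_nonneg_right (by linarith) hm0.le
    linarith
  have hθ0 : 0 ≤ θ := by
    by_contra hcon
    have h8 : θ * m < 0 := mul_neg_of_neg_of_pos (not_le.1 hcon) hm0
    linarith
  have hTm : ∀ x ∈ T, x ∈ S ∧ x ≠ a := fun x hx =>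
    ⟨(Dm_succ (hT hx)).1, (Dm_succ (hT hx)).2.1⟩
  have hc1' : (4 * (J : ℝ) + 1) + 2 * Real.log T.card ≤ ξ * T.card := by
    have : 0 ≤ ξ * T.card := by positivity
    linarith
  have hlow : ∀ c : Fin d, (1 - ξ) * ((T.filter (fun x => cl x = c)).card : ℝ) ^ 2 *
      (m / ((d : ℝ) - 1)) - ξ * (T.card : ℝ) ^ 2 * m ≤
      En A R ((T.filter (fun x => cl x = c)).image f.ph) := fun c =>
    h.low hd (Finset.filter_subset (fun x => cl x = c) T) hT hJ' hm1 hc1'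
  have hkey := C2_key (fun c => ((T.filter (fun x => cl x = c)).card : ℝ))
    (fun c => En A R ((T.filter (fun x => cl x = c)).image f.ph)) hθ0 hθ hm0 hTt hc2
    (C2_card T cl) (h.energy hlog2 hTm) hEn
  intro c
  obtain ⟨r1, r2⟩ := harith T.card m (fun c => ((T.filter (fun x => cl x = c)).card : ℝ))
    (fun c => En A R ((T.filter (fun x => cl x = c)).image f.ph)) hTt hm0
    (fun c => Nat.cast_nonneg _) (C2_card T cl) hkey hlow c
  exact ⟨by exact_mod_cast r1, r2⟩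

end F0744U
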