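import Pool.Agent.Lib.MP_f0744f_nt.U.C2

/-! # Row C3: every itinerary occurs -/

set_option autoImplicit false

open Polynomial

namespace F0744U

open F0744C F0744D

variable {S : Finset ℤ} {a b : ℤ} {d e : ℕ}

/-- Induction on `K`. Model: `itin` in `D/C2.lean`. `K = 0`: `T` is not empty if `t0 = 1`. Step: the constants `(η, θ, H, J, t)` for `K` and `(η', θ', H', J', t')` those of `splitU` for `η1 = η`; take
`η0 = η'`, `θ0 = min θ θ'`, `H0 = max H H'`, `J0 = max J J'`, `t0 = max t' ((d + 1) t)`. Given `ω`, the set `V = ph ({x ∈ T | cl x = ω 0})` has `V.card ≥ T.card / (d + 1) ≥ t` (`f.inj`),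
`V ⊆ Dm (J0 + K)` (`Dm_succ`, `Dm_mono`) and small energy; the point `y ∈ V` with the itinerary `fun i => ω (i + 1)` is `y = ph x`. -/
theorem itinU (hd : 2 ≤ d) (K : ℕ) : ∃ (η0 θ0 H0 : ℝ) (J0 t0 : ℕ), 0 < η0 ∧ 0 < θ0 ∧
    ∀ (S : Finset ℤ) (a : ℤ) (f : PM S a d) (A : AbsoluteValue ℚ ℝ) (R m θ H : ℝ) (cl : ℤ → Fin d),
      UP f A R m θ H cl → θ ≤ θ0 → H0 ≤ H → ∀ T ⊆ Dm S a f.ph (J0 + K), t0 ≤ T.card →
      En A R T ≤ (1 + η0) * (T.card : ℝ) ^ 2 * (m / ((d : ℝ) - 1)) → FullU f.ph cl K T := by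
  induction K with
  | zero =>
    refine ⟨1, 1, 0, 0, 1, one_pos, one_pos, ?_⟩
    intro S a f A R m θ H cl _ _ _ T _ hcard _ ω
    obtain ⟨x, hx⟩ := Finset.card_pos.1 (show 0 < T.card by omega)
    exact ⟨x, hx, fun i hi => absurd hi (Nat.not_lt_zero i)⟩
  | succ K ih =>
    obtain ⟨η, θK, HK, J, t, hη, hθK, h⟩ := ih
    obtain ⟨η', θ', H', J', t', hη', hθ', h'⟩ := splitU hd hη
    refine ⟨η', min θK θ', max HK H', max J J', max t' ((d + 1) * t), hη', lt_min hθK hθ', ?_⟩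
    intro S a f A R m θ H cl hUP hθ hH T hT hcard hEn ω
    have hT1 : T ⊆ Dm S a f.ph (J' + 1) :=
      hT.trans (Dm_mono S a f.ph (by have := le_max_right J J'; omega))
    have hmem : ∀ x ∈ T, x ∈ S ∧ x ≠ a ∧ f.ph x ∈ Dm S a f.ph (max J J' + K) := by
      intro x hx
      have h1 := hT hx
      rw [← Nat.add_assoc] at h1
      exact Dm_succ h1
    obtain ⟨hc1, hc2⟩ := h' S a f A R m θ H cl hUP (hθ.trans (min_le_right _ _))
      ((le_max_right _ _).trans hH) T hT1 ((le_max_left _ _).trans hcard) hEn (ω 0)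
    set Tc := T.filter (fun x => cl x = ω 0) with hTc
    have hTcT : ∀ x ∈ Tc, x ∈ T := fun x hx => (Finset.mem_filter.1 hx).1
    have hVcard : (Tc.image f.ph).card = Tc.card := by
      refine Finset.card_image_of_injOn ?_
      intro x hx y hy hxy
      have hx' := hmem x (hTcT x hx)
      have hy' := hmem y (hTcT y hy)
      exact f.inj x hx'.1 y hy'.1 hx'.2.1 hy'.2.1 hxy
    have hVsub : Tc.image f.ph ⊆ Dm S a f.ph (J + K) := by
      intro y hy
      obtain ⟨x, hx, rfl⟩ := Finset.mem_image.1 hy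
      have h1 := (hmem x (hTcT x hx)).2.2
      exact Dm_mono S a f.ph (by have := le_max_left J J'; omega) h1
    have ht : t ≤ (Tc.image f.ph).card := by
      rw [hVcard]
      have h1 : (d + 1) * t ≤ (d + 1) * Tc.card := ((le_max_right _ _).trans hcard).trans hc1
      exact Nat.le_of_mul_le_mul_left h1 (Nat.succ_pos d)
    have hEV : En A R (Tc.image f.ph) ≤
        (1 + η) * (((Tc.image f.ph).card : ℕ) : ℝ) ^ 2 * (m / ((d : ℝ) - 1)) := by
      rw [hVcard]
      exact hc2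
    obtain ⟨y, hy, hyi⟩ := h S a f A R m θ H cl hUP (hθ.trans (min_le_left _ _))
      ((le_max_left _ _).trans hH) (Tc.image f.ph) hVsub ht hEV (fun i => ω (i + 1))
    obtain ⟨x, hx, rfl⟩ := Finset.mem_image.1 hy
    refine ⟨x, hTcT x hx, ?_⟩
    intro i hi
    rcases i with _ | i
    · exact (Finset.mem_filter.1 hx).2
    · rw [Function.iterate_succ_apply]
      exact hyi i (by omega)

end F0744U
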