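import Pool.Agent.Lib.MP_f0744f_nt.D.X1
import Pool.Agent.Lib.MP_f0744f_nt.D.N1a

/-! # MP_f0744f_nt, unicritical polynomials of degree `d`: definitions -/

set_option autoImplicit false

open Polynomial

namespace F0744U

open F0744C F0744D

variable {S : Finset ℤ} {a b : ℤ} {d e : ℕ}

/-- `F = α (X - γ) ^ d + β`, `α ≠ 0` -/
def Uni (F : ℚ[X]) (d : ℕ) : Prop := ∃ α γ β : ℚ, α ≠ 0 ∧ F = C α * (X - C γ) ^ d + C β

/-- the sum of the roots of a polynomial of degree `d` -/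
noncomputable def sF (F : ℚ[X]) (d : ℕ) : ℚ := - F.coeff (d - 1) / F.leadingCoeff

/-- the sum of the digits of `n < d ^ J` in base `d` -/
def sd (d : ℕ) : ℕ → ℕ → ℕ
  | 0, n => n
  | J + 1, n => n % d + sd d J (n / d)

/-- the product of the `z i` to the digits of `n` in base `d` -/
def gd (d : ℕ) : ℕ → ℕ → (ℕ → ℚ) → ℚ
  | 0, _, _ => 1
  | J + 1, n, z => z 0 ^ (n % d) * gd d J (n / d) (fun i => z (i + 1))

/-- A good place for the map `f` of degree `d`: `A` an absolute value, all elements of `S` have size at most `R`,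
`m = mm A R d f.F`, `H` a lower bound for `θ m` (it absorbs constants). The elements of `S \ {a}` form at most `d` classes `cl`: `f` expands
the distance of two elements of the same class by the factor `exp ((1 - θ) m)`, elements of different classes have the distance `R`, up to
`exp (θ m)`. -/
structure UP (f : PM S a d) (A : AbsoluteValue ℚ ℝ) (R m θ H : ℝ) (cl : ℤ → Fin d) : Prop where
  R1 : 1 ≤ R
  m0 : 0 < m
  big : H ≤ θ * m
  ad : Real.exp (-(θ * m)) ≤ A d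
  meq : mm A R d f.F = m
  bd : ∀ x ∈ S, A ((x : ℤ) : ℚ) ≤ R
  sim : ∀ x ∈ S, ∀ y ∈ S, x ≠ a → y ≠ a → cl x = cl y →
    Real.exp ((1 - θ) * m) * A ((x : ℚ) - y) ≤ A (((f.ph x : ℤ) : ℚ) - (f.ph y : ℤ))
  sep : ∀ x ∈ S, ∀ y ∈ S, x ≠ a → y ≠ a → cl x ≠ cl y →
    R * Real.exp (-(θ * m)) ≤ A ((x : ℚ) - y)

/-- every itinerary of length `K` occurs in `T` -/
def FullU (ph : ℤ → ℤ) (cl : ℤ → Fin d) (K : ℕ) (T : Finset ℤ) : Prop :=
  ∀ ω : ℕ → Fin d, ∃ x ∈ T, ∀ i < K, cl (ph^[i] x) = ω i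

end F0744U
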