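import Pool.Agent.Lib.MP_f0744f_nt.U.Defs

/-! # Row E1a: interpolation in one digit -/

set_option autoImplicit false

open Polynomial

namespace F0744U

theorem E1a_coeff {ι : Type*} [DecidableEq ι] (A : AbsoluteValue ℚ ℝ) {R : ℝ} (hR : 1 ≤ R) (z : ι → ℚ)
    (h0 : ∀ c, A (z c) ≤ R) (s : Finset ι) :
    ∀ i : ℕ, A ((∏ c ∈ s, (X - C (z c)) : ℚ[X]).coeff i) * R ^ i ≤ (2 * R) ^ s.card := by
  induction s using Finset.induction_on with
  | empty =>
    intro i
    rw [Finset.prod_empty, Finset.card_empty, pow_zero, Polynomial.coeff_one]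
    split
    · rename_i h
      rw [h]
      simp
    · simp
  | insert a s ha ih =>
    intro i
    rw [Finset.prod_insert ha, Finset.card_insert_of_notMem ha, sub_mul, coeff_sub, coeff_C_mul]
    have hR0 : 0 ≤ R := by linarith
    have h1 : A ((X * ∏ c ∈ s, (X - C (z c)) : ℚ[X]).coeff i) * R ^ i ≤ R * (2 * R) ^ s.card := by
      cases i with
      | zero =>
        simp only [mul_coeff_zero, coeff_X_zero, zero_mul, map_zero]
        positivity
      | succ i =>
        rw [coeff_X_mul, pow_succ]
        have := mul_le_mul_of_nonneg_left (ih i) hR0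
        linarith
    have h2 : A (z a * (∏ c ∈ s, (X - C (z c)) : ℚ[X]).coeff i) * R ^ i ≤ R * (2 * R) ^ s.card := by
      rw [map_mul, mul_assoc]
      exact mul_le_mul (h0 a) (ih i) (by positivity) hR0
    have h3 := A.sub_le_add ((X * ∏ c ∈ s, (X - C (z c)) : ℚ[X]).coeff i)
      (z a * (∏ c ∈ s, (X - C (z c)) : ℚ[X]).coeff i)
    calc A ((X * ∏ c ∈ s, (X - C (z c)) : ℚ[X]).coeff i
          - z a * (∏ c ∈ s, (X - C (z c)) : ℚ[X]).coeff i) * R ^ i
        ≤ (A ((X * ∏ c ∈ s, (X - C (z c)) : ℚ[X]).coeff i)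
          + A (z a * (∏ c ∈ s, (X - C (z c)) : ℚ[X]).coeff i)) * R ^ i :=
          mul_le_mul_of_nonneg_right h3 (by positivity)
      _ ≤ (2 * R) ^ (s.card + 1) := by
          rw [add_mul, pow_succ]
          linarith

/-- Lagrange interpolation at the `d` different points `z c`: `P = ∑_{i < d} p i X ^ i = ∑_c P (z c) ∏_{c' ≠ c} (X - z c') / (z c - z c')`
(`Lagrange.eq_interpolate` or `Lagrange.sum_basis`-like). The coefficient of `X ^ i` of `∏_{c' ≠ c} (X - z c')` has size at most `2 ^ (d - 1) R ^ (d - 1 - i)` (induction on the set of factors: a product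
of `k` factors `X - z` with `A z ≤ R` has coefficients of size at most `2 ^ k R ^ (k - i)`), the denominator at least `(R / κ) ^ (d - 1)`. -/
theorem vand {d : ℕ} (hd : 1 ≤ d) (A : AbsoluteValue ℚ ℝ) {R κ : ℝ} (hR : 1 ≤ R) (hκ : 1 ≤ κ) {z : Fin d → ℚ}
    (h0 : ∀ c, A (z c) ≤ R) (h : ∀ c c', c ≠ c' → R ≤ κ * A (z c - z c')) (p : ℕ → ℚ) {M : ℝ}
    (hM0 : 0 ≤ M) (hM : ∀ c, A (∑ i ∈ Finset.range d, p i * z c ^ i) ≤ M) :
    ∀ i < d, A (p i) * R ^ i ≤ d * 2 ^ d * κ ^ d * M := by
  classical
  intro i hi
  have hR0 : 0 < R := by linarith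
  have hκ0 : 0 < κ := by linarith
  set P : ℚ[X] := ∑ j ∈ Finset.range d, C (p j) * X ^ j with hP
  have hcoef : P.coeff i = p i := by
    rw [hP, finset_sum_coeff]
    simp only [coeff_C_mul, coeff_X_pow]
    rw [Finset.sum_eq_single i]
    · simp
    · intro b _ hb
      rw [if_neg (Ne.symm hb), mul_zero]
    · intro hh
      exact absurd (Finset.mem_range.2 hi) hh
  have hdeg : P.degree < (Finset.univ : Finset (Fin d)).card := by
    rw [Finset.card_univ, Fintype.card_fin, hP]
    refine (degree_sum_le _ _).trans_lt ?_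
    rw [Finset.sup_lt_iff]
    · intro j hj
      refine (degree_C_mul_X_pow_le _ _).trans_lt ?_
      exact_mod_cast Finset.mem_range.1 hj
    · exact WithBot.bot_lt_coe d
  have heval : ∀ c, P.eval (z c) = ∑ j ∈ Finset.range d, p j * z c ^ j := by
    intro c
    rw [hP, eval_finset_sum]
    simp
  have hinj : Set.InjOn z ((Finset.univ : Finset (Fin d)) : Set (Fin d)) := by
    intro a _ b _ hab
    by_contra hne
    have h1 := h a b hne
    rw [hab, sub_self, map_zero, mul_zero] at h1
    linarith
  have hL := Lagrange.eq_interpolate hinj hdeg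
  rw [Lagrange.interpolate_apply] at hL
  have hb : ∀ c : Fin d, A ((Lagrange.basis Finset.univ z c).coeff i) * R ^ i ≤ (2 * κ) ^ (d - 1) := by
    intro c
    have h1 : Lagrange.basis Finset.univ z c =
        C (∏ j ∈ Finset.univ.erase c, (z c - z j)⁻¹) * ∏ j ∈ Finset.univ.erase c, (X - C (z j)) := by
      unfold Lagrange.basis Lagrange.basisDivisor
      rw [Finset.prod_mul_distrib, map_prod]
    have hcard : ((Finset.univ : Finset (Fin d)).erase c).card = d - 1 := by
      rw [Finset.card_erase_of_mem (Finset.mem_univ c), Finset.card_univ, Fintype.card_fin]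
    have h2 := E1a_coeff A hR z h0 (Finset.univ.erase c) i
    rw [hcard] at h2
    have h3 : A (∏ j ∈ Finset.univ.erase c, (z c - z j)⁻¹) ≤ (κ / R) ^ (d - 1) := by
      rw [map_prod, ← hcard, ← Finset.prod_const]
      apply Finset.prod_le_prod
      · intro j _
        exact A.nonneg _
      · intro j hj
        have hne : c ≠ j := (Finset.ne_of_mem_erase hj).symm
        have h4 := h c j hne
        have h5 : 0 < A (z c - z j) := by
          by_contra hcon
          have : A (z c - z j) = 0 := le_antisymm (not_lt.1 hcon) (A.nonneg _)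
          rw [this, mul_zero] at h4
          linarith
        rw [map_inv₀, inv_eq_one_div, div_le_div_iff₀ h5 hR0]
        linarith
    rw [h1, coeff_C_mul, map_mul, mul_assoc]
    calc A (∏ j ∈ Finset.univ.erase c, (z c - z j)⁻¹) *
          (A ((∏ j ∈ Finset.univ.erase c, (X - C (z j)) : ℚ[X]).coeff i) * R ^ i)
        ≤ (κ / R) ^ (d - 1) * (2 * R) ^ (d - 1) :=
          mul_le_mul h3 h2 (by positivity) (by positivity)
      _ = (2 * κ) ^ (d - 1) := by
          rw [← mul_pow]
          congr 1
          field_simp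
  have hsum : p i = ∑ c : Fin d, P.eval (z c) * (Lagrange.basis Finset.univ z c).coeff i := by
    rw [← hcoef]
    conv_lhs => rw [hL]
    rw [finset_sum_coeff]
    simp only [coeff_C_mul]
  have h6 : A (p i) * R ^ i ≤ ∑ c : Fin d, M * (2 * κ) ^ (d - 1) := by
    calc A (p i) * R ^ i
        ≤ (∑ c : Fin d, A (P.eval (z c) * (Lagrange.basis Finset.univ z c).coeff i)) * R ^ i := by
          apply mul_le_mul_of_nonneg_right _ (by positivity)
          rw [hsum]
          exact A.sum_le _ _
      _ = ∑ c : Fin d, A (P.eval (z c)) * (A ((Lagrange.basis Finset.univ z c).coeff i) * R ^ i) := by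
          rw [Finset.sum_mul]
          apply Finset.sum_congr rfl
          intro c _
          rw [map_mul, mul_assoc]
      _ ≤ ∑ c : Fin d, M * (2 * κ) ^ (d - 1) := by
          apply Finset.sum_le_sum
          intro c _
          rw [heval]
          exact mul_le_mul (hM c) (hb c) (by positivity) hM0
  refine h6.trans ?_
  rw [Finset.sum_const, Finset.card_univ, Fintype.card_fin, nsmul_eq_mul]
  have h7 : (2 * κ) ^ (d - 1) ≤ (2 * κ) ^ d := pow_le_pow_right₀ (by linarith) (Nat.sub_le d 1)
  have h8 : (d : ℝ) * (M * (2 * κ) ^ (d - 1)) ≤ d * (M * (2 * κ) ^ d) := by gcongr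
  refine h8.trans (le_of_eq ?_)
  rw [mul_pow]
  ring

end F0744U
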