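import Pool.Agent.Lib.MP_f0744f_nt.U.E1a

/-! # Row E1b: interpolation in all digits -/

set_option autoImplicit false

open Polynomial

namespace F0744U

/-- splitting a sum into the residue classes -/
theorem E1b_split (d : ℕ) (g : ℕ → ℚ) (m : ℕ) : ∑ n ∈ Finset.range (d * m), g n =
    ∑ n ∈ Finset.range m, ∑ i ∈ Finset.range d, g (d * n + i) := by
  induction m with
  | zero => simp
  | succ m ih =>
    rw [Nat.mul_succ, Finset.sum_range_add, ih, Finset.sum_range_succ]

/-- the sum of level `J + 1` with the first coordinate split off -/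
theorem E1b_sum {d : ℕ} (hd : 1 ≤ d) (J : ℕ) (c : ℕ → ℚ) (z : ℕ → ℚ) :
    ∑ n ∈ Finset.range (d ^ (J + 1)), c n * gd d (J + 1) n z =
      ∑ i ∈ Finset.range d,
        (∑ n ∈ Finset.range (d ^ J), c (d * n + i) * gd d J n (fun i => z (i + 1))) * z 0 ^ i := by
  rw [pow_succ, mul_comm (d ^ J) d, E1b_split, Finset.sum_comm]
  apply Finset.sum_congr rfl
  intro i hi
  have hid : i < d := Finset.mem_range.mp hi
  rw [Finset.sum_mul]
  apply Finset.sum_congr rfl
  intro n _
  have h1 : (d * n + i) % d = i := by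
    rw [Nat.mul_add_mod, Nat.mod_eq_of_lt hid]
  have h2 : (d * n + i) / d = n := by
    rw [Nat.mul_add_div (by omega), Nat.div_eq_of_lt hid, add_zero]
  rw [gd, h1, h2]
  ring

/-- Induction on `J`. Model: `grid` in `D/E1.lean`. `∑_{n < d ^ (J + 1)} c n * gd d (J + 1) n z = ∑_{i < d} (∑_{n' < d ^ J} c (d n' + i) * gd d J n' (z ∘ succ)) * z 0 ^ i`
(`(d n' + i) % d = i`, `(d n' + i) / d = n'`). For fixed `z ∘ succ` apply `vand` with the `d` values of `z 0`: the inner sums have size at most `(d 2 ^ d κ ^ d) M R ^ (- i)`; then the induction hypothesis for the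
sequences `n' ↦ c (d n' + i)`; `sd d (J + 1) n = n % d + sd d J (n / d)`. -/
theorem gridU {d : ℕ} (hd : 1 ≤ d) (A : AbsoluteValue ℚ ℝ) {R κ : ℝ} (hR : 1 ≤ R) (hκ : 1 ≤ κ) {z : Fin d → ℚ}
    (h0 : ∀ c, A (z c) ≤ R) (h : ∀ c c', c ≠ c' → R ≤ κ * A (z c - z c')) (J : ℕ) (c : ℕ → ℚ) {M : ℝ}
    (hM0 : 0 ≤ M)
    (hM : ∀ ω : ℕ → Fin d, A (∑ n ∈ Finset.range (d ^ J), c n * gd d J n (fun i => z (ω i))) ≤ M) :
    ∀ n < d ^ J, A (c n) * R ^ sd d J n ≤ (d * 2 ^ d * κ ^ d) ^ J * M := by
  have hR0 : 0 < R := by linarith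
  have hκ0 : 0 < κ := by linarith
  induction J generalizing c M with
  | zero =>
    intro n hn
    have hn0 : n = 0 := by
      rw [pow_zero] at hn
      omega
    have h2 := hM (fun _ => ⟨0, by omega⟩)
    subst hn0
    have h3 : sd d 0 0 = 0 := rfl
    rw [h3, pow_zero, pow_zero, mul_one, one_mul]
    simpa [gd] using h2
  | succ J ih =>
    have key : ∀ (ω : ℕ → Fin d), ∀ i < d,
        A (∑ n ∈ Finset.range (d ^ J), c (d * n + i) * gd d J n (fun i => z (ω i))) ≤
          d * 2 ^ d * κ ^ d * M / R ^ i := by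
      intro ω i hi
      have h2 := vand hd A hR hκ h0 h
        (fun i => ∑ n ∈ Finset.range (d ^ J), c (d * n + i) * gd d J n (fun i => z (ω i))) hM0
        (by
          intro e
          have h3 := hM (fun i => match i with | 0 => e | i + 1 => ω i)
          rw [E1b_sum hd] at h3
          exact h3) i hi
      rw [le_div_iff₀ (by positivity)]
      exact h2
    intro n hn
    have hn2 : n / d < d ^ J := by
      rw [pow_succ] at hn
      exact Nat.div_lt_of_lt_mul (by rw [mul_comm]; exact hn)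
    have hr : n % d < d := Nat.mod_lt _ (by omega)
    have e : d * (n / d) + n % d = n := Nat.div_add_mod n d
    have h2 := ih (fun m => c (d * m + n % d)) (M := d * 2 ^ d * κ ^ d * M / R ^ (n % d))
      (by positivity) (fun ω => key ω (n % d) hr) (n / d) hn2
    simp only [e] at h2
    rw [sd, pow_add, pow_succ]
    have h3 := mul_le_mul_of_nonneg_right h2 (pow_nonneg hR0.le (n % d))
    calc A (c n) * (R ^ (n % d) * R ^ sd d J (n / d)) =
        A (c n) * R ^ sd d J (n / d) * R ^ (n % d) := by ring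
      _ ≤ (d * 2 ^ d * κ ^ d) ^ J * (d * 2 ^ d * κ ^ d * M / R ^ (n % d)) * R ^ (n % d) := h3
      _ = (d * 2 ^ d * κ ^ d) ^ J * (d * 2 ^ d * κ ^ d) * M := by
        field_simp

end F0744U
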