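import Pool.Agent.Lib.MP_f0744f_nt.C.A3
import Pool.Agent.Lib.MP_f0744f_nt.C.A4
import Pool.Agent.Lib.MP_f0744f_nt.U.Defs

/-! # Row Sd: digits -/

set_option autoImplicit false

open Polynomial

namespace F0744U

open F0744C F0744D

variable {S : Finset ℤ} {a b : ℤ} {d e : ℕ}

/-- Induction on `J`: `wd d (J + 1) n = wd d J (n / d) + n / d`, `n = n % d + d (n / d)`, `(d - 1) wd ≤ n` (`wd_le`). -/
theorem sd_eq (hd : 1 ≤ d) (J n : ℕ) : sd d J n = n - (d - 1) * wd d J n := by
  obtain ⟨e, rfl⟩ : ∃ e, d = e + 1 := ⟨d - 1, by omega⟩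
  induction J generalizing n with
  | zero => simp [sd, wd]
  | succ J ih =>
    have h1 := wd_le (d := e + 1) (by omega) J (n / (e + 1))
    have h2 := ih (n / (e + 1))
    have h3 : (e + 1) * (n / (e + 1)) + n % (e + 1) = n := Nat.div_add_mod n (e + 1)
    have h4 : (e + 1) * (n / (e + 1)) = e * (n / (e + 1)) + n / (e + 1) := by ring
    simp only [sd, wd, Nat.add_sub_cancel] at h1 h2 ⊢
    rw [h2, Nat.mul_add]
    omega

/-- Induction: each digit is at most `d - 1`. -/
theorem sd_le (hd : 1 ≤ d) {J n : ℕ} (hn : n < d ^ J) : sd d J n ≤ J * (d - 1) := by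
  induction J generalizing n with
  | zero =>
    simp only [pow_zero] at hn
    simp only [sd]
    omega
  | succ J ih =>
    have h1 : n / d < d ^ J := Nat.div_lt_of_lt_mul (by rw [pow_succ, mul_comm] at hn; exact hn)
    have h2 := ih h1
    have h3 : n % d < d := Nat.mod_lt n (by omega)
    simp only [sd]
    rw [Nat.add_mul, Nat.one_mul]
    omega

/-- Induction. -/
theorem sd_zero {J n : ℕ} (h : sd d J n = 0) : n = 0 := by
  induction J generalizing n with
  | zero => simpa [sd] using h
  | succ J ih =>
    simp only [sd] at h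
    have h1 : n % d = 0 := by omega
    have h2 : n / d = 0 := ih (by omega)
    have h3 := Nat.div_add_mod n d
    rw [h1, h2] at h3
    simpa using h3.symm

theorem Sd_zero_right (d J : ℕ) : sd d J 0 = 0 := by
  induction J with
  | zero => simp [sd]
  | succ J ih => simp [sd, ih]

/-- Induction: `d ^ (i + 1) % d = 0`, `d ^ (i + 1) / d = d ^ i`; `1 % d = 1`, `1 / d = 0`. -/
theorem sd_pow (hd : 2 ≤ d) {J i : ℕ} (hi : i < J) : sd d J (d ^ i) = 1 := by
  induction J generalizing i with
  | zero => omega
  | succ J ih =>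
    cases i with
    | zero =>
      have h1 : 1 % d = 1 := Nat.mod_eq_of_lt (by omega)
      have h2 : 1 / d = 0 := Nat.div_eq_of_lt (by omega)
      simp only [sd, pow_zero, h1, h2]
      rw [Sd_zero_right]
    | succ i =>
      have h1 : d ^ (i + 1) % d = 0 := by
        rw [pow_succ]
        exact Nat.mul_mod_left _ _
      have h2 : d ^ (i + 1) / d = d ^ i := by
        rw [pow_succ]
        exact Nat.mul_div_cancel _ (by omega)
      simp only [sd]
      rw [h1, h2, ih (by omega)]

/-- Induction on `J`: if `n % d = 1` then `sd d J (n / d) = 0`, `n / d = 0` (`sd_zero`), `n = 1 = d ^ 0`; if `n % d = 0` then `n / d = d ^ i`. -/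
theorem sd_one (hd : 2 ≤ d) {J n : ℕ} (hn : n < d ^ J) (h : sd d J n = 1) : ∃ i < J, n = d ^ i := by
  induction J generalizing n with
  | zero =>
    simp only [pow_zero] at hn
    simp only [sd] at h
    omega
  | succ J ih =>
    simp only [sd] at h
    have h3 := Nat.div_add_mod n d
    by_cases h0 : n % d = 0
    · have h1 : n / d < d ^ J := Nat.div_lt_of_lt_mul (by rw [pow_succ, mul_comm] at hn; exact hn)
      obtain ⟨i, hi, hi2⟩ := ih h1 (by omega)
      refine ⟨i + 1, by omega, ?_⟩
      rw [h0, hi2] at h3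
      rw [pow_succ, mul_comm]
      omega
    · have h1 : n % d = 1 := by omega
      have h2 : sd d J (n / d) = 0 := by omega
      have h4 : n / d = 0 := sd_zero h2
      refine ⟨0, by omega, ?_⟩
      rw [h1, h4] at h3
      simpa using h3.symm

end F0744U
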