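import Pool.Agent.Lib.MP_f0744f_nt.C.A3
import Pool.Agent.Lib.MP_f0744f_nt.U.B0
import Pool.Agent.Lib.MP_f0744f_nt.U.Sd

/-! # Row E2: basis polynomials and products of reference points -/

set_option autoImplicit false

open Polynomial

namespace F0744U

open F0744C F0744D

variable {S : Finset ℤ} {a b : ℤ} {d e : ℕ}
variable {f : PM S a d} {A : AbsoluteValue ℚ ℝ} {R m θ H : ℝ} {cl : ℤ → Fin d}

/-- `x ^ i - z ^ i = (x - z) (x ^ (i - 1) + ...)`. -/
theorem pow_close (A : AbsoluteValue ℚ ℝ) {R ε : ℝ} (hR : 1 ≤ R) (hε : 0 ≤ ε) {x z : ℚ} (hx : A x ≤ R)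
    (hz : A z ≤ R) (h : A (x - z) ≤ R * ε) (i : ℕ) : A (x ^ i - z ^ i) ≤ i * ε * R ^ i := by
  have hR0 : 0 ≤ R := by linarith
  induction i with
  | zero => simp
  | succ i ih =>
    have h1 : x ^ (i + 1) - z ^ (i + 1) = (x - z) * x ^ i + z * (x ^ i - z ^ i) := by ring
    rw [h1]
    refine (A.add_le _ _).trans ?_
    rw [map_mul, map_mul, map_pow]
    have h2 : A (x - z) * A x ^ i ≤ (R * ε) * R ^ i :=
      mul_le_mul h (pow_le_pow_left₀ (A.nonneg _) hx i) (pow_nonneg (A.nonneg _) _) (by positivity)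
    have h3 : A z * A (x ^ i - z ^ i) ≤ R * (i * ε * R ^ i) :=
      mul_le_mul hz ih (A.nonneg _) hR0
    have h4 : ((i + 1 : ℕ) : ℝ) * ε * R ^ (i + 1) = (R * ε) * R ^ i + R * (i * ε * R ^ i) := by
      push_cast
      ring
    rw [h4]
    linarith

/-- Induction on `J`. Model: `bp_gp` in `D/E2.lean`. `bp d (J + 1) n` at `x` is `x ^ (n % d) * b'`, `b' = bp d J (n / d)` at `f.ph x ∈ Dm J`; `A (x ^ i b' - z ^ i gd') ≤ A (x ^ i - z ^ i) A (b') + A (z) ^ i A (b' - gd')`,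
`pow_close` with `ε = 2 exp (- (1 - θ) m)` (`UP.close`), `bp_le` (`sd_eq`), `bd`. -/
theorem bp_gdU (h : UP f A R m θ H cl) (hd : 1 ≤ d) {z : Fin d → ℤ} (hz : ∀ c, z c ∈ S ∧ z c ≠ a ∧ cl (z c) = c)
    (J n : ℕ) (hn : n < d ^ J) {x : ℤ} (hx : x ∈ Dm S a f.ph J) :
    A ((bp f.F d J n).eval (x : ℚ) - gd d J n (fun i => (z (cl (f.ph^[i] x)) : ℚ))) ≤
      J * (d * (2 * Real.exp (-((1 - θ) * m)))) * R ^ sd d J n := by
  have hR1 : 1 ≤ R := h.R1
  have hR0 : 0 < R := lt_of_lt_of_le one_pos hR1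
  set ε : ℝ := Real.exp (-((1 - θ) * m)) with hε
  have hε0 : 0 < ε := Real.exp_pos _
  induction J generalizing n x with
  | zero =>
    have hn0 : n = 0 := by simpa using hn
    subst hn0
    simp [bp, gd]
  | succ J ih =>
    obtain ⟨hxS, hxa, hph⟩ := Dm_succ hx
    have h1 : (bp f.F d (J + 1) n).eval (x : ℚ) =
        (x : ℚ) ^ (n % d) * (bp f.F d J (n / d)).eval ((f.ph x : ℤ) : ℚ) := by
      simp only [bp, eval_mul, eval_pow, eval_X, eval_comp]
      rw [f.val x hxS hxa]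
    have h2 : gd d (J + 1) n (fun i => (z (cl (f.ph^[i] x)) : ℚ)) =
        (z (cl x) : ℚ) ^ (n % d) * gd d J (n / d) (fun i => (z (cl (f.ph^[i] (f.ph x))) : ℚ)) := rfl
    have hn' : n / d < d ^ J := by
      rw [pow_succ] at hn
      exact Nat.div_lt_of_lt_mul (by rw [mul_comm]; exact hn)
    have h3 := ih (n / d) hn' hph
    have h2s : sd d (J + 1) n = n % d + sd d J (n / d) := rfl
    rw [h1, h2, h2s]
    set b : ℚ := (bp f.F d J (n / d)).eval ((f.ph x : ℤ) : ℚ) with hb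
    set g : ℚ := gd d J (n / d) (fun i => (z (cl (f.ph^[i] (f.ph x))) : ℚ)) with hg
    set s : ℕ := sd d J (n / d) with hs
    set i : ℕ := n % d with hi
    have hid : (i : ℝ) ≤ (d : ℝ) := by
      have : n % d < d := Nat.mod_lt _ (by omega)
      exact_mod_cast this.le
    have hRs : 0 < R ^ s := pow_pos hR0 s
    have hRi : 0 < R ^ i := pow_pos hR0 i
    obtain ⟨hz1, hz2, hz3⟩ := hz (cl x)
    have h5 := h.close hxS hz1 hxa hz2 hz3.symm
    have h6 : A b ≤ R ^ s := by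
      have h7 := bp_le f hd hR1 h.bd J (n / d) hph
      rwa [← sd_eq hd J (n / d)] at h7
    have h7 : (x : ℚ) ^ i * b - (z (cl x) : ℚ) ^ i * g =
        ((x : ℚ) ^ i - (z (cl x) : ℚ) ^ i) * b + (z (cl x) : ℚ) ^ i * (b - g) := by ring
    rw [h7]
    refine (A.add_le _ _).trans ?_
    rw [map_mul, map_mul, map_pow]
    have h8 : A ((x : ℚ) ^ i - (z (cl x) : ℚ) ^ i) ≤ i * (2 * ε) * R ^ i := by
      refine pow_close A hR1 (by positivity) (h.bd _ hxS) (h.bd _ hz1) ?_ i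
      refine h5.trans (le_of_eq ?_)
      ring
    have h9 : A ((x : ℚ) ^ i - (z (cl x) : ℚ) ^ i) * A b ≤ (d * (2 * ε) * R ^ i) * R ^ s := by
      refine mul_le_mul (h8.trans ?_) h6 (A.nonneg _) (by positivity)
      gcongr
    have h10 : A (z (cl x) : ℚ) ^ i * A (b - g) ≤ R ^ i * (J * (d * (2 * ε)) * R ^ s) :=
      mul_le_mul (pow_le_pow_left₀ (A.nonneg _) (h.bd _ hz1) i) h3 (A.nonneg _) hRi.le
    have h11 : ((J + 1 : ℕ) : ℝ) * (d * (2 * ε)) * R ^ (i + s) =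
        (d * (2 * ε) * R ^ i) * R ^ s + R ^ i * (J * (d * (2 * ε)) * R ^ s) := by
      push_cast
      rw [pow_add]
      ring
    rw [h11]
    linarith

end F0744U
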