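import Pool.Agent.Lib.MP_f0744f_nt.U.E1b
import Pool.Agent.Lib.MP_f0744f_nt.U.E2

/-! # Row E3: the coefficients at a good place -/

set_option autoImplicit false

open Polynomial

namespace F0744U

open F0744C F0744D

variable {S : Finset ℤ} {a b : ℤ} {d e : ℕ}

theorem E3_gd_congr (d J : ℕ) : ∀ (n : ℕ) (z z' : ℕ → ℚ), (∀ i < J, z i = z' i) →
    gd d J n z = gd d J n z' := by
  induction J with
  | zero => intro n z z' _; rfl
  | succ J ih =>
    intro n z z' h
    rw [gd, gd, h 0 (Nat.succ_pos J),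
      ih (n / d) (fun i => z (i + 1)) (fun i => z' (i + 1)) (fun i hi => h (i + 1) (by omega))]

theorem E3_num {d J : ℕ} (hd : 2 ≤ d) {θ m u R M : ℝ} (hm0 : 0 < m) (hR : 0 ≤ R) (hM : 0 ≤ M)
    (hθ1 : θ * (d * J + 2) ≤ 1) (hu : u = Real.exp (θ * m))
    (hC : 4 * (d * 2 ^ d : ℝ) ^ J * (d ^ J * ((J + 1) * d)) ≤ u)
    (h : M ≤ (d * 2 ^ d * u ^ d) ^ J *
      (R + d ^ J * (J * (d * (2 * Real.exp (-((1 - θ) * m))))) * M)) :
    M ≤ R * Real.exp ((d * J + 1) * (θ * m)) := by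
  have hu0 : 0 < u := by rw [hu]; exact Real.exp_pos _
  set ε := Real.exp (-((1 - θ) * m)) with hε
  have hε0 : 0 < ε := Real.exp_pos _
  have hd0 : (0 : ℝ) < d := by positivity
  set B : ℝ := (d * 2 ^ d : ℝ) ^ J with hB
  have hB0 : 0 < B := by positivity
  have hBu : (d * 2 ^ d * u ^ d) ^ J = B * u ^ (d * J) := by
    rw [hB, mul_pow, ← pow_mul]
  rw [hBu] at h
  have hD1 : (1 : ℝ) ≤ d ^ J * ((J + 1) * d) := by
    have h1 : (1 : ℝ) ≤ (d : ℝ) ^ J := one_le_pow₀ (by exact_mod_cast (by omega : 1 ≤ d))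
    have h2 : (1 : ℝ) ≤ ((J : ℝ) + 1) * d := by
      have h3 : (1 : ℝ) ≤ d := by exact_mod_cast (by omega : 1 ≤ d)
      have h4 : (0 : ℝ) ≤ J := Nat.cast_nonneg J
      nlinarith
    nlinarith
  have h2B : 2 * B ≤ u := by nlinarith
  have h4B : B * (d ^ J * (J * (d * 2))) ≤ u / 2 := by
    have h5 : B * (d ^ J * (J * (d * 2))) ≤ B * (d ^ J * ((J + 1) * d) * 2) := by
      apply mul_le_mul_of_nonneg_left _ hB0.le
      have h6 : (0 : ℝ) < (d : ℝ) ^ J * d := by positivity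
      nlinarith
    nlinarith
  have hexp : u ^ (d * J + 1) * ε ≤ 1 := by
    rw [hu, hε, ← Real.exp_nat_mul, ← Real.exp_add]
    apply Real.exp_le_one_iff.2
    push_cast
    nlinarith
  have hsm : B * u ^ (d * J) * (d ^ J * (J * (d * (2 * ε)))) ≤ 1 / 2 := by
    have h7 : B * u ^ (d * J) * (d ^ J * (J * (d * (2 * ε)))) =
        (B * (d ^ J * (J * (d * 2)))) * (u ^ (d * J) * ε) := by ring
    rw [h7]
    have h8 : 0 ≤ u ^ (d * J) * ε := by positivity
    have h9 := mul_le_mul_of_nonneg_right h4B h8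
    have h10 : u / 2 * (u ^ (d * J) * ε) = (u ^ (d * J + 1) * ε) / 2 := by
      rw [pow_succ]; ring
    rw [h10] at h9
    linarith
  have hMM : M ≤ B * u ^ (d * J) * R + 1 / 2 * M := by
    refine h.trans ?_
    have h10 : B * u ^ (d * J) * (R + d ^ J * (J * (d * (2 * ε))) * M) =
        B * u ^ (d * J) * R + (B * u ^ (d * J) * (d ^ J * (J * (d * (2 * ε))))) * M := by ring
    rw [h10]
    have h12 := mul_le_mul_of_nonneg_right hsm hM
    linarith
  have h13 : M ≤ R * u ^ (d * J + 1) := by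
    have h14 : 0 ≤ u ^ (d * J) * R := by positivity
    have h15 := mul_le_mul_of_nonneg_right h2B h14
    rw [pow_succ]
    nlinarith
  refine h13.trans (le_of_eq ?_)
  rw [hu, ← Real.exp_nat_mul]
  push_cast
  rfl

/-- Model: `coef_tp`, `E3_num` in `D/E3.lean`. `J = 0`: `c 0 = ∑`. Let `z c` be a point of `T` with `cl (z c) = c` (`FullU`, first digit), `M = max_n A (c n) R ^ sd d J n`, `ε = exp (- (1 - θ) m)`. For an itinerary `ω` let `x ∈ T`
be a point which has it: `A (∑ c n gd d J n (z ∘ ω)) ≤ R + d ^ J J d 2 ε M` (`bp_gdU`). By `gridU` with `κ = exp (θ m)` (`sep`): `M ≤ (d 2 ^ d exp (d θ m)) ^ J (R + d ^ J J d 2 ε M)`. With `H0` = the logarithm of a large constant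
(depending on `d`, `J`) the constants are at most `exp (θ m)`, and for small `θ` `M ≤ 2 (d 2 ^ d exp (d θ m)) ^ J R ≤ R exp (θ' m)`. -/
theorem coefU (hd : 2 ≤ d) (J : ℕ) {θ' : ℝ} (hθ' : 0 < θ') : ∃ θ0 H0 : ℝ, 0 < θ0 ∧
    ∀ (S : Finset ℤ) (a : ℤ) (f : PM S a d) (A : AbsoluteValue ℚ ℝ) (R m θ H : ℝ) (cl : ℤ → Fin d),
      UP f A R m θ H cl → θ ≤ θ0 → H0 ≤ H → ∀ T ⊆ Dm S a f.ph J, FullU f.ph cl J T → ∀ c : ℕ → ℚ,
      (∀ x ∈ T, A (∑ n ∈ Finset.range (d ^ J), c n * (bp f.F d J n).eval (x : ℚ)) ≤ R) →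
      ∀ n < d ^ J, A (c n) * R ^ sd d J n ≤ R * Real.exp (θ' * m) := by
  have hd0 : (0 : ℝ) < d := by positivity
  have hCst : (1 : ℝ) ≤ 4 * (d * 2 ^ d : ℝ) ^ J * (d ^ J * ((J + 1) * d)) := by
    have hd1 : (1 : ℝ) ≤ d := by exact_mod_cast (by omega : 1 ≤ d)
    have h1 : (1 : ℝ) ≤ (d : ℝ) ^ J := one_le_pow₀ hd1
    have h2 : (1 : ℝ) ≤ ((J : ℝ) + 1) * d := by
      have h4 : (0 : ℝ) ≤ J := Nat.cast_nonneg J
      nlinarith
    have h3 : (1 : ℝ) ≤ (d * 2 ^ d : ℝ) ^ J := by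
      apply one_le_pow₀
      have h5 : (1 : ℝ) ≤ 2 ^ d := one_le_pow₀ (by norm_num)
      nlinarith
    have h6 : (1 : ℝ) ≤ d ^ J * ((J + 1) * d) := by nlinarith
    nlinarith
  refine ⟨min (1 / (d * J + 2)) (θ' / (d * J + 1)),
    Real.log (4 * (d * 2 ^ d : ℝ) ^ J * (d ^ J * ((J + 1) * d))),
    lt_min (by positivity) (by positivity), ?_⟩
  intro S a f A R m θ H cl hUP hθ hH T hT hfull c hc n hn
  have hm0 := hUP.m0
  have hR1 := hUP.R1
  have hR0 : 0 < R := lt_of_lt_of_le one_pos hR1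
  rcases Nat.eq_zero_or_pos J with rfl | hJ
  · obtain rfl : n = 0 := by simpa using hn
    obtain ⟨x, hx, -⟩ := hfull (fun _ => ⟨0, by omega⟩)
    have h1 := hc x hx
    have h2 : A (c 0) ≤ R := by simpa [bp] using h1
    have h3 : sd d 0 0 = 0 := by simp [sd]
    rw [h3, pow_zero, mul_one]
    refine h2.trans ?_
    have h4 : 1 ≤ Real.exp (θ' * m) := Real.one_le_exp (by positivity)
    nlinarith
  · have hz : ∀ b : Fin d, ∃ z : ℤ, z ∈ S ∧ z ≠ a ∧ cl z = b := by
      intro b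
      obtain ⟨x, hx, hxi⟩ := hfull (fun _ => b)
      obtain ⟨J', rfl⟩ : ∃ J', J = J' + 1 := ⟨J - 1, by omega⟩
      have h1 := Dm_succ (hT hx)
      exact ⟨x, h1.1, h1.2.1, hxi 0 (Nat.succ_pos J')⟩
    choose z hz using hz
    obtain ⟨n0, hn0, hmax⟩ := Finset.exists_max_image (Finset.range (d ^ J))
      (fun n => A (c n) * R ^ sd d J n) ⟨0, Finset.mem_range.2 (by positivity)⟩
    set M := A (c n0) * R ^ sd d J n0 with hM
    have hM0 : 0 ≤ M := mul_nonneg (A.nonneg _) (pow_nonneg hR0.le _)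
    set ε := Real.exp (-((1 - θ) * m)) with hε
    have hε0 : 0 < ε := Real.exp_pos _
    have key : ∀ ω : ℕ → Fin d, A (∑ n ∈ Finset.range (d ^ J), c n *
        gd d J n (fun i => (fun b : Fin d => ((z b : ℤ) : ℚ)) (ω i))) ≤
          R + d ^ J * (J * (d * (2 * ε))) * M := by
      intro ω
      obtain ⟨x, hx, hxi⟩ := hfull ω
      have hgd : ∀ n, gd d J n (fun i => (fun b : Fin d => ((z b : ℤ) : ℚ)) (ω i)) =
          gd d J n (fun i => (z (cl (f.ph^[i] x)) : ℚ)) := by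
        intro n
        apply E3_gd_congr
        intro i hi
        rw [hxi i hi]
      have hsplit : ∑ n ∈ Finset.range (d ^ J), c n *
          gd d J n (fun i => (fun b : Fin d => ((z b : ℤ) : ℚ)) (ω i)) =
          ∑ n ∈ Finset.range (d ^ J), c n * (bp f.F d J n).eval (x : ℚ) +
          -(∑ n ∈ Finset.range (d ^ J), c n * ((bp f.F d J n).eval (x : ℚ) -
            gd d J n (fun i => (z (cl (f.ph^[i] x)) : ℚ)))) := by
        rw [← sub_eq_add_neg, ← Finset.sum_sub_distrib]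
        refine Finset.sum_congr rfl fun n _ => ?_
        rw [hgd n]
        ring
      rw [hsplit]
      have h1 := hc x hx
      have h2 : A (∑ n ∈ Finset.range (d ^ J), c n * ((bp f.F d J n).eval (x : ℚ) -
            gd d J n (fun i => (z (cl (f.ph^[i] x)) : ℚ)))) ≤
            d ^ J * (J * (d * (2 * ε))) * M := by
        refine (A.sum_le _ _).trans ?_
        calc ∑ n ∈ Finset.range (d ^ J), A (c n * ((bp f.F d J n).eval (x : ℚ) -
            gd d J n (fun i => (z (cl (f.ph^[i] x)) : ℚ))))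
            ≤ ∑ _n ∈ Finset.range (d ^ J), (J * (d * (2 * ε))) * M :=
              Finset.sum_le_sum fun n hn => ?_
          _ = d ^ J * (J * (d * (2 * ε))) * M := by
            rw [Finset.sum_const, Finset.card_range, nsmul_eq_mul]
            push_cast
            ring
        rw [map_mul]
        have h3 := bp_gdU hUP (by omega) hz J n (Finset.mem_range.1 hn) (hT hx)
        have h4 := hmax n hn
        calc A (c n) * A ((bp f.F d J n).eval (x : ℚ) -
              gd d J n (fun i => (z (cl (f.ph^[i] x)) : ℚ)))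
            ≤ A (c n) * (J * (d * (2 * ε)) * R ^ sd d J n) :=
              mul_le_mul_of_nonneg_left h3 (A.nonneg _)
          _ = (J * (d * (2 * ε))) * (A (c n) * R ^ sd d J n) := by ring
          _ ≤ (J * (d * (2 * ε))) * M := mul_le_mul_of_nonneg_left h4 (by positivity)
      refine (A.add_le _ _).trans ?_
      rw [A.map_neg]
      exact add_le_add h1 h2
    have hu : 4 * (d * 2 ^ d : ℝ) ^ J * (d ^ J * ((J + 1) * d)) ≤ Real.exp (θ * m) := by
      have h1 : Real.log (4 * (d * 2 ^ d : ℝ) ^ J * (d ^ J * ((J + 1) * d))) ≤ θ * m :=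
        hH.trans hUP.big
      have h2 := Real.exp_le_exp.2 h1
      rwa [Real.exp_log (lt_of_lt_of_le one_pos hCst)] at h2
    have hκ1 : 1 ≤ Real.exp (θ * m) := hCst.trans hu
    have hκ : ∀ b b' : Fin d, b ≠ b' →
        R ≤ Real.exp (θ * m) * A ((fun b : Fin d => ((z b : ℤ) : ℚ)) b -
          (fun b : Fin d => ((z b : ℤ) : ℚ)) b') := by
      intro b b' hbb
      have hdiff := hUP.sep (z b) (hz b).1 (z b') (hz b').1 (hz b).2.1 (hz b').2.1
        (by rw [(hz b).2.2, (hz b').2.2]; exact hbb)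
      have h1 := mul_le_mul_of_nonneg_left hdiff (Real.exp_pos (θ * m)).le
      have h2 : Real.exp (θ * m) * (R * Real.exp (-(θ * m))) = R := by
        rw [Real.exp_neg]
        field_simp
      rwa [h2] at h1
    have hgrid := gridU (d := d) (by omega) A hR1 hκ1
      (z := fun b : Fin d => ((z b : ℤ) : ℚ)) (fun b => hUP.bd _ (hz b).1) hκ J c
      (M := R + d ^ J * (J * (d * (2 * ε))) * M) (by positivity) key n0
      (Finset.mem_range.1 hn0)
    have hθ1 : θ * (d * J + 2) ≤ 1 := by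
      have h1 := hθ.trans (min_le_left _ _)
      rwa [le_div_iff₀ (by positivity)] at h1
    have hθ2 : θ * (d * J + 1) ≤ θ' := by
      have h1 := hθ.trans (min_le_right _ _)
      rwa [le_div_iff₀ (by positivity)] at h1
    have hfin := E3_num (R := R) hd hm0 hR0.le hM0 hθ1 rfl hu hgrid
    refine (hmax n (Finset.mem_range.2 hn)).trans (hfin.trans ?_)
    apply mul_le_mul_of_nonneg_left _ hR0.le
    apply Real.exp_le_exp.2
    have h9 : (d * J + 1) * (θ * m) = θ * (d * J + 1) * m := by ring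
    rw [h9]
    exact mul_le_mul_of_nonneg_right hθ2 hm0.le

end F0744U
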