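import Pool.Agent.Lib.MP_f0744f_nt.U.B0

/-! # Row E4a: the values of a linear combination of iterates -/

set_option autoImplicit false

open Polynomial

namespace F0744U

open F0744C F0744D

variable {S : Finset ℤ} {a b : ℤ} {d e : ℕ}

/-- Let `x ∈ T` have the itinerary `ω` (`FullU`), `y = G x`. `A (c0 + ∑ c i z (ω i) - y) = A (∑ c i (z (ω i) - f.ph^[i] x))`, and `f.ph^[i] x ∈ S \ {a}` (`T ⊆ Dm K`, `i < K`) has the class `ω i`: `UP.close`. -/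
theorem lin_points {f : PM S a d} {A : AbsoluteValue ℚ ℝ} {R m θ H : ℝ} {cl : ℤ → Fin d}
    (h : UP f A R m θ H cl) {K : ℕ} {T : Finset ℤ} (hT : T ⊆ Dm S a f.ph K) (hF : FullU f.ph cl K T)
    {z : Fin d → ℤ} (hz : ∀ c, z c ∈ S ∧ z c ≠ a ∧ cl (z c) = c) {c0 : ℚ} {c : ℕ → ℚ} {G : ℤ → ℤ} {M : ℝ}
    (hM : 0 ≤ M) (hc : ∀ i < K, A (c i) ≤ M)
    (hG : ∀ x ∈ T, G x ∈ S ∧ G x ≠ a ∧
      ((G x : ℤ) : ℚ) = c0 + ∑ i ∈ Finset.range K, c i * ((f.ph^[i] x : ℤ) : ℚ)) (ω : ℕ → Fin d) :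
    ∃ y : ℤ, y ∈ S ∧ y ≠ a ∧ A (c0 + ∑ i ∈ Finset.range K, c i * (z (ω i) : ℚ) - y) ≤
      K * (M * (2 * R * Real.exp (-((1 - θ) * m)))) := by
  obtain ⟨x, hxT, hx⟩ := hF ω
  obtain ⟨hyS, hya, hyv⟩ := hG x hxT
  refine ⟨G x, hyS, hya, ?_⟩
  rw [hyv]
  have h1 : c0 + ∑ i ∈ Finset.range K, c i * (z (ω i) : ℚ) -
      (c0 + ∑ i ∈ Finset.range K, c i * ((f.ph^[i] x : ℤ) : ℚ)) =
      ∑ i ∈ Finset.range K, c i * ((z (ω i) : ℚ) - ((f.ph^[i] x : ℤ) : ℚ)) := by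
    rw [add_sub_add_left_eq_sub, ← Finset.sum_sub_distrib]
    exact Finset.sum_congr rfl fun i _ => (mul_sub _ _ _).symm
  rw [h1]
  refine (AbsoluteValue.sum_le A _ _).trans ?_
  have h2 : ∀ i ∈ Finset.range K, A (c i * ((z (ω i) : ℚ) - ((f.ph^[i] x : ℤ) : ℚ))) ≤
      M * (2 * R * Real.exp (-((1 - θ) * m))) := by
    intro i hi
    have hiK : i < K := Finset.mem_range.1 hi
    obtain ⟨h3, h4⟩ := iter_mem (hT hxT) hiK
    obtain ⟨h5, h6, h7⟩ := hz (ω i)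
    rw [A.map_mul]
    refine mul_le_mul (hc i hiK) (h.close h5 h3 h6 h4 ?_) (A.nonneg _) hM
    rw [h7, hx i hiK]
  refine (Finset.sum_le_sum h2).trans (le_of_eq ?_)
  rw [Finset.sum_const, Finset.card_range, nsmul_eq_mul]

end F0744U
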