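import Pool.Agent.Lib.MP_f0744f_nt.U.B0

/-! # Row K4_1: reference points -/

set_option autoImplicit false

open Polynomial

namespace F0744U

open F0744C F0744D

variable {S : Finset ℤ} {a b : ℤ} {d e : ℕ}

/-- The reference points of a good place: `z c` a point of `T` with the class `c` (`FullU`). -/
theorem exists_refU {f : PM S a d} {cl : ℤ → Fin d} {J : ℕ} {T : Finset ℤ} (hT : T ⊆ Dm S a f.ph (J + 1))
    (h : FullU f.ph cl (J + 1) T) : ∃ z : Fin d → ℤ, ∀ c, z c ∈ S ∧ z c ≠ a ∧ cl (z c) = c := by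
  have h1 : ∀ c : Fin d, ∃ x : ℤ, x ∈ S ∧ x ≠ a ∧ cl x = c := by
    intro c
    obtain ⟨x, hx, h2⟩ := h (fun _ => c)
    have h3 := hT hx
    have h4 : x ∈ S.filter (fun x => x ≠ a ∧ f.ph x ∈ Dm S a f.ph J) := h3
    rw [Finset.mem_filter] at h4
    refine ⟨x, h4.1, h4.2.1, ?_⟩
    have h5 := h2 0 (Nat.succ_pos J)
    simpa using h5
  choose z hz using h1
  exact ⟨z, hz⟩

end F0744U
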