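import Pool.Agent.Lib.MP_f0744f_nt.U.Af
import Pool.Agent.Lib.MP_f0744f_nt.U.E4a
import Pool.Agent.Lib.MP_f0744f_nt.U.K4_1

/-! # Row E4: the coefficients of a linear combination of iterates -/

set_option autoImplicit false

open Polynomial

namespace F0744U

open F0744C F0744D

variable {S : Finset ℤ} {a b : ℤ} {d e : ℕ}

/-- Model: `near_tp` in `D/E4.lean`. `z c` = a point of `T` of the class `c` (`exists_refU`). Let `i < K` and `c1 = 0 : Fin d`; for `j : Fin d` let `G' j = y` be the point of `lin_points` (`M = exp (θ0 m)`) for `ω l = if l = i then j else c1`: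
`G' j = c i z j + K0` up to the error `E = K exp (θ0 m) 2 R exp (- (1 - θ) m)`, `K0 = c0 + ∑_{l ≠ i} c l z c1`. Either the condition `hE` of `UP.aff` holds: then `aff_pow` with
`M = exp (θ0 m)` and two different `j, k` (`sep`) bounds `A (c i ^ d ! - 1)`, and `A (c i) ≤ exp (θ0 m)`; or `A (c i) R exp (- θ m) ≤ 2 E + 2 R exp (- (1 - θ) m)`, `A (c i ^ d ! - 1) ≤ exp (d ! θ0 m) + 1`.
In both cases `A (c i ^ (d ! + 1) - c i)` is at most a constant times `exp ((2 (d ! + 1) θ0 + 2 θ) m - m)`. Take `θ0` small, `H0` large. -/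
theorem nearU (hd : 2 ≤ d) (K : ℕ) {θ' : ℝ} (hθ' : 0 < θ') : ∃ θ0 H0 : ℝ, 0 < θ0 ∧
    ∀ (S : Finset ℤ) (a : ℤ) (f : PM S a d) (A : AbsoluteValue ℚ ℝ) (R m θ H : ℝ) (cl : ℤ → Fin d),
      UP f A R m θ H cl → θ ≤ θ0 → H0 ≤ H → ∀ T ⊆ Dm S a f.ph K, FullU f.ph cl K T →
      ∀ (c0 : ℚ) (c : ℕ → ℚ) (G : ℤ → ℤ), (∀ i < K, A (c i) ≤ Real.exp (θ0 * m)) →
      (∀ x ∈ T, G x ∈ S ∧ G x ≠ a ∧
        ((G x : ℤ) : ℚ) = c0 + ∑ i ∈ Finset.range K, c i * ((f.ph^[i] x : ℤ) : ℚ)) →
      ∀ i < K, A (c i ^ (d.factorial + 1) - c i) ≤ Real.exp (-((1 - θ') * m)) := by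
  have hf0 : (0 : ℝ) < d.factorial := by exact_mod_cast d.factorial_pos
  have hf1 : (1 : ℝ) ≤ d.factorial := by exact_mod_cast d.factorial_pos
  have hf5 : (0 : ℝ) < d.factorial + 5 := by positivity
  have hK0 : (0 : ℝ) ≤ K := Nat.cast_nonneg _
  have hC1 : (1 : ℝ) < 4 * d.factorial * (K + 1) + (8 * K + 4) := by
    have : (0 : ℝ) ≤ 4 * d.factorial * (K + 1) := by positivity
    linarith
  refine ⟨θ' / (d.factorial + 5), Real.log (4 * d.factorial * (K + 1) + (8 * K + 4)),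
    div_pos hθ' hf5, ?_⟩
  intro S a f A R m θ H cl h hθ hH T hT hF c0 c G hc hG i hi
  set θ0 := θ' / ((d.factorial : ℝ) + 5) with hθ0
  set Q : ℝ := 4 * d.factorial * (K + 1) + (8 * K + 4) with hQ
  have hR : 0 < R := lt_of_lt_of_le one_pos h.R1
  have hm := h.m0
  set M := Real.exp (θ0 * m) with hM
  set E := Real.exp (θ * m) with hE
  set X := Real.exp (-m) with hX
  have hM0 : 0 < M := Real.exp_pos _
  have hE0 : 0 < E := Real.exp_pos _
  have hX0 : 0 < X := Real.exp_pos _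
  have hEM : E ≤ M := Real.exp_le_exp.2 (mul_le_mul_of_nonneg_right hθ hm.le)
  have hQE : Q ≤ E := by
    rw [hE, ← Real.exp_log (by linarith : (0 : ℝ) < Q)]
    exact Real.exp_le_exp.2 (hH.trans h.big)
  have hQM : Q ≤ M := hQE.trans hEM
  have hM1 : 1 ≤ M := by linarith
  have hεX : Real.exp (-((1 - θ) * m)) = E * X := by
    rw [hE, hX, ← Real.exp_add]
    congr 1
    ring
  have hEi : Real.exp (-(θ * m)) = E⁻¹ := by rw [Real.exp_neg]
  have hMf : 1 ≤ M ^ d.factorial := one_le_pow₀ hM1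
  obtain ⟨J, rfl⟩ : ∃ J, K = J + 1 := ⟨K - 1, by omega⟩
  obtain ⟨z, hz⟩ := exists_refU hT hF
  set c1 : Fin d := ⟨0, by omega⟩ with hc1
  have hpt := fun j : Fin d => lin_points h hT hF hz hM0.le hc hG (fun l => if l = i then j else c1)
  choose Y hY using hpt
  set K0 : ℚ := c0 + ∑ l ∈ (Finset.range (J + 1)).erase i, c l * (z c1 : ℚ) with hK0d
  set E1 : ℝ := ((J + 1 : ℕ) : ℝ) * (M * (2 * R * (E * X))) with hE1
  have hE10 : 0 ≤ E1 := by positivity
  have hsum : ∀ j : Fin d, c0 + ∑ l ∈ Finset.range (J + 1),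
      c l * (z (if l = i then j else c1) : ℚ) = c i * (z j : ℚ) + K0 := by
    intro j
    rw [← Finset.add_sum_erase _ _ (Finset.mem_range.2 hi), hK0d, if_pos rfl]
    have e1 : ∑ l ∈ (Finset.range (J + 1)).erase i, c l * (z (if l = i then j else c1) : ℚ) =
        ∑ l ∈ (Finset.range (J + 1)).erase i, c l * (z c1 : ℚ) := by
      refine Finset.sum_congr rfl fun l hl => ?_
      rw [if_neg (Finset.mem_erase.1 hl).1]
    rw [e1]
    ring
  have hGj : ∀ j, Y j ∈ S ∧ Y j ≠ a ∧ A (c i * (z j : ℚ) + K0 - (Y j : ℤ)) ≤ E1 := by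
    intro j
    obtain ⟨h1, h2, h3⟩ := hY j
    refine ⟨h1, h2, ?_⟩
    rw [hsum j, hεX] at h3
    exact h3
  have hci : A (c i) ≤ M := hc i hi
  have hA0 : 0 ≤ A (c i) := A.nonneg _
  have hfac : A (c i ^ (d.factorial + 1) - c i) = A (c i) * A (c i ^ d.factorial - 1) := by
    rw [← A.map_mul]
    congr 1
    ring
  have hMp : M ^ (d.factorial + 5) * X = Real.exp (-((1 - θ') * m)) := by
    rw [hM, hX, ← Real.exp_nat_mul, ← Real.exp_add]
    congr 1
    rw [hθ0]
    push_cast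
    field_simp
    ring
  have hEE : E * E ≤ M * M := mul_le_mul hEM hEM hE0.le hM0.le
  rw [hfac, ← hMp]
  by_cases hcase : 2 * E1 + 2 * R * Real.exp (-((1 - θ) * m)) < A (c i) * (R * Real.exp (-(θ * m)))
  · obtain ⟨π, hπ⟩ := UP.aff h hz hGj hcase
    rw [hεX] at hπ
    have hE2 : 0 ≤ E1 + 2 * R * (E * X) := by positivity
    have h1 := aff_pow A hE2 hM1 hci hπ c1 ⟨1, by omega⟩
    have hne : c1 ≠ (⟨1, by omega⟩ : Fin d) := by
      intro h0
      have := congrArg Fin.val h0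
      simp [hc1] at this
    have h2 := h.sep (z c1) (hz c1).1 (z ⟨1, by omega⟩) (hz ⟨1, by omega⟩).1 (hz c1).2.1
      (hz ⟨1, by omega⟩).2.1 (by rw [(hz c1).2.2, (hz ⟨1, by omega⟩).2.2]; exact hne)
    rw [hEi] at h2
    have h3 : A (c i ^ d.factorial - 1) * (R * E⁻¹) ≤
        2 * d.factorial * M ^ d.factorial * (E1 + 2 * R * (E * X)) :=
      (mul_le_mul_of_nonneg_left h2 (A.nonneg _)).trans h1
    have h4 : A (c i ^ d.factorial - 1) ≤
        4 * d.factorial * M ^ d.factorial * ((((J + 1 : ℕ) : ℝ) * M + 1) * (E * E * X)) := by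
      have h5 : (0 : ℝ) < R * E⁻¹ := by positivity
      refine le_of_mul_le_mul_right (h3.trans (le_of_eq ?_)) h5
      rw [hE1]
      field_simp
      ring
    have h6 : (((J + 1 : ℕ) : ℝ) * M + 1) ≤ (((J + 1 : ℕ) : ℝ) + 1) * M := by linarith
    calc A (c i) * A (c i ^ d.factorial - 1) ≤ M *
          (4 * d.factorial * M ^ d.factorial * (((((J + 1 : ℕ) : ℝ) + 1) * M) * (M * M * X))) := by
          refine mul_le_mul hci (h4.trans ?_) (A.nonneg _) hM0.le
          refine mul_le_mul_of_nonneg_left ?_ (by positivity)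
          exact mul_le_mul h6 (mul_le_mul_of_nonneg_right hEE hX0.le) (by positivity) (by positivity)
      _ = (4 * d.factorial * (((J + 1 : ℕ) : ℝ) + 1)) * (M ^ (d.factorial + 4) * X) := by ring
      _ ≤ M * (M ^ (d.factorial + 4) * X) := by
          refine mul_le_mul_of_nonneg_right (le_trans ?_ hQM) (by positivity)
          rw [hQ]
          have : (0 : ℝ) ≤ ((J + 1 : ℕ) : ℝ) := Nat.cast_nonneg _
          linarith
      _ = M ^ (d.factorial + 5) * X := by ring
  · rw [not_lt, hεX, hEi] at hcase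
    have h4 : A (c i) ≤ (4 * ((J + 1 : ℕ) : ℝ) * M + 2) * (E * E * X) := by
      have h5 : (0 : ℝ) < R * E⁻¹ := by positivity
      refine le_of_mul_le_mul_right (hcase.trans (le_of_eq ?_)) h5
      rw [hE1]
      field_simp
      ring
    have h7 : A (c i ^ d.factorial - 1) ≤ 2 * M ^ d.factorial := by
      have h8 : A (c i ^ d.factorial - 1) ≤ A (c i ^ d.factorial) + A 1 := by
        rw [sub_eq_add_neg]
        refine (A.add_le _ _).trans ?_
        rw [A.map_neg]
      rw [A.map_one, A.map_pow] at h8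
      have h9 : A (c i) ^ d.factorial ≤ M ^ d.factorial := pow_le_pow_left₀ hA0 hci _
      linarith
    have h6 : (4 * ((J + 1 : ℕ) : ℝ) * M + 2) ≤ (4 * ((J + 1 : ℕ) : ℝ) + 2) * M := by linarith
    calc A (c i) * A (c i ^ d.factorial - 1) ≤
          (((4 * ((J + 1 : ℕ) : ℝ) + 2) * M) * (M * M * X)) * (2 * M ^ d.factorial) := by
          refine mul_le_mul (h4.trans ?_) h7 (A.nonneg _) (by positivity)
          exact mul_le_mul h6 (mul_le_mul_of_nonneg_right hEE hX0.le) (by positivity) (by positivity)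
      _ = (8 * ((J + 1 : ℕ) : ℝ) + 4) * (M ^ (d.factorial + 3) * X) := by ring
      _ ≤ M * (M ^ (d.factorial + 4) * X) := by
          refine mul_le_mul ?_ ?_ (by positivity) hM0.le
          · refine le_trans ?_ hQM
            rw [hQ]
            have : (0 : ℝ) ≤ 4 * d.factorial * (((J + 1 : ℕ) : ℝ) + 1) := by positivity
            linarith
          · refine mul_le_mul_of_nonneg_right ?_ hX0.le
            exact pow_le_pow_right₀ hM1 (by omega)
      _ = M ^ (d.factorial + 5) * X := by ring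

end F0744U
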