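import Pool.Agent.Lib.MP_f0744f_nt.U.Af
import Pool.Agent.Lib.MP_f0744f_nt.U.E4a
import Pool.Agent.Lib.MP_f0744f_nt.U.K4_1

/-! # Row E5: at most one iterate -/

set_option autoImplicit false

open Polynomial

namespace F0744U

open F0744C F0744D

variable {S : Finset ℤ} {a b : ℤ} {d e : ℕ}

theorem E5_num {d K : ℕ} (hd : 2 ≤ d) {m θ H : ℝ} (hm : 0 < m) (hθ : θ ≤ 1 / 6)
    (hH : Real.log (4 * d * (K + 1)) ≤ H) (hb : H ≤ θ * m) :
    4 * d * (K + 1) * Real.exp (-((1 - θ) * m)) <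
      Real.exp (-(θ * m)) * Real.exp (-(θ * m)) := by
  have hC : (8 : ℝ) ≤ 4 * d * (K + 1) := by
    have h2 : (2 : ℝ) ≤ d := by exact_mod_cast hd
    have h3 : (0 : ℝ) ≤ K := Nat.cast_nonneg K
    nlinarith
  have hCpos : (0 : ℝ) < 4 * d * (K + 1) := by linarith
  have hlog : 0 < Real.log (4 * d * (K + 1)) := Real.log_pos (by linarith)
  have h1 : Real.log (4 * d * (K + 1)) ≤ θ * m := hH.trans hb
  have h2 : θ * m ≤ 1 / 6 * m := mul_le_mul_of_nonneg_right hθ hm.le
  rw [← Real.exp_add]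
  calc 4 * d * (K + 1) * Real.exp (-((1 - θ) * m))
      = Real.exp (Real.log (4 * d * (K + 1)) + (-((1 - θ) * m))) := by
        rw [Real.exp_add, Real.exp_log hCpos]
    _ < Real.exp (-(θ * m) + -(θ * m)) := by
        apply Real.exp_lt_exp.mpr
        have e : -((1 - θ) * m) = -m + θ * m := by ring
        rw [e]
        linarith

/-- `z c` = a point of `T` of the class `c` (`exists_refU`), `c1 = 0 : Fin d`. Suppose `i ≠ j`, `c i ≠ 0`, `c j ≠ 0`. For `p, q : Fin d` `lin_points` (`M = 1`) for `ω l = if l = i then p else if l = j then q else c1` gives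
`G' p q = c i z p + K q` up to the error `E = K 2 R exp (- (1 - θ) m)`, `K q = c0 + c j z q + ∑_{l ≠ i, j} c l z c1`. `UP.aff` for each `q` (`A (c i) = 1`), `aff_sum`: `(c i - 1) ∑ z + d K q` is small (`d (E + 2 R exp (- (1 - θ) m))`) for each `q`;
the difference for two different `q, q'` is `d c j (z q - z q')`, of size at least `exp (- θ m) R exp (- θ m)` (`ad`, `sep`): impossible if `θ` is small and `H` large. -/
theorem oneU (hd : 2 ≤ d) (K : ℕ) : ∃ θ0 H0 : ℝ, 0 < θ0 ∧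
    ∀ (S : Finset ℤ) (a : ℤ) (f : PM S a d) (A : AbsoluteValue ℚ ℝ) (R m θ H : ℝ) (cl : ℤ → Fin d),
      UP f A R m θ H cl → θ ≤ θ0 → H0 ≤ H → ∀ T ⊆ Dm S a f.ph K, FullU f.ph cl K T →
      ∀ (c0 : ℚ) (c : ℕ → ℚ) (G : ℤ → ℤ), (∀ i < K, c i = 0 ∨ c i = 1 ∨ c i = -1) →
      (∀ x ∈ T, G x ∈ S ∧ G x ≠ a ∧
        ((G x : ℤ) : ℚ) = c0 + ∑ i ∈ Finset.range K, c i * ((f.ph^[i] x : ℤ) : ℚ)) →
      ∀ i < K, ∀ j < K, i ≠ j → c i ≠ 0 → c j ≠ 0 → False := by
  refine ⟨1 / 6, Real.log (4 * d * (K + 1)), by norm_num, ?_⟩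
  intro S a f A R m θ H cl h hθ hH T hT hF c0 c G hc hG i hi j hj hij hci hcj
  have hnum := E5_num hd h.m0 hθ hH h.big
  obtain ⟨J, rfl⟩ : ∃ J, K = J + 1 := ⟨K - 1, by omega⟩
  obtain ⟨z, hz⟩ := exists_refU hT hF
  have hA1 : ∀ l < J + 1, A (c l) ≤ 1 := by
    intro l hl
    rcases hc l hl with h0 | h0 | h0 <;> simp [h0]
  have hA1' : ∀ l < J + 1, c l ≠ 0 → A (c l) = 1 := by
    intro l hl hne
    rcases hc l hl with h0 | h0 | h0
    · exact absurd h0 hne
    · simp [h0]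
    · simp [h0]
  have hR : (1 : ℝ) ≤ R := h.R1
  have hd' : (2 : ℝ) ≤ d := by exact_mod_cast hd
  have hJ0 : (0 : ℝ) ≤ J := Nat.cast_nonneg J
  set u : ℝ := Real.exp (-((1 - θ) * m)) with hu
  set w : ℝ := Real.exp (-(θ * m)) with hw
  have hu0 : 0 < u := Real.exp_pos _
  have hw0 : 0 < w := Real.exp_pos _
  have hθm : 0 ≤ θ * m := by
    have hC : (1 : ℝ) ≤ 4 * d * ((J + 1 : ℕ) + 1) := by
      push_cast
      nlinarith
    have := Real.log_nonneg hC
    linarith [h.big]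
  have hw1 : w ≤ 1 := by
    rw [hw]
    exact Real.exp_le_one_iff.mpr (by linarith)
  have hww : w * w ≤ w := by nlinarith
  push_cast at hnum
  set c1 : Fin d := ⟨0, by omega⟩ with hc1
  set c2 : Fin d := ⟨1, by omega⟩ with hc2
  have hc12 : c1 ≠ c2 := by
    rw [hc1, hc2]
    intro h'
    have := congrArg Fin.val h'
    simp at this
  obtain ⟨E, hE⟩ : ∃ E : ℝ, E = ((J + 1 : ℕ) : ℝ) * (1 * (2 * R * u)) := ⟨_, rfl⟩
  obtain ⟨Kq, hKq⟩ : ∃ Kq : Fin d → ℚ, ∀ q, Kq q = c0 + c j * (z q : ℚ) +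
      ∑ l ∈ ((Finset.range (J + 1)).erase i).erase j, c l * (z c1 : ℚ) := ⟨_, fun _ => rfl⟩
  have key : ∀ q : Fin d, A ((c i - 1) * (∑ p, (z p : ℚ)) + d * Kq q) ≤ d * (E + 2 * R * u) := by
    intro q
    have hp : ∀ p : Fin d, ∃ y : ℤ, y ∈ S ∧ y ≠ a ∧ A (c i * (z p : ℚ) + Kq q - (y : ℤ)) ≤ E := by
      intro p
      obtain ⟨y, hyS, hya, hy⟩ := lin_points h hT hF hz (M := 1) zero_le_one hA1 hG
        (fun l => if l = i then p else if l = j then q else c1)
      refine ⟨y, hyS, hya, ?_⟩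
      have e : c0 + ∑ l ∈ Finset.range (J + 1),
          c l * (z ((fun l => if l = i then p else if l = j then q else c1) l) : ℚ) =
          c i * (z p : ℚ) + Kq q := by
        rw [← Finset.add_sum_erase (Finset.range (J + 1)) _ (Finset.mem_range.mpr hi)]
        rw [← Finset.add_sum_erase ((Finset.range (J + 1)).erase i) _
          (Finset.mem_erase.mpr ⟨hij.symm, Finset.mem_range.mpr hj⟩)]
        have e2 : ∑ l ∈ ((Finset.range (J + 1)).erase i).erase j,
            c l * (z ((fun l => if l = i then p else if l = j then q else c1) l) : ℚ) =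
            ∑ l ∈ ((Finset.range (J + 1)).erase i).erase j, c l * (z c1 : ℚ) := by
          apply Finset.sum_congr rfl
          intro l hl
          have h1 : l ≠ j := Finset.ne_of_mem_erase hl
          have h2 : l ≠ i := Finset.ne_of_mem_erase (Finset.mem_of_mem_erase hl)
          simp only [if_neg h2, if_neg h1]
        rw [e2, hKq]
        simp only [if_true, if_neg hij.symm]
        ring
      rw [e] at hy
      rw [hE]
      exact hy
    choose Gq hGS hGa hGE using hp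
    have hE' : 2 * E + 2 * R * u < A (c i) * (R * w) := by
      rw [hA1' i hi hci, hE]
      push_cast
      have h3 : (4 * (J + 1) + 2) * u < w := by
        have h4 : (4 * ((J : ℝ) + 1) + 2) * u ≤ 4 * d * (J + 1 + 1) * u := by
          apply mul_le_mul_of_nonneg_right _ hu0.le
          nlinarith
        linarith
      have h5 : R * ((4 * (J + 1) + 2) * u) < R * w :=
        mul_lt_mul_of_pos_left h3 (by linarith)
      linarith
    obtain ⟨π, hπ⟩ := h.aff hz (G := Gq) (fun p => ⟨hGS p, hGa p, hGE p⟩) hE'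
    exact aff_sum A hπ
  have k1 := key c1
  have k2 := key c2
  have k3 : A ((d : ℚ) * (c j * ((z c1 : ℚ) - z c2))) ≤ 2 * (d * (E + 2 * R * u)) := by
    have e : (d : ℚ) * (c j * ((z c1 : ℚ) - z c2)) =
        ((c i - 1) * (∑ p, (z p : ℚ)) + d * Kq c1) +
          (-((c i - 1) * (∑ p, (z p : ℚ)) + d * Kq c2)) := by
      rw [hKq, hKq]
      ring
    rw [e]
    refine (A.add_le _ _).trans ?_
    rw [A.map_neg]
    linarith
  rw [map_mul, map_mul, hA1' j hj hcj, one_mul] at k3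
  have k4 : R * w ≤ A ((z c1 : ℚ) - z c2) := by
    apply h.sep _ (hz c1).1 _ (hz c2).1 (hz c1).2.1 (hz c2).2.1
    rw [(hz c1).2.2, (hz c2).2.2]
    exact hc12
  have k5 : w * (R * w) ≤ A (d : ℚ) * A ((z c1 : ℚ) - z c2) :=
    mul_le_mul h.ad k4 (by positivity) (A.nonneg _)
  have k6 : 2 * (d * (E + 2 * R * u)) = R * (4 * d * (J + 1 + 1) * u) := by
    rw [hE]
    push_cast
    ring
  have k7 : R * (4 * d * (J + 1 + 1) * u) < R * (w * w) :=
    mul_lt_mul_of_pos_left hnum (by linarith)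
  have k8 : w * (R * w) = R * (w * w) := by ring
  linarith

end F0744U
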