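import Pool.Agent.Lib.MP_f0744f_nt.C.A5
import Pool.Agent.Lib.MP_f0744f_nt.U.Af

/-! # Row E6: centroids -/

set_option autoImplicit false

open Polynomial

namespace F0744U

open F0744C F0744D

variable {S : Finset ℤ} {a b : ℤ} {d e : ℕ}

/-- `P = f.F - C α * ∏ c, (X - C (z c))` has degree `< d`, its coefficient of `X ^ (d - 1)` is `α (∑ z - sF)` (`Polynomial.multiset_prod_X_sub_C_nextCoeff` or `Polynomial.prod_X_sub_C_nextCoeff`); `lag_coeff` for the points `z c` (they are different: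
`cl (z c) = c`): it is `∑_c F (z c) ∏_{c' ≠ c} (z c - z c')⁻¹`, of size at most `d R / (R exp (- θ m)) ^ (d - 1)` (`f.val`, `bd`, `sep`); `UP.lead`. -/
theorem sum_refU (hd : 2 ≤ d) {θ' : ℝ} (hθ' : 0 < θ') : ∃ θ0 H0 : ℝ, 0 < θ0 ∧
    ∀ (S : Finset ℤ) (a : ℤ) (f : PM S a d) (A : AbsoluteValue ℚ ℝ) (R m θ H : ℝ) (cl : ℤ → Fin d),
      UP f A R m θ H cl → θ ≤ θ0 → H0 ≤ H →
      ∀ z : Fin d → ℤ, (∀ c, z c ∈ S ∧ z c ≠ a ∧ cl (z c) = c) →
      A ((∑ c, (z c : ℚ)) - sF f.F d) ≤ R * Real.exp (-((1 - θ') * m)) := by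
  have hd0 : (0 : ℝ) < d := by exact_mod_cast (by omega : 0 < d)
  refine ⟨θ' / d, Real.log d, by positivity, ?_⟩
  intro S a f A R m θ H cl h hθ hH z hz
  have hR : 0 < R := by linarith [h.R1]
  have hm := h.m0
  have hα0 : f.F.leadingCoeff ≠ 0 := by
    intro h0
    rw [leadingCoeff_eq_zero] at h0
    have h1 := f.deg
    rw [h0, natDegree_zero] at h1
    omega
  have hinj : Set.InjOn (fun c : Fin d => ((z c : ℤ) : ℚ)) ((Finset.univ : Finset (Fin d)) : Set (Fin d)) := by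
    intro c _ c' _ hcc
    have h1 : z c = z c' := Int.cast_injective (α := ℚ) hcc
    rw [← (hz c).2.2, ← (hz c').2.2, h1]
  have hcard : (Finset.univ : Finset (Fin d)).card = d := by
    rw [Finset.card_univ, Fintype.card_fin]
  obtain ⟨Z, hZ⟩ : ∃ Z : ℚ[X], Z = ∏ c : Fin d, (X - C ((z c : ℤ) : ℚ)) := ⟨_, rfl⟩
  have hZm : Z.Monic := by
    rw [hZ]
    exact monic_prod_of_monic _ _ fun c _ => monic_X_sub_C _
  have hZd : Z.natDegree = d := by
    rw [hZ, natDegree_prod_of_monic _ _ fun c _ => monic_X_sub_C _]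
    simp only [natDegree_X_sub_C]
    simp
  have hZc : Z.coeff (d - 1) = -∑ c, ((z c : ℤ) : ℚ) := by
    have h1 := prod_X_sub_C_coeff_card_pred (Finset.univ : Finset (Fin d))
      (fun c => ((z c : ℤ) : ℚ)) (by rw [hcard]; omega)
    rw [hcard] at h1
    rw [hZ]
    exact h1
  obtain ⟨P, hP⟩ : ∃ P : ℚ[X], P = f.F - C f.F.leadingCoeff * Z := ⟨_, rfl⟩
  have hPd : P.coeff d = 0 := by
    have h1 : f.F.coeff d = f.F.leadingCoeff := by rw [leadingCoeff, f.deg]
    have h2 : Z.coeff d = 1 := by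
      have h3 := hZm.coeff_natDegree
      rwa [hZd] at h3
    rw [hP, coeff_sub, coeff_C_mul, h1, h2, mul_one, sub_self]
  have hle : P.natDegree ≤ d := by
    rw [hP]
    exact (natDegree_sub_le _ _).trans (max_le f.deg.le ((natDegree_C_mul_le _ _).trans hZd.le))
  have hlt : P.natDegree < d := by
    rcases hle.lt_or_eq with h1 | h1
    · exact h1
    · exfalso
      have h2 : P.leadingCoeff = 0 := by rw [leadingCoeff, h1]; exact hPd
      rw [leadingCoeff_eq_zero] at h2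
      rw [h2, natDegree_zero] at h1
      omega
  have hlag := lag_coeff (K := ℚ) (Finset.univ : Finset (Fin d)) (fun c : Fin d => ((z c : ℤ) : ℚ))
    hinj P (by rw [hcard]; exact hlt)
  rw [hcard] at hlag
  have hco : P.coeff (d - 1) = f.F.leadingCoeff * ((∑ c, ((z c : ℤ) : ℚ)) - sF f.F d) := by
    rw [hP, coeff_sub, coeff_C_mul, hZc]
    unfold sF
    field_simp
    ring
  rw [hco] at hlag
  have hev : ∀ c, P.eval ((z c : ℤ) : ℚ) = ((f.ph (z c) : ℤ) : ℚ) := by
    intro c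
    have h1 : Z.eval ((z c : ℤ) : ℚ) = 0 := by
      rw [hZ, eval_prod]
      exact Finset.prod_eq_zero (Finset.mem_univ c) (by simp)
    rw [hP, eval_sub, eval_mul, h1, mul_zero, sub_zero, f.val _ (hz c).1 (hz c).2.1]
  have hq0 : 0 < R * Real.exp (-(θ * m)) := by positivity
  have hterm : ∀ c : Fin d, A (P.eval ((z c : ℤ) : ℚ) *
      (∏ j ∈ Finset.univ.erase c, (((z c : ℤ) : ℚ) - ((z j : ℤ) : ℚ)))⁻¹) ≤
      R * ((R * Real.exp (-(θ * m))) ^ (d - 1))⁻¹ := by
    intro c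
    rw [hev c, map_mul, map_inv₀, map_prod]
    have h1 : (R * Real.exp (-(θ * m))) ^ (d - 1) ≤
        ∏ j ∈ Finset.univ.erase c, A (((z c : ℤ) : ℚ) - ((z j : ℤ) : ℚ)) := by
      have h2 : (R * Real.exp (-(θ * m))) ^ (d - 1) =
          ∏ _j ∈ Finset.univ.erase c, (R * Real.exp (-(θ * m))) := by
        rw [Finset.prod_const, Finset.card_erase_of_mem (Finset.mem_univ c), hcard]
      rw [h2]
      apply Finset.prod_le_prod
      · intro j _
        exact hq0.le
      · intro j hj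
        apply h.sep _ (hz c).1 _ (hz j).1 (hz c).2.1 (hz j).2.1
        rw [(hz c).2.2, (hz j).2.2]
        exact fun hcj => (Finset.mem_erase.1 hj).1 hcj.symm
    apply mul_le_mul (h.bd _ (f.maps _ (hz c).1 (hz c).2.1)) _ (by
      apply inv_nonneg.2
      exact Finset.prod_nonneg fun j _ => A.nonneg _) hR.le
    exact inv_anti₀ (by positivity) h1
  have hsum : A (f.F.leadingCoeff * ((∑ c, ((z c : ℤ) : ℚ)) - sF f.F d)) ≤
      d * (R * ((R * Real.exp (-(θ * m))) ^ (d - 1))⁻¹) := by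
    rw [← hlag]
    refine (A.sum_le _ _).trans ?_
    refine (Finset.sum_le_sum fun c _ => hterm c).trans ?_
    rw [Finset.sum_const, hcard, nsmul_eq_mul]
  rw [map_mul] at hsum
  have hlead := h.lead (by omega : 1 ≤ d)
  have hRd : 0 < R ^ (d - 1) := by positivity
  have hAα : 0 < A f.F.leadingCoeff := A.pos hα0
  -- multiply by `R ^ (d - 1)`
  have h1 : Real.exp m * A ((∑ c, ((z c : ℤ) : ℚ)) - sF f.F d) ≤
      d * R * Real.exp (((d : ℝ) - 1) * (θ * m)) := by
    have h2 : ((R * Real.exp (-(θ * m))) ^ (d - 1))⁻¹ * R ^ (d - 1) =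
        Real.exp (((d : ℝ) - 1) * (θ * m)) := by
      have h3 : (Real.exp (-(θ * m))) ^ (d - 1) = Real.exp (-(((d : ℝ) - 1) * (θ * m))) := by
        rw [← Real.exp_nat_mul, Nat.cast_sub (by omega : 1 ≤ d), Nat.cast_one]
        congr 1
        ring
      rw [mul_pow, h3, Real.exp_neg]
      field_simp
    calc Real.exp m * A ((∑ c, ((z c : ℤ) : ℚ)) - sF f.F d)
        = (A f.F.leadingCoeff * A ((∑ c, ((z c : ℤ) : ℚ)) - sF f.F d)) * R ^ (d - 1) := by
          rw [← hlead]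
          ring
      _ ≤ (d * (R * ((R * Real.exp (-(θ * m))) ^ (d - 1))⁻¹)) * R ^ (d - 1) :=
          mul_le_mul_of_nonneg_right hsum hRd.le
      _ = d * R * (((R * Real.exp (-(θ * m))) ^ (d - 1))⁻¹ * R ^ (d - 1)) := by ring
      _ = d * R * Real.exp (((d : ℝ) - 1) * (θ * m)) := by rw [h2]
  have hlog : Real.log d ≤ θ * m := hH.trans h.big
  have hdθ : (d : ℝ) * (θ * m) ≤ θ' * m := by
    have h2 : θ * m ≤ θ' / d * m := mul_le_mul_of_nonneg_right hθ hm.le
    calc (d : ℝ) * (θ * m) ≤ d * (θ' / d * m) := mul_le_mul_of_nonneg_left h2 hd0.le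
      _ = θ' * m := by field_simp
  have h4 : (d : ℝ) * R * Real.exp (((d : ℝ) - 1) * (θ * m)) ≤
      Real.exp m * (R * Real.exp (-((1 - θ') * m))) := by
    have h5 : (d : ℝ) = Real.exp (Real.log d) := (Real.exp_log hd0).symm
    have h6 : (d : ℝ) * R * Real.exp (((d : ℝ) - 1) * (θ * m)) =
        R * Real.exp (Real.log d + ((d : ℝ) - 1) * (θ * m)) := by
      rw [Real.exp_add, Real.exp_log hd0]
      ring
    have h7 : Real.exp m * (R * Real.exp (-((1 - θ') * m))) = R * Real.exp (θ' * m) := by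
      have h8 : θ' * m = m + -((1 - θ') * m) := by ring
      rw [h8, Real.exp_add]
      ring
    rw [h6, h7]
    apply mul_le_mul_of_nonneg_left _ hR.le
    apply Real.exp_le_exp.2
    linarith
  exact le_of_mul_le_mul_left (h1.trans h4) (Real.exp_pos m)

end F0744U
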