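import Pool.Agent.Lib.MP_f0744f_nt.C.A5
import Pool.Agent.Lib.MP_f0744f_nt.U.Af

/-! # Row E6: centroids -/

set_option autoImplicit false

open Polynomial

namespace F0744U

open F0744C F0744D

variable {S : Finset ℤ} {a b : ℤ} {d e : ℕ}

/-- For each class `c` let `x c ∈ T` with `cl (f.ph^[k] (x c)) = c` (`FullU`). `G (x c) = c0 + s f.ph^[k] (x c)`, which is `c0 + s z c` up to `2 R exp (- (1 - θ) m)` (`UP.close`). `UP.aff` with `c3 = s` (`A s = 1`), `aff_sum`: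
`A ((s - 1) ∑ z + d c0) ≤ d 4 R exp (- (1 - θ) m)`. -/
theorem cenU (hd : 2 ≤ d) (k : ℕ) {θ' : ℝ} (hθ' : 0 < θ') : ∃ θ0 H0 : ℝ, 0 < θ0 ∧
    ∀ (S : Finset ℤ) (a : ℤ) (f : PM S a d) (A : AbsoluteValue ℚ ℝ) (R m θ H : ℝ) (cl : ℤ → Fin d),
      UP f A R m θ H cl → θ ≤ θ0 → H0 ≤ H → ∀ T ⊆ Dm S a f.ph (k + 1), FullU f.ph cl (k + 1) T →
      ∀ z : Fin d → ℤ, (∀ c, z c ∈ S ∧ z c ≠ a ∧ cl (z c) = c) →
      ∀ (c0 s : ℚ) (G : ℤ → ℤ), s = 1 ∨ s = -1 →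
      (∀ x ∈ T, G x ∈ S ∧ G x ≠ a ∧ ((G x : ℤ) : ℚ) = c0 + s * ((f.ph^[k] x : ℤ) : ℚ)) →
      A ((s - 1) * (∑ c, (z c : ℚ)) + d * c0) ≤ R * Real.exp (-((1 - θ') * m)) := by
  refine ⟨min (1 / 4) (θ' / 2), Real.log (4 * d), lt_min (by norm_num) (by positivity), ?_⟩
  intro S a f A R m θ H cl h hθ hH T hT hfull z hz c0 s G hs hG
  have hθ1 : θ ≤ 1 / 4 := hθ.trans (min_le_left _ _)
  have hθ2 : θ ≤ θ' / 2 := hθ.trans (min_le_right _ _)
  have hR : 0 < R := by linarith [h.R1]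
  have hm := h.m0
  have hd' : (2 : ℝ) ≤ d := by exact_mod_cast hd
  have hlog : Real.log (4 * d) ≤ θ * m := hH.trans h.big
  have hlog6 : Real.log 6 < Real.log (4 * d) := Real.log_lt_log (by norm_num) (by linarith)
  have hlog60 : 0 < Real.log 6 := Real.log_pos (by norm_num)
  have hθm : θ * m ≤ 1 / 4 * m := mul_le_mul_of_nonneg_right hθ1 hm.le
  have hθm2 : θ * m ≤ θ' / 2 * m := mul_le_mul_of_nonneg_right hθ2 hm.le
  have hAs : A s = 1 := by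
    rcases hs with rfl | rfl
    · exact map_one A
    · rw [A.map_neg, map_one]
  have hx : ∀ c : Fin d, ∃ x ∈ T, cl (f.ph^[k] x) = c := by
    intro c
    obtain ⟨x, hx, hxi⟩ := hfull (fun _ => c)
    exact ⟨x, hx, hxi k (Nat.lt_succ_self k)⟩
  choose x hxT hxc using hx
  have hy : ∀ c : Fin d, f.ph^[k] (x c) ∈ S ∧ f.ph^[k] (x c) ≠ a := fun c =>
    iter_mem (hT (hxT c)) (Nat.lt_succ_self k)
  have hclose : ∀ c : Fin d, A ((z c : ℚ) - ((f.ph^[k] (x c) : ℤ) : ℚ)) ≤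
      2 * R * Real.exp (-((1 - θ) * m)) := fun c =>
    h.close (hz c).1 (hy c).1 (hz c).2.1 (hy c).2 ((hz c).2.2.trans (hxc c).symm)
  have hG' : ∀ j : Fin d, G (x j) ∈ S ∧ G (x j) ≠ a ∧
      A (s * (z j : ℚ) + c0 - (G (x j) : ℤ)) ≤ 2 * R * Real.exp (-((1 - θ) * m)) := by
    intro j
    obtain ⟨h1, h2, h3⟩ := hG (x j) (hxT j)
    refine ⟨h1, h2, ?_⟩
    have e : s * (z j : ℚ) + c0 - (G (x j) : ℤ) = s * ((z j : ℚ) - ((f.ph^[k] (x j) : ℤ) : ℚ)) := by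
      rw [h3]
      ring
    rw [e, map_mul, hAs, one_mul]
    exact hclose j
  have hE : 2 * (2 * R * Real.exp (-((1 - θ) * m))) + 2 * R * Real.exp (-((1 - θ) * m)) <
      A s * (R * Real.exp (-(θ * m))) := by
    rw [hAs, one_mul]
    have h1 : 6 * Real.exp (-((1 - θ) * m)) < Real.exp (-(θ * m)) := by
      have h2 : (6 : ℝ) = Real.exp (Real.log 6) := (Real.exp_log (by norm_num)).symm
      rw [h2, ← Real.exp_add, Real.exp_lt_exp]
      have h3 : (1 - θ) * m = m - θ * m := by ring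
      rw [h3]
      linarith
    have h4 : R * (6 * Real.exp (-((1 - θ) * m))) < R * Real.exp (-(θ * m)) :=
      mul_lt_mul_of_pos_left h1 hR
    linarith
  obtain ⟨π, hπ⟩ := h.aff hz hG' hE
  refine (aff_sum A hπ).trans ?_
  have h1 : 4 * (d : ℝ) * Real.exp (-((1 - θ) * m)) ≤ Real.exp (-((1 - θ') * m)) := by
    have h2 : 4 * (d : ℝ) = Real.exp (Real.log (4 * d)) := (Real.exp_log (by positivity)).symm
    rw [h2, ← Real.exp_add, Real.exp_le_exp]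
    have h3 : (1 - θ) * m = m - θ * m := by ring
    have h4 : (1 - θ') * m = m - θ' * m := by ring
    rw [h3, h4]
    linarith
  have h5 : R * (4 * (d : ℝ) * Real.exp (-((1 - θ) * m))) ≤ R * Real.exp (-((1 - θ') * m)) :=
    mul_le_mul_of_nonneg_left h1 hR.le
  calc (d : ℝ) * (2 * R * Real.exp (-((1 - θ) * m)) + 2 * R * Real.exp (-((1 - θ) * m)))
      = R * (4 * (d : ℝ) * Real.exp (-((1 - θ) * m))) := by ring
    _ ≤ R * Real.exp (-((1 - θ') * m)) := h5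

end F0744U
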