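import Pool.Agent.Lib.MP_f0744f_nt.U.B0

/-! # Row E7: power maps have no good place; unicritical polynomials -/

set_option autoImplicit false

open Polynomial

namespace F0744U

open F0744C F0744D

variable {S : Finset ℤ} {a b : ℤ} {d e : ℕ}

/-- the coefficient of `X ^ (d - 1)` in `α (X - γ) ^ d + β` is `- d γ α` (`d ≥ 2`) -/
theorem uni_sF (hd : 2 ≤ d) {α γ β : ℚ} (hα : α ≠ 0) : sF (C α * (X - C γ) ^ d + C β) d = d * γ := by
  have hd0 : d ≠ 0 := by omega
  have hm : ((X - C γ : ℚ[X]) ^ d).Monic := (monic_X_sub_C γ).pow d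
  have hdeg : (C α * (X - C γ : ℚ[X]) ^ d).degree = (d : WithBot ℕ) := by
    rw [degree_C_mul hα, degree_pow, degree_X_sub_C, nsmul_one]
  have hlt : (C β : ℚ[X]).degree < (C α * (X - C γ : ℚ[X]) ^ d).degree := by
    rw [hdeg]
    refine lt_of_le_of_lt degree_C_le ?_
    exact_mod_cast Nat.pos_of_ne_zero hd0
  have hlc : (C α * (X - C γ : ℚ[X]) ^ d + C β).leadingCoeff = α := by
    rw [leadingCoeff_add_of_degree_lt' hlt, leadingCoeff_mul, leadingCoeff_C, hm.leadingCoeff, mul_one]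
  have hch : d.choose (d - 1) = d := by
    obtain ⟨k, rfl⟩ : ∃ k, d = k + 1 := ⟨d - 1, by omega⟩
    simp
  have hco : (C α * (X - C γ : ℚ[X]) ^ d + C β).coeff (d - 1) = α * (-γ * d) := by
    have hs : (X - C γ : ℚ[X]) = X + C (-γ) := by rw [C_neg]; ring
    rw [coeff_add, coeff_C_mul, hs, coeff_X_add_C_pow, hch, coeff_C_of_ne_zero (by omega), add_zero]
    have h1 : d - (d - 1) = 1 := by omega
    rw [h1, pow_one]
  unfold sF
  rw [hlc, hco]
  field_simp

/-- `(2 γ - y - γ) ^ d = (- 1) ^ d (y - γ) ^ d` -/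
theorem uni_even {α γ β : ℚ} (hd : Even d) (y : ℚ) :
    (C α * (X - C γ) ^ d + C β).eval (2 * γ - y) = (C α * (X - C γ) ^ d + C β).eval y := by
  simp only [eval_add, eval_mul, eval_C, eval_pow, eval_sub, eval_X]
  have h : 2 * γ - y - γ = -(y - γ) := by ring
  rw [h, hd.neg_pow]

theorem uni_odd {α γ β : ℚ} (hd : Odd d) (y : ℚ) :
    (C α * (X - C γ) ^ d + C β).eval (2 * γ - y) = 2 * β - (C α * (X - C γ) ^ d + C β).eval y := by
  simp only [eval_add, eval_mul, eval_C, eval_pow, eval_sub, eval_X]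
  have h : 2 * γ - y - γ = -(y - γ) := by ring
  rw [h, hd.neg_pow]
  ring

end F0744U
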