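import Pool.Agent.Lib.MP_f0744f_nt.U.B0

/-! # Row E7: power maps have no good place; unicritical polynomials -/

set_option autoImplicit false

open Polynomial

namespace F0744U

open F0744C F0744D

variable {S : Finset ℤ} {a b : ℤ} {d e : ℕ}

/-- the leading coefficient of a power map -/
theorem E7_1_lead (hd : 2 ≤ d) {F : ℚ[X]} (hdeg : F.natDegree = d) {α γ : ℚ}
    (hF : F = C α * (X - C γ) ^ d + C γ) : F.leadingCoeff = α := by
  have h1 : F.leadingCoeff = F.coeff d := by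
    rw [Polynomial.leadingCoeff, hdeg]
  rw [h1, hF, Polynomial.coeff_add, Polynomial.coeff_C_mul, Polynomial.coeff_C_of_ne_zero (by omega),
    add_zero]
  have h2 : ((X - C γ : ℚ[X]) ^ d).coeff d = 1 := by
    have hm : ((X - C γ : ℚ[X]) ^ d).Monic := (monic_X_sub_C γ).pow d
    have hn : ((X - C γ : ℚ[X]) ^ d).natDegree = d := by
      rw [Polynomial.natDegree_pow, Polynomial.natDegree_X_sub_C, mul_one]
    have := hm.coeff_natDegree
    rwa [hn] at this
  rw [h2, mul_one]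

/-- all elements of `S \ {a}` are very close to `γ` -/
theorem E7_1_small (hd : 2 ≤ d) {f : PM S a d} {A : AbsoluteValue ℚ ℝ} {R m θ H : ℝ}
    {cl : ℤ → Fin d} (h : UP f A R m θ H cl) {α γ : ℚ}
    (hF : f.F = C α * (X - C γ) ^ d + C γ) {x : ℤ} (hx : x ∈ S) (hxa : x ≠ a) :
    A ((x : ℚ) - γ) ^ d ≤ 4 * (R ^ d * Real.exp (-m)) := by
  have hlc : f.F.leadingCoeff = α := E7_1_lead hd f.deg hF
  have hlead : A α * R ^ (d - 1) = Real.exp m := by
    have := h.lead (by omega)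
    rwa [hlc] at this
  have hR1 := h.R1
  have hR : 0 < R := by linarith
  have hm := h.m0
  have hexp1 : Real.exp (-m) < 1 := by
    rw [Real.exp_lt_one_iff]; linarith
  have hexp0 : 0 < Real.exp (-m) := Real.exp_pos _
  have hmm : Real.exp (-m) * Real.exp m = 1 := by
    rw [← Real.exp_add]; simp
  have hpow : R ^ d = R ^ (d - 1) * R := by
    rw [← pow_succ]; congr 1; omega
  -- the functional equation
  have hfun : ∀ y ∈ S, y ≠ a → A α * A ((y : ℚ) - γ) ^ d = A (((f.ph y : ℤ) : ℚ) - γ) := by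
    intro y hy hya
    have h1 := f.val y hy hya
    rw [h1, hF]
    simp only [eval_add, eval_mul, eval_C, eval_pow, eval_sub, eval_X]
    rw [add_sub_cancel_right, map_mul, map_pow]
  -- if `A α w ^ d ≤ c R` then `w ^ d ≤ c R ^ d exp (- m)`
  have hkey : ∀ w c : ℝ, A α * w ^ d ≤ c * R → w ^ d ≤ c * (R ^ d * Real.exp (-m)) := by
    intro w c hw
    have h1 : A α * w ^ d * (R ^ (d - 1) * Real.exp (-m)) ≤
        c * R * (R ^ (d - 1) * Real.exp (-m)) :=
      mul_le_mul_of_nonneg_right hw (by positivity)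
    have h2 : A α * w ^ d * (R ^ (d - 1) * Real.exp (-m)) = w ^ d := by
      calc A α * w ^ d * (R ^ (d - 1) * Real.exp (-m)) =
          w ^ d * (A α * R ^ (d - 1)) * Real.exp (-m) := by ring
        _ = w ^ d * (Real.exp (-m) * Real.exp m) := by rw [hlead]; ring
        _ = w ^ d := by rw [hmm, mul_one]
    rw [h2] at h1
    calc w ^ d ≤ c * R * (R ^ (d - 1) * Real.exp (-m)) := h1
      _ = c * (R ^ d * Real.exp (-m)) := by rw [hpow]; ring
  -- if `A α w ^ d ≤ 2 w` and `0 < w` then `w < 2 R`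
  have hkey2 : ∀ w : ℝ, A α * w ^ d ≤ 2 * w → 0 ≤ w → w < 2 * R := by
    intro w hw hw0
    by_contra hcon
    push Not at hcon
    have hwpos : 0 < w := by linarith
    have h1 : A α * w ^ (d - 1) ≤ 2 := by
      have h2 : A α * w ^ d = A α * w ^ (d - 1) * w := by
        rw [mul_assoc, ← pow_succ]; congr 2; omega
      rw [h2] at hw
      exact le_of_mul_le_mul_right hw hwpos
    have h3 : (2 * R) ^ (d - 1) ≤ w ^ (d - 1) := pow_le_pow_left₀ (by linarith) hcon _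
    have h4 : A α * (2 * R) ^ (d - 1) ≤ 2 := le_trans (mul_le_mul_of_nonneg_left h3 (A.nonneg _)) h1
    have h5 : A α * (2 * R) ^ (d - 1) = 2 ^ (d - 1) * Real.exp m := by
      rw [mul_pow, ← hlead]; ring
    rw [h5] at h4
    have h6 : (2 : ℝ) ^ 1 ≤ 2 ^ (d - 1) := pow_le_pow_right₀ (by norm_num) (by omega)
    have h7 : 1 < Real.exp m := Real.one_lt_exp_iff.mpr hm
    nlinarith
  obtain ⟨x1, hx1, hmax⟩ := S.exists_max_image (fun y => A ((y : ℚ) - γ)) ⟨x, hx⟩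
  by_cases hx1a : x1 = a
  · -- `U = A (a - γ)`
    have hbd1 : A ((a : ℤ) : ℚ) ≤ R := by rw [← hx1a]; exact h.bd x1 hx1
    have hbd2 := h.bd x hx
    have h1 : A ((a : ℚ) - γ) ≤ A ((x : ℚ) - γ) + 2 * R := by
      have h2 : (a : ℚ) - γ = ((x : ℚ) - γ) + ((a : ℚ) - x) := by ring
      have h3 : A ((a : ℚ) - x) ≤ A (a : ℚ) + A (x : ℚ) := by
        have := A.add_le (a : ℚ) (-(x : ℚ))
        rw [A.map_neg, ← sub_eq_add_neg] at this
        exact this
      rw [h2]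
      have h4 := A.add_le ((x : ℚ) - γ) ((a : ℚ) - x)
      linarith
    have h5 : A α * A ((x : ℚ) - γ) ^ d ≤ A ((x : ℚ) - γ) + 2 * R := by
      rw [hfun x hx hxa]
      have h6 := hmax (f.ph x) (f.maps x hx hxa)
      rw [hx1a] at h6
      exact le_trans h6 h1
    have h7 : A ((x : ℚ) - γ) < 2 * R := by
      by_contra hcon
      push Not at hcon
      have := hkey2 _ (le_trans h5 (by linarith)) (A.nonneg _)
      linarith
    exact hkey _ _ (le_trans h5 (by linarith))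
  · have h1 : A α * A ((x1 : ℚ) - γ) ^ d ≤ A ((x1 : ℚ) - γ) := by
      rw [hfun x1 hx1 hx1a]
      exact hmax (f.ph x1) (f.maps x1 hx1 hx1a)
    have h0 := A.nonneg ((x1 : ℚ) - γ)
    have h2 : A ((x1 : ℚ) - γ) < 2 * R := hkey2 _ (by linarith) h0
    have h3 : A ((x : ℚ) - γ) ^ d ≤ A ((x1 : ℚ) - γ) ^ d :=
      pow_le_pow_left₀ (A.nonneg _) (hmax x hx) _
    exact le_trans h3 (hkey _ _ (by linarith))

/-- Let `u x = x - γ` for `x ∈ S`, so `α (u x) ^ d = u (f.ph x)` for `x ∈ S \ {a}`, `A α = exp m R ^ (1 - d)` (`UP.lead`; the leading coefficient of `C α * (X - C γ) ^ d + C γ` is `α`). Let `U` be the maximum of the `A (u x)`, `x ∈ S`, attained at `x1`.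
If `x1 ≠ a`: `A α U ^ d ≤ U`, so `U ≤ R exp (- m / (d - 1))` (or `U = 0`). If `x1 = a`: for every `x ∈ S \ {a}` `U ≤ A (u x) + 2 R` (`bd`), so `A α A (u x) ^ d ≤ A (u x) + 2 R`; hence `A (u x) < 2 R` (otherwise
`A (u x) ^ (d - 1) ≤ 2 R ^ (d - 1) exp (- m)`) and `A (u x) ^ d ≤ 4 R ^ d exp (- m)`. In both cases `A (x - y) ≤ 8 R exp (- m / d)` for `x, y ∈ S \ {a}`, less than `R exp (- θ m)`: contradiction to `sep` for the points `z c` of two different classes. -/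
theorem no_power (hd : 2 ≤ d) : ∃ θ0 H0 : ℝ, 0 < θ0 ∧
    ∀ (S : Finset ℤ) (a : ℤ) (f : PM S a d) (A : AbsoluteValue ℚ ℝ) (R m θ H : ℝ) (cl : ℤ → Fin d),
      UP f A R m θ H cl → θ ≤ θ0 → H0 ≤ H →
      ∀ z : Fin d → ℤ, (∀ c, z c ∈ S ∧ z c ≠ a ∧ cl (z c) = c) →
      ∀ α γ : ℚ, f.F = C α * (X - C γ) ^ d + C γ → False := by
  have hd0 : (0 : ℝ) < d := by
    have : 0 < d := by omega
    exact_mod_cast this
  refine ⟨1 / (2 * d), 2, by positivity, ?_⟩
  intro S a f A R m θ H cl h hθ hH z hz α γ hF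
  have hR1 := h.R1
  have hR : 0 < R := by linarith
  have hm := h.m0
  have hbig : 2 ≤ θ * m := le_trans hH h.big
  have hdθ : (d : ℝ) * θ ≤ 1 / 2 := by
    have h1 : (d : ℝ) * θ ≤ d * (1 / (2 * d)) := mul_le_mul_of_nonneg_left hθ hd0.le
    have h2 : (d : ℝ) * (1 / (2 * d)) = 1 / 2 := by field_simp
    linarith
  have hmbig : 4 * (d : ℝ) ≤ m := by
    have h1 : (d : ℝ) * 2 ≤ d * (θ * m) := mul_le_mul_of_nonneg_left hbig hd0.le
    have h2 : (d : ℝ) * (θ * m) = (d * θ) * m := by ring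
    have h3 : ((d : ℝ) * θ) * m ≤ 1 / 2 * m := mul_le_mul_of_nonneg_right hdθ hm.le
    linarith
  -- two classes
  let c0 : Fin d := ⟨0, by omega⟩
  let c1 : Fin d := ⟨1, by omega⟩
  have hc : c0 ≠ c1 := by
    intro hcon
    have := congrArg Fin.val hcon
    simp [c0, c1] at this
  obtain ⟨hx, hxa, hxc⟩ := hz c0
  obtain ⟨hy, hya, hyc⟩ := hz c1
  have hsep := h.sep (z c0) hx (z c1) hy hxa hya (by rw [hxc, hyc]; exact hc)
  have hx1 := E7_1_small hd h hF hx hxa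
  have hy1 := E7_1_small hd h hF hy hya
  -- the larger one of the two distances to `γ`
  obtain ⟨w, hw0, hwx, hwy, hw⟩ : ∃ w : ℝ, 0 ≤ w ∧ A ((z c0 : ℚ) - γ) ≤ w ∧
      A ((z c1 : ℚ) - γ) ≤ w ∧ w ^ d ≤ 4 * (R ^ d * Real.exp (-m)) := by
    rcases le_total (A ((z c0 : ℚ) - γ)) (A ((z c1 : ℚ) - γ)) with hle | hle
    · exact ⟨_, A.nonneg _, hle, le_rfl, hy1⟩
    · exact ⟨_, A.nonneg _, le_rfl, hle, hx1⟩
  have hdist : A ((z c0 : ℚ) - z c1) ≤ 2 * w := by
    have h1 : (z c0 : ℚ) - z c1 = ((z c0 : ℚ) - γ) + -((z c1 : ℚ) - γ) := by ring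
    have h2 := A.add_le ((z c0 : ℚ) - γ) (-((z c1 : ℚ) - γ))
    rw [A.map_neg] at h2
    rw [h1]
    linarith
  have hpow : (R * Real.exp (-(θ * m))) ^ d ≤ (2 * w) ^ d :=
    pow_le_pow_left₀ (by positivity) (le_trans hsep hdist) _
  have hA : R ^ d * Real.exp (-(d * θ * m)) ≤ 2 ^ d * (4 * (R ^ d * Real.exp (-m))) := by
    have h1 : (R * Real.exp (-(θ * m))) ^ d = R ^ d * Real.exp (-(d * θ * m)) := by
      rw [mul_pow, ← Real.exp_nat_mul]
      congr 2
      ring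
    rw [h1, mul_pow] at hpow
    exact le_trans hpow (mul_le_mul_of_nonneg_left hw (by positivity))
  have hRd : 0 < R ^ d := by positivity
  have hB : Real.exp (-(d * θ * m)) ≤ 2 ^ d * 4 * Real.exp (-m) := by
    have h1 : R ^ d * Real.exp (-(d * θ * m)) ≤ R ^ d * (2 ^ d * 4 * Real.exp (-m)) := by
      calc R ^ d * Real.exp (-(d * θ * m)) ≤ 2 ^ d * (4 * (R ^ d * Real.exp (-m))) := hA
        _ = R ^ d * (2 ^ d * 4 * Real.exp (-m)) := by ring
    exact le_of_mul_le_mul_left h1 hRd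
  have hC : Real.exp (m - d * θ * m) ≤ 2 ^ d * 4 := by
    have h1 : Real.exp (m - d * θ * m) = Real.exp (-(d * θ * m)) * Real.exp m := by
      rw [← Real.exp_add]; congr 1; ring
    have h2 : Real.exp (-m) * Real.exp m = 1 := by
      rw [← Real.exp_add]; simp
    rw [h1]
    calc Real.exp (-(d * θ * m)) * Real.exp m ≤ 2 ^ d * 4 * Real.exp (-m) * Real.exp m :=
          mul_le_mul_of_nonneg_right hB (Real.exp_pos _).le
      _ = 2 ^ d * 4 := by rw [mul_assoc, h2, mul_one]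
  have hD : 2 * (d : ℝ) ≤ m - d * θ * m := by
    have h3 : ((d : ℝ) * θ) * m ≤ 1 / 2 * m := mul_le_mul_of_nonneg_right hdθ hm.le
    linarith
  have hE : Real.exp (2 * (d : ℝ)) ≤ 2 ^ d * 4 := le_trans (Real.exp_le_exp.mpr hD) hC
  have h2e : (2 : ℝ) < Real.exp 1 := by
    have := Real.exp_one_gt_d9
    linarith
  have hG : (2 : ℝ) ^ (2 * d) < Real.exp (2 * (d : ℝ)) := by
    have h1 : Real.exp (2 * (d : ℝ)) = Real.exp 1 ^ (2 * d) := by
      rw [← Real.exp_nat_mul]; congr 1; push_cast; ring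
    rw [h1]
    exact pow_lt_pow_left₀ h2e (by norm_num) (by omega)
  have hI : (2 : ℝ) ^ d * 4 ≤ 2 ^ (2 * d) := by
    have h1 : (2 : ℝ) ^ (2 * d) = 2 ^ d * 2 ^ d := by rw [← pow_add]; congr 1; omega
    have h2 : (2 : ℝ) ^ 2 ≤ 2 ^ d := pow_le_pow_right₀ (by norm_num) hd
    rw [h1]
    have h3 : (4 : ℝ) ≤ 2 ^ d := by linarith
    exact mul_le_mul_of_nonneg_left h3 (by positivity)
  linarith

end F0744U
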