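import Pool.Agent.Lib.MP_f0744f_nt.C.G1
import Pool.Agent.Lib.MP_f0744f_nt.D.G6
import Pool.Agent.Lib.MP_f0744f_nt.U.Cx

/-! # Row G6: the product formula -/

set_option autoImplicit false

open Polynomial

namespace F0744U

open F0744C F0744D

variable {S : Finset ℤ} {a b : ℤ} {d e : ℕ}

/-- The same proof as `sum_bound` in `D/G6.lean`. -/
theorem sum_boundU {f : PM S a d} {g : PM S b e} {J : ℕ} {L κ θ H C : ℝ} {B : ℕ} {TT : Finset ℕ}
    {rt : Bool} {T U : Finset ℤ} (h : CtxU f g J L κ θ H C B TT rt T U) {q : ℚ} (hq : q ≠ 0)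
    (h1 : q.num.natAbs ≤ B) (h2 : q.den ≤ B) {k v w D : ℝ} (hw : 0 ≤ w) (hD : 0 ≤ D)
    (hT : ∀ (p : ℕ) [Fact p.Prime], p ∈ TT →
      Rat.AbsoluteValue.padic p q ≤ Real.exp (v * mP p f.F))
    (hN : ∀ (p : ℕ) [Fact p.Prime], p ∈ Ps B \ TT →
      Rat.AbsoluteValue.padic p q ≤ Real.exp (w * (EnP p U + max 0 (-mP p f.F))))
    (hRT : rt = true → |(q : ℝ)| ≤
      Real.exp (k * Real.log L + v * mm Rat.AbsoluteValue.real L d f.F))
    (hRN : rt = false → |(q : ℝ)| ≤ Real.exp (k * Real.log L + w * (EnX Rat.AbsoluteValue.real L U +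
        max 0 (-mm Rat.AbsoluteValue.real L d f.F)) + D)) :
    0 ≤ k * Real.log L + v * massU f.F d L TT rt + w * (κ * Real.log L) + D := by
  have hpr : ∀ p ∈ Ps B, p.Prime := fun p hp => (Finset.mem_filter.1 hp).2
  have hlogT : ∀ p ∈ TT, - vp p q ≤ v * mP p f.F := by
    intro p hp
    haveI : Fact p.Prime := ⟨hpr p (h.TTs hp)⟩
    rw [← log_padic p hq]
    have hpos : 0 < Rat.AbsoluteValue.padic p q := (Rat.AbsoluteValue.padic p).pos hq
    exact (Real.log_le_iff_le_exp hpos).2 (hT p hp)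
  have hlogN : ∀ p ∈ Ps B \ TT, - vp p q ≤ w * (EnP p U + max 0 (-mP p f.F)) := by
    intro p hp
    haveI : Fact p.Prime := ⟨hpr p (Finset.mem_sdiff.1 hp).1⟩
    rw [← log_padic p hq]
    have hpos : 0 < Rat.AbsoluteValue.padic p q := (Rat.AbsoluteValue.padic p).pos hq
    exact (Real.log_le_iff_le_exp hpos).2 (hN p hp)
  have hpf := pf hq h1 h2
  have hsplit : ∑ p ∈ Ps B, vp p q = ∑ p ∈ Ps B \ TT, vp p q + ∑ p ∈ TT, vp p q :=
    (Finset.sum_sdiff h.TTs).symm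
  have hsT : - ∑ p ∈ TT, vp p q ≤ v * ∑ p ∈ TT, mP p f.F := by
    rw [← Finset.sum_neg_distrib, Finset.mul_sum]
    exact Finset.sum_le_sum hlogT
  have hsN : - ∑ p ∈ Ps B \ TT, vp p q ≤ w * ∑ p ∈ Ps B \ TT, (EnP p U + max 0 (-mP p f.F)) := by
    rw [← Finset.sum_neg_distrib, Finset.mul_sum]
    exact Finset.sum_le_sum hlogN
  have hqpos : 0 < |(q : ℝ)| := abs_pos.2 (by exact_mod_cast hq)
  have hnt := mul_le_mul_of_nonneg_left h.nt hw
  unfold massU
  cases hrt : rt with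
  | true =>
    have h3 := (Real.log_le_iff_le_exp hqpos).2 (hRT hrt)
    rw [hrt] at hnt
    simp only [if_true, add_zero] at hnt ⊢
    linarith
  | false =>
    have h3 := (Real.log_le_iff_le_exp hqpos).2 (hRN hrt)
    rw [hrt] at hnt
    simp only [Bool.false_eq_true, if_false, add_zero] at hnt ⊢
    linarith

end F0744U
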