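import Pool.Agent.Lib.MP_f0744f_nt.C.A2
import Pool.Agent.Lib.MP_f0744f_nt.U.Sd

/-! # Row K0a: expansion -/

set_option autoImplicit false

open Polynomial

namespace F0744U

open F0744C F0744D

variable {S : Finset ℤ} {a b : ℤ} {d e : ℕ}

/-- The same proof as `expand` in `D/K0a.lean`. -/
theorem expandU {F : ℚ[X]} (hF : F.natDegree = d) (hd : 2 ≤ d) (J : ℕ) (N : ℕ) (G : ℚ[X])
    (hG : G.natDegree ≤ N) :
    ∃ c : ℕ → ℚ, (∀ n, N < n → c n = 0) ∧
      G = ∑ n ∈ Finset.range (N + 1), C (c n) * bp F d J n := by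
  have hdeg : ∀ n, (bp F d J n).natDegree = n := fun n => bp_natDegree hF (by omega) J n
  have hne : ∀ n, bp F d J n ≠ 0 := fun n => A2_ne hF (by omega) J n
  have hlc : ∀ n, (bp F d J n).coeff n ≠ 0 := by
    intro n
    have h1 : (bp F d J n).coeff (bp F d J n).natDegree ≠ 0 := by
      rw [Polynomial.coeff_natDegree]
      exact Polynomial.leadingCoeff_ne_zero.mpr (hne n)
    rwa [hdeg n] at h1
  induction N generalizing G with
  | zero =>
    refine ⟨fun n => if n = 0 then G.coeff 0 / (bp F d J 0).coeff 0 else 0, ?_, ?_⟩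
    · intro n hn
      exact if_neg (by omega)
    · rw [Finset.sum_range_one]
      dsimp only
      rw [if_pos rfl]
      rw [Polynomial.eq_C_of_natDegree_le_zero hG]
      have h2 : bp F d J 0 = C ((bp F d J 0).coeff 0) :=
        Polynomial.eq_C_of_natDegree_eq_zero (hdeg 0)
      conv_rhs => rw [h2]
      rw [← C_mul, Polynomial.coeff_C_zero, Polynomial.coeff_C_zero, div_mul_cancel₀ _ (hlc 0)]
  | succ N ih =>
    obtain ⟨c0, hc0⟩ : ∃ c0 : ℚ, c0 = G.coeff (N + 1) / (bp F d J (N + 1)).coeff (N + 1) := ⟨_, rfl⟩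
    have hG' : (G - C c0 * bp F d J (N + 1)).natDegree ≤ N := by
      rw [Polynomial.natDegree_le_iff_coeff_eq_zero]
      intro m hm
      rw [Polynomial.coeff_sub, Polynomial.coeff_C_mul]
      rcases Nat.lt_or_ge (N + 1) m with h | h
      · rw [Polynomial.coeff_eq_zero_of_natDegree_lt (lt_of_le_of_lt hG h),
          Polynomial.coeff_eq_zero_of_natDegree_lt (by rw [hdeg]; exact h), mul_zero, sub_zero]
      · have hmN : m = N + 1 := by omega
        rw [hmN, hc0, div_mul_cancel₀ _ (hlc (N + 1)), sub_self]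
    obtain ⟨c, hc1, hc2⟩ := ih _ hG'
    refine ⟨fun n => if n = N + 1 then c0 else c n, ?_, ?_⟩
    · intro n hn
      dsimp only
      rw [if_neg (by omega)]
      exact hc1 n (by omega)
    · rw [Finset.sum_range_succ]
      dsimp only
      rw [if_pos rfl]
      have h3 : ∑ n ∈ Finset.range (N + 1), C (if n = N + 1 then c0 else c n) * bp F d J n =
          ∑ n ∈ Finset.range (N + 1), C (c n) * bp F d J n := by
        refine Finset.sum_congr rfl fun n hn => ?_
        rw [Finset.mem_range] at hn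
        rw [if_neg (by omega)]
      rw [h3, ← hc2]
      ring

/-- the terms `n > N` are zero -/
theorem expand_rangeU {F : ℚ[X]} {J N M : ℕ} (hM : N + 1 ≤ M) {c : ℕ → ℚ}
    (hc : ∀ n, N < n → c n = 0) :
    ∑ n ∈ Finset.range (N + 1), C (c n) * bp F d J n = ∑ n ∈ Finset.range M, C (c n) * bp F d J n := by
  apply Finset.sum_subset (Finset.range_mono hM)
  intro n _ hn
  rw [Finset.mem_range, not_lt] at hn
  rw [hc n (by omega), C_0, zero_mul]

end F0744U
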