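import Pool.Agent.Lib.MP_f0744f_nt.D.K0
import Pool.Agent.Lib.MP_f0744f_nt.U.B0
import Pool.Agent.Lib.MP_f0744f_nt.U.K0a

/-! # Row K0: linear combinations of iterates -/

set_option autoImplicit false

open Polynomial

namespace F0744U

open F0744C F0744D

variable {S : Finset ℤ} {a b : ℤ} {d e : ℕ}

theorem K0_split (d M : ℕ) (g : ℕ → ℚ[X]) : ∑ n ∈ Finset.range (d * M), g n =
    ∑ n ∈ Finset.range M, ∑ r ∈ Finset.range d, g (d * n + r) := by
  induction M with
  | zero => simp
  | succ M ih =>
    rw [Nat.mul_succ, Finset.sum_range_add, ih, Finset.sum_range_succ]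

theorem K0_bp_zero (F : ℚ[X]) (d J : ℕ) : bp F d J 0 = 1 := by
  induction J with
  | zero => rw [bp, pow_zero]
  | succ J ih => rw [bp, Nat.zero_mod, Nat.zero_div, pow_zero, one_mul, ih, one_comp]

theorem K0_iter_comp (F : ℚ[X]) (i : ℕ) : (F.comp^[i] X).comp F = F.comp^[i + 1] X := by
  induction i with
  | zero => simp
  | succ i ih =>
    calc (F.comp^[i + 1] X).comp F = (F.comp (F.comp^[i] X)).comp F := by
          rw [Function.iterate_succ_apply']
      _ = F.comp ((F.comp^[i] X).comp F) := comp_assoc _ _ _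
      _ = F.comp (F.comp^[i + 1] X) := by rw [ih]
      _ = F.comp^[i + 1 + 1] X := (Function.iterate_succ_apply' _ _ _).symm

/-- Model: `lin_form` in `D/K0.lean`. Induction on `J`. `n = r + d n'`, `r < d`: `bp F d (J + 1) n = X ^ r * (bp F d J n').comp F`, `sd d (J + 1) n = r + sd d J n'`. If `r ≥ 1` and (`n' ≠ 0` or `r ≥ 2`) the coefficient is zero (`sd_zero`).
So the sum is `∑_{n'} C (c (d n')) (bp F d J n').comp F + C (c 1) X`. -/
theorem lin_formU (hd : 2 ≤ d) (F : ℚ[X]) (J : ℕ) (c : ℕ → ℚ) (h : ∀ n < d ^ J, 2 ≤ sd d J n → c n = 0) :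
    ∑ n ∈ Finset.range (d ^ J), C (c n) * bp F d J n =
      C (c 0) + ∑ i ∈ Finset.range J, C (c (d ^ i)) * F.comp^[i] X := by
  induction J generalizing c with
  | zero => simp [bp]
  | succ J ih =>
    have hd0 : 0 < d := by omega
    have hmod : ∀ n r : ℕ, r < d → (d * n + r) % d = r := fun n r hr => by
      rw [Nat.mul_add_mod, Nat.mod_eq_of_lt hr]
    have hdiv : ∀ n r : ℕ, r < d → (d * n + r) / d = n := fun n r hr => by
      rw [Nat.mul_add_div hd0, Nat.div_eq_of_lt hr, add_zero]
    have hlt : ∀ n r : ℕ, n < d ^ J → r < d → d * n + r < d ^ (J + 1) := fun n r hn hr => by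
      rw [pow_succ, mul_comm (d ^ J) d]
      calc d * n + r < d * n + d := by omega
        _ = d * (n + 1) := by ring
        _ ≤ d * d ^ J := Nat.mul_le_mul_left d hn
    have hsd : ∀ n r : ℕ, r < d → sd d (J + 1) (d * n + r) = r + sd d J n := fun n r hr => by
      rw [sd, hmod n r hr, hdiv n r hr]
    have h1 : ∑ n ∈ Finset.range (d ^ J), C (c (d * n)) * bp F d (J + 1) (d * n) =
        (∑ n ∈ Finset.range (d ^ J), C (c (d * n)) * bp F d J n).comp F := by
      rw [sum_comp]
      refine Finset.sum_congr rfl fun n _ => ?_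
      rw [bp, Nat.mul_mod_right, pow_zero, one_mul, Nat.mul_div_cancel_left n hd0, mul_comp,
        C_comp]
    have h2 := ih (fun n => c (d * n)) (fun n hn h2 => by
      have hh := h (d * n + 0) (hlt n 0 hn hd0) (by rw [hsd n 0 hd0]; omega)
      simpa using hh)
    have h3 : ∑ n ∈ Finset.range (d ^ J), C (c (d * n + 1)) * bp F d (J + 1) (d * n + 1) =
        C (c 1) * X := by
      rw [Finset.sum_eq_single 0]
      · rw [mul_zero, zero_add, bp, Nat.mod_eq_of_lt (show 1 < d by omega),
          Nat.div_eq_of_lt (show 1 < d by omega), K0_bp_zero, one_comp, pow_one, mul_one]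
      · intro n hn h0
        have hn' := Finset.mem_range.1 hn
        rw [h (d * n + 1) (hlt n 1 hn' (by omega)) (by
          rw [hsd n 1 (by omega)]
          have : sd d J n ≠ 0 := fun h => h0 (sd_zero h)
          omega), C_0, zero_mul]
      · intro h0
        exact absurd (Finset.mem_range.2 (Nat.pow_pos hd0)) h0
    have h4 : ∀ n ∈ Finset.range (d ^ J),
        ∑ r ∈ Finset.range d, C (c (d * n + r)) * bp F d (J + 1) (d * n + r) =
          C (c (d * n)) * bp F d (J + 1) (d * n) +
            C (c (d * n + 1)) * bp F d (J + 1) (d * n + 1) := by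
      intro n hn
      have hsub : Finset.range 2 ⊆ Finset.range d := Finset.range_subset_range.2 hd
      rw [← Finset.sum_subset hsub, Finset.sum_range_succ, Finset.sum_range_one, add_zero]
      intro r hr hr2
      have hr' := Finset.mem_range.1 hr
      have hr2' : 2 ≤ r := by
        by_contra hcon
        exact hr2 (Finset.mem_range.2 (by omega))
      rw [h (d * n + r) (hlt n r (Finset.mem_range.1 hn) hr') (by rw [hsd n r hr']; omega), C_0,
        zero_mul]
    have h5 : d ^ (J + 1) = d * d ^ J := by rw [pow_succ, mul_comm]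
    rw [h5, K0_split, Finset.sum_congr rfl h4, Finset.sum_add_distrib, h1, h2, h3,
      Finset.sum_range_succ', add_comp, C_comp,
      sum_comp, pow_zero, Function.iterate_zero, id_eq, mul_zero, add_assoc]
    congr 2
    refine Finset.sum_congr rfl fun i _ => ?_
    rw [mul_comp, C_comp, K0_iter_comp, pow_succ, mul_comm (d ^ i) d]

/-- Induction: `natDegree_comp`. -/
theorem iter_natDegreeU {F : ℚ[X]} (hF : F.natDegree = d) (k : ℕ) :
    (F.comp^[k] X).natDegree = d ^ k := by
  induction k with
  | zero => simp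
  | succ k ih => rw [Function.iterate_succ_apply', natDegree_comp, ih, hF, pow_succ, mul_comm]

end F0744U
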