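import Pool.Agent.Lib.MP_f0744f_nt.D.N2
import Pool.Agent.Lib.MP_f0744f_nt.U.N1

/-! # Row N2: the coefficients at the other places -/

set_option autoImplicit false

open Polynomial

namespace F0744U

open F0744C F0744D

variable {S : Finset ℤ} {a b : ℤ} {d e : ℕ}

/-- Model: `nt_r` in `D/N2.lean`. `nt_coefU` with `κ = e + 1`, `R = L`, `Ω = EnX real L U`, `μ = max 0 (- mm)`. -/
theorem nt_rU (f : PM S a d) (hd : 2 ≤ d) {L : ℝ} (hL1 : 1 ≤ L) (hL : ∀ y ∈ S, |((y : ℤ) : ℝ)| ≤ L) {e J : ℕ}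
    {U : Finset ℤ} (hU : U ⊆ Dm S a f.ph J) (hc : e + 1 ≤ U.card) (c : ℕ → ℚ)
    (hG : ∀ x ∈ U, ∃ z ∈ S,
      ∑ n ∈ Finset.range (e + 1), c n * (bp f.F d J n).eval (x : ℚ) = ((z : ℤ) : ℚ)) :
    ∀ n ≤ e, |((c n : ℚ) : ℝ)| * L ^ sd d J n ≤
      L * Real.exp (((e : ℝ) + 1) ^ 2 * (EnX Rat.AbsoluteValue.real L U +
        max 0 (-mm Rat.AbsoluteValue.real L d f.F)) + 2 * (e + 1) * Real.log (e + 1)) := by
  intro n hn
  have hA : ∀ q : ℚ, Rat.AbsoluteValue.real q = |(q : ℝ)| := by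
    intro q
    rw [Rat.AbsoluteValue.real_eq_abs]
    push_cast
    rfl
  have hS : ∀ y ∈ S, Rat.AbsoluteValue.real ((y : ℤ) : ℚ) ≤ L := by
    intro y hy
    rw [hA]
    have := hL y hy
    push_cast
    exact this
  have hΩ0 : 0 ≤ EnX Rat.AbsoluteValue.real L U :=
    Finset.sum_nonneg fun x _ => Finset.sum_nonneg fun y _ => le_max_left _ _
  have hμ0 : (0 : ℝ) ≤ max 0 (-mm Rat.AbsoluteValue.real L d f.F) := le_max_left _ _
  have he : (0 : ℝ) ≤ (e : ℝ) := Nat.cast_nonneg e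
  have h1 := nt_coefU f hd (A := Rat.AbsoluteValue.real) hL1 hS (κ := ((e + 1 : ℕ) : ℝ))
    (by push_cast; linarith) (sumLe_any Rat.AbsoluteValue.real (e + 1)) hU hc hΩ0 (by
      intro x hx
      unfold EnX
      exact Finset.single_le_sum
        (f := fun x => ∑ y ∈ U.erase x, max 0 (uu Rat.AbsoluteValue.real L x y))
        (fun x _ => Finset.sum_nonneg fun y _ => le_max_left _ _) hx) hμ0 (by
      have := le_max_right (0 : ℝ) (-mm Rat.AbsoluteValue.real L d f.F)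
      linarith) c (by
      intro x hx
      obtain ⟨z, hzS, hz⟩ := hG x hx
      rw [hz]
      exact hS z hzS) n hn
  rw [hA] at h1
  refine h1.trans ?_
  rw [mul_comm]
  refine mul_le_mul_of_nonneg_left ?_ (by linarith)
  have h3 : (((e + 1 : ℕ) : ℝ)) ^ 2 = Real.exp (2 * Real.log (e + 1)) := by
    push_cast
    rw [two_mul, Real.exp_add, Real.exp_log (by linarith)]
    ring
  rw [h3, ← Real.exp_add, ← Real.exp_nat_mul]
  refine Real.exp_le_exp.2 ?_
  have h2 := N2_exp he hΩ0 hμ0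
  push_cast
  nlinarith

end F0744U
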