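import Pool.Agent.Lib.MP_f0744f_nt.U.N2_1
import Pool.Agent.Lib.MP_f0744f_nt.U.N2_2

/-! # Row N2: the coefficients at the other places -/
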