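import Pool.Agent.Lib.MP_f0744f_nt.D.K1a
import Pool.Agent.Lib.MP_f0744f_nt.U.E3
import Pool.Agent.Lib.MP_f0744f_nt.U.N2
import Pool.Agent.Lib.MP_f0744f_nt.U.G6
import Pool.Agent.Lib.MP_f0744f_nt.U.K0

/-! # Row K1a: the bounds of the coefficients at all places -/

set_option autoImplicit false

open Polynomial

namespace F0744U

open F0744C F0744D

variable {S : Finset ℤ} {a b : ℤ} {d e : ℕ}

/-- The same proof as `coef_bounds` in `D/K1a.lean` (`coefU`, `nt_pU`, `nt_rU`). -/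
theorem coef_boundsU (hd : 2 ≤ d) (e J : ℕ) (heJ : e < d ^ J) {θ' : ℝ} (hθ' : 0 < θ') :
    ∃ θ0 H0 : ℝ, 0 < θ0 ∧ ∀ (S : Finset ℤ) (a b : ℤ) (f : PM S a d) (g : PM S b e) (L κ θ H C0 : ℝ)
      (B : ℕ) (TT : Finset ℕ) (rt : Bool) (T U : Finset ℤ), CtxU f g J L κ θ H C0 B TT rt T U →
      θ ≤ θ0 → H0 ≤ H → ∀ c : ℕ → ℚ, (∀ n, e < n → c n = 0) →
      g.F = ∑ n ∈ Finset.range (e + 1), C (c n) * bp f.F d J n → ∀ n ≤ e,
        (∀ (p : ℕ) [Fact p.Prime], p ∈ TT →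
          Rat.AbsoluteValue.padic p (c n) ≤ Real.exp (θ' * mP p f.F)) ∧
        (∀ (p : ℕ) [Fact p.Prime], p ∈ Ps B \ TT →
          Rat.AbsoluteValue.padic p (c n) ≤
            Real.exp (((e : ℝ) + 1) ^ 2 * (EnP p U + max 0 (-mP p f.F)))) ∧
        (rt = true → |((c n : ℚ) : ℝ)| * L ^ sd d J n ≤
          L * Real.exp (θ' * mm Rat.AbsoluteValue.real L d f.F)) ∧
        (rt = false → |((c n : ℚ) : ℝ)| * L ^ sd d J n ≤
          L * Real.exp (((e : ℝ) + 1) ^ 2 * (EnX Rat.AbsoluteValue.real L U +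
            max 0 (-mm Rat.AbsoluteValue.real L d f.F)) + 2 * (e + 1) * Real.log (e + 1))) := by
  obtain ⟨θ0, H0, hθ0, hcoef⟩ := coefU hd J hθ'
  refine ⟨θ0, H0, hθ0, ?_⟩
  intro S a b f g L κ θ H C0 B TT rt T U h hθ hH c hc hg n hn
  have hT : T ⊆ Dm S a f.ph J := h.sub.trans (Dm_mono S a f.ph (by omega))
  have hn2 : n < d ^ J := by omega
  have hUc : e + 1 ≤ U.card := by
    rw [h.Uc]
    omega
  have hev : ∀ x ∈ T, ∑ n ∈ Finset.range (e + 1), c n * (bp f.F d J n).eval (x : ℚ) =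
      ((g.ph x : ℤ) : ℚ) := by
    intro x hx
    obtain ⟨hxS, hxb, -⟩ := h.gT x hx
    rw [g.val x hxS hxb]
    conv_rhs => rw [hg]
    rw [eval_finsetSum]
    refine Finset.sum_congr rfl fun n _ => ?_
    rw [eval_mul, eval_C]
  have hev2 : ∀ x ∈ T, ∑ n ∈ Finset.range (d ^ J), c n * (bp f.F d J n).eval (x : ℚ) =
      ((g.ph x : ℤ) : ℚ) := by
    intro x hx
    rw [← hev x hx]
    symm
    refine Finset.sum_subset ?_ ?_
    · intro i hi
      rw [Finset.mem_range] at hi ⊢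
      omega
    · intro i _ hi
      rw [Finset.mem_range] at hi
      rw [hc i (by omega), zero_mul]
  have hmem : ∀ x ∈ T, g.ph x ∈ S := by
    intro x hx
    obtain ⟨hxS, hxb, -⟩ := h.gT x hx
    exact g.maps x hxS hxb
  have hmono : ∀ cl : ℤ → Fin d, FullU f.ph cl (J + 2) T → FullU f.ph cl J T := by
    intro cl hfull ω
    obtain ⟨x, hx, hω⟩ := hfull ω
    exact ⟨x, hx, fun i hi => hω i (by omega)⟩
  refine ⟨?_, ?_, ?_, ?_⟩
  · intro p _ hp
    obtain ⟨cl, htp, hfull⟩ := h.tp p hp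
    have h1 := hcoef S a f (Rat.AbsoluteValue.padic p) 1 (mP p f.F) θ H cl htp hθ hH T hT
      (hmono cl hfull) c (fun x hx => by
        rw [hev2 x hx]
        exact htp.bd _ (hmem x hx)) n hn2
    rw [one_pow, mul_one, one_mul] at h1
    exact h1
  · intro p _ _
    exact nt_pU f hd (h.UT.trans hT) hUc c (fun x hx => ⟨g.ph x, hev x (h.UT hx)⟩) n hn
  · intro hrt
    obtain ⟨cl, htp, hfull⟩ := h.tr hrt
    have h1 := hcoef S a f Rat.AbsoluteValue.real L (mm Rat.AbsoluteValue.real L d f.F) θ H cl htp hθ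
      hH T hT (hmono cl hfull) c (fun x hx => by
        rw [hev2 x hx]
        exact htp.bd _ (hmem x hx)) n hn2
    have e1 : Rat.AbsoluteValue.real (c n) = |((c n : ℚ) : ℝ)| := by
      simp [Rat.AbsoluteValue.real_eq_abs]
    rw [e1] at h1
    exact h1
  · intro _
    exact nt_rU f hd h.L1 h.hL (h.UT.trans hT) hUc c
      (fun x hx => ⟨g.ph x, hmem x (h.UT hx), hev x (h.UT hx)⟩) n hn

end F0744U
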