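import Pool.Agent.Lib.MP_f0744f_nt.D.K1
import Pool.Agent.Lib.MP_f0744f_nt.U.K1a

/-! # Row K1: the coefficients of the products vanish -/

set_option autoImplicit false

open Polynomial

namespace F0744U

open F0744C F0744D

variable {S : Finset ℤ} {a b : ℤ} {d e : ℕ}

/-- Model: `coef_zero` in `D/K1.lean`. `κ0 = 1 / (8 (e + 1) ^ 2)`, `θ0, H0` of `coef_boundsU` for `θ' = 1 / (8 d)`, `C1 = 2 (e + 1) log (e + 1) + 1`. Suppose `c n ≠ 0` (so `n ≤ e`). `sum_boundU` with `k = -1`, `v = 1 / (8 d)`,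
`w = (e + 1) ^ 2`, `D = 2 (e + 1) log (e + 1)`: `L ^ sd ≥ L ^ 2` (`K1_div`). The result `0 ≤ - Λ + (1 / (8 d)) (1 + κ) (d - 1) Λ + (e + 1) ^ 2 κ Λ + D`, `D ≤ κ Λ`, `Λ = log L > 0`, is false. -/
theorem coef_zeroU (hd : 2 ≤ d) (e J : ℕ) (heJ : e < d ^ J) :
    ∃ κ0 θ0 H0 C1 : ℝ, 0 < κ0 ∧ 0 < θ0 ∧
    ∀ (S : Finset ℤ) (a b : ℤ) (f : PM S a d) (g : PM S b e) (L κ θ H C0 : ℝ)
      (B : ℕ) (TT : Finset ℕ) (rt : Bool) (T U : Finset ℤ), CtxU f g J L κ θ H C0 B TT rt T U →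
      κ ≤ κ0 → θ ≤ θ0 → H0 ≤ H → C1 ≤ C0 → ∀ c : ℕ → ℚ, (∀ n, e < n → c n = 0) →
      g.F = ∑ n ∈ Finset.range (e + 1), C (c n) * bp f.F d J n →
      (∀ n ≤ e, (c n).num.natAbs ≤ B ∧ (c n).den ≤ B) →
      ∀ n < d ^ J, 2 ≤ sd d J n → c n = 0 := by
  have hd0 : (2 : ℝ) ≤ d := by exact_mod_cast hd
  have hdp : (0 : ℝ) < d := by linarith
  obtain ⟨θ0, H0, hθ0, H⟩ := coef_boundsU hd e J heJ (θ' := 1 / (8 * (d : ℝ))) (by positivity)
  have he : (0 : ℝ) ≤ e := Nat.cast_nonneg e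
  have hlog : 0 ≤ Real.log ((e : ℝ) + 1) := Real.log_nonneg (by linarith)
  have hD : 0 ≤ 2 * ((e : ℝ) + 1) * Real.log ((e : ℝ) + 1) := by positivity
  refine ⟨1 / (8 * ((e : ℝ) + 1) ^ 2), θ0, H0, 2 * ((e : ℝ) + 1) * Real.log ((e : ℝ) + 1) + 1,
    by positivity, hθ0, ?_⟩
  intro S a b f g L κ θ HH C0 B TT rt T U h hκ hθ hH hC c hc hg hB n hn hsd
  have hL := h.L1
  have hL0 : 0 < L := by linarith
  by_contra hq
  have hne : n ≤ e := by
    by_contra hlt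
    exact hq (hc n (by omega))
  obtain ⟨hb1, hb2⟩ := hB n hne
  obtain ⟨k1, k2, k3, k4⟩ := H S a b f g L κ θ HH C0 B TT rt T U h hθ hH c hc hg n hne
  have key := sum_boundU h hq hb1 hb2 (k := -1) (v := 1 / (8 * (d : ℝ))) (w := ((e : ℝ) + 1) ^ 2)
    (D := 2 * ((e : ℝ) + 1) * Real.log ((e : ℝ) + 1)) (by positivity) hD k1 k2 ?_ ?_
  · have h1 := h.up
    have h2 := h.big
    have h3 := h.κ0
    have hκ2 : ((e : ℝ) + 1) ^ 2 * κ ≤ 1 / 8 := by
      calc ((e : ℝ) + 1) ^ 2 * κ ≤ ((e : ℝ) + 1) ^ 2 * (1 / (8 * ((e : ℝ) + 1) ^ 2)) :=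
            mul_le_mul_of_nonneg_left hκ (by positivity)
        _ = 1 / 8 := by field_simp
    have he2 : 1 ≤ ((e : ℝ) + 1) ^ 2 := one_le_pow₀ (by linarith)
    have hκ3 : κ ≤ 1 / 8 := by nlinarith
    have h4 : 0 < κ * Real.log L := by linarith
    have h5 : 0 < Real.log L := by
      by_contra h6
      nlinarith
    have h6 : ((e : ℝ) + 1) ^ 2 * κ * Real.log L ≤ 1 / 8 * Real.log L :=
      mul_le_mul_of_nonneg_right hκ2 h5.le
    have h7 : κ * Real.log L ≤ 1 / 8 * Real.log L := mul_le_mul_of_nonneg_right hκ3 h5.le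
    have h8 : 1 / (8 * (d : ℝ)) * massU f.F d L TT rt ≤ 1 / 8 * ((1 + κ) * Real.log L) := by
      have h9 : 1 / (8 * (d : ℝ)) * massU f.F d L TT rt ≤
          1 / (8 * (d : ℝ)) * ((1 + κ) * (((d : ℝ) - 1) * Real.log L)) :=
        mul_le_mul_of_nonneg_left h1 (by positivity)
      refine h9.trans ?_
      have h10 : (1 + κ) * (((d : ℝ) - 1) * Real.log L) ≤ (d : ℝ) * ((1 + κ) * Real.log L) := by
        have h11 : 0 ≤ (1 + κ) * Real.log L := by positivity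
        nlinarith
      calc 1 / (8 * (d : ℝ)) * ((1 + κ) * (((d : ℝ) - 1) * Real.log L)) ≤
            1 / (8 * (d : ℝ)) * ((d : ℝ) * ((1 + κ) * Real.log L)) :=
            mul_le_mul_of_nonneg_left h10 (by positivity)
        _ = 1 / 8 * ((1 + κ) * Real.log L) := by field_simp
    nlinarith
  · intro hrt
    have h1 := K1_div hL hsd (k3 hrt)
    have e1 : Real.exp (-1 * Real.log L + 1 / (8 * (d : ℝ)) * mm Rat.AbsoluteValue.real L d f.F) =
        L⁻¹ * Real.exp (1 / (8 * (d : ℝ)) * mm Rat.AbsoluteValue.real L d f.F) := by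
      rw [Real.exp_add, neg_one_mul, Real.exp_neg, Real.exp_log hL0]
    rw [e1]
    exact h1
  · intro hrt
    have h1 := K1_div hL hsd (k4 hrt)
    have e1 : Real.exp (-1 * Real.log L + ((e : ℝ) + 1) ^ 2 *
        (EnX Rat.AbsoluteValue.real L U + max 0 (-mm Rat.AbsoluteValue.real L d f.F)) +
        2 * ((e : ℝ) + 1) * Real.log ((e : ℝ) + 1)) =
        L⁻¹ * Real.exp (((e : ℝ) + 1) ^ 2 *
        (EnX Rat.AbsoluteValue.real L U + max 0 (-mm Rat.AbsoluteValue.real L d f.F)) +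
        2 * ((e : ℝ) + 1) * Real.log ((e : ℝ) + 1)) := by
      rw [add_assoc, Real.exp_add, neg_one_mul, Real.exp_neg, Real.exp_log hL0]
    rw [e1]
    exact h1

end F0744U
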