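import Pool.Agent.Lib.MP_f0744f_nt.U.K2_1
import Pool.Agent.Lib.MP_f0744f_nt.D.K2
import Pool.Agent.Lib.MP_f0744f_nt.U.K1a
import Pool.Agent.Lib.MP_f0744f_nt.U.E4

/-! # Row K2: the coefficients are roots of unity or zero -/

set_option autoImplicit false

open Polynomial

namespace F0744U

open F0744C F0744D

variable {S : Finset ℤ} {a b : ℤ} {d e : ℕ}

theorem K2_2_contra {d : ℕ} (hd : 2 ≤ d) {M e κ L C0 mu D : ℝ} (hM : 1 ≤ M) (he : 0 ≤ e)
    (hlo : (1 - κ) * (((d : ℝ) - 1) * Real.log L) ≤ mu) (hbig : C0 ≤ κ * Real.log L) (hκ0 : 0 < κ)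
    (hκ : κ ≤ 1 / (16 * (M * (e + 1) ^ 2))) (hC : D ≤ C0) (hD : 0 < D)
    (key : 0 ≤ 0 * Real.log L + -(7 / 8) * mu + M * (e + 1) ^ 2 * (κ * Real.log L) + D) : False := by
  have hd1 : (1 : ℝ) ≤ (d : ℝ) - 1 := by
    have : (2 : ℝ) ≤ (d : ℝ) := by exact_mod_cast hd
    linarith
  have he2 : 1 ≤ (e + 1) ^ 2 := one_le_pow₀ (by linarith)
  have hw : 1 ≤ M * (e + 1) ^ 2 := by nlinarith
  have hκ2 : (M * (e + 1) ^ 2) * κ ≤ 1 / 16 := by
    calc (M * (e + 1) ^ 2) * κ ≤ (M * (e + 1) ^ 2) * (1 / (16 * (M * (e + 1) ^ 2))) :=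
          mul_le_mul_of_nonneg_left hκ (by positivity)
      _ = 1 / 16 := by
        have : M * (e + 1) ^ 2 ≠ 0 := by positivity
        field_simp
  have hκ3 : κ ≤ 1 / 16 := by nlinarith
  have h4 : 0 < κ * Real.log L := by linarith
  have h5 : 0 < Real.log L := by
    by_contra h6
    nlinarith
  have h6 : (M * (e + 1) ^ 2) * κ * Real.log L ≤ 1 / 16 * Real.log L :=
    mul_le_mul_of_nonneg_right hκ2 h5.le
  have h7 : κ * Real.log L ≤ 1 / 16 * Real.log L := mul_le_mul_of_nonneg_right hκ3 h5.le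
  have h8 : Real.log L ≤ ((d : ℝ) - 1) * Real.log L := le_mul_of_one_le_left h5.le hd1
  have h9 : 15 / 16 * Real.log L ≤ (1 - κ) * (((d : ℝ) - 1) * Real.log L) := by
    calc 15 / 16 * Real.log L ≤ (1 - κ) * Real.log L := by nlinarith
      _ ≤ (1 - κ) * (((d : ℝ) - 1) * Real.log L) := mul_le_mul_of_nonneg_left h8 (by linarith)
  nlinarith

/-- Model: `coef_cube` in `D/K2.lean`. Let `N = d !`, `q = c ^ (N + 1) - c`, `c = c (d ^ i)` (zero if `d ^ i > e`), suppose `q ≠ 0`. `nearU J` with `θ' = 1 / 8` gives `θ1`; `coef_boundsU` with `θ' = θ1` gives `θ2`. `sum_boundU` with `k = 0`, `v = - 7 / 8`,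
`w = (N + 1) (e + 1) ^ 2`, `D = (N + 1) 2 (e + 1) log (e + 1) + log 2`: `hT`, `hRT` are `nearU` (`G = g.ph`, `lin_evalU`; `sd_pow`: at the real place `|c| L ≤ L exp (θ1 m)`), `hN`: `|q|_p ≤ max (1, |c|_p) ^ (N + 1)`, `hRN`:
`|q| ≤ 2 max (1, |c|) ^ (N + 1)`. The result `0 ≤ - (7 / 8) (1 - κ) (d - 1) Λ + w κ Λ + D`, `D ≤ C1 ≤ κ Λ`, is false for small `κ`. So `c = 0` or `c ^ N = 1`, `c = ± 1` (`ℚ` is ordered: `pow_eq_one_iff_of_ne_zero` or `abs`). -/
theorem coef_unitU (hd : 2 ≤ d) (e J : ℕ) (heJ : e < d ^ J) :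
    ∃ κ0 θ0 H0 C1 : ℝ, 0 < κ0 ∧ 0 < θ0 ∧
    ∀ (S : Finset ℤ) (a b : ℤ) (f : PM S a d) (g : PM S b e) (L κ θ H C0 : ℝ)
      (B : ℕ) (TT : Finset ℕ) (rt : Bool) (T U : Finset ℤ), CtxU f g J L κ θ H C0 B TT rt T U →
      κ ≤ κ0 → θ ≤ θ0 → H0 ≤ H → C1 ≤ C0 → ∀ c : ℕ → ℚ, (∀ n, e < n → c n = 0) →
      g.F = ∑ n ∈ Finset.range (e + 1), C (c n) * bp f.F d J n →
      (∀ n < d ^ J, 2 ≤ sd d J n → c n = 0) →
      (∀ n ≤ e, (c n ^ (d.factorial + 1) - c n).num.natAbs ≤ B ∧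
        (c n ^ (d.factorial + 1) - c n).den ≤ B) →
      ∀ i < J, c (d ^ i) = 0 ∨ c (d ^ i) = 1 ∨ c (d ^ i) = -1 := by
  obtain ⟨θ1, Ha, hθ1, H1⟩ := nearU hd J (θ' := 1 / 8) (by norm_num)
  obtain ⟨θ2, Hb, hθ2, H2⟩ := coef_boundsU hd e J heJ hθ1
  obtain ⟨M, hM⟩ : ∃ M : ℕ, M = d.factorial + 1 := ⟨_, rfl⟩
  have hM1 : 1 ≤ M := by omega
  have hM0 : M ≠ 0 := by omega
  have hMr : (1 : ℝ) ≤ (M : ℝ) := by exact_mod_cast hM1
  have he : (0 : ℝ) ≤ e := Nat.cast_nonneg e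
  have hlog : 0 ≤ Real.log ((e : ℝ) + 1) := Real.log_nonneg (by linarith)
  have hl2 : 0 < Real.log 2 := Real.log_pos (by norm_num)
  have hD : 0 < (M : ℝ) * (2 * ((e : ℝ) + 1) * Real.log ((e : ℝ) + 1)) + Real.log 2 := by positivity
  refine ⟨1 / (16 * ((M : ℝ) * ((e : ℝ) + 1) ^ 2)), min θ1 θ2, max Ha Hb,
    (M : ℝ) * (2 * ((e : ℝ) + 1) * Real.log ((e : ℝ) + 1)) + Real.log 2, by positivity, lt_min hθ1 hθ2, ?_⟩
  intro S a b f g L κ θ H C0 B TT rt T U h hκ hθ hH hC c hc hg hsg hB i hi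
  have hL := h.L1
  have hL0 : 0 < L := by linarith
  have hlin := lin_evalU hd heJ h hc hg hsg
  have hTJ : T ⊆ Dm S a f.ph J := h.sub.trans (Dm_mono S a f.ph (by omega))
  have hbds := H2 S a b f g L κ θ H C0 B TT rt T U h (hθ.trans (min_le_right _ _))
    ((le_max_right _ _).trans hH) c hc hg
  rcases Nat.lt_or_ge e (d ^ i) with hei | hei
  · exact Or.inl (hc _ hei)
  have hzero : c (d ^ i) ^ M - c (d ^ i) = 0 := by
    by_contra hq
    obtain ⟨hb1, hb2⟩ := hB _ hei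
    rw [← hM] at hb1 hb2
    have hpos : ∀ (p : ℕ) [Fact p.Prime], 0 ≤ EnP p U + max 0 (-mP p f.F) := by
      intro p hp
      have := EnP_nonneg hp.out U
      have := le_max_left 0 (-mP p f.F)
      linarith
    have key := sum_boundU h hq hb1 hb2 (k := 0) (v := -(7 / 8)) (w := (M : ℝ) * ((e : ℝ) + 1) ^ 2)
      (D := (M : ℝ) * (2 * ((e : ℝ) + 1) * Real.log ((e : ℝ) + 1)) + Real.log 2) (by positivity) hD.le ?_ ?_ ?_ ?_
    · exact K2_2_contra hd hMr he h.lo h.big h.κ0 hκ hC hD key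
    · intro p hp hpT
      obtain ⟨cl, htp, hfull⟩ := h.tp p hpT
      have := H1 S a f _ _ _ θ H cl htp (hθ.trans (min_le_left _ _)) ((le_max_left _ _).trans hH) T hTJ
        (hfull.mono (by omega)) (c 0) (fun j => c (d ^ j)) g.ph (fun j hj => ?_) hlin i hi
      · rw [← hM] at this
        refine this.trans (Real.exp_le_exp.2 (by linarith))
      · rcases Nat.lt_or_ge e (d ^ j) with hej | hej
        · rw [hc _ hej, map_zero]
          positivity
        · exact (hbds _ hej).1 p hpT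
    · intro p hp hpT
      have h1 := (hbds _ hei).2.1 p hpT
      have h2 := hpos p
      have h3 : (1 : ℝ) ≤ Real.exp (((e : ℝ) + 1) ^ 2 * (EnP p U + max 0 (-mP p f.F))) :=
        Real.one_le_exp (by positivity)
      have e1 : Real.exp ((M : ℝ) * ((e : ℝ) + 1) ^ 2 * (EnP p U + max 0 (-mP p f.F))) =
          Real.exp (((e : ℝ) + 1) ^ 2 * (EnP p U + max 0 (-mP p f.F))) ^ M := by
        rw [← Real.exp_nat_mul]; ring_nf
      rw [e1]
      have h4 : Rat.AbsoluteValue.padic p (c (d ^ i) ^ M - c (d ^ i)) ≤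
          max (Rat.AbsoluteValue.padic p (c (d ^ i) ^ M)) (Rat.AbsoluteValue.padic p (c (d ^ i))) :=
        K2_padic_sub p _ _
      refine h4.trans (max_le ?_ (h1.trans ?_))
      · rw [map_pow]
        exact pow_le_pow_left₀ (apply_nonneg _ _) h1 M
      · exact le_self_pow₀ h3 hM0
    · intro hrt
      obtain ⟨cl, htp, hfull⟩ := h.tr hrt
      have := H1 S a f _ _ _ θ H cl htp (hθ.trans (min_le_left _ _)) ((le_max_left _ _).trans hH) T hTJ
        (hfull.mono (by omega)) (c 0) (fun j => c (d ^ j)) g.ph (fun j hj => ?_) hlin i hi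
      · rw [← hM, K2_real] at this
        refine this.trans (Real.exp_le_exp.2 (by linarith))
      · rw [K2_real]
        rcases Nat.lt_or_ge e (d ^ j) with hej | hej
        · rw [hc _ hej, Rat.cast_zero, abs_zero]
          positivity
        · have h1 := (hbds _ hej).2.2.1 hrt
          rw [sd_pow hd hj, pow_one, mul_comm] at h1
          exact le_of_mul_le_mul_left h1 hL0
    · intro hrt
      have h1 := (hbds _ hei).2.2.2 hrt
      rw [sd_pow hd hi, pow_one, mul_comm] at h1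
      have h1 := le_of_mul_le_mul_left h1 hL0
      have hE : 0 ≤ EnX Rat.AbsoluteValue.real L U +
          max 0 (-mm Rat.AbsoluteValue.real L d f.F) := by
        have h2 : 0 ≤ EnX Rat.AbsoluteValue.real L U := by
          unfold EnX
          exact Finset.sum_nonneg fun x _ => Finset.sum_nonneg fun y _ => le_max_left _ _
        have h3 := le_max_left 0 (-mm Rat.AbsoluteValue.real L d f.F)
        linarith
      obtain ⟨t, ht⟩ : ∃ t : ℝ, t = ((e : ℝ) + 1) ^ 2 * (EnX Rat.AbsoluteValue.real L U +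
          max 0 (-mm Rat.AbsoluteValue.real L d f.F)) + 2 * (e + 1) * Real.log (e + 1) := ⟨_, rfl⟩
      rw [← ht] at h1
      have ht0 : 0 ≤ t := by rw [ht]; positivity
      have e1 : Real.exp (0 * Real.log L + (M : ℝ) * ((e : ℝ) + 1) ^ 2 * (EnX Rat.AbsoluteValue.real L U +
          max 0 (-mm Rat.AbsoluteValue.real L d f.F)) +
          ((M : ℝ) * (2 * ((e : ℝ) + 1) * Real.log ((e : ℝ) + 1)) + Real.log 2)) = 2 * Real.exp t ^ M := by
        have e2 : 2 * Real.exp t ^ M = Real.exp (Real.log 2) * Real.exp ((M : ℝ) * t) := by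
          rw [Real.exp_log (by norm_num), Real.exp_nat_mul]
        rw [e2, ← Real.exp_add]
        congr 1
        rw [ht]; ring
      rw [e1]
      have h3 : (1 : ℝ) ≤ Real.exp t := Real.one_le_exp ht0
      have h4 : |((c (d ^ i) ^ M - c (d ^ i) : ℚ) : ℝ)| ≤ |((c (d ^ i) : ℚ) : ℝ)| ^ M + |((c (d ^ i) : ℚ) : ℝ)| := by
        push_cast
        rw [← abs_pow]
        exact abs_sub _ _
      have h5 : |((c (d ^ i) : ℚ) : ℝ)| ^ M ≤ Real.exp t ^ M := pow_le_pow_left₀ (abs_nonneg _) h1 M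
      have h6 : Real.exp t ≤ Real.exp t ^ M := le_self_pow₀ h3 hM0
      linarith
  by_cases h0 : c (d ^ i) = 0
  · exact Or.inl h0
  · right
    have h1 : c (d ^ i) * (c (d ^ i) ^ d.factorial - 1) = 0 := by
      rw [← hzero, hM]
      ring
    have h2 : c (d ^ i) ^ d.factorial = 1 := by
      rcases mul_eq_zero.mp h1 with h3 | h3
      · exact absurd h3 h0
      · linarith
    have h3 : |c (d ^ i)| ^ d.factorial = 1 := by rw [← abs_pow, h2, abs_one]
    have h4 : |c (d ^ i)| = 1 := (pow_eq_one_iff_of_nonneg (abs_nonneg _) (Nat.factorial_ne_zero d)).mp h3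
    exact eq_or_eq_neg_of_abs_eq h4

end F0744U
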