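import Pool.Agent.Lib.MP_f0744f_nt.D.K2
import Pool.Agent.Lib.MP_f0744f_nt.U.K1a
import Pool.Agent.Lib.MP_f0744f_nt.U.E4

/-! # Row K2: the coefficients are roots of unity or zero -/

set_option autoImplicit false

open Polynomial

namespace F0744U

open F0744C F0744D

variable {S : Finset ℤ} {a b : ℤ} {d e : ℕ}

/-- Model: `lin_eval` in `D/K2a.lean`. `g.ph x = c 0 + ∑_i c (d ^ i) ph^[i] x` for `x ∈ T` (`g.val`, `lin_formU`, `iter_evalU`, `expand_rangeU`); `g.ph x ∈ Dm 2`. -/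
theorem lin_evalU (hd : 2 ≤ d) {e J : ℕ} (heJ : e < d ^ J) {S : Finset ℤ} {a b : ℤ} {f : PM S a d} {g : PM S b e}
    {L κ θ H C0 : ℝ} {B : ℕ} {TT : Finset ℕ} {rt : Bool} {T U : Finset ℤ}
    (h : CtxU f g J L κ θ H C0 B TT rt T U) {c : ℕ → ℚ} (hc : ∀ n, e < n → c n = 0)
    (hg : g.F = ∑ n ∈ Finset.range (e + 1), C (c n) * bp f.F d J n)
    (h2 : ∀ n < d ^ J, 2 ≤ sd d J n → c n = 0) : ∀ x ∈ T, g.ph x ∈ S ∧ g.ph x ≠ a ∧
      ((g.ph x : ℤ) : ℚ) = c 0 + ∑ i ∈ Finset.range J, c (d ^ i) * ((f.ph^[i] x : ℤ) : ℚ) := by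
  intro x hx
  obtain ⟨hxS, hxb, hgx⟩ := h.gT x hx
  have hgx' := Finset.mem_filter.mp hgx
  refine ⟨hgx'.1, hgx'.2.1, ?_⟩
  have hxD : x ∈ Dm S a f.ph J := Dm_mono S a f.ph (Nat.le_add_right J 2) (h.sub hx)
  rw [g.val x hxS hxb, hg, expand_rangeU (J := J) (M := d ^ J) heJ hc, lin_formU hd f.F J c h2,
    eval_add, eval_C, eval_finsetSum]
  congr 1
  refine Finset.sum_congr rfl (fun i hi => ?_)
  rw [eval_mul, eval_C, iter_evalU f (Finset.mem_range.mp hi).le hxD]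

end F0744U
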