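import Pool.Agent.Lib.MP_f0744f_nt.U.K2
import Pool.Agent.Lib.MP_f0744f_nt.U.E5

/-! # Row K3: the shape of g -/

set_option autoImplicit false

open Polynomial

namespace F0744U

open F0744C F0744D

variable {S : Finset ℤ} {a b : ℤ} {d e : ℕ}

/-- Model: `shape` in `D/K3.lean`. There is a good place: `massU ≥ (1 - κ) (d - 1) log L > 0` (`κ ≤ 1 / 2`, `C1 = 1`). `oneU J` at this place (`lin_evalU`): at most one `c (d ^ i)`, `i < J`, is not zero. Not all `c (d ^ i)` with `i ≥ 1`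
are zero, since otherwise `g.F = C (c 0) + C (c 1) * X` has degree `≤ 1` (`lin_formU`, `expand_rangeU`). -/
theorem shapeU (hd : 2 ≤ d) (e J : ℕ) (he : 2 ≤ e) (heJ : e < d ^ J) :
    ∃ κ0 θ0 H0 C1 : ℝ, 0 < κ0 ∧ 0 < θ0 ∧
    ∀ (S : Finset ℤ) (a b : ℤ) (f : PM S a d) (g : PM S b e) (L κ θ H C0 : ℝ)
      (B : ℕ) (TT : Finset ℕ) (rt : Bool) (T U : Finset ℤ), CtxU f g J L κ θ H C0 B TT rt T U →
      κ ≤ κ0 → θ ≤ θ0 → H0 ≤ H → C1 ≤ C0 → ∀ c : ℕ → ℚ, (∀ n, e < n → c n = 0) →
      g.F = ∑ n ∈ Finset.range (e + 1), C (c n) * bp f.F d J n →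
      (∀ n < d ^ J, 2 ≤ sd d J n → c n = 0) →
      (∀ i < J, c (d ^ i) = 0 ∨ c (d ^ i) = 1 ∨ c (d ^ i) = -1) →
      ∃ (k : ℕ) (c0 : ℚ), 1 ≤ k ∧ k < J ∧
        (g.F = C c0 + f.F.comp^[k] X ∨ g.F = C c0 - f.F.comp^[k] X) := by
  obtain ⟨θ0, H0, hθ0, hone⟩ := oneU hd J
  refine ⟨1 / 2, θ0, H0, 1, by norm_num, hθ0, ?_⟩
  intro S a b f g L κ θ H C0 B TT rt T U h hκ hθ hH hC c hc hg h2 hval
  have hd1 : (1 : ℝ) ≤ (d : ℝ) - 1 := by
    have : (2 : ℝ) ≤ d := by exact_mod_cast hd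
    linarith
  have hlog : 0 < Real.log L := by
    have h1 := h.big
    have h4 := h.κ0
    by_contra hcon
    push Not at hcon
    have : κ * Real.log L ≤ 0 := mul_nonpos_of_nonneg_of_nonpos h4.le hcon
    linarith
  have hmass : 0 < massU f.F d L TT rt :=
    lt_of_lt_of_le (mul_pos (by linarith) (mul_pos (by linarith) hlog)) h.lo
  have hsub : T ⊆ Dm S a f.ph J := h.sub.trans (Dm_mono S a f.ph (by omega))
  have hG := lin_evalU hd heJ h hc hg h2
  have hkey : ∀ i < J, ∀ j < J, i ≠ j → c (d ^ i) ≠ 0 → c (d ^ j) ≠ 0 → False := by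
    rcases hrt : rt with _ | _
    · -- a prime
      have hTT : TT.Nonempty := by
        by_contra hcon
        rw [Finset.not_nonempty_iff_eq_empty] at hcon
        have h0 : massU f.F d L TT rt = 0 := by
          unfold massU
          rw [hcon, hrt, Finset.sum_empty, if_neg (by decide), add_zero]
        rw [h0] at hmass
        exact lt_irrefl _ hmass
      obtain ⟨p, hp⟩ := hTT
      have hpp : p.Prime := (Finset.mem_filter.1 (h.TTs hp)).2
      have : Fact p.Prime := ⟨hpp⟩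
      obtain ⟨cl, htp, hfull⟩ := h.tp p hp
      exact hone S a f _ _ _ _ _ cl htp hθ hH T hsub (hfull.mono (by omega)) (c 0)
        (fun i => c (d ^ i)) g.ph hval hG
    · obtain ⟨cl, htp, hfull⟩ := h.tr hrt
      exact hone S a f _ _ _ _ _ cl htp hθ hH T hsub (hfull.mono (by omega)) (c 0)
        (fun i => c (d ^ i)) g.ph hval hG
  have hgF : g.F = C (c 0) + ∑ i ∈ Finset.range J, C (c (d ^ i)) * f.F.comp^[i] X := by
    rw [hg, expand_rangeU (show e + 1 ≤ d ^ J by omega) hc, lin_formU hd f.F J c h2]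
  have hJ0 : 0 < J := by
    rcases Nat.eq_zero_or_pos J with h0 | h0
    · rw [h0, pow_zero] at heJ
      omega
    · exact h0
  have hex : ∃ k, 1 ≤ k ∧ k < J ∧ c (d ^ k) ≠ 0 := by
    by_contra hcon
    push Not at hcon
    have h4 : g.F = C (c 0) + C (c 1) * X := by
      rw [hgF, Finset.sum_eq_single 0]
      · simp
      · intro i hi hi0
        rw [hcon i (by omega) (Finset.mem_range.1 hi), C_0, zero_mul]
      · intro h0
        exact absurd (Finset.mem_range.2 hJ0) h0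
    have h5 : g.F.natDegree ≤ 1 := by
      rw [h4]
      refine (natDegree_add_le _ _).trans (max_le ?_ ?_)
      · rw [natDegree_C]; omega
      · exact (natDegree_C_mul_le _ _).trans natDegree_X_le
    rw [g.deg] at h5
    omega
  obtain ⟨k, hk1, hkJ, hk⟩ := hex
  have hsum : g.F = C (c 0) + C (c (d ^ k)) * f.F.comp^[k] X := by
    rw [hgF, Finset.sum_eq_single k]
    · intro i hi hik
      have h0 : c (d ^ i) = 0 := by
        by_contra h6
        exact hkey i (Finset.mem_range.1 hi) k hkJ hik h6 hk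
      rw [h0, C_0, zero_mul]
    · intro h0
      exact absurd (Finset.mem_range.2 hkJ) h0
  refine ⟨k, c 0, hk1, hkJ, ?_⟩
  rcases hval k hkJ with h0 | h0 | h0
  · exact absurd h0 hk
  · left
    rw [hsum, h0, C_1, one_mul]
  · right
    rw [hsum, h0, C_neg, C_1]
    ring

end F0744U
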