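import Pool.Agent.Lib.MP_f0744f_nt.U.K4_1
import Pool.Agent.Lib.MP_f0744f_nt.U.E6
import Pool.Agent.Lib.MP_f0744f_nt.U.G6

/-! # Row K4: translations -/

set_option autoImplicit false

open Polynomial

namespace F0744U

open F0744C F0744D

variable {S : Finset ℤ} {a b : ℤ} {d e : ℕ}

/-- Model: `no_trans` in `D/K4.lean`. `θ0, H0` from `cenU k` with `θ' = 1 / 8`; `κ0 = 1 / 16`, `C1 = log (2 d) + 1`. Suppose `c0 ≠ 0`. For `x ∈ T`: `g.ph x = ph^[k] x + c0` (`iter_evalU`), both numbers in `S`, so `c0` is an integer and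
`|c0| ≤ 2 L`. `sum_boundU` for `q = d c0` with `k = 1`, `v = - 7 / 8`, `w = 0`, `D = log (2 d)`; `cenU` with `s = 1`, `c0`, `G = g.ph` (`exists_refU`). The result `0 ≤ Λ - (7 / 8) (1 - κ) (d - 1) Λ + log (2 d)`, `log (2 d) ≤ κ Λ`, is false because `d ≥ 3`. -/
theorem no_transU (hd : 3 ≤ d) (e J k : ℕ) (hk : k < J) :
    ∃ κ0 θ0 H0 C1 : ℝ, 0 < κ0 ∧ 0 < θ0 ∧
    ∀ (S : Finset ℤ) (a b : ℤ) (f : PM S a d) (g : PM S b e) (L κ θ H C0 : ℝ)
      (B : ℕ) (TT : Finset ℕ) (rt : Bool) (T U : Finset ℤ), CtxU f g J L κ θ H C0 B TT rt T U →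
      κ ≤ κ0 → θ ≤ θ0 → H0 ≤ H → C1 ≤ C0 → ∀ c0 : ℚ, g.F = C c0 + f.F.comp^[k] X →
      (d * c0).num.natAbs ≤ B → (d * c0).den ≤ B → c0 = 0 := by
  obtain ⟨θ0, H0, hθ0, hcen⟩ := cenU (d := d) (by omega) k (θ' := 1 / 8) (by norm_num)
  refine ⟨1 / 16, θ0, H0, Real.log (2 * d) + 1, by norm_num, hθ0, ?_⟩
  intro S a b f g L κ θ H C0 B TT rt T U h hκ hθ hH hC c0 hg hn hdn
  by_contra hc
  have hL0 : 0 < L := lt_of_lt_of_le one_pos h.L1
  have hd0 : (0 : ℝ) < d := by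
    have : 0 < d := by omega
    exact_mod_cast this
  have hd3 : (3 : ℝ) ≤ d := by exact_mod_cast hd
  have hdq : (d : ℚ) ≠ 0 := by
    have : d ≠ 0 := by omega
    exact_mod_cast this
  have hval : ∀ x ∈ T, ((g.ph x : ℤ) : ℚ) = ((f.ph^[k] x : ℤ) : ℚ) + c0 := by
    intro x hx
    have h1 := g.val x (h.gT x hx).1 (h.gT x hx).2.1
    have h2 := iter_evalU f (J := J + 2) (i := k) (by omega) (h.sub hx)
    rw [h1, hg, eval_add, eval_C, h2, add_comm]
  obtain ⟨x0, hx0⟩ : ∃ x, x ∈ T := by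
    have h1 : U.Nonempty := by
      rw [← Finset.card_pos, h.Uc]
      omega
    obtain ⟨x, hx⟩ := h1
    exact ⟨x, h.UT hx⟩
  have hgS : g.ph x0 ∈ S := Dm_mono S a f.ph (Nat.zero_le 2) (h.gT x0 hx0).2.2
  have hfS : f.ph^[k] x0 ∈ S := (iter_mem (h.sub hx0) (by omega : k < J + 2)).1
  have hc0 : c0 = (((g.ph x0 - f.ph^[k] x0 : ℤ)) : ℚ) := by
    rw [Int.cast_sub, hval x0 hx0]
    ring
  have habs : |(c0 : ℝ)| ≤ 2 * L := by
    have h1 : (c0 : ℝ) = ((g.ph x0 : ℤ) : ℝ) - ((f.ph^[k] x0 : ℤ) : ℝ) := by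
      rw [hc0]
      push_cast
      ring
    have h2 := h.hL _ hgS
    have h3 := h.hL _ hfS
    rw [h1]
    refine (abs_sub _ _).trans ?_
    linarith
  have hG : ∀ x ∈ T, g.ph x ∈ S ∧ g.ph x ≠ a ∧
      ((g.ph x : ℤ) : ℚ) = c0 + 1 * ((f.ph^[k] x : ℤ) : ℚ) := by
    intro x hx
    have h1 := iter_mem (i := 0) (h.gT x hx).2.2 (by norm_num)
    exact ⟨h1.1, h1.2, by rw [hval x hx]; ring⟩
  have hTk : T ⊆ Dm S a f.ph (k + 1) := fun x hx =>
    Dm_mono S a f.ph (by omega : k + 1 ≤ J + 2) (h.sub hx)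
  have hTk2 : T ⊆ Dm S a f.ph ((J + 1) + 1) := fun x hx => h.sub hx
  have hcen' : ∀ (A : AbsoluteValue ℚ ℝ) (R m : ℝ) (cl : ℤ → Fin d), UP f A R m θ H cl →
      FullU f.ph cl (J + 2) T → A (d * c0) ≤ R * Real.exp (-((1 - 1 / 8) * m)) := by
    intro A R m cl h1 h2
    obtain ⟨z, hz⟩ := exists_refU (J := J + 1) hTk2 h2
    have h3 := hcen S a f A R m θ H cl h1 hθ hH T hTk (FullU.mono (by omega) h2) z hz c0 1 g.ph
      (Or.inl rfl) hG
    rw [sub_self, zero_mul, zero_add] at h3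
    exact h3
  have key := sum_boundU h (q := (d : ℚ) * c0) (mul_ne_zero hdq hc) hn hdn (k := 1)
    (v := -(1 - 1 / 8)) (w := 0) (D := Real.log (2 * d)) le_rfl
    (Real.log_nonneg (by linarith)) ?_ ?_ ?_ ?_
  · have hΛ : 0 ≤ Real.log L := Real.log_nonneg h.L1
    have h1 := h.lo
    have h2 := h.big
    have h3 : κ * Real.log L ≤ 1 / 16 * Real.log L := mul_le_mul_of_nonneg_right hκ hΛ
    have h4 : 0 < Real.log (2 * d) := Real.log_pos (by linarith)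
    have h5 : 15 / 16 * (2 * Real.log L) ≤ (1 - κ) * (((d : ℝ) - 1) * Real.log L) := by
      have h6 : 2 * Real.log L ≤ ((d : ℝ) - 1) * Real.log L :=
        mul_le_mul_of_nonneg_right (by linarith) hΛ
      exact mul_le_mul (by linarith) h6 (by positivity) (by linarith)
    have h7 : 15 / 16 * (2 * Real.log L) ≤ massU f.F d L TT rt := h5.trans h1
    rw [zero_mul, one_mul] at key
    nlinarith
  · intro p hp hpT
    obtain ⟨cl, h1, h2⟩ := h.tp p hpT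
    have h3 := hcen' _ 1 _ cl h1 h2
    rw [one_mul] at h3
    refine h3.trans (le_of_eq ?_)
    congr 1
    ring
  · intro p hp _
    rw [zero_mul, Real.exp_zero, hc0, Rat.AbsoluteValue.padic_eq_padicNorm]
    have h1 : (d : ℚ) * (((g.ph x0 - f.ph^[k] x0 : ℤ)) : ℚ) =
        (((d : ℤ) * (g.ph x0 - f.ph^[k] x0) : ℤ) : ℚ) := by
      push_cast
      ring
    rw [h1]
    exact_mod_cast padicNorm.of_int _
  · intro hrt
    obtain ⟨cl, h1, h2⟩ := h.tr hrt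
    have h3 := hcen' _ L _ cl h1 h2
    rw [Rat.AbsoluteValue.real_eq_abs] at h3
    rw [Real.exp_add, one_mul, Real.exp_log hL0]
    have h4 : -(1 - 1 / 8) * mm Rat.AbsoluteValue.real L d f.F =
        -((1 - 1 / 8) * mm Rat.AbsoluteValue.real L d f.F) := by ring
    rw [h4]
    push_cast at h3 ⊢
    exact h3
  · intro _
    rw [zero_mul, add_zero, one_mul, Real.exp_add, Real.exp_log hL0, Real.exp_log (by linarith)]
    push_cast
    rw [abs_mul, abs_of_pos hd0]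
    have h1 : (d : ℝ) * |(c0 : ℝ)| ≤ d * (2 * L) := mul_le_mul_of_nonneg_left habs hd0.le
    linarith

end F0744U
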