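import Pool.Agent.Lib.MP_f0744f_nt.U.N4_1
import Pool.Agent.Lib.MP_f0744f_nt.D.N2

/-! # Row N4: the sum of the roots at the other places -/

set_option autoImplicit false

open Polynomial

namespace F0744U

open F0744C F0744D

variable {S : Finset ℤ} {a b : ℤ} {d e : ℕ}

/-- the inverse of the product of the distances is at most `exp (EnP p U)` -/
theorem N4_2_prod {p : ℕ} [Fact p.Prime] {U V : Finset ℤ} (hVU : V ⊆ U) {x : ℤ} (hx : x ∈ V) :
    Rat.AbsoluteValue.padic p ((∏ y ∈ V.erase x, ((x : ℚ) - y))⁻¹) ≤ Real.exp (EnP p U) := by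
  have hp : p.Prime := Fact.out
  have h1 : Rat.AbsoluteValue.padic p ((∏ y ∈ V.erase x, ((x : ℚ) - y))⁻¹) =
      Real.exp (∑ y ∈ V.erase x, vp p ((x : ℚ) - y)) := by
    rw [map_inv₀, map_prod, Real.exp_sum, ← Finset.prod_inv_distrib]
    refine Finset.prod_congr rfl fun y hy => ?_
    have hne : x ≠ y := (Finset.ne_of_mem_erase hy).symm
    have h0 : ((x : ℚ) - y) ≠ 0 := by
      rw [sub_ne_zero]
      exact_mod_cast hne
    have hpos : 0 < Rat.AbsoluteValue.padic p ((x : ℚ) - y) :=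
      (Rat.AbsoluteValue.padic p).pos h0
    have h2 := uu_padic p hne
    unfold uu at h2
    rw [Real.log_one, zero_sub] at h2
    rw [← h2, Real.exp_neg, Real.exp_log hpos]
  rw [h1]
  refine Real.exp_le_exp.2 ?_
  have h3 : ∑ y ∈ V.erase x, vp p ((x : ℚ) - y) ≤ ∑ y ∈ U.erase x, vp p ((x : ℚ) - y) :=
    Finset.sum_le_sum_of_subset_of_nonneg (Finset.erase_subset_erase x hVU)
      (fun y _ _ => N2_vp hp x y)
  refine h3.trans ?_
  unfold EnP
  exact Finset.single_le_sum (f := fun x => ∑ y ∈ U.erase x, vp p ((x : ℚ) - y))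
    (fun x _ => Finset.sum_nonneg fun y _ => N2_vp hp x y) (hVU hx)

/-- `sF_lag` for `V ⊆ U` with `d` elements: `|sF|_p ≤ max (1, |∑ ...|_p / |α|_p)`, and `|∏ (x - y)⁻¹|_p = exp (∑ vp p (x - y)) ≤ exp (EnP p U)`, `|α|_p = exp (mP p f.F)`. -/
theorem sF_p (f : PM S a d) (hd : 1 ≤ d) {p : ℕ} [Fact p.Prime] {U : Finset ℤ} (hU : U ⊆ Dm S a f.ph 1)
    (hc : d ≤ U.card) :
    Rat.AbsoluteValue.padic p (sF f.F d) ≤ Real.exp (EnP p U + max 0 (-mP p f.F)) := by
  have hp : p.Prime := Fact.out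
  obtain ⟨V, hVU, hVc⟩ := Finset.exists_subset_card_eq hc
  have hF0 : f.F ≠ 0 := by
    intro h
    have h1 := f.deg
    rw [h, natDegree_zero] at h1
    omega
  have hα : f.F.leadingCoeff ≠ 0 := leadingCoeff_ne_zero.2 hF0
  have hαpos : 0 < Rat.AbsoluteValue.padic p f.F.leadingCoeff :=
    (Rat.AbsoluteValue.padic p).pos hα
  have hαe : Rat.AbsoluteValue.padic p f.F.leadingCoeff = Real.exp (mP p f.F) := by
    have h1 := mm_padic p d hF0
    unfold mm at h1
    rw [Real.log_one, mul_zero, add_zero] at h1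
    rw [← h1, Real.exp_log hαpos]
  have hlag := sF_lag f hd (hVU.trans hU) hVc
  obtain ⟨P, hP⟩ : ∃ P : ℚ, P = ∑ x ∈ V, ((f.ph x : ℤ) : ℚ) *
      (∏ y ∈ V.erase x, ((x : ℚ) - y))⁻¹ := ⟨_, rfl⟩
  rw [← hP] at hlag
  have hs : sF f.F d = (∑ x ∈ V, (x : ℚ)) - P / f.F.leadingCoeff := by
    rw [← hlag, mul_div_cancel_left₀ _ hα]
    ring
  have hE0 : 0 ≤ EnP p U := EnP_nonneg hp U
  have hPb : Rat.AbsoluteValue.padic p P ≤ Real.exp (EnP p U) := by
    have h1 := sumLe_padic p V.card ℤ V (fun x => ((f.ph x : ℤ) : ℚ) *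
      (∏ y ∈ V.erase x, ((x : ℚ) - y))⁻¹) (Real.exp (EnP p U)) le_rfl (by
        intro x hx
        rw [map_mul]
        calc Rat.AbsoluteValue.padic p ((f.ph x : ℤ) : ℚ) *
              Rat.AbsoluteValue.padic p ((∏ y ∈ V.erase x, ((x : ℚ) - y))⁻¹)
            ≤ 1 * Real.exp (EnP p U) :=
              mul_le_mul (N2_int p _) (N4_2_prod hVU hx) ((Rat.AbsoluteValue.padic p).nonneg _)
                zero_le_one
          _ = Real.exp (EnP p U) := one_mul _) (Real.exp_nonneg _)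
    rw [one_mul] at h1
    rw [hP]
    exact h1
  have h2 : Rat.AbsoluteValue.padic p (P / f.F.leadingCoeff) ≤
      Real.exp (EnP p U + max 0 (-mP p f.F)) := by
    rw [map_div₀, hαe, div_eq_mul_inv, ← Real.exp_neg]
    calc Rat.AbsoluteValue.padic p P * Real.exp (-mP p f.F)
        ≤ Real.exp (EnP p U) * Real.exp (-mP p f.F) :=
          mul_le_mul_of_nonneg_right hPb (Real.exp_nonneg _)
      _ = Real.exp (EnP p U + -mP p f.F) := (Real.exp_add _ _).symm
      _ ≤ Real.exp (EnP p U + max 0 (-mP p f.F)) := by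
          refine Real.exp_le_exp.2 ?_
          have := le_max_right 0 (-mP p f.F)
          linarith
  have h4 : Rat.AbsoluteValue.padic p (∑ x ∈ V, (x : ℚ)) ≤
      Real.exp (EnP p U + max 0 (-mP p f.F)) := by
    have h := N2_int p (∑ x ∈ V, x)
    push_cast at h
    refine h.trans (Real.one_le_exp ?_)
    have := le_max_left 0 (-mP p f.F)
    linarith
  rw [hs]
  have h6 : Rat.AbsoluteValue.padic p ((∑ x ∈ V, (x : ℚ)) - P / f.F.leadingCoeff) ≤
      max (Rat.AbsoluteValue.padic p (∑ x ∈ V, (x : ℚ)))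
        (Rat.AbsoluteValue.padic p (P / f.F.leadingCoeff)) := by
    rw [Rat.AbsoluteValue.padic_eq_padicNorm, Rat.AbsoluteValue.padic_eq_padicNorm,
      Rat.AbsoluteValue.padic_eq_padicNorm]
    have h7 := padicNorm.sub (p := p) (q := ∑ x ∈ V, (x : ℚ)) (r := P / f.F.leadingCoeff)
    exact_mod_cast h7
  exact h6.trans (max_le h4 h2)

end F0744U
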