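import Pool.Agent.Lib.MP_f0744f_nt.U.N4_1
import Pool.Agent.Lib.MP_f0744f_nt.D.N2
import Pool.Agent.Lib.MP_f0744f_nt.U.B0

/-! # Row N4: the sum of the roots at the other places -/

set_option autoImplicit false

open Polynomial

namespace F0744U

open F0744C F0744D

variable {S : Finset ℤ} {a b : ℤ} {d e : ℕ}

theorem N4_3_real (q : ℚ) : Rat.AbsoluteValue.real q = |(q : ℝ)| := by
  rw [Rat.AbsoluteValue.real_eq_abs]
  push_cast
  rfl

theorem N4_3_EnX0 (L : ℝ) (U : Finset ℤ) : 0 ≤ EnX Rat.AbsoluteValue.real L U :=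
  Finset.sum_nonneg fun _ _ => Finset.sum_nonneg fun _ _ => le_max_left _ _

/-- the inverse of the product of the distances -/
theorem N4_3_prod {L : ℝ} (hL1 : 1 ≤ L) {U V : Finset ℤ} (hVU : V ⊆ U) (hc : V.card = d) {x : ℤ}
    (hx : x ∈ V) :
    |(((∏ y ∈ V.erase x, ((x : ℚ) - y))⁻¹ : ℚ) : ℝ)| * L ^ (d - 1) ≤
      Real.exp (EnX Rat.AbsoluteValue.real L U) := by
  have hL0 : 0 < L := by linarith
  have h1 : |(((∏ y ∈ V.erase x, ((x : ℚ) - y))⁻¹ : ℚ) : ℝ)| * L ^ (d - 1) =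
      Real.exp (∑ y ∈ V.erase x, uu Rat.AbsoluteValue.real L x y) := by
    have hcard : (V.erase x).card = d - 1 := by rw [Finset.card_erase_of_mem hx, hc]
    rw [Real.exp_sum, ← N4_3_real, map_inv₀, map_prod, ← Finset.prod_inv_distrib, ← hcard,
      ← Finset.prod_const, ← Finset.prod_mul_distrib]
    refine Finset.prod_congr rfl fun y hy => ?_
    have hne : x ≠ y := (Finset.ne_of_mem_erase hy).symm
    have h0 : ((x : ℚ) - y) ≠ 0 := by
      rw [sub_ne_zero]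
      exact_mod_cast hne
    have hpos : 0 < Rat.AbsoluteValue.real ((x : ℚ) - y) := (Rat.AbsoluteValue.real).pos h0
    unfold uu
    rw [Real.exp_sub, Real.exp_log hL0, Real.exp_log hpos, div_eq_mul_inv, mul_comm]
  rw [h1]
  refine Real.exp_le_exp.2 ?_
  have h2 : ∑ y ∈ V.erase x, uu Rat.AbsoluteValue.real L x y ≤
      ∑ y ∈ V.erase x, max 0 (uu Rat.AbsoluteValue.real L x y) :=
    Finset.sum_le_sum fun y _ => le_max_right _ _
  have h3 : ∑ y ∈ V.erase x, max 0 (uu Rat.AbsoluteValue.real L x y) ≤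
      ∑ y ∈ U.erase x, max 0 (uu Rat.AbsoluteValue.real L x y) :=
    Finset.sum_le_sum_of_subset_of_nonneg (Finset.erase_subset_erase x hVU)
      (fun y _ _ => le_max_left _ _)
  have h4 : ∑ y ∈ U.erase x, max 0 (uu Rat.AbsoluteValue.real L x y) ≤
      EnX Rat.AbsoluteValue.real L U := by
    unfold EnX
    exact Finset.single_le_sum
      (f := fun x => ∑ y ∈ U.erase x, max 0 (uu Rat.AbsoluteValue.real L x y))
      (fun x _ => Finset.sum_nonneg fun y _ => le_max_left _ _) (hVU hx)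
  linarith

/-- `sF_lag` for `V ⊆ U` with `d` elements: `|sF| ≤ d L + d L exp (EnX) L ^ (1 - d) / |α|`, `|α| L ^ (d - 1) = exp mm`. -/
theorem sF_r (f : PM S a d) (hd : 1 ≤ d) {L : ℝ} (hL1 : 1 ≤ L) (hL : ∀ y ∈ S, |((y : ℤ) : ℝ)| ≤ L)
    {U : Finset ℤ} (hU : U ⊆ Dm S a f.ph 1) (hc : d ≤ U.card) :
    |((sF f.F d : ℚ) : ℝ)| ≤ 2 * d * L * Real.exp (EnX Rat.AbsoluteValue.real L U +
        max 0 (-mm Rat.AbsoluteValue.real L d f.F)) := by
  obtain ⟨V, hVU, hVc⟩ := Finset.exists_subset_card_eq hc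
  have hL0 : 0 < L := by linarith
  have hF0 : f.F ≠ 0 := by
    intro h
    have h1 := f.deg
    rw [h, natDegree_zero] at h1
    omega
  have hα : f.F.leadingCoeff ≠ 0 := leadingCoeff_ne_zero.2 hF0
  have hαpos : 0 < Rat.AbsoluteValue.real f.F.leadingCoeff := (Rat.AbsoluteValue.real).pos hα
  have hmm : Rat.AbsoluteValue.real f.F.leadingCoeff * L ^ (d - 1) =
      Real.exp (mm Rat.AbsoluteValue.real L d f.F) := by
    unfold mm
    rw [Real.exp_add, Real.exp_log hαpos]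
    congr 1
    have h1 : ((d : ℝ) - 1) = ((d - 1 : ℕ) : ℝ) := by
      rw [Nat.cast_sub hd, Nat.cast_one]
    rw [h1, ← Real.log_pow, Real.exp_log (pow_pos hL0 _)]
  have hmem : ∀ x ∈ V, x ∈ S ∧ f.ph x ∈ S := by
    intro x hx
    have h1 := Finset.mem_filter.1 (show x ∈ S.filter (fun x => x ≠ a ∧ f.ph x ∈ Dm S a f.ph 0) from
      hU (hVU hx))
    exact ⟨h1.1, h1.2.2⟩
  have hlag := sF_lag f hd (hVU.trans hU) hVc
  obtain ⟨P, hP⟩ : ∃ P : ℚ, P = ∑ x ∈ V, ((f.ph x : ℤ) : ℚ) *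
      (∏ y ∈ V.erase x, ((x : ℚ) - y))⁻¹ := ⟨_, rfl⟩
  rw [← hP] at hlag
  have hs : sF f.F d = (∑ x ∈ V, (x : ℚ)) - P / f.F.leadingCoeff := by
    rw [← hlag, mul_div_cancel_left₀ _ hα]
    ring
  have hE0 : 0 ≤ EnX Rat.AbsoluteValue.real L U := N4_3_EnX0 L U
  set E := EnX Rat.AbsoluteValue.real L U with hE
  set m := mm Rat.AbsoluteValue.real L d f.F with hm
  have hPb : |(P : ℝ)| * L ^ (d - 1) ≤ d * (L * Real.exp E) := by
    rw [hP]
    push_cast
    have h1 : |∑ x ∈ V, ((f.ph x : ℤ) : ℝ) * (∏ y ∈ V.erase x, ((x : ℝ) - y))⁻¹| ≤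
        ∑ x ∈ V, |((f.ph x : ℤ) : ℝ) * (∏ y ∈ V.erase x, ((x : ℝ) - y))⁻¹| :=
      Finset.abs_sum_le_sum_abs _ _
    have h2 : (∑ x ∈ V, |((f.ph x : ℤ) : ℝ) * (∏ y ∈ V.erase x, ((x : ℝ) - y))⁻¹|) * L ^ (d - 1) ≤
        ∑ _x ∈ V, L * Real.exp E := by
      rw [Finset.sum_mul]
      refine Finset.sum_le_sum fun x hx => ?_
      rw [abs_mul, mul_assoc]
      refine mul_le_mul (hL _ (hmem x hx).2) ?_ (by positivity) hL0.le
      have h3 := N4_3_prod hL1 hVU hVc hx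
      push_cast at h3
      exact h3
    rw [Finset.sum_const, hVc, nsmul_eq_mul] at h2
    exact (mul_le_mul_of_nonneg_right h1 (by positivity)).trans h2
  have hPa : |((P / f.F.leadingCoeff : ℚ) : ℝ)| ≤ d * (L * (Real.exp E * Real.exp (-m))) := by
    have h1 : |((P / f.F.leadingCoeff : ℚ) : ℝ)| =
        |(P : ℝ)| * L ^ (d - 1) * Real.exp (-m) := by
      push_cast
      rw [abs_div]
      have h2 : |((f.F.leadingCoeff : ℚ) : ℝ)| = Rat.AbsoluteValue.real f.F.leadingCoeff :=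
        (N4_3_real _).symm
      rw [h2, Real.exp_neg, ← hmm]
      have h3 : (L ^ (d - 1)) ≠ 0 := (pow_pos hL0 _).ne'
      field_simp
    rw [h1]
    calc |(P : ℝ)| * L ^ (d - 1) * Real.exp (-m) ≤ d * (L * Real.exp E) * Real.exp (-m) :=
          mul_le_mul_of_nonneg_right hPb (Real.exp_nonneg _)
      _ = d * (L * (Real.exp E * Real.exp (-m))) := by ring
  have hSb : |((∑ x ∈ V, (x : ℚ) : ℚ) : ℝ)| ≤ d * L := by
    push_cast
    refine (Finset.abs_sum_le_sum_abs _ _).trans ?_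
    have h1 : ∑ x ∈ V, |((x : ℤ) : ℝ)| ≤ ∑ _x ∈ V, L :=
      Finset.sum_le_sum fun x hx => hL x (hmem x hx).1
    rw [Finset.sum_const, hVc, nsmul_eq_mul] at h1
    exact h1
  have hd0 : (0 : ℝ) ≤ d := Nat.cast_nonneg d
  have hdL : 0 ≤ (d : ℝ) * L := mul_nonneg hd0 hL0.le
  have hX1 : Real.exp E * Real.exp (-m) ≤ Real.exp (E + max 0 (-m)) := by
    rw [← Real.exp_add]
    refine Real.exp_le_exp.2 ?_
    have := le_max_right 0 (-m)
    linarith
  have hX2 : 1 ≤ Real.exp (E + max 0 (-m)) := by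
    refine Real.one_le_exp ?_
    have := le_max_left 0 (-m)
    linarith
  have hfin : |((sF f.F d : ℚ) : ℝ)| ≤ |((∑ x ∈ V, (x : ℚ) : ℚ) : ℝ)| +
      |((P / f.F.leadingCoeff : ℚ) : ℝ)| := by
    rw [hs, Rat.cast_sub]
    exact abs_sub _ _
  have h5 : (d : ℝ) * (L * (Real.exp E * Real.exp (-m))) ≤
      d * L * Real.exp (E + max 0 (-m)) := by
    rw [← mul_assoc]
    exact mul_le_mul_of_nonneg_left hX1 hdL
  have h6 : (d : ℝ) * L ≤ d * L * Real.exp (E + max 0 (-m)) := by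
    have := mul_le_mul_of_nonneg_left hX2 hdL
    linarith
  linarith

end F0744U
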