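import Pool.Agent.Lib.MP_f0744f_nt.U.N4_1
import Pool.Agent.Lib.MP_f0744f_nt.U.N4_2
import Pool.Agent.Lib.MP_f0744f_nt.U.N4_3

/-! # Row N4: the sum of the roots at the other places -/
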