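import Pool.Agent.Lib.MP_f0744f_nt.U.K4
import Pool.Agent.Lib.MP_f0744f_nt.U.N4
import Pool.Agent.Lib.MP_f0744f_nt.U.E7

/-! # Row K5: reflections, the centre -/

set_option autoImplicit false

open Polynomial

namespace F0744U

open F0744C F0744D

variable {S : Finset ℤ} {a b : ℤ} {d e : ℕ}

theorem K5_padicU (p : ℕ) [Fact p.Prime] {x y : ℚ} {M : ℝ}
    (hx : Rat.AbsoluteValue.padic p x ≤ M) (hy : Rat.AbsoluteValue.padic p y ≤ M) :
    Rat.AbsoluteValue.padic p (x - y) ≤ M := by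
  rw [Rat.AbsoluteValue.padic_eq_padicNorm] at hx hy ⊢
  have h1 : padicNorm p (x - y) ≤ max (padicNorm p x) (padicNorm p y) := padicNorm.sub
  have h2 : ((padicNorm p (x - y) : ℚ) : ℝ) ≤ ((max (padicNorm p x) (padicNorm p y) : ℚ) : ℝ) := by
    exact_mod_cast h1
  refine h2.trans ?_
  rw [Rat.cast_max]
  exact max_le hx hy

theorem K5_intU (p : ℕ) [Fact p.Prime] (n : ℤ) : Rat.AbsoluteValue.padic p (n : ℚ) ≤ 1 := by
  rw [Rat.AbsoluteValue.padic_eq_padicNorm]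
  exact_mod_cast padicNorm.of_int (p := p) n

theorem K5_EnX0 (A : AbsoluteValue ℚ ℝ) (R : ℝ) (T : Finset ℤ) : 0 ≤ EnX A R T := by
  unfold EnX
  exact Finset.sum_nonneg fun x _ => Finset.sum_nonneg fun y _ => le_max_left _ _

theorem K5_locU {f : PM S a d} {A : AbsoluteValue ℚ ℝ} {R m θ H : ℝ} {cl : ℤ → Fin d}
    (h : UP f A R m θ H cl) (hθ : θ ≤ 1 / 16) (hH : Real.log 3 ≤ H) {w v q : ℚ} (hq : q = w + (v + v))
    (h1 : A w ≤ R * Real.exp (-((1 - 1 / 16) * m))) (h2 : A v ≤ R * Real.exp (-((1 - 1 / 16) * m))) :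
    A q ≤ R * Real.exp (-(7 / 8) * m) := by
  have hR : 0 < R := lt_of_lt_of_le one_pos h.R1
  have h3 : A q ≤ 3 * (R * Real.exp (-((1 - 1 / 16) * m))) := by
    rw [hq]
    have e1 := A.add_le w (v + v)
    have e2 := A.add_le v v
    linarith
  have h4 : (3 : ℝ) ≤ Real.exp (1 / 16 * m) := by
    have e1 : Real.log 3 ≤ 1 / 16 * m :=
      hH.trans (h.big.trans (mul_le_mul_of_nonneg_right hθ h.m0.le))
    calc (3 : ℝ) = Real.exp (Real.log 3) := (Real.exp_log (by norm_num)).symm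
      _ ≤ _ := Real.exp_le_exp.2 e1
  have h5 : Real.exp (-(7 / 8) * m) = Real.exp (1 / 16 * m) * Real.exp (-((1 - 1 / 16) * m)) := by
    rw [← Real.exp_add]
    congr 1
    ring
  have h6 : 0 ≤ R * Real.exp (-((1 - 1 / 16) * m)) := by positivity
  have h7 := mul_le_mul_of_nonneg_right h4 h6
  rw [h5]
  calc A q ≤ 3 * (R * Real.exp (-((1 - 1 / 16) * m))) := h3
    _ ≤ Real.exp (1 / 16 * m) * (R * Real.exp (-((1 - 1 / 16) * m))) := h7
    _ = R * (Real.exp (1 / 16 * m) * Real.exp (-((1 - 1 / 16) * m))) := by ring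

/-- Model: `no_refl` in `D/K5.lean`. `θ0, H0` from `cenU k` and `sum_refU` with `θ' = 1 / 16`; `κ0 = 1 / 16`, `C1 = log (6 d) + 1`. Let `q = d c0 - 2 sF f.F d`, suppose `q ≠ 0`. For `x ∈ T`: `g.ph x = c0 - ph^[k] x`, both numbers in `S`, so `c0` is an
integer and `|c0| ≤ 2 L`. `cenU` with `s = - 1`: `A (- 2 ∑ z + d c0) ≤ R exp (- (15 / 16) m)`, `sum_refU`: `A (∑ z - sF) ≤ R exp (- (15 / 16) m)`, so `A q ≤ 3 R exp (- (15 / 16) m) ≤ R exp (- (7 / 8) m)` (`log 3 ≤ H0`, `θ ≤ 1 / 16`).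
`sum_boundU` with `k = 1`, `v = - 7 / 8`, `w = 1`, `D = log (6 d)`: `hN`: `|q|_p ≤ max (1, |sF|_p)` and `sF_p` (`Dm_mono`); `hRN`: `sF_r`, `2 d L + 4 d L exp Y ≤ 6 d L exp Y`. The result
`0 ≤ Λ - (7 / 8) (1 - κ) (d - 1) Λ + κ Λ + log (6 d)`, `log (6 d) ≤ κ Λ`, is false because `d ≥ 3`. -/
theorem refl_centreU (hd : 3 ≤ d) (e J k : ℕ) (hk : k < J) :
    ∃ κ0 θ0 H0 C1 : ℝ, 0 < κ0 ∧ 0 < θ0 ∧
    ∀ (S : Finset ℤ) (a b : ℤ) (f : PM S a d) (g : PM S b e) (L κ θ H C0 : ℝ)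
      (B : ℕ) (TT : Finset ℕ) (rt : Bool) (T U : Finset ℤ), CtxU f g J L κ θ H C0 B TT rt T U →
      κ ≤ κ0 → θ ≤ θ0 → H0 ≤ H → C1 ≤ C0 → ∀ c0 : ℚ, g.F = C c0 - f.F.comp^[k] X →
      (d * c0 - 2 * sF f.F d).num.natAbs ≤ B → (d * c0 - 2 * sF f.F d).den ≤ B →
      d * c0 = 2 * sF f.F d := by
  have hd2 : 2 ≤ d := by omega
  obtain ⟨θ1, H1, hθ1, hcen⟩ := cenU hd2 k (θ' := 1 / 16) (by norm_num)
  obtain ⟨θ2, H2, hθ2, href⟩ := sum_refU hd2 (θ' := 1 / 16) (by norm_num)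
  refine ⟨1 / 16, min (min θ1 θ2) (1 / 16), max (max H1 H2) (Real.log 3), Real.log (6 * d) + 1,
    by norm_num, lt_min (lt_min hθ1 hθ2) (by norm_num), ?_⟩
  intro S a b f g L κ θ H C0 B TT rt T U h hκ hθ hH hC c0 hg hnum hden
  have hθ1' : θ ≤ θ1 := hθ.trans ((min_le_left _ _).trans (min_le_left _ _))
  have hθ2' : θ ≤ θ2 := hθ.trans ((min_le_left _ _).trans (min_le_right _ _))
  have hθ3' : θ ≤ 1 / 16 := hθ.trans (min_le_right _ _)
  have hH1' : H1 ≤ H := ((le_max_left _ _).trans (le_max_left _ _)).trans hH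
  have hH2' : H2 ≤ H := ((le_max_right _ _).trans (le_max_left _ _)).trans hH
  have hH3' : Real.log 3 ≤ H := (le_max_right _ _).trans hH
  by_contra hne
  have hq : (d * c0 - 2 * sF f.F d : ℚ) ≠ 0 := fun h0 => hne (sub_eq_zero.1 h0)
  have hG : ∀ x ∈ T, g.ph x ∈ Dm S a f.ph 2 ∧
      ((g.ph x : ℤ) : ℚ) = c0 - ((f.ph^[k] x : ℤ) : ℚ) := by
    intro x hx
    obtain ⟨h1, h2, h3⟩ := h.gT x hx
    refine ⟨h3, ?_⟩
    rw [g.val x h1 h2, hg, eval_sub, eval_C, iter_evalU f (show k ≤ J + 2 by omega) (h.sub hx)]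
  have hTk : T ⊆ Dm S a f.ph (k + 1) := h.sub.trans (Dm_mono S a f.ph (by omega))
  have hT1 : T ⊆ Dm S a f.ph (0 + 1) := h.sub.trans (Dm_mono S a f.ph (by omega))
  have hU1 : U ⊆ Dm S a f.ph 1 := h.UT.trans (h.sub.trans (Dm_mono S a f.ph (by omega)))
  have hUc : d ≤ U.card := by rw [h.Uc]; omega
  have hyS : ∀ z ∈ T, f.ph^[k] z ∈ S ∧ f.ph^[k] z ≠ a := fun z hz =>
    iter_mem (h.sub hz) (show k < J + 2 by omega)
  have hgS : ∀ z ∈ T, g.ph z ∈ S ∧ g.ph z ≠ a := fun z hz =>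
    iter_mem (i := 0) (hG z hz).1 (by omega)
  have hloc : ∀ (A : AbsoluteValue ℚ ℝ) (R m : ℝ) (cl : ℤ → Fin d), UP f A R m θ H cl →
      FullU f.ph cl (J + 2) T → A (d * c0 - 2 * sF f.F d) ≤ R * Real.exp (-(7 / 8) * m) := by
    intro A R m cl hup hfull
    obtain ⟨z, hz⟩ := exists_refU hT1 (FullU.mono (by omega) hfull)
    have h1 := hcen S a f A R m θ H cl hup hθ1' hH1' T hTk (FullU.mono (by omega) hfull) z hz c0 (-1) g.ph
      (Or.inr rfl) (fun x hx => ⟨(hgS x hx).1, (hgS x hx).2, by rw [(hG x hx).2]; ring⟩)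
    have h2 := href S a f A R m θ H cl hup hθ2' hH2' z hz
    exact K5_locU hup hθ3' hH3' (by ring) h1 h2
  -- a point of `T`
  obtain ⟨x, hxU⟩ : U.Nonempty := by
    rw [← Finset.card_pos, h.Uc]
    omega
  have hx : x ∈ T := h.UT hxU
  have hc0 : c0 = (((g.ph x + f.ph^[k] x : ℤ)) : ℚ) := by
    have e1 := (hG x hx).2
    push_cast
    linarith
  have hL0 : 0 < L := lt_of_lt_of_le one_pos h.L1
  have hc0L : |(c0 : ℝ)| ≤ 2 * L := by
    have e1 := h.hL _ (hgS x hx).1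
    have e2 := h.hL _ (hyS x hx).1
    rw [hc0]
    push_cast
    refine (abs_add_le _ _).trans ?_
    linarith
  have hdR : (3 : ℝ) ≤ d := by exact_mod_cast hd
  have hlog6 : 0 ≤ Real.log (6 * d) := Real.log_nonneg (by linarith)
  have hΛ6 : Real.log (6 * d) + 1 ≤ κ * Real.log L := hC.trans h.big
  have hΛ : 0 < Real.log L := by
    by_contra hcon
    push Not at hcon
    have := mul_nonpos_of_nonneg_of_nonpos h.κ0.le hcon
    linarith
  have hsum := sum_boundU h hq hnum hden (k := 1) (v := -(7 / 8)) (w := 1) (D := Real.log (6 * d))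
    zero_le_one hlog6 ?_ ?_ ?_ ?_
  · have h1 := h.lo
    have h2 : κ * Real.log L ≤ 1 / 16 * Real.log L := mul_le_mul_of_nonneg_right hκ hΛ.le
    have h3 : (15 / 16 : ℝ) * (2 * Real.log L) ≤ (1 - κ) * (((d : ℝ) - 1) * Real.log L) := by
      refine mul_le_mul (by linarith) (mul_le_mul_of_nonneg_right (by linarith) hΛ.le) (by positivity)
        (by linarith)
    linarith [hsum, h1, h2, h3, hΛ6]
  · intro p _ hp
    obtain ⟨cl, htp, hfull⟩ := h.tp p hp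
    have h1 := hloc (Rat.AbsoluteValue.padic p) 1 (mP p f.F) cl htp hfull
    rw [one_mul] at h1
    exact h1
  · intro p _ hp
    have hY : 0 ≤ EnP p U + max 0 (-mP p f.F) :=
      add_nonneg (EnP_nonneg (Fact.out : p.Prime) U) (le_max_left _ _)
    rw [one_mul]
    apply K5_padicU
    · have h1 : Rat.AbsoluteValue.padic p (d * c0) ≤ 1 := by
        have e1 : (d * c0 : ℚ) = (((d : ℤ) * (g.ph x + f.ph^[k] x) : ℤ) : ℚ) := by
          rw [hc0]
          push_cast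
          ring
        rw [e1]
        exact K5_intU p _
      exact h1.trans (Real.one_le_exp hY)
    · rw [map_mul]
      have h1 : Rat.AbsoluteValue.padic p 2 ≤ 1 := by
        have := K5_intU p 2
        exact_mod_cast this
      have h2 := sF_p f (by omega) (p := p) hU1 hUc
      calc Rat.AbsoluteValue.padic p 2 * Rat.AbsoluteValue.padic p (sF f.F d)
          ≤ 1 * Rat.AbsoluteValue.padic p (sF f.F d) :=
            mul_le_mul_of_nonneg_right h1 (AbsoluteValue.nonneg _ _)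
        _ = Rat.AbsoluteValue.padic p (sF f.F d) := one_mul _
        _ ≤ _ := h2
  · intro hrt
    obtain ⟨cl, htp, hfull⟩ := h.tr hrt
    have h1 := hloc Rat.AbsoluteValue.real L (mm Rat.AbsoluteValue.real L d f.F) cl htp hfull
    rw [Rat.AbsoluteValue.real_eq_abs, Rat.cast_abs] at h1
    refine h1.trans (le_of_eq ?_)
    rw [one_mul, Real.exp_add, Real.exp_log hL0]
  · intro _
    set Y : ℝ := EnX Rat.AbsoluteValue.real L U +
      max 0 (-mm Rat.AbsoluteValue.real L d f.F) with hYd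
    have hY : 0 ≤ Y := add_nonneg (K5_EnX0 _ _ _) (le_max_left _ _)
    have h1 := sF_r f (by omega) h.L1 h.hL hU1 hUc
    rw [← hYd] at h1
    have h2 : 1 ≤ Real.exp Y := Real.one_le_exp hY
    have h3 : Real.exp (1 * Real.log L + 1 * Y + Real.log (6 * d)) = 6 * d * L * Real.exp Y := by
      rw [one_mul, one_mul, Real.exp_add, Real.exp_add, Real.exp_log hL0,
        Real.exp_log (by positivity : (0 : ℝ) < 6 * d)]
      ring
    rw [h3]
    have h4 : |((d * c0 - 2 * sF f.F d : ℚ) : ℝ)| ≤ d * |(c0 : ℝ)| + 2 * |((sF f.F d : ℚ) : ℝ)| := by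
      push_cast
      refine (abs_sub _ _).trans (le_of_eq ?_)
      rw [abs_mul, abs_mul, Nat.abs_cast, abs_of_pos (by norm_num : (0 : ℝ) < 2)]
    have h5 : 2 * (d * L) ≤ 2 * (d * L) * Real.exp Y := le_mul_of_one_le_right (by positivity) h2
    have h6 : d * |(c0 : ℝ)| ≤ d * (2 * L) := mul_le_mul_of_nonneg_left hc0L (by positivity)
    linarith

end F0744U
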