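import Pool.Agent.Lib.MP_f0744f_nt.U.K4
import Pool.Agent.Lib.MP_f0744f_nt.U.E7

/-! # Row K6: no reflections -/

set_option autoImplicit false

open Polynomial

namespace F0744U

open F0744C F0744D

variable {S : Finset ℤ} {a b : ℤ} {d e : ℕ}

/-- the difference of two estimates -/
theorem K6_2_diff (A : AbsoluteValue ℚ ℝ) (Z u w : ℚ) {R m : ℝ} (hR : 0 ≤ R) (hm : 16 * Real.log 2 ≤ m)
    (h1 : A (Z + u) ≤ R * Real.exp (-((1 - 1 / 16) * m))) (h2 : A (Z + w) ≤ R * Real.exp (-((1 - 1 / 16) * m))) :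
    A (u - w) ≤ R * Real.exp (-(7 / 8) * m) := by
  have h3 : A (u - w) ≤ A (Z + u) + A (Z + w) := by
    have h4 : u - w = (Z + u) + -(Z + w) := by ring
    rw [h4]
    refine (A.add_le _ _).trans ?_
    rw [A.map_neg]
  have h5 : Real.exp (-(7 / 8) * m) = Real.exp (m / 16) * Real.exp (-((1 - 1 / 16) * m)) := by
    rw [← Real.exp_add]
    congr 1
    ring
  have h6 : (2 : ℝ) ≤ Real.exp (m / 16) := by
    rw [← Real.exp_log (show (0 : ℝ) < 2 by norm_num)]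
    exact Real.exp_le_exp.2 (by linarith)
  rw [h5]
  have h7 : 0 ≤ R * Real.exp (-((1 - 1 / 16) * m)) := mul_nonneg hR (Real.exp_pos _).le
  calc A (u - w) ≤ 2 * (R * Real.exp (-((1 - 1 / 16) * m))) := by linarith
    _ ≤ Real.exp (m / 16) * (R * Real.exp (-((1 - 1 / 16) * m))) := mul_le_mul_of_nonneg_right h6 h7
    _ = _ := by ring

/-- `d` odd, `f.F = C α * (X - C γ) ^ d + C β`, `c0 = 2 γ` (`uni_sF`, `hc`). For `x ∈ T` let `y = ph^[k] x`, `y' = g.ph x = c0 - y` (`gT`), `y'' = g.ph (f.ph x) = c0 - F y` (`gT2`), and `F y' = f.ph y' = 2 β - F y` (`uni_odd`); all these numbers are in `S \ {a}`, and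
`F y = ph^[k + 1] x`. So `δ = 2 β - c0 = f.ph y' - y''` is an integer, `|δ| ≤ 2 L`. Suppose `δ ≠ 0`: `sum_boundU` for `q = d δ` with `k = 1`, `v = - 7 / 8`, `w = 0`, `D = log (2 d)`: at the good places `cenU (k + 1)` with `s = - 1`, `θ' = 1 / 16`, for `G x = f.ph (g.ph x)` and
the constant `2 β`, and for `G x = g.ph (f.ph x)` and the constant `c0`; the difference of the two numbers is `d (2 β - c0)`. The result is false because `d ≥ 3` (as in `no_transU`). So `2 β = c0 = 2 γ`, `β = γ`; at a good place (there is one: `massU > 0`)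
`no_power` gives the contradiction (`exists_refU`). -/
theorem refl_oddU (hd : 3 ≤ d) (e J k : ℕ) (hk : k < J) :
    ∃ κ0 θ0 H0 C1 : ℝ, 0 < κ0 ∧ 0 < θ0 ∧
    ∀ (S : Finset ℤ) (a b : ℤ) (f : PM S a d) (g : PM S b e) (L κ θ H C0 : ℝ)
      (B : ℕ) (TT : Finset ℕ) (rt : Bool) (T U : Finset ℤ), CtxU f g J L κ θ H C0 B TT rt T U →
      κ ≤ κ0 → θ ≤ θ0 → H0 ≤ H → C1 ≤ C0 → ∀ α γ β c0 : ℚ, α ≠ 0 → f.F = C α * (X - C γ) ^ d + C β →
      Odd d → g.F = C c0 - f.F.comp^[k] X → c0 = 2 * γ →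
      (d * (2 * β - c0)).num.natAbs ≤ B → (d * (2 * β - c0)).den ≤ B → False := by
  have hd2 : 2 ≤ d := by omega
  obtain ⟨θ1, H1, hθ1, hcen⟩ := cenU hd2 (k + 1) (θ' := 1 / 16) (by norm_num)
  obtain ⟨θ2, H2, hθ2, hpow⟩ := no_power hd2
  refine ⟨1 / 16, min (min θ1 θ2) 1, max (max H1 H2) (16 * Real.log 2), Real.log (2 * d) + 1, by norm_num,
    lt_min (lt_min hθ1 hθ2) one_pos, ?_⟩
  intro S a b f g L κ θ H C0 B TT rt T U h hκ hθ hH hC α γ β c0 hα hF hodd hg hc0 hn hden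
  have hθ1' : θ ≤ θ1 := hθ.trans ((min_le_left _ _).trans (min_le_left _ _))
  have hθ2' : θ ≤ θ2 := hθ.trans ((min_le_left _ _).trans (min_le_right _ _))
  have hθ3 : θ ≤ 1 := hθ.trans (min_le_right _ _)
  have hH1 : H1 ≤ H := ((le_max_left _ _).trans (le_max_left _ _)).trans hH
  have hH2 : H2 ≤ H := ((le_max_right _ _).trans (le_max_left _ _)).trans hH
  have hH3 : 16 * Real.log 2 ≤ H := (le_max_right _ _).trans hH
  have hL0 : 0 < L := lt_of_lt_of_le one_pos h.L1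
  have hd0 : (3 : ℝ) ≤ d := by exact_mod_cast hd
  have hm : ∀ {A : AbsoluteValue ℚ ℝ} {R m : ℝ} {cl : ℤ → Fin d}, UP f A R m θ H cl → 16 * Real.log 2 ≤ m := by
    intro A R m cl hU
    have e1 := hU.big
    have e2 : θ * m ≤ 1 * m := mul_le_mul_of_nonneg_right hθ3 hU.m0.le
    linarith
  have hTk : T ⊆ Dm S a f.ph (k + 1 + 1) := fun x hx => Dm_mono S a f.ph (by omega : k + 1 + 1 ≤ J + 2) (h.sub hx)
  -- the two maps
  have hG1 : ∀ x ∈ T, f.ph (g.ph x) ∈ S ∧ f.ph (g.ph x) ≠ a ∧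
      ((f.ph (g.ph x) : ℤ) : ℚ) = 2 * β + (-1) * ((f.ph^[k + 1] x : ℤ) : ℚ) := by
    intro x hx
    obtain ⟨q1, q2, q3⟩ := h.gT x hx
    obtain ⟨r1, r2, r3⟩ := Dm_succ q3
    obtain ⟨s1, s2, s3⟩ := Dm_succ r3
    obtain ⟨t1, t2⟩ := iter_mem (h.sub hx) (by omega : k < J + 2)
    have e1 := g.val x q1 q2
    rw [hg, eval_sub, eval_C, iter_evalU f (J := J + 2) (i := k) (by omega) (h.sub hx), hc0] at e1
    have e2 := f.val _ r1 r2
    have e3 := f.val _ t1 t2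
    rw [e1, hF, uni_odd hodd, ← hF, ← e3] at e2
    refine ⟨s1, s2, ?_⟩
    rw [e2, Function.iterate_succ_apply' f.ph k x]
    ring
  have hG2 : ∀ x ∈ T, g.ph (f.ph x) ∈ S ∧ g.ph (f.ph x) ≠ a ∧
      ((g.ph (f.ph x) : ℤ) : ℚ) = c0 + (-1) * ((f.ph^[k + 1] x : ℤ) : ℚ) := by
    intro x hx
    obtain ⟨q1, q2, q3⟩ := h.gT2 x hx
    obtain ⟨r1, r2, r3⟩ := Dm_succ q3
    obtain ⟨s1, s2, s3⟩ := Dm_succ (h.sub hx)
    have e1 := g.val _ q1 q2
    rw [hg, eval_sub, eval_C, iter_evalU f (J := J + 1) (i := k) (by omega) s3] at e1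
    refine ⟨r1, r2, ?_⟩
    rw [e1, Function.iterate_succ_apply f.ph k x]
    ring
  obtain ⟨x0, hx0⟩ : ∃ x, x ∈ T := by
    have h1 : U.Nonempty := by
      rw [← Finset.card_pos, h.Uc]
      omega
    obtain ⟨x, hx⟩ := h1
    exact ⟨x, h.UT hx⟩
  have hdel : 2 * β - c0 = ((f.ph (g.ph x0) - g.ph (f.ph x0) : ℤ) : ℚ) := by
    rw [Int.cast_sub, (hG1 x0 hx0).2.2, (hG2 x0 hx0).2.2]
    ring
  have habs : |((2 * β - c0 : ℚ) : ℝ)| ≤ 2 * L := by
    have h1 : ((2 * β - c0 : ℚ) : ℝ) = ((f.ph (g.ph x0) : ℤ) : ℝ) - ((g.ph (f.ph x0) : ℤ) : ℝ) := by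
      rw [hdel]
      push_cast
      ring
    have h2 := h.hL _ (hG1 x0 hx0).1
    have h3 := h.hL _ (hG2 x0 hx0).1
    rw [h1]
    refine (abs_sub _ _).trans ?_
    linarith
  have hest : ∀ (A : AbsoluteValue ℚ ℝ) (R m : ℝ) (cl : ℤ → Fin d), UP f A R m θ H cl →
      FullU f.ph cl (J + 2) T → A (d * (2 * β - c0)) ≤ R * Real.exp (-(7 / 8) * m) := by
    intro A R m cl hU hFu
    obtain ⟨z, hz⟩ := exists_refU hTk (hFu.mono (by omega : k + 1 + 1 ≤ J + 2))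
    have a1 := hcen S a f A R m θ H cl hU hθ1' hH1 T hTk (hFu.mono (by omega : k + 1 + 1 ≤ J + 2)) z hz (2 * β) (-1)
      (fun x => f.ph (g.ph x)) (Or.inr rfl) hG1
    have a2 := hcen S a f A R m θ H cl hU hθ1' hH1 T hTk (hFu.mono (by omega : k + 1 + 1 ≤ J + 2)) z hz c0 (-1)
      (fun x => g.ph (f.ph x)) (Or.inr rfl) hG2
    have a3 := K6_2_diff A _ _ _ (zero_le_one.trans hU.R1) (hm hU) a1 a2
    rwa [← mul_sub] at a3
  have hΛ : 0 < Real.log L := by
    have e1 := h.big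
    have e2 : 0 ≤ Real.log (2 * d) := Real.log_nonneg (by linarith)
    have e3 : 0 < κ * Real.log L := by linarith
    exact (mul_pos_iff_of_pos_left h.κ0).1 e3
  have hmass : (1 - κ) * (2 * Real.log L) ≤ massU f.F d L TT rt := by
    refine le_trans ?_ h.lo
    have e1 : 2 * Real.log L ≤ ((d : ℝ) - 1) * Real.log L := mul_le_mul_of_nonneg_right (by linarith) hΛ.le
    exact mul_le_mul_of_nonneg_left e1 (by linarith)
  -- `δ = 0`
  have hzero : d * (2 * β - c0) = 0 := by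
    by_contra hq
    have key := sum_boundU h hq hn hden (k := 1) (v := -(7 / 8)) (w := 0) (D := Real.log (2 * d)) le_rfl
      (Real.log_nonneg (by linarith)) ?_ ?_ ?_ ?_
    · have h2 := h.big
      have h3 : κ * Real.log L ≤ 1 / 16 * Real.log L := mul_le_mul_of_nonneg_right hκ hΛ.le
      nlinarith
    · intro p hp hpT
      obtain ⟨cl, h1, h2⟩ := h.tp p hpT
      have h3 := hest _ _ _ cl h1 h2
      rwa [one_mul] at h3
    · intro p hp _
      rw [zero_mul, Real.exp_zero, hdel, Rat.AbsoluteValue.padic_eq_padicNorm]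
      have h1 : ((d : ℚ) * ((f.ph (g.ph x0) - g.ph (f.ph x0) : ℤ) : ℚ)) =
          (((d : ℤ) * (f.ph (g.ph x0) - g.ph (f.ph x0)) : ℤ) : ℚ) := by push_cast; ring
      rw [h1]
      exact_mod_cast padicNorm.of_int _
    · intro hrt
      obtain ⟨cl, h1, h2⟩ := h.tr hrt
      have h3 := hest _ _ _ cl h1 h2
      rw [Rat.AbsoluteValue.real_eq_abs] at h3
      rw [Real.exp_add, one_mul, Real.exp_log hL0]
      push_cast at h3 ⊢
      exact h3
    · intro _
      rw [zero_mul, add_zero, one_mul, Real.exp_add, Real.exp_log hL0, Real.exp_log (by linarith)]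
      have h1 : |((d * (2 * β - c0) : ℚ) : ℝ)| = d * |((2 * β - c0 : ℚ) : ℝ)| := by
        rw [Rat.cast_mul, abs_mul, Rat.cast_natCast, Nat.abs_cast]
      rw [h1]
      have h2 : (d : ℝ) * |((2 * β - c0 : ℚ) : ℝ)| ≤ d * (2 * L) := mul_le_mul_of_nonneg_left habs (by linarith)
      linarith
  have hβ : β = γ := by
    have e1 : (d : ℚ) ≠ 0 := by
      have : d ≠ 0 := by omega
      exact_mod_cast this
    have e2 : 2 * β - c0 = 0 := (mul_eq_zero.1 hzero).resolve_left e1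
    rw [hc0] at e2
    linarith
  have hfin : ∀ (A : AbsoluteValue ℚ ℝ) (R m : ℝ) (cl : ℤ → Fin d), UP f A R m θ H cl →
      FullU f.ph cl (J + 2) T → False := by
    intro A R m cl hU hFu
    obtain ⟨z, hz⟩ := exists_refU hTk (hFu.mono (by omega : k + 1 + 1 ≤ J + 2))
    exact hpow S a f A R m θ H cl hU hθ2' hH2 z hz α γ (by rw [hF, hβ])
  have hpos : 0 < massU f.F d L TT rt := lt_of_lt_of_le (mul_pos (by linarith) (by linarith)) hmass
  cases rt with
  | true =>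
    obtain ⟨cl, h1, h2⟩ := h.tr rfl
    exact hfin _ _ _ cl h1 h2
  | false =>
    rcases TT.eq_empty_or_nonempty with hTT | ⟨p, hpT⟩
    · rw [massU, hTT] at hpos
      simp at hpos
    · have hp : Fact p.Prime := ⟨(Finset.mem_filter.1 (h.TTs hpT)).2⟩
      obtain ⟨cl, h1, h2⟩ := h.tp p hpT
      exact hfin _ _ _ cl h1 h2

end F0744U
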