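import Pool.Agent.Lib.MP_f0744f_nt.U.K6_1
import Pool.Agent.Lib.MP_f0744f_nt.U.K6_2

/-! # Row K6: no reflections -/
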