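import Pool.Agent.Lib.MP_f0744f_nt.U.K4
import Pool.Agent.Lib.MP_f0744f_nt.U.E7

/-! # Row K6: no reflections -/

set_option autoImplicit false

open Polynomial

namespace F0744U

open F0744C F0744D

variable {S : Finset ℤ} {a b : ℤ} {d e : ℕ}

/-- `d` even. `f.F = C α * (X - C γ) ^ d + C β`, `c0 = 2 γ` (`uni_sF`, `hc`). For `x ∈ T` let `y = ph^[k] x`, `y' = g.ph x = 2 γ - y` (`iter_evalU`, `g.val`); `y, y' ∈ S \ {a}` (`gT`, `Dm_succ`, `iter_mem`) and `F y' = F y` (`uni_even`), so `y' = y`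
(`f.inj`), `y = γ`. `U ⊆ T` has two different elements `x, x'` (`Uc`), and `ph^[k] x = ph^[k] x'` contradicts `iter_injU` (`Dm_mono`). -/
theorem refl_evenU (hd : 2 ≤ d) {e J k : ℕ} (hk : k < J)
    {f : PM S a d} {g : PM S b e} {L κ θ H C0 : ℝ}
    {B : ℕ} {TT : Finset ℕ} {rt : Bool} {T U : Finset ℤ} (h : CtxU f g J L κ θ H C0 B TT rt T U)
    (hu : Uni f.F d) (hev : Even d) {c0 : ℚ} (hg : g.F = C c0 - f.F.comp^[k] X)
    (hc : d * c0 = 2 * sF f.F d) : False := by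
  obtain ⟨α, γ, β, hα, hF⟩ := hu
  have hd0 : (d : ℚ) ≠ 0 := by
    have : d ≠ 0 := by omega
    exact_mod_cast this
  have hc0 : c0 = 2 * γ := by
    rw [hF, uni_sF hd hα] at hc
    have h1 : (d : ℚ) * c0 = d * (2 * γ) := by
      rw [hc]
      ring
    exact mul_left_cancel₀ hd0 h1
  have hG : ∀ x ∈ T, g.ph x ∈ Dm S a f.ph 2 ∧
      ((g.ph x : ℤ) : ℚ) = c0 - ((f.ph^[k] x : ℤ) : ℚ) := by
    intro x hx
    obtain ⟨h1, h2, h3⟩ := h.gT x hx
    refine ⟨h3, ?_⟩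
    rw [g.val x h1 h2, hg, eval_sub, eval_C, iter_evalU f (show k ≤ J + 2 by omega) (h.sub hx)]
  have hU2 : 2 ≤ U.card := by rw [h.Uc]; omega
  -- two points of U
  obtain ⟨x, hx, x', hx', hne⟩ := Finset.one_lt_card.1 (show 1 < U.card by omega)
  have hyS : ∀ z ∈ T, f.ph^[k] z ∈ S ∧ f.ph^[k] z ≠ a := fun z hz =>
    iter_mem (h.sub hz) (show k < J + 2 by omega)
  have hgS : ∀ z ∈ T, g.ph z ∈ S ∧ g.ph z ≠ a := fun z hz =>
    iter_mem (i := 0) (hG z hz).1 (by omega)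
  have key : ∀ z ∈ T, 2 * ((f.ph^[k] z : ℤ) : ℚ) = 2 * γ := by
    intro z hz
    have e1 := (hG z hz).2
    rw [hc0] at e1
    have e2 : f.ph (g.ph z) = f.ph (f.ph^[k] z) := by
      have e3 : ((f.ph (g.ph z) : ℤ) : ℚ) = ((f.ph (f.ph^[k] z) : ℤ) : ℚ) := by
        rw [f.val _ (hgS z hz).1 (hgS z hz).2, f.val _ (hyS z hz).1 (hyS z hz).2, e1, hF]
        exact uni_even hev _
      exact_mod_cast e3
    have e4 := f.inj _ (hgS z hz).1 _ (hyS z hz).1 (hgS z hz).2 (hyS z hz).2 e2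
    rw [e4] at e1
    linarith
  have h1 := key x (h.UT hx)
  have h2 := key x' (h.UT hx')
  have h3 : ((f.ph^[k] x : ℤ) : ℚ) = ((f.ph^[k] x' : ℤ) : ℚ) := by linarith
  have h4 : f.ph^[k] x = f.ph^[k] x' := by exact_mod_cast h3
  exact hne (iter_injU f (n := k) (Dm_mono S a f.ph (by omega) (h.sub (h.UT hx)))
    (Dm_mono S a f.ph (by omega) (h.sub (h.UT hx'))) h4)

end F0744U
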