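import Pool.Agent.Lib.MP_f0744f_nt.U.K7a
import Pool.Agent.Lib.MP_f0744f_nt.U.K5
import Pool.Agent.Lib.MP_f0744f_nt.U.K6

/-! # Row K7: the integral core -/

set_option autoImplicit false

open Polynomial

namespace F0744U

open F0744C F0744D

variable {S : Finset ℤ} {a b : ℤ} {d e : ℕ}

/-- the integral core -/
def MainU (d e : ℕ) : Prop :=
  ∃ N0 : ℕ, ∀ (S : Finset ℤ) (a b : ℤ), a ∈ S → b ∈ S → a ≠ b → (0 : ℤ) ∈ S → N0 ≤ S.card →
    (∀ p : ℕ, p.Prime → ∃ x ∈ S, ∃ y ∈ S, ¬ (p : ℤ) ∣ x - y) →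
    ∀ (f : PM S a d) (g : PM S b e), Uni f.F d → ∃ k : ℕ, 1 ≤ k ∧ g.F = f.F.comp^[k] X

/-- Model: the second half of `main_q` in `D/K7.lean`. `k0 = Nat.log d e < e` (`d ^ k = e` gives `k = k0`: `Nat.log_pow`). `J = e`. Constants: `κ, θ` the minima and `H, C` the maxima of the constants of `no_transU e e k0`, `refl_centreU e e k0`, `refl_oddU e e k0`. `N0` the maximum of those of `form_U` and `exists_ctxU`.
`form_U` gives `k = k0` and `c0`. Then take a `CtxU` with `B` at least the numerators and denominators of `d c0`, `d c0 - 2 sF`, `d (2 β - c0)` (`f.F = C α * (X - C γ) ^ d + C β`): sign `+`: `no_transU`; sign `-`: `refl_centreU`, so `c0 = 2 γ` (`uni_sF`), then `refl_evenU` or `refl_oddU`. -/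
theorem main_U {d e : ℕ} (hd : 3 ≤ d) (he : 2 ≤ e) : MainU d e := by
  obtain ⟨k0, hk0⟩ : ∃ k0 : ℕ, k0 = Nat.log d e := ⟨_, rfl⟩
  have hk0e : k0 < e := by
    rw [hk0]
    exact Nat.log_lt_of_lt_pow (by omega) (Nat.lt_pow_self (by omega))
  have hkk : ∀ k : ℕ, d ^ k = e → k = k0 := by
    intro k hk
    rw [hk0, ← hk, Nat.log_pow (by omega)]
  obtain ⟨κ1, θ1, H1, C1, hκ1, hθ1, A1⟩ := no_transU hd e e k0 hk0e
  obtain ⟨κ2, θ2, H2, C2, hκ2, hθ2, A2⟩ := refl_centreU hd e e k0 hk0e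
  obtain ⟨κ3, θ3, H3, C3, hκ3, hθ3, A3⟩ := refl_oddU hd e e k0 hk0e
  obtain ⟨κ, hκ, k1, k2, k3⟩ : ∃ κ : ℝ, 0 < κ ∧ κ ≤ κ1 ∧ κ ≤ κ2 ∧ κ ≤ κ3 := by
    refine ⟨min κ1 (min κ2 κ3), lt_min hκ1 (lt_min hκ2 hκ3), min_le_left _ _, ?_, ?_⟩
    · exact (min_le_right _ _).trans (min_le_left _ _)
    · exact (min_le_right _ _).trans (min_le_right _ _)
  obtain ⟨θ, hθ, t1, t2, t3⟩ : ∃ θ : ℝ, 0 < θ ∧ θ ≤ θ1 ∧ θ ≤ θ2 ∧ θ ≤ θ3 := by
    refine ⟨min θ1 (min θ2 θ3), lt_min hθ1 (lt_min hθ2 hθ3), min_le_left _ _, ?_, ?_⟩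
    · exact (min_le_right _ _).trans (min_le_left _ _)
    · exact (min_le_right _ _).trans (min_le_right _ _)
  obtain ⟨H, h1, h2, h3⟩ : ∃ H : ℝ, H1 ≤ H ∧ H2 ≤ H ∧ H3 ≤ H := by
    refine ⟨max H1 (max H2 H3), le_max_left _ _, ?_, ?_⟩
    · exact (le_max_left _ _).trans (le_max_right _ _)
    · exact (le_max_right _ _).trans (le_max_right _ _)
  obtain ⟨C0, c1, c2, c3⟩ : ∃ C0 : ℝ, C1 ≤ C0 ∧ C2 ≤ C0 ∧ C3 ≤ C0 := by
    refine ⟨max C1 (max C2 C3), le_max_left _ _, ?_, ?_⟩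
    · exact (le_max_left _ _).trans (le_max_right _ _)
    · exact (le_max_right _ _).trans (le_max_right _ _)
  obtain ⟨N1, hN1⟩ := form_U (d := d) (e := e) (by omega) he
  obtain ⟨N2, hN2⟩ := exists_ctxU (d := d) (e := e) (by omega) he e hκ hθ H C0
  refine ⟨max N1 N2, fun S a b ha hb hab h0 hN hp f g hu => ?_⟩
  obtain ⟨k, c0, hk1, hke, hdk, hs⟩ :=
    hN1 S a b ha hb hab h0 ((le_max_left _ _).trans hN) hp f g hu
  have hk : k = k0 := hkk k hdk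
  subst hk
  obtain ⟨α, γ, β, hα, hF⟩ := id hu
  obtain ⟨L, B, TT, rt, T, U, hB, ctx⟩ := hN2 S a b f g ha hb hab h0
    ((le_max_right _ _).trans hN) hp hu
    (((d * c0 : ℚ).num.natAbs + (d * c0 : ℚ).den) +
      (((d * c0 - 2 * sF f.F d : ℚ).num.natAbs + (d * c0 - 2 * sF f.F d : ℚ).den) +
        ((d * (2 * β - c0) : ℚ).num.natAbs + (d * (2 * β - c0) : ℚ).den)))
  rcases hs with hs | hs
  · have h0' : c0 = 0 := A1 S a b f g L κ θ H C0 B TT rt T U ctx k1 t1 h1 c1 c0 hs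
      (by omega) (by omega)
    refine ⟨k, hk1, ?_⟩
    rw [hs, h0', C_0, zero_add]
  · exfalso
    have hc : d * c0 = 2 * sF f.F d := A2 S a b f g L κ θ H C0 B TT rt T U ctx k2 t2 h2 c2 c0 hs
      (by omega) (by omega)
    rcases Nat.even_or_odd d with hev | hod
    · exact refl_evenU (by omega) hk0e ctx hu hev hs hc
    · have hd0 : (d : ℚ) ≠ 0 := by
        exact_mod_cast (by omega : d ≠ 0)
      have hc2 : c0 = 2 * γ := by
        rw [hF, uni_sF (by omega) hα] at hc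
        have h4 : (d : ℚ) * c0 = d * (2 * γ) := by
          rw [hc]
          ring
        exact mul_left_cancel₀ hd0 h4
      exact A3 S a b f g L κ θ H C0 B TT rt T U ctx k3 t3 h3 c3 α γ β c0 hα hF hod hs hc2
        (by omega) (by omega)

end F0744U
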