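import Pool.Agent.Lib.MP_f0744f_nt.D.X1
import Pool.Agent.Lib.MP_f0744f_nt.U.B0

/-! # Row X1: the points -/

set_option autoImplicit false

open Polynomial

namespace F0744U

open F0744C F0744D

variable {S : Finset ℤ} {a b : ℤ} {d e : ℕ}

/-- `T` = the `x` of the set of `exists_T` (`D/X1.lean`; here for general `d`, the same proof) with `x ≠ a`, `f.ph x ≠ b` and `g.ph (f.ph x) ∈ Dm S a f.ph 2`. `f.ph` is injective on `S \ {a}` with values in `S`, `g.ph` on `S \ {b}`; at most `2` elements of `S` are not in `Dm S a f.ph 2` (`Dm_card`). -/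
theorem exists_TU (f : PM S a d) (g : PM S b e) (J : ℕ) :
    ∃ T : Finset ℤ, T ⊆ Dm S a f.ph J ∧ T ⊆ Dm S b g.ph J ∧ (∀ x ∈ T, x ≠ a) ∧
      (∀ x ∈ T, x ∈ S ∧ x ≠ b ∧ g.ph x ∈ Dm S a f.ph 2) ∧
      (∀ x ∈ T, f.ph x ∈ S ∧ f.ph x ≠ b ∧ g.ph (f.ph x) ∈ Dm S a f.ph 2) ∧
      S.card ≤ T.card + 2 * J + 8 := by
  classical
  have h1 : (S \ Dm S a f.ph J).card ≤ J := by
    have h := Dm_card f J
    rw [Finset.card_sdiff_of_subset (Dm_sub S a f.ph J)]
    omega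
  have h2 : (S \ Dm S b g.ph J).card ≤ J := by
    have h := Dm_card g J
    rw [Finset.card_sdiff_of_subset (Dm_sub S b g.ph J)]
    omega
  have h3 : (S \ Dm S a f.ph 2).card ≤ 2 := by
    have h := Dm_card f 2
    rw [Finset.card_sdiff_of_subset (Dm_sub S a f.ph 2)]
    omega
  have h4 : ((S.erase b).filter (fun x => g.ph x ∉ Dm S a f.ph 2)).card ≤
      (S \ Dm S a f.ph 2).card := by
    apply Finset.card_le_card_of_injOn g.ph
    · intro x hx
      have hx1 := Finset.mem_filter.1 (Finset.mem_coe.1 hx)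
      have hx2 := Finset.mem_erase.1 hx1.1
      exact Finset.mem_coe.2 (Finset.mem_sdiff.2 ⟨g.maps x hx2.2 hx2.1, hx1.2⟩)
    · intro x hx y hy hxy
      have hx1 := Finset.mem_erase.1 (Finset.mem_filter.1 (Finset.mem_coe.1 hx)).1
      have hy1 := Finset.mem_erase.1 (Finset.mem_filter.1 (Finset.mem_coe.1 hy)).1
      exact g.inj x hx1.2 y hy1.2 hx1.1 hy1.1 hxy
  have h5 : ((S.erase a).filter
      (fun x => f.ph x = b ∨ (f.ph x ≠ b ∧ g.ph (f.ph x) ∉ Dm S a f.ph 2))).card ≤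
      (insert b ((S.erase b).filter (fun x => g.ph x ∉ Dm S a f.ph 2))).card := by
    apply Finset.card_le_card_of_injOn f.ph
    · intro x hx
      have hx1 := Finset.mem_filter.1 (Finset.mem_coe.1 hx)
      have hx2 := Finset.mem_erase.1 hx1.1
      have hx3 := f.maps x hx2.2 hx2.1
      refine Finset.mem_coe.2 (Finset.mem_insert.2 ?_)
      rcases hx1.2 with h | h
      · exact Or.inl h
      · exact Or.inr (Finset.mem_filter.2 ⟨Finset.mem_erase.2 ⟨h.1, hx3⟩, h.2⟩)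
    · intro x hx y hy hxy
      have hx1 := Finset.mem_erase.1 (Finset.mem_filter.1 (Finset.mem_coe.1 hx)).1
      have hy1 := Finset.mem_erase.1 (Finset.mem_filter.1 (Finset.mem_coe.1 hy)).1
      exact f.inj x hx1.2 y hy1.2 hx1.1 hy1.1 hxy
  have h5' := Finset.card_insert_le b ((S.erase b).filter (fun x => g.ph x ∉ Dm S a f.ph 2))
  refine ⟨(Dm S a f.ph J ∩ Dm S b g.ph J).filter (fun x => x ≠ a ∧ x ≠ b ∧
    g.ph x ∈ Dm S a f.ph 2 ∧ f.ph x ≠ b ∧ g.ph (f.ph x) ∈ Dm S a f.ph 2),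
    ?_, ?_, ?_, ?_, ?_, ?_⟩
  · intro x hx
    exact (Finset.mem_inter.1 (Finset.mem_filter.1 hx).1).1
  · intro x hx
    exact (Finset.mem_inter.1 (Finset.mem_filter.1 hx).1).2
  · intro x hx
    exact (Finset.mem_filter.1 hx).2.1
  · intro x hx
    have hx1 := Finset.mem_filter.1 hx
    exact ⟨Dm_sub S a f.ph J (Finset.mem_inter.1 hx1.1).1, hx1.2.2.1, hx1.2.2.2.1⟩
  · intro x hx
    have hx1 := Finset.mem_filter.1 hx
    exact ⟨f.maps x (Dm_sub S a f.ph J (Finset.mem_inter.1 hx1.1).1) hx1.2.1,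
      hx1.2.2.2.2.1, hx1.2.2.2.2.2⟩
  · have h6 : S ⊆ ((Dm S a f.ph J ∩ Dm S b g.ph J).filter (fun x => x ≠ a ∧ x ≠ b ∧
        g.ph x ∈ Dm S a f.ph 2 ∧ f.ph x ≠ b ∧ g.ph (f.ph x) ∈ Dm S a f.ph 2)) ∪
        ((S \ Dm S a f.ph J) ∪ ((S \ Dm S b g.ph J) ∪ (({a} : Finset ℤ) ∪ (({b} : Finset ℤ) ∪
        ((S.erase b).filter (fun x => g.ph x ∉ Dm S a f.ph 2) ∪
        (S.erase a).filter (fun x => f.ph x = b ∨
          (f.ph x ≠ b ∧ g.ph (f.ph x) ∉ Dm S a f.ph 2))))))) := by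
      intro x hx
      simp only [Finset.mem_union, Finset.mem_filter, Finset.mem_inter, Finset.mem_sdiff,
        Finset.mem_singleton, Finset.mem_erase]
      tauto
    have h7 := Finset.card_le_card h6
    have c1 := Finset.card_union_le ((Dm S a f.ph J ∩ Dm S b g.ph J).filter (fun x => x ≠ a ∧
        x ≠ b ∧ g.ph x ∈ Dm S a f.ph 2 ∧ f.ph x ≠ b ∧ g.ph (f.ph x) ∈ Dm S a f.ph 2))
        ((S \ Dm S a f.ph J) ∪ ((S \ Dm S b g.ph J) ∪ (({a} : Finset ℤ) ∪ (({b} : Finset ℤ) ∪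
        ((S.erase b).filter (fun x => g.ph x ∉ Dm S a f.ph 2) ∪
        (S.erase a).filter (fun x => f.ph x = b ∨
          (f.ph x ≠ b ∧ g.ph (f.ph x) ∉ Dm S a f.ph 2)))))))
    have c2 := Finset.card_union_le (S \ Dm S a f.ph J) ((S \ Dm S b g.ph J) ∪
        (({a} : Finset ℤ) ∪ (({b} : Finset ℤ) ∪
        ((S.erase b).filter (fun x => g.ph x ∉ Dm S a f.ph 2) ∪
        (S.erase a).filter (fun x => f.ph x = b ∨
          (f.ph x ≠ b ∧ g.ph (f.ph x) ∉ Dm S a f.ph 2))))))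
    have c3 := Finset.card_union_le (S \ Dm S b g.ph J)
        (({a} : Finset ℤ) ∪ (({b} : Finset ℤ) ∪
        ((S.erase b).filter (fun x => g.ph x ∉ Dm S a f.ph 2) ∪
        (S.erase a).filter (fun x => f.ph x = b ∨
          (f.ph x ≠ b ∧ g.ph (f.ph x) ∉ Dm S a f.ph 2)))))
    have c4 := Finset.card_union_le ({a} : Finset ℤ) (({b} : Finset ℤ) ∪
        ((S.erase b).filter (fun x => g.ph x ∉ Dm S a f.ph 2) ∪
        (S.erase a).filter (fun x => f.ph x = b ∨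
          (f.ph x ≠ b ∧ g.ph (f.ph x) ∉ Dm S a f.ph 2))))
    have c5 := Finset.card_union_le ({b} : Finset ℤ)
        ((S.erase b).filter (fun x => g.ph x ∉ Dm S a f.ph 2) ∪
        (S.erase a).filter (fun x => f.ph x = b ∨
          (f.ph x ≠ b ∧ g.ph (f.ph x) ∉ Dm S a f.ph 2)))
    have c6 := Finset.card_union_le ((S.erase b).filter (fun x => g.ph x ∉ Dm S a f.ph 2))
        ((S.erase a).filter (fun x => f.ph x = b ∨
          (f.ph x ≠ b ∧ g.ph (f.ph x) ∉ Dm S a f.ph 2)))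
    rw [Finset.card_singleton] at c4 c5
    omega

end F0744U
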