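import Pool.Agent.Lib.MP_f0744f_nt.D.X2
import Pool.Agent.Lib.MP_f0744f_nt.U.Cx

/-! # Row X2: the distribution of the height over the places -/

set_option autoImplicit false

open Polynomial

namespace F0744U

open F0744C F0744D

variable {S : Finset ℤ} {a b : ℤ} {d e : ℕ}

theorem X2_sum_mPU {F : ℚ[X]} (hF : F ≠ 0) (d : ℕ) {B : ℕ} (h1 : F.leadingCoeff.num.natAbs ≤ B)
    (h2 : F.leadingCoeff.den ≤ B) (L : ℝ) :
    ∑ p ∈ Ps B, mP p F + mm Rat.AbsoluteValue.real L d F = ((d : ℝ) - 1) * Real.log L := by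
  have h := sum_mP hF h1 h2 L
  have h3 : mm Rat.AbsoluteValue.real L d F =
      mm Rat.AbsoluteValue.real L 2 F + ((d : ℝ) - 2) * Real.log L := by
    simp only [mm]
    push_cast
    ring
  rw [h3]
  linarith

/-- The same proof as `glob` in `D/X2.lean` with `M p = max 0 (mP p f.F) / (d - 1)`, `M0 = mm real L d f.F / (d - 1)` and `H / (d - 1)` in place of `H` in `places` (`small_primes`). -/
theorem globU (hd : 2 ≤ d) (he : 2 ≤ e) (f : PM S a d) (g : PM S b e) {T : Finset ℤ} {J : ℕ}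
    (hTf : T ⊆ Dm S a f.ph J) (hTg : T ⊆ Dm S b g.ph J) (hT : T.Nonempty) {ε η κ H L : ℝ}
    (hε : 0 < ε) (hη : 0 < η) (hη1 : η ≤ 1 / 2) (h : 32 * ε ≤ η * κ) (hκ : κ ≤ 1 / 32)
    (hH : 0 < H) (hJ : 1 / (2 : ℝ) ^ J ≤ ε / 2) (hBf : Big d (2 * J) (ε / 2) T.card)
    (hBg : Big e (2 * J) (ε / 2) T.card) (hL1 : 1 ≤ L) (hL : ∀ y ∈ S, |((y : ℤ) : ℝ)| ≤ L)
    (hΛ : Real.log 2 ≤ ε * Real.log L) (hΛH : (Real.exp H + 1) * H ≤ κ * Real.log L) {B : ℕ}
    (hB : 2 * L ≤ B) (h1 : f.F.leadingCoeff.num.natAbs ≤ B) (h2 : f.F.leadingCoeff.den ≤ B)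
    (h3 : g.F.leadingCoeff.den ≤ B) :
    ∃ (TT : Finset ℕ) (rt : Bool), TT ⊆ Ps B ∧
      (∀ p ∈ TT, H ≤ mP p f.F ∧ 0 < mP p g.F ∧
        EnP p T ≤ (1 + η) * (T.card : ℝ) ^ 2 * (mP p f.F / ((d : ℝ) - 1)) ∧
        EnP p T ≤ (1 + η) * (T.card : ℝ) ^ 2 * (mP p g.F / ((e : ℝ) - 1))) ∧
      (rt = true → κ * (((d : ℝ) - 1) * Real.log L) ≤ mm Rat.AbsoluteValue.real L d f.F ∧
        κ * (((e : ℝ) - 1) * Real.log L) ≤ mm Rat.AbsoluteValue.real L e g.F ∧
        En Rat.AbsoluteValue.real L T ≤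
          (1 + η) * (T.card : ℝ) ^ 2 * (mm Rat.AbsoluteValue.real L d f.F / ((d : ℝ) - 1)) ∧
        En Rat.AbsoluteValue.real L T ≤
          (1 + η) * (T.card : ℝ) ^ 2 * (mm Rat.AbsoluteValue.real L e g.F / ((e : ℝ) - 1))) ∧
      (1 - 16 * κ) * (((d : ℝ) - 1) * Real.log L) ≤ massU f.F d L TT rt ∧
      massU f.F d L TT rt ≤ (1 + 16 * κ) * (((d : ℝ) - 1) * Real.log L) ∧
      ∑ p ∈ Ps B \ TT, EnP p T +
        (if rt = true then 0 else EnX Rat.AbsoluteValue.real L T) ≤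
          33 * κ * (T.card : ℝ) ^ 2 * Real.log L ∧
      ∑ p ∈ Ps B, max 0 (-mP p f.F) + max 0 (-mm Rat.AbsoluteValue.real L d f.F) ≤
        16 * κ * (((d : ℝ) - 1) * Real.log L) := by
  have hκ0 : 0 < κ := by
    by_contra hcon
    push Not at hcon
    have h4 : η * κ ≤ 0 := mul_nonpos_of_nonneg_of_nonpos hη.le hcon
    linarith
  have hεκ : 64 * ε ≤ κ := by nlinarith
  have hε1 : ε ≤ 1 := by linarith
  have hlog2 : 0 < Real.log 2 := Real.log_pos (by norm_num)
  have hΛpos : 0 < Real.log L := by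
    by_contra hcon
    push Not at hcon
    have : ε * Real.log L ≤ 0 := mul_nonpos_of_nonneg_of_nonpos hε.le hcon
    linarith
  have he' : (2 : ℝ) ≤ e := by exact_mod_cast he
  have he1 : (0 : ℝ) < (e : ℝ) - 1 := by linarith
  have hd' : (2 : ℝ) ≤ d := by exact_mod_cast hd
  obtain ⟨D, hD⟩ : ∃ D : ℝ, D = (d : ℝ) - 1 := ⟨_, rfl⟩
  have hD1 : 1 ≤ D := by rw [hD]; linarith
  have hD0 : 0 < D := by linarith
  have hF0 : f.F ≠ 0 := by
    intro h; have := f.deg; rw [h, natDegree_zero] at this; omega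
  have hG0 : g.F ≠ 0 := by
    intro h; have := g.deg; rw [h, natDegree_zero] at this; omega
  have ht : (0 : ℝ) < T.card := by exact_mod_cast Finset.card_pos.2 hT
  have hTS : T ⊆ S := hTf.trans (G4_Dm_subset S a f.ph J)
  have hes := energy_sum T (fun x hx => hL x (hTS hx)) hB
  have hfac : ∀ p ∈ Ps B, p.Prime := fun p hp => (Finset.mem_filter.1 hp).2
  have hsm := small_primes f.F B hH.le
  have hsp := X2_sum_mPU hF0 d h1 h2 L
  rw [← hD] at hsp ⊢
  obtain ⟨Q, hQdef⟩ : ∃ Q : ℝ, Q = (T.card : ℝ) ^ 2 := ⟨_, rfl⟩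
  have hQ : 0 < Q := by rw [hQdef]; positivity
  obtain ⟨TT, hTT⟩ : ∃ TT : Finset ℕ, TT = (Ps B).filter (fun p => H / D ≤ max 0 (mP p f.F) / D ∧
    EnP p T ≤ (1 + η) * Q * (max 0 (mP p f.F) / D) ∧
    EnP p T ≤ (1 + η) * Q * (max 0 (mP p g.F) / ((e : ℝ) - 1))) := ⟨_, rfl⟩
  have hLp : ∀ p ∈ Ps B, (1 - ε) * Q * (max 0 (mP p f.F) / D) ≤ EnP p T := by
    intro p hp
    have h4 := lower_p f hd (hfac p hp) J hTf hε hε1 (X2_pow_le hd hJ) hBf
    rw [← hQdef, ← hD] at h4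
    exact h4
  have hΛD : Real.log L / D ≤ Real.log L := div_le_self hΛpos.le hD1
  have hpl := places (Ps B) (fun p => EnP p T) (fun p => max 0 (mP p f.F) / D)
    (fun p => max 0 (mP p g.F) / ((e : ℝ) - 1)) (E0 := En Rat.AbsoluteValue.real L T)
    (M0 := mm Rat.AbsoluteValue.real L d f.F / D)
    (M0' := mm Rat.AbsoluteValue.real L e g.F / ((e : ℝ) - 1)) (Q := Q)
    (Λ := Real.log L) (ε := ε) (η := η) (κ := κ) hQ hΛpos hε hη hη1 h hκ
    (by rw [hes, hQdef]; nlinarith [mul_pos ht hΛpos])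
    (fun p hp => EnP_nonneg (hfac p hp) T)
    (fun p _ => div_nonneg (le_max_left _ _) hD0.le)
    (fun p _ => div_nonneg (le_max_left _ _) he1.le)
    hLp
    (fun p hp => by
      have h4 := lower_p g he (hfac p hp) J hTg hε hε1 (X2_pow_le he hJ) hBg
      rw [← hQdef] at h4
      exact h4)
    (by
      have h4 := lower_r f hd J hTf hε hε1 (X2_pow_le hd hJ) hBf hL1 hL hΛ
      rw [← hQdef, ← hD] at h4
      exact h4)
    (by
      have h4 := lower_r g he J hTg hε hε1 (X2_pow_le he hJ) hBg hL1 hL hΛ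
      rw [← hQdef] at h4
      exact h4)
    (by
      have h4 := sum_mm hF0 d h2 L
      rw [← hD] at h4
      rw [← Finset.sum_div, ← add_div, le_div_iff₀ hD0]
      linarith)
    (by
      have h4 := sum_mm hG0 e h3 L
      rw [← Finset.sum_div, ← add_div, le_div_iff₀ he1]
      linarith)
    (H := H / D) (TT := TT)
    (by
      have e1 : (Ps B).filter (fun p => max 0 (mP p f.F) / D < H / D) =
          (Ps B).filter (fun p => max 0 (mP p f.F) < H) :=
        Finset.filter_congr fun p _ => div_lt_div_iff_of_pos_right hD0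
      have e3 : ∑ p ∈ (Ps B).filter (fun p => max 0 (mP p f.F) / D < H / D),
          max 0 (mP p f.F) / D ≤ κ * Real.log L := by
        rw [e1, ← Finset.sum_div]
        have e4 : 0 ≤ ∑ p ∈ (Ps B).filter (fun p => max 0 (mP p f.F) < H), max 0 (mP p f.F) :=
          Finset.sum_nonneg fun p _ => le_max_left _ _
        exact (div_le_self e4 hD1).trans (hsm.trans hΛH)
      exact e3)
    (fun p => by rw [hTT, Finset.mem_filter])
  obtain ⟨o1, o2, o3, o4⟩ := hpl
  have hTTs : TT ⊆ Ps B := by rw [hTT]; exact Finset.filter_subset _ _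
  have hmax : ∀ x : ℝ, 0 < max 0 x → max 0 x = x := by
    intro x hx
    rcases le_total 0 x with h4 | h4
    · exact max_eq_right h4
    · rw [max_eq_left h4] at hx
      exact absurd hx (lt_irrefl 0)
  have hTT0 : ∀ p ∈ TT, H ≤ max 0 (mP p f.F) := by
    intro p hp
    rw [hTT, Finset.mem_filter] at hp
    exact (div_le_div_iff_of_pos_right hD0).1 hp.2.1
  have hTT1 : ∀ p ∈ TT, max 0 (mP p f.F) = mP p f.F := by
    intro p hp
    exact hmax _ (lt_of_lt_of_le hH (hTT0 p hp))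
  have hTT2 : ∀ p ∈ TT, H ≤ mP p f.F ∧ 0 < mP p g.F ∧
        EnP p T ≤ (1 + η) * (T.card : ℝ) ^ 2 * (mP p f.F / D) ∧
        EnP p T ≤ (1 + η) * (T.card : ℝ) ^ 2 * (mP p g.F / ((e : ℝ) - 1)) := by
    intro p hp
    have hp0 := hTT0 p hp
    have hp1 := hTT1 p hp
    rw [hTT, Finset.mem_filter] at hp
    obtain ⟨hpB, q1, q2, q3⟩ := hp
    have hpos : 0 < EnP p T := by
      have h4 := hLp p hpB
      have h5 : 0 < (1 - ε) * Q * (max 0 (mP p f.F) / D) :=
        mul_pos (mul_pos (by linarith) hQ) (div_pos (lt_of_lt_of_le hH hp0) hD0)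
      linarith
    have hg : 0 < max 0 (mP p g.F) := by
      by_contra hcon
      push Not at hcon
      have h5 : max 0 (mP p g.F) / ((e : ℝ) - 1) ≤ 0 := div_nonpos_of_nonpos_of_nonneg hcon he1.le
      have h6 : (1 + η) * Q * (max 0 (mP p g.F) / ((e : ℝ) - 1)) ≤ 0 :=
        mul_nonpos_of_nonneg_of_nonpos (by positivity) h5
      linarith
    have hg' := hmax _ hg
    rw [hp1] at hp0 q2
    rw [hg'] at q3 hg
    rw [← hQdef]
    exact ⟨hp0, hg, q2, q3⟩
  have hsumTT : ∑ p ∈ TT, max 0 (mP p f.F) = ∑ p ∈ TT, mP p f.F := Finset.sum_congr rfl hTT1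
  have hsumle : ∑ p ∈ TT, max 0 (mP p f.F) ≤ ∑ p ∈ Ps B, max 0 (mP p f.F) :=
    Finset.sum_le_sum_of_subset_of_nonneg hTTs (fun p _ _ => le_max_left _ _)
  have hm0 : max 0 (mm Rat.AbsoluteValue.real L d f.F / D) =
      max 0 (mm Rat.AbsoluteValue.real L d f.F) / D := by
    rcases le_total 0 (mm Rat.AbsoluteValue.real L d f.F) with h4 | h4
    · rw [max_eq_right h4, max_eq_right (div_nonneg h4 hD0.le)]
    · rw [max_eq_left h4, max_eq_left (div_nonpos_of_nonpos_of_nonneg h4 hD0.le), zero_div]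
  rw [← Finset.sum_div, hm0, ← add_div, le_div_iff₀ hD0] at o2
  rw [← Finset.sum_div, hm0, ← add_div, div_le_iff₀ hD0] at o3
  have hmu : ∑ p ∈ Ps B, max 0 (-mP p f.F) + max 0 (-mm Rat.AbsoluteValue.real L d f.F) ≤
        16 * κ * (D * Real.log L) := by
    have h4 : ∑ p ∈ Ps B, max 0 (-mP p f.F) =
        ∑ p ∈ Ps B, max 0 (mP p f.F) - ∑ p ∈ Ps B, mP p f.F := by
      rw [← Finset.sum_sub_distrib]
      exact Finset.sum_congr rfl fun p _ => X2_max _
    rw [h4, X2_max]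
    linarith
  have hQΛ : 0 < κ * Q * Real.log L := by positivity
  have hX := EnX_real_le (T := T) hL1 (fun y hy => hL y (hTS hy))
  rw [← hQdef] at hX
  rcases o4 with ⟨r1, r2, r3, r4⟩ | ⟨r1, r2⟩
  · rw [le_div_iff₀ hD0] at r1
    have hM0 : max 0 (mm Rat.AbsoluteValue.real L d f.F) = mm Rat.AbsoluteValue.real L d f.F :=
      max_eq_right (le_trans (by positivity) r1)
    rw [hM0] at o2 o3
    refine ⟨TT, true, hTTs, hTT2, fun _ => ⟨?_, ?_, ?_, ?_⟩, ?_, ?_, ?_, hmu⟩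
    · linarith
    · rw [le_div_iff₀ he1] at r2
      linarith
    · rw [← hQdef]
      exact r3
    · rw [← hQdef]
      exact r4
    · unfold massU
      rw [if_pos rfl, ← hsumTT]
      linarith
    · unfold massU
      rw [if_pos rfl, ← hsumTT]
      linarith
    · rw [if_pos rfl, ← hQdef]
      linarith
  · rw [← Finset.sum_div, le_div_iff₀ hD0] at r2
    refine ⟨TT, false, hTTs, hTT2, fun h4 => absurd h4 (by decide), ?_, ?_, ?_, hmu⟩
    · unfold massU
      rw [if_neg (by decide), ← hsumTT, add_zero]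
      linarith
    · unfold massU
      rw [if_neg (by decide), ← hsumTT, add_zero]
      have h4 := le_max_left 0 (mm Rat.AbsoluteValue.real L d f.F)
      linarith
    · rw [if_neg (by decide), ← hQdef]
      have h4 : Q * Real.log 2 ≤ κ * Q * Real.log L := by
        have h5 : Q * Real.log 2 ≤ Q * (ε * Real.log L) := mul_le_mul_of_nonneg_left hΛ hQ.le
        have h6 : ε * (Q * Real.log L) ≤ κ * (Q * Real.log L) :=
          mul_le_mul_of_nonneg_right (by linarith) (by positivity)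
        nlinarith
      linarith

end F0744U
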