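import Pool.Agent.Lib.MP_f0744f_nt.C.P5
import Pool.Agent.Lib.MP_f0744f_nt.U.Defs

/-! # Row P1: a tight prime has two far points -/

set_option autoImplicit false

open Polynomial

namespace F0744U

open F0744C F0744D

variable {S : Finset ℤ} {a b : ℤ} {d e : ℕ}

/-- Suppose all elements of `S \ {a}` are congruent modulo `p`, with the residue `ρ`. `exists_red` for `g.F`, `P5_mass` for `g` and the class `ρ` (all of `T`, `card / card = 1`): `(1 - l / e) ^ 2 ≤ 4 η`, so `l = e`, and by `Red.single`, `Red.one_le_mu` all elements of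
`S \ {b}` have the residue `ρ`: contradiction to `prim` (`a ≠ b`). Model: `two_cls` in `D/P1.lean`. -/
theorem far_p (he : 2 ≤ e) (hab : a ≠ b) (g : PM S b e) {p : ℕ} [Fact p.Prime]
    (prim : ∃ x ∈ S, ∃ y ∈ S, ¬ (p : ℤ) ∣ x - y) (J : ℕ) {T : Finset ℤ}
    (hTS : ∀ x ∈ T, x ∈ S ∧ x ≠ a) (hTg : T ⊆ Dm S b g.ph (J + 1)) (hT : T.Nonempty) {η : ℝ}
    (h0 : 0 < η) (hη : 64 * η * (2 * (e : ℝ)) ^ 2 ≤ 1)
    (hJe : 1 / (e : ℝ) ^ J ≤ η) (hBg : Big e (2 * J) η T.card) (hg : 0 < mP p g.F)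
    (hEg : EnP p T ≤ (1 + η) * (T.card : ℝ) ^ 2 * (mP p g.F / ((e : ℝ) - 1))) :
    ∃ x ∈ S, ∃ y ∈ S, x ≠ a ∧ y ≠ a ∧ ¬ (p : ℤ) ∣ x - y := by
  by_contra hcon
  push Not at hcon
  have hαg := P5_neg hg
  have hFg : g.F ≠ 0 := by
    intro h
    have := g.deg
    rw [h, natDegree_zero] at this
    omega
  obtain ⟨rg⟩ := exists_red hFg hαg
  have heR : (2 : ℝ) ≤ e := by exact_mod_cast he
  have hη' : 256 * η * (e : ℝ) ^ 2 ≤ 1 := by
    have : 64 * η * (2 * (e : ℝ)) ^ 2 = 256 * η * (e : ℝ) ^ 2 := by ring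
    linarith
  have he2 : (4 : ℝ) ≤ (e : ℝ) ^ 2 := by nlinarith
  have hη1 : 1024 * η ≤ 1 := by nlinarith
  have h1 : η ≤ 1 / 2 := by linarith
  have hmg := P5_mass he g rg hαg J hTg hT h0 h1 hJe hBg hEg
  obtain ⟨x0, hx0⟩ := hT
  have hρ : ((x0 : ℤ) : ZMod p) ∈ T.image (fun x : ℤ => (x : ZMod p)) :=
    Finset.mem_image_of_mem _ hx0
  have alla : ∀ x ∈ S, x ≠ a → (x : ZMod p) = (x0 : ZMod p) := by
    intro x hx hxa
    have h2 := hcon x0 (hTS x0 hx0).1 x hx (hTS x0 hx0).2 hxa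
    rw [ZMod.intCast_eq_intCast_iff_dvd_sub]
    exact h2
  have hcls : cls p T (x0 : ZMod p) = T := by
    unfold cls
    exact Finset.filter_true_of_mem fun x hx => alla x (hTS x hx).1 (hTS x hx).2
  have hpos : (0 : ℝ) < T.card := by exact_mod_cast Finset.card_pos.2 ⟨x0, hx0⟩
  obtain ⟨hg1, hg2, hg3⟩ := hmg _ hρ
  rw [hcls, div_self hpos.ne'] at hg3
  have hme : rg.mu (x0 : ZMod p) = e := by
    by_contra hle
    have hlt : rg.mu (x0 : ZMod p) + 1 ≤ e := by omega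
    have hltR : ((rg.mu (x0 : ZMod p) : ℕ) : ℝ) + 1 ≤ e := by exact_mod_cast hlt
    have hepos : (0 : ℝ) < e := by linarith
    have hl1 : 1 / (e : ℝ) ≤ 1 - ((rg.mu (x0 : ZMod p) : ℕ) : ℝ) / e := by
      rw [div_le_iff₀ hepos, sub_mul, div_mul_cancel₀ _ hepos.ne']
      linarith
    have h3 : (1 / (e : ℝ)) ^ 2 ≤ (1 - ((rg.mu (x0 : ZMod p) : ℕ) : ℝ) / e) ^ 2 :=
      pow_le_pow_left₀ (by positivity) hl1 2
    have h4 : (1 / (e : ℝ)) ^ 2 * (e : ℝ) ^ 2 = 1 := by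
      rw [← mul_pow, one_div, inv_mul_cancel₀ hepos.ne', one_pow]
    have h5 : (1 / (e : ℝ)) ^ 2 ≤ 4 * η := h3.trans hg3
    have h6 : (1 / (e : ℝ)) ^ 2 * (e : ℝ) ^ 2 ≤ 4 * η * (e : ℝ) ^ 2 :=
      mul_le_mul_of_nonneg_right h5 (by positivity)
    nlinarith
  have allb : ∀ x ∈ S, x ≠ b → (x : ZMod p) = (x0 : ZMod p) := by
    intro x hx hxb
    exact rg.single (by rw [hme, g.deg]) (rg.one_le_mu hαg (g.val x hx hxb))
  have all : ∀ x ∈ S, (x : ZMod p) = (x0 : ZMod p) := by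
    intro x hx
    by_cases hxa : x = a
    · exact allb x hx (by rw [hxa]; exact hab)
    · exact alla x hx hxa
  obtain ⟨x, hx, y, hy, hxy⟩ := prim
  apply hxy
  rw [← ZMod.intCast_eq_intCast_iff_dvd_sub, all x hx, all y hy]

end F0744U
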