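import Pool.Agent.Lib.MP_f0744f_nt.U.Defs
import Pool.Agent.Lib.MP_f0744f_nt.C.A5

/-! # Row V3: at most `d` separated points -/

set_option autoImplicit false

open Polynomial

namespace F0744U

open F0744C F0744D

variable {S : Finset ℤ} {a b : ℤ} {d e : ℕ}

/-- Suppose `V.card ≥ d + 1`; take `W ⊆ V` with `W.card = d + 1`. `lag_coeff`: the leading coefficient of `f.F` is `∑_{x ∈ W} F x ∏_{y ∈ W \ {x}} (x - y)⁻¹`, of size at most `(d + 1) R ρ ^ (- d)`. -/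
theorem card_far (f : PM S a d) {A : AbsoluteValue ℚ ℝ} {R ρ : ℝ} (hR : 1 ≤ R)
    (bd : ∀ x ∈ S, A ((x : ℤ) : ℚ) ≤ R) (hρ : 0 < ρ)
    (hs : ((d : ℝ) + 1) * R < A f.F.leadingCoeff * ρ ^ d) {V : Finset ℤ} (hV : ∀ x ∈ V, x ∈ S ∧ x ≠ a)
    (hsep : ∀ x ∈ V, ∀ y ∈ V, x ≠ y → ρ ≤ A ((x : ℚ) - y)) : V.card ≤ d := by
  by_contra hcon
  have hcard : d + 1 ≤ V.card := by omega
  obtain ⟨W, hWV, hWc⟩ := Finset.exists_subset_card_eq hcard
  have hinj : Set.InjOn (fun x : ℤ => (x : ℚ)) W := Int.cast_injective.injOn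
  have hlag := lag_coeff (K := ℚ) W (fun x : ℤ => (x : ℚ)) hinj f.F (by rw [f.deg, hWc]; omega)
  have hlc : f.F.coeff (W.card - 1) = f.F.leadingCoeff := by
    rw [hWc, Polynomial.leadingCoeff, f.deg]; rfl
  rw [hlc] at hlag
  have hb : A f.F.leadingCoeff ≤ ((d : ℝ) + 1) * (R * (ρ ^ d)⁻¹) := by
    rw [← hlag]
    refine le_trans (A.sum_le W _) ?_
    have hterm : ∀ x ∈ W, A (f.F.eval ((x : ℤ) : ℚ) * (∏ y ∈ W.erase x, (((x : ℤ) : ℚ) - ((y : ℤ) : ℚ)))⁻¹)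
        ≤ R * (ρ ^ d)⁻¹ := by
      intro x hx
      have hxV := hV x (hWV hx)
      rw [A.map_mul, map_inv₀]
      have h1 : A (f.F.eval ((x : ℤ) : ℚ)) ≤ R := by
        rw [← f.val x hxV.1 hxV.2]
        exact bd _ (f.maps x hxV.1 hxV.2)
      have h2 : ρ ^ d ≤ A (∏ y ∈ W.erase x, (((x : ℤ) : ℚ) - ((y : ℤ) : ℚ))) := by
        rw [map_prod]
        have hc : (W.erase x).card = d := by
          rw [Finset.card_erase_of_mem hx, hWc]; rfl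
        calc ρ ^ d = ∏ _y ∈ W.erase x, ρ := by rw [Finset.prod_const, hc]
          _ ≤ ∏ y ∈ W.erase x, A (((x : ℤ) : ℚ) - ((y : ℤ) : ℚ)) := by
            refine Finset.prod_le_prod (fun _ _ => hρ.le) ?_
            intro y hy
            exact hsep x (hWV hx) y (hWV (Finset.mem_of_mem_erase hy)) (Finset.ne_of_mem_erase hy).symm
      exact mul_le_mul h1 (inv_anti₀ (pow_pos hρ d) h2) (inv_nonneg.mpr (A.nonneg _)) (by linarith)
    calc ∑ x ∈ W, A (f.F.eval ((x : ℤ) : ℚ) * (∏ y ∈ W.erase x, (((x : ℤ) : ℚ) - ((y : ℤ) : ℚ)))⁻¹)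
        ≤ ∑ _x ∈ W, R * (ρ ^ d)⁻¹ := Finset.sum_le_sum hterm
      _ = ((d : ℝ) + 1) * (R * (ρ ^ d)⁻¹) := by
        rw [Finset.sum_const, hWc, nsmul_eq_mul]; push_cast; ring
  have hpos : (0 : ℝ) < ρ ^ d := pow_pos hρ d
  have h3 : A f.F.leadingCoeff * ρ ^ d ≤ ((d : ℝ) + 1) * R := by
    calc A f.F.leadingCoeff * ρ ^ d ≤ ((d : ℝ) + 1) * (R * (ρ ^ d)⁻¹) * ρ ^ d :=
          mul_le_mul_of_nonneg_right hb hpos.le
      _ = ((d : ℝ) + 1) * R := by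
        field_simp
  linarith

end F0744U
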