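import Pool.Agent.Lib.MP_f0744f_nt.U.Defs

/-! # Row V4: the classes -/

set_option autoImplicit false

open Polynomial

namespace F0744U

open F0744C F0744D

variable {S : Finset ℤ} {a b : ℤ} {d e : ℕ}

/-- Combinatorics. Take `Q ⊆ P` with pairwise `¬ r` and maximal cardinality (`≤ d`; `Finset.exists_max_image` over the powerset). Every `x ∈ P` is related to exactly one `q x ∈ Q`, and `r x y ↔ q x = q y`. `Q` embeds into `Fin d`. -/
theorem exists_classes (hd : 1 ≤ d) (P : Finset ℤ) (r : ℤ → ℤ → Prop) (h0 : ∀ x ∈ P, r x x)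
    (h1 : ∀ x ∈ P, ∀ y ∈ P, r x y → r y x) (h2 : ∀ x ∈ P, ∀ y ∈ P, ∀ z ∈ P, r x y → r y z → r x z)
    (hc : ∀ V ⊆ P, (∀ x ∈ V, ∀ y ∈ V, x ≠ y → ¬ r x y) → V.card ≤ d) :
    ∃ cl : ℤ → Fin d, ∀ x ∈ P, ∀ y ∈ P, cl x = cl y ↔ r x y := by
  classical
  obtain ⟨pr, hpr⟩ : ∃ pr : Finset ℤ → Prop, ∀ V, pr V ↔ ∀ x ∈ V, ∀ y ∈ V, x ≠ y → ¬ r x y :=
    ⟨fun V => ∀ x ∈ V, ∀ y ∈ V, x ≠ y → ¬ r x y, fun _ => Iff.rfl⟩
  obtain ⟨Q, hQ, hmax⟩ := Finset.exists_max_image (P.powerset.filter pr) Finset.card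
    ⟨∅, by
      rw [Finset.mem_filter, hpr]
      exact ⟨Finset.empty_mem_powerset P, fun x hx => absurd hx (Finset.notMem_empty x)⟩⟩
  rw [Finset.mem_filter, Finset.mem_powerset, hpr] at hQ
  obtain ⟨hQP, hQr⟩ := hQ
  have hQd : Q.card ≤ d := hc Q hQP hQr
  have hex : ∀ x ∈ P, ∃ q ∈ Q, r x q := by
    intro x hx
    by_cases hxQ : x ∈ Q
    · exact ⟨x, hxQ, h0 x hx⟩
    · by_contra hcon
      push Not at hcon
      have hins : insert x Q ∈ P.powerset.filter pr := by
        rw [Finset.mem_filter, Finset.mem_powerset, hpr]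
        refine ⟨Finset.insert_subset hx hQP, ?_⟩
        intro u hu v hv huv
        rw [Finset.mem_insert] at hu hv
        rcases hu with rfl | hu
        · rcases hv with rfl | hv
          · exact absurd rfl huv
          · exact hcon v hv
        · rcases hv with rfl | hv
          · exact fun h => hcon u hu (h1 u (hQP hu) v hx h)
          · exact hQr u hu v hv huv
      have h3 := hmax _ hins
      rw [Finset.card_insert_of_notMem hxQ] at h3
      omega
  choose! q hqQ hqr using hex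
  refine ⟨fun x => if h : q x ∈ Q then Fin.castLE hQd (Q.equivFin ⟨q x, h⟩) else ⟨0, by omega⟩, ?_⟩
  intro x hx y hy
  have hqx := hqQ x hx
  have hqy := hqQ y hy
  have e1 : (if h : q x ∈ Q then Fin.castLE hQd (Q.equivFin ⟨q x, h⟩) else ⟨0, by omega⟩) =
      Fin.castLE hQd (Q.equivFin ⟨q x, hqx⟩) := dif_pos hqx
  have e2 : (if h : q y ∈ Q then Fin.castLE hQd (Q.equivFin ⟨q y, h⟩) else ⟨0, by omega⟩) =
      Fin.castLE hQd (Q.equivFin ⟨q y, hqy⟩) := dif_pos hqy
  have key : q x = q y ↔ r x y := by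
    constructor
    · intro h
      have h3 := hqr x hx
      have h4 := h1 y hy (q y) (hQP hqy) (hqr y hy)
      rw [← h] at h4
      exact h2 x hx (q x) (hQP hqx) y hy h3 h4
    · intro h
      by_contra hne
      apply hQr (q x) hqx (q y) hqy hne
      have h3 := h1 x hx (q x) (hQP hqx) (hqr x hx)
      have h4 := h2 (q x) (hQP hqx) x hx y hy h3 h
      exact h2 (q x) (hQP hqx) y hy (q y) (hQP hqy) h4 (hqr y hy)
  rw [← key]
  constructor
  · intro h
    have h5 : Fin.castLE hQd (Q.equivFin ⟨q x, hqx⟩) = Fin.castLE hQd (Q.equivFin ⟨q y, hqy⟩) :=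
      e1.symm.trans (h.trans e2)
    have h6 := Q.equivFin.injective (Fin.castLE_injective hQd h5)
    exact congrArg Subtype.val h6
  · intro h
    refine e1.trans (Eq.trans ?_ e2.symm)
    congr 2
    exact Subtype.ext h

end F0744U
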