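import Pool.Agent.Lib.MP_f0744f_nt.U.V2
import Pool.Agent.Lib.MP_f0744f_nt.U.V3
import Pool.Agent.Lib.MP_f0744f_nt.U.V4

/-! # Row V5: a place with two far points is good -/

set_option autoImplicit false

open Polynomial

namespace F0744U

open F0744C F0744D

variable {S : Finset ℤ} {a b : ℤ} {d e : ℕ}

theorem V5_lead {d : ℕ} (hd : 1 ≤ d) {F : ℚ[X]} (hF0 : F.natDegree = d) {α γ β : ℚ}
    (hF : F = C α * (X - C γ) ^ d + C β) : F.leadingCoeff = α := by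
  have h1 : ((X - C γ : ℚ[X]) ^ d).coeff d = 1 := by
    have h2 : ((X - C γ : ℚ[X]) ^ d).natDegree = d := by
      rw [natDegree_pow, natDegree_X_sub_C, mul_one]
    have h3 : ((X - C γ : ℚ[X]) ^ d).Monic := (monic_X_sub_C γ).pow d
    have h4 := h3.coeff_natDegree
    rwa [h2] at h4
  rw [leadingCoeff, hF0, hF, coeff_add, coeff_C_mul, h1, coeff_C, if_neg (by omega)]
  ring

/-- the numerical inequalities -/
theorem V5_num {d : ℕ} (hd : 2 ≤ d) {E M T : ℝ} (hE : ((d : ℝ) + 1) * 2 ^ (d + 3) ≤ E)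
    (hM : E ^ (8 * d) ≤ M) (hT : E ^ (8 * d) ≤ T) :
    0 < E ∧ 0 < M ∧ 0 < T ∧ (d : ℝ) ≤ E ∧ 2 * (4 * E) ^ d ≤ M ∧
    2 * (4 * E) ^ d * (E ^ 2 * 2 ^ (d + 4)) ≤ M ∧ ((d : ℝ) + 1) * (E ^ 2 * 2 ^ (d + 3)) ^ d < M ∧
    (4 * E) ^ d ≤ T ∧ E ^ 2 * 2 ^ (d + 3) ≤ T ∧ E ≤ T := by
  have hd0 : (0 : ℝ) ≤ d := Nat.cast_nonneg d
  have h2 : (1 : ℝ) ≤ 2 ^ (d + 3) := one_le_pow₀ (by norm_num)
  have h32 : (32 : ℝ) ≤ 2 ^ (d + 3) := by
    calc (32 : ℝ) = 2 ^ 5 := by norm_num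
      _ ≤ 2 ^ (d + 3) := pow_le_pow_right₀ (by norm_num) (by omega)
  have hE1 : (2 : ℝ) ^ (d + 3) ≤ E := by nlinarith
  have hE32 : 32 ≤ E := le_trans h32 hE1
  have hE0 : 0 < E := by linarith
  have hE1' : 1 ≤ E := by linarith
  have hdE : (d : ℝ) ≤ E := by nlinarith
  have hpos : 0 < E ^ (8 * d) := by positivity
  have hM0 : 0 < M := lt_of_lt_of_le hpos hM
  have hT0 : 0 < T := lt_of_lt_of_le hpos hT
  have h4E : (4 * E) ^ d ≤ E ^ (2 * d) := by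
    rw [pow_mul]
    exact pow_le_pow_left₀ (by positivity) (by nlinarith) d
  have hmono : ∀ i j : ℕ, i ≤ j → E ^ i ≤ E ^ j := fun i j h => pow_le_pow_right₀ hE1' h
  have ha : (4 * E) ^ d ≤ E ^ (8 * d) := le_trans h4E (hmono _ _ (by omega))
  have hb : 2 * (4 * E) ^ d ≤ E ^ (8 * d) := by
    calc 2 * (4 * E) ^ d ≤ E * E ^ (2 * d) := by
          apply mul_le_mul (by linarith) h4E (by positivity) hE0.le
      _ = E ^ (2 * d + 1) := by ring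
      _ ≤ E ^ (8 * d) := hmono _ _ (by omega)
  have h24 : (2 : ℝ) ^ (d + 4) ≤ E ^ 2 := by
    calc (2 : ℝ) ^ (d + 4) = 2 * 2 ^ (d + 3) := by ring
      _ ≤ E * E := by
          apply mul_le_mul (by linarith) hE1 (by positivity) hE0.le
      _ = E ^ 2 := by ring
  have hc : 2 * (4 * E) ^ d * (E ^ 2 * 2 ^ (d + 4)) ≤ E ^ (8 * d) := by
    calc 2 * (4 * E) ^ d * (E ^ 2 * 2 ^ (d + 4)) ≤ (E * E ^ (2 * d)) * (E ^ 2 * E ^ 2) := by
          apply mul_le_mul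
          · apply mul_le_mul (by linarith) h4E (by positivity) hE0.le
          · exact mul_le_mul_of_nonneg_left h24 (by positivity)
          · positivity
          · positivity
      _ = E ^ (2 * d + 5) := by ring
      _ ≤ E ^ (8 * d) := hmono _ _ (by omega)
  have he : ((d : ℝ) + 1) * (E ^ 2 * 2 ^ (d + 3)) ^ d < E ^ (8 * d) := by
    have h3d : (E ^ 2 * 2 ^ (d + 3)) ^ d ≤ E ^ (3 * d) := by
      rw [pow_mul]
      apply pow_le_pow_left₀ (by positivity)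
      calc E ^ 2 * 2 ^ (d + 3) ≤ E ^ 2 * E := mul_le_mul_of_nonneg_left hE1 (by positivity)
        _ = E ^ 3 := by ring
    have hd1 : (d : ℝ) + 1 < E := by nlinarith
    calc ((d : ℝ) + 1) * (E ^ 2 * 2 ^ (d + 3)) ^ d < E * (E ^ 2 * 2 ^ (d + 3)) ^ d :=
          mul_lt_mul_of_pos_right hd1 (by positivity)
      _ ≤ E * E ^ (3 * d) := mul_le_mul_of_nonneg_left h3d hE0.le
      _ = E ^ (3 * d + 1) := by ring
      _ ≤ E ^ (8 * d) := hmono _ _ (by omega)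
  have hf : E ^ 2 * 2 ^ (d + 3) ≤ E ^ (8 * d) := by
    calc E ^ 2 * 2 ^ (d + 3) ≤ E ^ 2 * E := mul_le_mul_of_nonneg_left hE1 (by positivity)
      _ = E ^ 3 := by ring
      _ ≤ E ^ (8 * d) := hmono _ _ (by omega)
  have hg : E ≤ E ^ (8 * d) := by
    calc E = E ^ 1 := (pow_one E).symm
      _ ≤ E ^ (8 * d) := hmono _ _ (by omega)
  exact ⟨hE0, hM0, hT0, hdE, hb.trans hM, hc.trans hM, lt_of_lt_of_le he hM, ha.trans hT, hf.trans hT,
    hg.trans hT⟩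

/-- `θ1 = min θ 1 / (8 d)`, `δ = exp (- θ1 m)`, `ρ = R δ ^ 2 / 2 ^ (d + 3)`. With `exp m = A α R ^ (d - 1)`; for `m ≥ H1` (all the constants are absorbed):
(1) `2 R ≤ A α (δ R / 4) ^ d`, so `low_uni`; (2) for `x, y ∈ S \ {a}` with `A (x - y) ≤ ρ`: `sim_uni` (`δ ≤ 1 / d ≤ A d`), so `A (x - y) ≤ 2 R exp (- m) (4 / δ) ^ d ≤ ρ / 2`: the relation `A (x - y) ≤ ρ` is transitive;
(3) `(d + 1) R < A α ρ ^ d`, so `card_far`; (4) `exists_classes` for `S.erase a`; (5) `exp (- θ m) ≤ (δ / 4) ^ d`, `R exp (- θ m) ≤ ρ`, `exp (- θ m) ≤ δ ≤ A d`, `H ≤ θ m`, `0 < m`. -/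
theorem up_of_far (hd : 2 ≤ d) {θ : ℝ} (hθ : 0 < θ) (H : ℝ) : ∃ θ1 H1 : ℝ, 0 < θ1 ∧
    ∀ (S : Finset ℤ) (a : ℤ) (f : PM S a d) (A : AbsoluteValue ℚ ℝ) (R m : ℝ), Uni f.F d → 1 ≤ R →
      (∀ x ∈ S, A ((x : ℤ) : ℚ) ≤ R) → mm A R d f.F = m → H1 ≤ m → 1 ≤ (d : ℝ) * A d →
      (∃ x ∈ S, ∃ y ∈ S, x ≠ a ∧ y ≠ a ∧ R * Real.exp (-(θ1 * m)) ≤ A ((x : ℚ) - y)) →
      ∃ cl : ℤ → Fin d, UP f A R m θ H cl := by
  have hd0 : (0 : ℝ) < d := by exact_mod_cast (by omega : 0 < d)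
  have hθ' : 0 < min θ 1 := lt_min hθ one_pos
  have hθ1 : 0 < min θ 1 / (8 * d) := by positivity
  have hN : (0 : ℝ) < ((d : ℝ) + 1) * 2 ^ (d + 3) := by positivity
  refine ⟨min θ 1 / (8 * d), 1 + |H| / θ + |Real.log (((d : ℝ) + 1) * 2 ^ (d + 3))| / (min θ 1 / (8 * d)), hθ1, ?_⟩
  intro S a f A R m hUni hR bd hmm hHm hAd hfar
  set θ1 := min θ 1 / (8 * d) with hθ1def
  obtain ⟨α, γ, β, hα, hF⟩ := hUni
  have hR0 : 0 < R := by linarith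
  have hlead := V5_lead (by omega) f.deg hF
  have hAα : 0 < A α := A.pos hα
  have hq1 : 0 ≤ |H| / θ := by positivity
  have hq2 : 0 ≤ |Real.log (((d : ℝ) + 1) * 2 ^ (d + 3))| / θ1 := by positivity
  have hm0 : 0 < m := by linarith
  -- `E`
  have hE : ((d : ℝ) + 1) * 2 ^ (d + 3) ≤ Real.exp (θ1 * m) := by
    have h1 : |Real.log (((d : ℝ) + 1) * 2 ^ (d + 3))| ≤ θ1 * m := by
      have h2 : |Real.log (((d : ℝ) + 1) * 2 ^ (d + 3))| / θ1 ≤ m := by linarith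
      rw [div_le_iff₀ hθ1] at h2
      linarith
    calc ((d : ℝ) + 1) * 2 ^ (d + 3) = Real.exp (Real.log (((d : ℝ) + 1) * 2 ^ (d + 3))) :=
          (Real.exp_log hN).symm
      _ ≤ Real.exp (θ1 * m) := Real.exp_le_exp.2 ((le_abs_self _).trans h1)
  have hE8 : Real.exp (θ1 * m) ^ (8 * d) = Real.exp (min θ 1 * m) := by
    rw [← Real.exp_nat_mul]
    congr 1
    rw [hθ1def]
    push_cast
    field_simp
  have hM : Real.exp (θ1 * m) ^ (8 * d) ≤ Real.exp m := by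
    rw [hE8]
    apply Real.exp_le_exp.2
    nlinarith [min_le_right θ 1]
  have hT : Real.exp (θ1 * m) ^ (8 * d) ≤ Real.exp (θ * m) := by
    rw [hE8]
    apply Real.exp_le_exp.2
    nlinarith [min_le_left θ 1]
  obtain ⟨hE0, hM0, hT0, hdE, h1, h2, h3, h4, h5, h6⟩ := V5_num hd hE hM hT
  have hMval : Real.exp m = A α * R ^ (d - 1) := by
    rw [← hmm, mm, hlead, Real.exp_add, Real.exp_log hAα]
    congr 1
    have h7 : ((d : ℝ) - 1) = ((d - 1 : ℕ) : ℝ) := by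
      rw [Nat.cast_sub (by omega)]; norm_num
    rw [h7, ← Real.log_pow, Real.exp_log (by positivity)]
  have hMR : Real.exp m * R = A α * R ^ d := by
    rw [hMval, mul_assoc, ← pow_succ, Nat.sub_add_cancel (by omega)]
  set E := Real.exp (θ1 * m) with hEdef
  set M := Real.exp m with hMdef
  set T := Real.exp (θ * m) with hTdef
  have hδ : Real.exp (-(θ1 * m)) = E⁻¹ := by rw [Real.exp_neg]
  have hτ : Real.exp (-(θ * m)) = T⁻¹ := by rw [Real.exp_neg]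
  have hδ0 : 0 < E⁻¹ := inv_pos.2 hE0
  have hδA : E⁻¹ ≤ A d := by
    have h7 : (E⁻¹ : ℝ) ≤ (d : ℝ)⁻¹ := inv_anti₀ hd0 hdE
    have h8 : (d : ℝ)⁻¹ ≤ A d := by
      rw [inv_eq_one_div, div_le_iff₀ hd0]
      linarith
    exact h7.trans h8
  have hdE4 : (E⁻¹ / 4) ^ d = ((4 * E) ^ d)⁻¹ := by
    rw [← inv_pow]
    congr 1
    field_simp
  have hpos4 : (0 : ℝ) < (4 * E) ^ d := by positivity
  -- (1)
  have hs1 : 2 * R ≤ A α * (E⁻¹ * R / 4) ^ d := by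
    have h7 : A α * (E⁻¹ * R / 4) ^ d = M * R * ((4 * E) ^ d)⁻¹ := by
      rw [hMR, ← hdE4, show E⁻¹ * R / 4 = R * (E⁻¹ / 4) by ring, mul_pow]
      ring
    rw [h7, ← div_eq_mul_inv, le_div_iff₀ hpos4]
    nlinarith
  have hfar' : ∃ x ∈ S, ∃ y ∈ S, x ≠ a ∧ y ≠ a ∧ E⁻¹ * R ≤ A ((x : ℚ) - y) := by
    obtain ⟨x, hx, y, hy, hxa, hya, hxy⟩ := hfar
    refine ⟨x, hx, y, hy, hxa, hya, ?_⟩
    rw [hδ, mul_comm] at hxy
    exact hxy
  have hlow := low_uni f (by omega) hR hδ0 bd hα hF hs1 hfar'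
  -- `ρ`
  have hρeq : R * E⁻¹ ^ 2 / 2 ^ (d + 3) = R / (E ^ 2 * 2 ^ (d + 3)) := by
    field_simp
  have hρ0 : 0 < R * E⁻¹ ^ 2 / 2 ^ (d + 3) := by positivity
  have hsim : ∀ x ∈ S, ∀ y ∈ S, x ≠ a → y ≠ a → A ((x : ℚ) - y) ≤ R * E⁻¹ ^ 2 / 2 ^ (d + 3) →
      M * (E⁻¹ / 4) ^ d * A ((x : ℚ) - y) ≤ A (((f.ph x : ℤ) : ℚ) - (f.ph y : ℤ)) := by
    intro x hx y hy hxa hya hxy
    have h7 := sim_uni f (by omega) hR hδ0 hδA hα hF hx hy hxa hya (hlow x hx hxa) hxy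
    rw [hMval]
    exact h7
  have hhalf : ∀ x ∈ S, ∀ y ∈ S, x ≠ a → y ≠ a → A ((x : ℚ) - y) ≤ R * E⁻¹ ^ 2 / 2 ^ (d + 3) →
      A ((x : ℚ) - y) ≤ R * E⁻¹ ^ 2 / 2 ^ (d + 3) / 2 := by
    intro x hx y hy hxa hya hxy
    have h7 := hsim x hx y hy hxa hya hxy
    have h8 : A (((f.ph x : ℤ) : ℚ) - (f.ph y : ℤ)) ≤ 2 * R := by
      have h9 : A (((f.ph x : ℤ) : ℚ) - (f.ph y : ℤ)) ≤ A ((f.ph x : ℤ) : ℚ) + A ((f.ph y : ℤ) : ℚ) :=
        A.sub_le_add _ _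
      have h10 := bd _ (f.maps x hx hxa)
      have h11 := bd _ (f.maps y hy hya)
      linarith
    have h9 : M * A ((x : ℚ) - y) ≤ 2 * R * (4 * E) ^ d := by
      rw [hdE4] at h7
      have h10 : M * ((4 * E) ^ d)⁻¹ * A ((x : ℚ) - y) * (4 * E) ^ d ≤ 2 * R * (4 * E) ^ d :=
        mul_le_mul_of_nonneg_right (h7.trans h8) hpos4.le
      calc M * A ((x : ℚ) - y) = M * ((4 * E) ^ d)⁻¹ * A ((x : ℚ) - y) * (4 * E) ^ d := by
            field_simp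
        _ ≤ _ := h10
    rw [hρeq, div_div, le_div_iff₀ (by positivity)]
    have h10 : M * A ((x : ℚ) - y) * (E ^ 2 * 2 ^ (d + 4)) ≤ M * R := by
      calc M * A ((x : ℚ) - y) * (E ^ 2 * 2 ^ (d + 4))
          ≤ 2 * R * (4 * E) ^ d * (E ^ 2 * 2 ^ (d + 4)) := mul_le_mul_of_nonneg_right h9 (by positivity)
        _ = (2 * (4 * E) ^ d * (E ^ 2 * 2 ^ (d + 4))) * R := by ring
        _ ≤ M * R := mul_le_mul_of_nonneg_right h2 hR0.le
    have h11 : A ((x : ℚ) - y) * (E ^ 2 * 2 ^ (d + 4)) ≤ R := by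
      have h12 : M * (A ((x : ℚ) - y) * (E ^ 2 * 2 ^ (d + 4))) ≤ M * R := by
        rw [← mul_assoc]; exact h10
      exact le_of_mul_le_mul_left h12 hM0
    calc A ((x : ℚ) - y) * (E ^ 2 * 2 ^ (d + 3) * 2) = A ((x : ℚ) - y) * (E ^ 2 * 2 ^ (d + 4)) := by ring
      _ ≤ R := h11
  -- (3)
  have hs3 : ((d : ℝ) + 1) * R < A f.F.leadingCoeff * (R * E⁻¹ ^ 2 / 2 ^ (d + 3)) ^ d := by
    rw [hlead, hρeq, div_pow, ← mul_div_assoc, ← hMR, lt_div_iff₀ (by positivity)]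
    nlinarith
  -- (4)
  obtain ⟨cl, hcl⟩ := exists_classes (d := d) (by omega) (S.erase a)
    (fun x y => A ((x : ℚ) - y) ≤ R * E⁻¹ ^ 2 / 2 ^ (d + 3))
    (by
      intro x _
      rw [sub_self, map_zero]
      exact hρ0.le)
    (by
      intro x _ y _ h
      rw [A.map_sub]
      exact h)
    (by
      intro x hx y hy z hz hxy hyz
      have hx' := Finset.mem_erase.1 hx
      have hy' := Finset.mem_erase.1 hy
      have hz' := Finset.mem_erase.1 hz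
      have h7 := hhalf x hx'.2 y hy'.2 hx'.1 hy'.1 hxy
      have h8 := hhalf y hy'.2 z hz'.2 hy'.1 hz'.1 hyz
      have h9 : A ((x : ℚ) - z) ≤ A ((x : ℚ) - y) + A ((y : ℚ) - z) := A.sub_le _ _ _
      linarith)
    (by
      intro V hV hsep
      refine card_far f hR bd hρ0 hs3 (V := V) ?_ ?_
      · intro x hx
        have hx' := Finset.mem_erase.1 (hV hx)
        exact ⟨hx'.2, hx'.1⟩
      · intro x hx y hy hxy
        exact (not_le.1 (hsep x hx y hy hxy)).le)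
  refine ⟨cl, ?_⟩
  refine
    { R1 := hR
      m0 := hm0
      big := ?_
      ad := ?_
      meq := hmm
      bd := bd
      sim := ?_
      sep := ?_ }
  · have h7 : |H| / θ ≤ m := by linarith
    rw [div_le_iff₀ hθ] at h7
    linarith [le_abs_self H]
  · rw [hτ]
    exact (inv_anti₀ hE0 h6).trans hδA
  · intro x hx y hy hxa hya hc
    have hr := (hcl x (Finset.mem_erase.2 ⟨hxa, hx⟩) y (Finset.mem_erase.2 ⟨hya, hy⟩)).1 hc
    have h7 := hsim x hx y hy hxa hya hr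
    refine le_trans ?_ h7
    apply mul_le_mul_of_nonneg_right _ (A.nonneg _)
    have h8 : Real.exp ((1 - θ) * m) = M * T⁻¹ := by
      rw [show (1 - θ) * m = m + -(θ * m) by ring, Real.exp_add, hτ]
    rw [h8, hdE4]
    exact mul_le_mul_of_nonneg_left (inv_anti₀ hpos4 h4) hM0.le
  · intro x hx y hy hxa hya hc
    have hr : ¬ (A ((x : ℚ) - y) ≤ R * E⁻¹ ^ 2 / 2 ^ (d + 3)) := fun h =>
      hc ((hcl x (Finset.mem_erase.2 ⟨hxa, hx⟩) y (Finset.mem_erase.2 ⟨hya, hy⟩)).2 h)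
    refine le_trans ?_ (not_le.1 hr).le
    rw [hρeq, hτ, div_eq_mul_inv]
    exact mul_le_mul_of_nonneg_left (inv_anti₀ (by positivity) h5) hR0.le

end F0744U
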