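import Pool.Agent.Lib.MP_f0744f_nt.U.C3
import Pool.Agent.Lib.MP_f0744f_nt.U.V5
import Pool.Agent.Lib.MP_f0744f_nt.U.P1
import Pool.Agent.Lib.MP_f0744f_nt.D.P2
import Pool.Agent.Lib.MP_f0744f_nt.D.X1
import Pool.Agent.Lib.MP_f0744f_nt.C.G1
import Pool.Agent.Lib.MP_f0744f_nt.U.B0_2
import Pool.Agent.Lib.MP_f0744f_nt.D.X3

/-! # Row X3p: the good primes -/

set_option autoImplicit false

open Polynomial

namespace F0744U

open F0744C F0744D

variable {S : Finset ℤ} {a b : ℤ} {d e : ℕ}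

/-- `|d|_p ≥ 1 / d` -/
theorem X3p_absd (p : ℕ) [Fact p.Prime] {d : ℕ} (hd : d ≠ 0) :
    1 ≤ (d : ℝ) * Rat.AbsoluteValue.padic p (d : ℚ) := by
  have hp : p.Prime := Fact.out
  rw [Rat.AbsoluteValue.padic_eq_padicNorm]
  have hd' : (d : ℚ) ≠ 0 := by exact_mod_cast hd
  have h1 : p ^ padicValNat p d ≤ d := Nat.le_of_dvd (Nat.pos_of_ne_zero hd) pow_padicValNat_dvd
  have h2 : (p : ℝ) ^ padicValNat p d ≤ d := by exact_mod_cast h1
  have hpp : (0 : ℝ) < (p : ℝ) ^ padicValNat p d := by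
    have : (0 : ℝ) < p := by exact_mod_cast hp.pos
    positivity
  have h3 : ((padicNorm p (d : ℚ) : ℚ) : ℝ) = ((p : ℝ) ^ padicValNat p d)⁻¹ := by
    rw [padicNorm.eq_zpow_of_nonzero hd', zpow_neg]
    push_cast
    rw [padicValRat.of_nat, zpow_natCast]
  rw [h3, ← div_eq_mul_inv, le_div_iff₀ hpp, one_mul]
  exact h2

/-- `(η1, θ0, H0, J1, t1)` from `itinU K`; `θ' = min θ θ0`, `H' = max H H0`; `(θ1, H1')` from `up_of_far` for `θ'`, `H'`; `η0 = min η1 (1 / (512 e ^ 2))`, `H1 = max H1' 1`, `J0 = J1 + K`, `t0 = max t1 1`. `far_p` gives two points of `S \ {a}` with `¬ p ∣ x - y`,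
so `|x - y|_p = 1` (`P2_diff` in `D/P2.lean`); `up_of_far` with `R = 1`, `m = mP p f.F` (`mm_padic`; `|d|_p ≥ 1 / d`: `padicNorm`, `padicValNat_dvd`), then `itinU` for the class function (`EnP_eq`: `EnP` is `En`, as in `D/X3.lean`), `UP.mono`. -/
theorem tp_U (hd : 2 ≤ d) (he : 2 ≤ e) (K : ℕ) {θ : ℝ} (hθ : 0 < θ) (H : ℝ) :
    ∃ (η0 H1 : ℝ) (J0 t0 : ℕ), 0 < η0 ∧
    ∀ (S : Finset ℤ) (a b : ℤ) (f : PM S a d) (g : PM S b e) (p : ℕ) [Fact p.Prime] (J : ℕ)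
      (T : Finset ℤ) (η : ℝ), a ≠ b → Uni f.F d → (∃ x ∈ S, ∃ y ∈ S, ¬ (p : ℤ) ∣ x - y) →
      (∀ x ∈ T, x ∈ S ∧ x ≠ a) → T ⊆ Dm S a f.ph (J + 1) → T ⊆ Dm S b g.ph (J + 1) → J0 ≤ J →
      t0 ≤ T.card → 0 < η → η ≤ η0 → 1 / (e : ℝ) ^ J ≤ η → Big e (2 * J) η T.card →
      H1 ≤ mP p f.F → 0 < mP p g.F →
      EnP p T ≤ (1 + η) * (T.card : ℝ) ^ 2 * (mP p f.F / ((d : ℝ) - 1)) →
      EnP p T ≤ (1 + η) * (T.card : ℝ) ^ 2 * (mP p g.F / ((e : ℝ) - 1)) →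
      ∃ cl : ℤ → Fin d, UP f (Rat.AbsoluteValue.padic p) 1 (mP p f.F) θ H cl ∧ FullU f.ph cl K T := by
  obtain ⟨η1, θ0, H0, J1, t1, hη1, hθ0, hit⟩ := itinU hd K
  obtain ⟨θ1, H1', hθ1, hup⟩ := up_of_far hd (lt_min hθ hθ0) (max H H0)
  have he' : (2 : ℝ) ≤ e := by exact_mod_cast he
  refine ⟨min η1 (1 / (512 * (e : ℝ) ^ 2)), max H1' 1, J1 + K, max t1 1,
    lt_min hη1 (by positivity), ?_⟩
  intro S a b f g p _ J T η hab hU prim hTS hTf hTg hJ ht hη0 hη hJe hBg hm hg hEf hEg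
  have hη2 : 64 * η * (2 * (e : ℝ)) ^ 2 ≤ 1 := by
    have h1 : η ≤ 1 / (512 * (e : ℝ) ^ 2) := hη.trans (min_le_right _ _)
    rw [le_div_iff₀ (by positivity)] at h1
    have h2 : 0 ≤ η * (e : ℝ) ^ 2 := by positivity
    nlinarith
  have hT : T.Nonempty := Finset.card_pos.1 (lt_of_lt_of_le Nat.one_pos ((le_max_right _ _).trans ht))
  obtain ⟨x, hx, y, hy, hxa, hya, hxy⟩ := far_p he hab g prim J hTS hTg hT hη0 hη2 hJe hBg hg hEg
  have hm0 : 0 < mP p f.F := lt_of_lt_of_le one_pos ((le_max_right _ _).trans hm)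
  have hFf : f.F ≠ 0 := by
    intro h
    have := f.deg
    rw [h, natDegree_zero] at this
    omega
  have hmm : mm (Rat.AbsoluteValue.padic p) 1 d f.F = mP p f.F := mm_padic p d hFf
  have hne : (x : ZMod p) ≠ (y : ZMod p) := by
    intro h
    apply hxy
    rw [← dvd_neg, neg_sub]
    exact (ZMod.intCast_eq_intCast_iff_dvd_sub _ _ _).1 h
  obtain ⟨cl, hcl⟩ := hup S a f (Rat.AbsoluteValue.padic p) 1 (mP p f.F) hU le_rfl
    (fun z _ => by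
      rw [Rat.AbsoluteValue.padic_eq_padicNorm]
      exact_mod_cast padicNorm.of_int z)
    hmm ((le_max_left _ _).trans hm) (X3p_absd p (by omega))
    ⟨x, hx, y, hy, hxa, hya, by
      rw [P2_diff p hne, one_mul, Real.exp_le_one_iff]
      have : 0 ≤ θ1 * mP p f.F := by positivity
      linarith⟩
  refine ⟨cl, hcl.mono (min_le_left _ _) (le_max_left _ _), ?_⟩
  refine hit S a f (Rat.AbsoluteValue.padic p) 1 (mP p f.F) (min θ θ0) (max H H0) cl hcl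
    (min_le_right _ _) (le_max_right _ _) T (hTf.trans (Dm_mono _ _ _ (by omega)))
    ((le_max_left _ _).trans ht) ?_
  rw [← EnP_eq]
  refine hEf.trans ?_
  have hd1 : (0 : ℝ) < (d : ℝ) - 1 := by
    have : (2 : ℝ) ≤ d := by exact_mod_cast hd
    linarith
  refine mul_le_mul_of_nonneg_right (mul_le_mul_of_nonneg_right ?_ (by positivity))
    (div_nonneg hm0.le hd1.le)
  have := hη.trans (min_le_left _ _)
  linarith

end F0744U
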