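import Pool.Agent.Lib.MP_f0744f_nt.C.R5b
import Pool.Agent.Lib.MP_f0744f_nt.D.R1
import Pool.Agent.Lib.MP_f0744f_nt.D.R3
import Pool.Agent.Lib.MP_f0744f_nt.D.R4
import Pool.Agent.Lib.MP_f0744f_nt.U.Defs

/-! # Row R2: the real place has two far points -/

set_option autoImplicit false

open Polynomial

namespace F0744U

open F0744C F0744D

variable {S : Finset ℤ} {a b : ℤ} {d e : ℕ}

theorem R2_mm (L : ℝ) : mm Rat.AbsoluteValue.real L 2 (X ^ 2 : ℚ[X]) = Real.log L := by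
  unfold mm
  rw [Polynomial.leadingCoeff_X_pow, map_one, Real.log_one]
  norm_num

/-- the mass of one disc -/
theorem R2_card {l : ℕ} (he : 2 ≤ e) {η t : ℝ} (h0 : 0 < η) (ht : 0 < t)
    (hη : 128 * η * (2 * (e : ℝ)) ^ 2 ≤ 1) (hl1 : 1 ≤ l) (hle : l ≤ e)
    (h : (e : ℝ) * (t ^ 2 / (l : ℝ)) ≤ (1 + 8 * η) * t ^ 2) : l = e := by
  have he2 : (2 : ℝ) ≤ e := by exact_mod_cast he
  have hl0 : (0 : ℝ) < l := by exact_mod_cast hl1
  have hle' : (l : ℝ) ≤ e := by exact_mod_cast hle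
  have ht2 : 0 < t ^ 2 := by positivity
  have h1 : (e : ℝ) ≤ (1 + 8 * η) * l := by
    have h2 : (e : ℝ) * (t ^ 2 / (l : ℝ)) = (e : ℝ) / l * t ^ 2 := by ring
    rw [h2] at h
    have h3 := le_of_mul_le_mul_right h ht2
    rwa [div_le_iff₀ hl0] at h3
  have h4 : η * (e : ℝ) ≤ η * (e : ℝ) ^ 2 := by
    apply mul_le_mul_of_nonneg_left _ h0.le
    nlinarith
  have h5 : 128 * η * (2 * (e : ℝ)) ^ 2 = 512 * (η * (e : ℝ) ^ 2) := by ring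
  rw [h5] at hη
  have h6 : η * (l : ℝ) ≤ η * (e : ℝ) := mul_le_mul_of_nonneg_left hle' h0.le
  have h7 : (e : ℝ) < l + 1 := by
    have h8 : (1 + 8 * η) * (l : ℝ) = l + 8 * (η * l) := by ring
    rw [h8] at h1
    linarith
  have h9 : e < l + 1 := by exact_mod_cast h7
  omega

/-- `ξ' = min ξ (η κ / 8)` (so `ξ' ≤ κ`), `Λ0` from `exists_clus'` for `ξ'`, `κ`, with `F = X ^ 2` (`mm real L 2 (X ^ 2) = log L ≥ κ log L`). Suppose all `|x - y| < L exp (- ξ log L) ≤ L exp (- ξ' log L) ≤ ρ2 / 2` for `x, y ∈ S \ {a}` (`del`). Every `x ∈ S \ {b}` is within `2 ρ1` of a `c ∈ C`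
(`point_root`, `cG`). All `x ∈ T` are near the same `c` (`sepC`; `4 ρ1 + ρ2 / 2 < ρ2`), so `mass_r'` for `g` with `C' = {c}` gives `e / l ≤ 1 + 8 η`, `l = cnt g.F c ρ1 = e` (`R4_close` or directly), so `all_near`: every `x ∈ S \ {b}` is within `2 ρ1` of `c`; and if `b ∈ S`: `b ≠ a`, so `b` is within
`ρ2 / 2 + 2 ρ1` of `c`. So `0` and the `y` with `|y| = L` (not both are `b`) have `L = |y - 0| ≤ ρ2 / 2 + 4 ρ1 < ρ2 ≤ L`, a contradiction. Model: `two_dsc` in `D/R4.lean`. -/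
theorem far_r (he : 2 ≤ e) {η κ ξ : ℝ} (h0 : 0 < η) (hη : 128 * η * (2 * (e : ℝ)) ^ 2 ≤ 1)
    (hκ : 0 < κ) (hκ1 : κ ≤ 1) (hξ : 0 < ξ) :
    ∃ Λ0 : ℝ, ∀ (S : Finset ℤ) (a b : ℤ) (g : PM S b e) (L : ℝ) (J : ℕ)
      (T : Finset ℤ), a ≠ b → (0 : ℤ) ∈ S → (∀ y ∈ S, |((y : ℤ) : ℝ)| ≤ L) →
      (∃ y ∈ S, |((y : ℤ) : ℝ)| = L) → 1 ≤ L → Λ0 ≤ Real.log L →
      (∀ x ∈ T, x ∈ S ∧ x ≠ a) → T ⊆ Dm S b g.ph (J + 1) → T.Nonempty →
      1 / (e : ℝ) ^ J ≤ η → Big e (2 * J) η T.card →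
      κ * (((e : ℝ) - 1) * Real.log L) ≤ mm Rat.AbsoluteValue.real L e g.F →
      En Rat.AbsoluteValue.real L T ≤
        (1 + η) * (T.card : ℝ) ^ 2 * (mm Rat.AbsoluteValue.real L e g.F / ((e : ℝ) - 1)) →
      ∃ x ∈ S, ∃ y ∈ S, x ≠ a ∧ y ≠ a ∧ L * Real.exp (-(ξ * Real.log L)) ≤ |((x : ℤ) : ℝ) - (y : ℤ)| := by
  classical
  have he2 : (2 : ℝ) ≤ e := by exact_mod_cast he
  have hη3 : η ≤ 1 / 2048 := by
    have h : 128 * η * (2 * (e : ℝ)) ^ 2 = 512 * (η * (e : ℝ) ^ 2) := by ring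
    rw [h] at hη
    have h4 : (4 : ℝ) ≤ (e : ℝ) ^ 2 := by
      calc (4 : ℝ) = 2 ^ 2 := by norm_num
        _ ≤ (e : ℝ) ^ 2 := pow_le_pow_left₀ (by norm_num) he2 2
    have h5 : η * 4 ≤ η * (e : ℝ) ^ 2 := mul_le_mul_of_nonneg_left h4 h0.le
    linarith
  have hη1 : η ≤ 1 / 2 := by linarith
  obtain ⟨ξ', hξ'⟩ : ∃ t : ℝ, t = min ξ (η * κ / 8) := ⟨_, rfl⟩
  have hξ'0 : 0 < ξ' := by
    rw [hξ']
    exact lt_min hξ (by positivity)
  have hξ'1 : ξ' ≤ ξ := by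
    rw [hξ']
    exact min_le_left _ _
  have hξ'2 : 8 * ξ' ≤ η * κ := by
    have : ξ' ≤ η * κ / 8 := by
      rw [hξ']
      exact min_le_right _ _
    linarith
  have hξ'3 : ξ' ≤ κ := by
    have : η * κ ≤ 1 * κ := mul_le_mul_of_nonneg_right (by linarith) hκ.le
    linarith
  obtain ⟨Λ0, hΛ0⟩ := exists_clus' he hξ'0 hκ hξ'3
  refine ⟨Λ0, ?_⟩
  intro S a b g L J T hab hz hL hy hL1 hΛ hTS hTg hT hJe hBg hMg hEg
  have hlog : 0 ≤ Real.log L := Real.log_nonneg hL1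
  have hL0 : 0 < L := by linarith
  obtain ⟨ρ1, ρ2, C, hC⟩ := hΛ0 (X ^ 2) g.F L (Polynomial.natDegree_X_pow 2) g.deg hL1 hΛ
    (by
      rw [R2_mm]
      have := mul_le_mul_of_nonneg_right hκ1 hlog
      linarith) hMg
  obtain ⟨y, hyS, hyL⟩ := hy
  by_contra hcon
  push Not at hcon
  have hpos := hC.pos
  have h16ρ : 16 * ρ1 ≤ ρ2 := by
    refine le_trans (mul_le_mul_of_nonneg_right ?_ hpos.le) hC.sepd
    norm_num
  have hρ2 : 0 < ρ2 := by linarith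
  have hsmall : ∀ u ∈ S, ∀ v ∈ S, u ≠ a → v ≠ a → ‖(u : ℂ) - (v : ℂ)‖ < ρ2 / 2 := by
    intro u hu v hv hua hva
    have h1 := hcon u hu v hv hua hva
    have h2 : ‖(u : ℂ) - (v : ℂ)‖ = |((u : ℤ) : ℝ) - (v : ℤ)| := by
      have h3 : (u : ℂ) - (v : ℂ) = ((((u : ℤ) : ℝ) - ((v : ℤ) : ℝ) : ℝ) : ℂ) := by
        push_cast
        ring
      rw [h3, Complex.norm_real, Real.norm_eq_abs]
    rw [h2]
    refine lt_of_lt_of_le h1 ?_
    have h4 : Real.log L - ξ' * Real.log L ≤ Real.log (ρ2 / 2) := by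
      have := hC.del
      linarith
    calc L * Real.exp (-(ξ * Real.log L)) ≤ L * Real.exp (-(ξ' * Real.log L)) := by
          apply mul_le_mul_of_nonneg_left _ hL0.le
          apply Real.exp_le_exp.2
          have := mul_le_mul_of_nonneg_right hξ'1 hlog
          linarith
      _ = Real.exp (Real.log L - ξ' * Real.log L) := by
          rw [sub_eq_add_neg, Real.exp_add, Real.exp_log hL0]
      _ ≤ Real.exp (Real.log (ρ2 / 2)) := Real.exp_le_exp.2 h4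
      _ = ρ2 / 2 := Real.exp_log (by linarith)
  have hfind : ∀ x ∈ S, x ≠ b → ∃ c ∈ C, ‖(x : ℂ) - c‖ ≤ 2 * ρ1 := by
    intro x hxS hxb
    obtain ⟨z, hz1, hz2⟩ := point_root g he hL hpos hC.aG hxS hxb
    obtain ⟨c, hc, hzc⟩ := hC.cG z hz1
    refine ⟨c, hc, ?_⟩
    calc ‖(x : ℂ) - c‖ = ‖((x : ℂ) - z) + (z - c)‖ := by ring_nf
      _ ≤ ‖(x : ℂ) - z‖ + ‖z - c‖ := norm_add_le _ _
      _ ≤ 2 * ρ1 := by linarith
  obtain ⟨x0, hx0⟩ := hT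
  obtain ⟨hx0S, hx0a⟩ := hTS x0 hx0
  obtain ⟨-, hx0b, -⟩ := Dm_succ (hTg hx0)
  obtain ⟨c0, hc0, hxc0⟩ := hfind x0 hx0S hx0b
  have hnearT : ∀ x ∈ T, ‖(x : ℂ) - c0‖ ≤ 2 * ρ1 := by
    intro x hx
    obtain ⟨hxS, hxa⟩ := hTS x hx
    obtain ⟨-, hxb, -⟩ := Dm_succ (hTg hx)
    obtain ⟨c, hc, hxc⟩ := hfind x hxS hxb
    by_cases hcc : c = c0
    · rw [← hcc]
      exact hxc
    · exfalso
      have h1 := hC.sepC c hc c0 hc0 hcc
      have h2 := hsmall x hxS x0 hx0S hxa hx0a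
      have h3 : ‖c - c0‖ ≤ ‖(x : ℂ) - c‖ + (‖(x : ℂ) - x0‖ + ‖(x0 : ℂ) - c0‖) := by
        calc ‖c - c0‖ = ‖(((x : ℂ) - x0) + ((x0 : ℂ) - c0)) - ((x : ℂ) - c)‖ := by ring_nf
          _ ≤ ‖((x : ℂ) - x0) + ((x0 : ℂ) - c0)‖ + ‖(x : ℂ) - c‖ := norm_sub_le _ _
          _ ≤ (‖(x : ℂ) - x0‖ + ‖(x0 : ℂ) - c0‖) + ‖(x : ℂ) - c‖ := by
              have := norm_add_le ((x : ℂ) - x0) ((x0 : ℂ) - c0)
              linarith
          _ = _ := by ring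
      linarith
  have hdsc : dsc T c0 (2 * ρ1) = T := by
    ext x
    simp only [dsc, Finset.mem_filter]
    exact ⟨fun h => h.1, fun h => ⟨h, hnearT x h⟩⟩
  have hl1 : 1 ≤ cnt g.F c0 ρ1 :=
    one_le_cnt g he hL hpos hC.sepe hC.aG (hC.rG c0 hc0) hx0S hx0b hxc0
  have hle : cnt g.F c0 ρ1 ≤ e := by
    have h1 := sum_cnt g.F (C := {c0}) (ρ1 := ρ1) (by
      intro c hc c' hc' hne
      rw [Finset.mem_singleton] at hc hc'
      exact absurd (hc.trans hc'.symm) hne)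
    rw [Finset.sum_singleton, g.deg] at h1
    exact h1
  have hmass := mass_r' g he hL1 hL J hpos hC.sepe hC.leL hC.aG (C := {c0})
    (by
      intro c hc c' hc' hne
      rw [Finset.mem_singleton] at hc hc'
      exact absurd (hc.trans hc'.symm) hne)
    (by
      intro c hc
      rw [Finset.mem_singleton] at hc
      rw [hc]
      exact hC.rG c0 hc0)
    (by
      intro c hc
      rw [Finset.mem_singleton] at hc
      rw [hc]
      exact hl1)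
    hTg (fun x hx => ⟨c0, Finset.mem_singleton_self c0, hnearT x hx⟩)
    h0 hη1 hκ hξ'2 hJe hBg hMg hC.two hC.del hEg
  rw [Finset.sum_singleton, hdsc] at hmass
  have hTpos : (0 : ℝ) < (T.card : ℝ) := by
    exact_mod_cast Finset.card_pos.2 ⟨x0, hx0⟩
  have hce : cnt g.F c0 ρ1 = e := R2_card he h0 hTpos hη hl1 hle hmass
  have hn1 : ∀ x ∈ S, x ≠ b → ‖(x : ℂ) - c0‖ ≤ 2 * ρ1 := fun x hx hxb =>
    all_near g he hL hpos hC.aG hce hx hxb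
  have hn2 : ∀ x ∈ S, ‖(x : ℂ) - c0‖ ≤ ρ2 / 2 + 2 * ρ1 := by
    intro x hx
    by_cases hxb : x = b
    · have hxa : x ≠ a := by
        rw [hxb]
        exact hab.symm
      have h1 := hsmall x hx x0 hx0S hxa hx0a
      calc ‖(x : ℂ) - c0‖ = ‖((x : ℂ) - x0) + ((x0 : ℂ) - c0)‖ := by ring_nf
        _ ≤ ‖(x : ℂ) - x0‖ + ‖(x0 : ℂ) - c0‖ := norm_add_le _ _
        _ ≤ ρ2 / 2 + 2 * ρ1 := by linarith
    · have h1 := hn1 x hx hxb
      linarith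
  have e3 : ‖(y : ℂ)‖ ≤ ρ2 / 2 + 4 * ρ1 := by
    have h1 : ‖(y : ℂ)‖ ≤ ‖(y : ℂ) - c0‖ + ‖((0 : ℤ) : ℂ) - c0‖ := by
      calc ‖(y : ℂ)‖ = ‖((y : ℂ) - c0) - (((0 : ℤ) : ℂ) - c0)‖ := by
            congr 1
            push_cast
            ring
        _ ≤ ‖(y : ℂ) - c0‖ + ‖((0 : ℤ) : ℂ) - c0‖ := norm_sub_le _ _
    by_cases hyb : y = b
    · have h0b : (0 : ℤ) ≠ b := by
        intro h
        rw [hyb, ← h] at hyL
        simp at hyL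
        linarith
      exact h1.trans ((add_le_add (hn2 y hyS) (hn1 0 hz h0b)).trans (le_of_eq (by ring)))
    · exact h1.trans ((add_le_add (hn1 y hyS hyb) (hn2 0 hz)).trans (le_of_eq (by ring)))
  have e4 : ‖(y : ℂ)‖ = L := by
    rw [← hyL, Complex.norm_intCast]
  have e5 := hC.leL
  linarith

end F0744U
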