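import Pool.Agent.Lib.MP_f0744f_nt.U.C3
import Pool.Agent.Lib.MP_f0744f_nt.U.V5
import Pool.Agent.Lib.MP_f0744f_nt.U.R2

/-! # Row X3r: the real place -/

set_option autoImplicit false

open Polynomial

namespace F0744U

open F0744C F0744D

variable {S : Finset ℤ} {a b : ℤ} {d e : ℕ}

/-- `(η1, θ0, H0, J1, t1)` from `itinU K`; `θ' = min θ θ0`, `H' = max H H0`; `(θ1, H1)` from `up_of_far` for `θ'`, `H'`; `η0 = min η1 (1 / (512 e ^ 2))`, `J0 = J1 + K`, `t0 = max t1 1`; `ξ = κ θ1`, `Λ0` the maximum of the number of `far_r` (for `η`, `κ`, `ξ`) and `H1 / κ` and `1`.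
`far_r` gives two points; `ξ log L ≤ θ1 mm` because `mm ≥ κ (d - 1) log L ≥ κ log L` (so also `H1 ≤ mm`); `up_of_far` with `R = L` (`Rat.AbsoluteValue.real_eq_abs`; `|d| = d ≥ 1`), `itinU`, `UP.mono`. -/
theorem tr_U (hd : 2 ≤ d) (he : 2 ≤ e) (K : ℕ) {θ κ : ℝ} (hθ : 0 < θ) (hκ : 0 < κ) (hκ1 : κ ≤ 1) (H : ℝ) :
    ∃ (η0 : ℝ) (J0 t0 : ℕ), 0 < η0 ∧ ∀ η : ℝ, 0 < η → η ≤ η0 → ∃ Λ0 : ℝ,
    ∀ (S : Finset ℤ) (a b : ℤ) (f : PM S a d) (g : PM S b e) (L : ℝ) (J : ℕ) (T : Finset ℤ),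
      a ≠ b → Uni f.F d → (0 : ℤ) ∈ S → (∀ y ∈ S, |((y : ℤ) : ℝ)| ≤ L) →
      (∃ y ∈ S, |((y : ℤ) : ℝ)| = L) → 1 ≤ L → Λ0 ≤ Real.log L →
      (∀ x ∈ T, x ∈ S ∧ x ≠ a) → T ⊆ Dm S a f.ph (J + 1) → T ⊆ Dm S b g.ph (J + 1) → J0 ≤ J →
      t0 ≤ T.card → 1 / (e : ℝ) ^ J ≤ η → Big e (2 * J) η T.card →
      κ * (((d : ℝ) - 1) * Real.log L) ≤ mm Rat.AbsoluteValue.real L d f.F →
      κ * (((e : ℝ) - 1) * Real.log L) ≤ mm Rat.AbsoluteValue.real L e g.F →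
      En Rat.AbsoluteValue.real L T ≤
        (1 + η) * (T.card : ℝ) ^ 2 * (mm Rat.AbsoluteValue.real L d f.F / ((d : ℝ) - 1)) →
      En Rat.AbsoluteValue.real L T ≤
        (1 + η) * (T.card : ℝ) ^ 2 * (mm Rat.AbsoluteValue.real L e g.F / ((e : ℝ) - 1)) →
      ∃ cl : ℤ → Fin d, UP f Rat.AbsoluteValue.real L (mm Rat.AbsoluteValue.real L d f.F) θ H cl ∧
        FullU f.ph cl K T := by
  have he' : (2 : ℝ) ≤ e := by exact_mod_cast he
  have hd' : (2 : ℝ) ≤ d := by exact_mod_cast hd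
  obtain ⟨η1, θ0, H0, J1, t1, hη1, hθ0, hit⟩ := itinU hd K
  obtain ⟨θ', hθ'⟩ : ∃ x : ℝ, x = min θ θ0 := ⟨_, rfl⟩
  have hθ'0 : 0 < θ' := by rw [hθ']; exact lt_min hθ hθ0
  have hθ'1 : θ' ≤ θ := by rw [hθ']; exact min_le_left _ _
  have hθ'2 : θ' ≤ θ0 := by rw [hθ']; exact min_le_right _ _
  obtain ⟨H', hH'⟩ : ∃ x : ℝ, x = max H H0 := ⟨_, rfl⟩
  have hH'1 : H ≤ H' := by rw [hH']; exact le_max_left _ _
  have hH'2 : H0 ≤ H' := by rw [hH']; exact le_max_right _ _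
  obtain ⟨θ1, H1, hθ1, hup⟩ := up_of_far hd hθ'0 H'
  refine ⟨min η1 (1 / (512 * (e : ℝ) ^ 2)), J1 + K, max t1 1, lt_min hη1 (by positivity), ?_⟩
  intro η hη hηle
  have hη2 : η ≤ η1 := hηle.trans (min_le_left _ _)
  have hη3 : 512 * η * (e : ℝ) ^ 2 ≤ 1 := by
    have : η ≤ 1 / (512 * (e : ℝ) ^ 2) := hηle.trans (min_le_right _ _)
    rw [le_div_iff₀ (by positivity)] at this
    linarith
  have hη128 : 128 * η * (2 * (e : ℝ)) ^ 2 ≤ 1 := by nlinarith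
  obtain ⟨Λ0, hΛ0⟩ := far_r he hη hη128 hκ hκ1 (mul_pos hκ hθ1)
  refine ⟨max Λ0 (max (H1 / κ) 1), ?_⟩
  intro S a b f g L J T hab huni h0 hL hL' hL1 hΛ hTS hTf hTg hJ ht heJ hbig hmf hmg hEf hEg
  have hΛ1 : Λ0 ≤ Real.log L := (le_max_left _ _).trans hΛ
  have hΛ2 : H1 / κ ≤ Real.log L := ((le_max_left _ _).trans (le_max_right _ _)).trans hΛ
  have hΛ3 : 1 ≤ Real.log L := ((le_max_right _ _).trans (le_max_right _ _)).trans hΛ
  have hTne : T.Nonempty := Finset.card_pos.1 (by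
    have := (le_max_right t1 1).trans ht
    omega)
  obtain ⟨x, hx, y, hy, hxa, hya, hxy⟩ := hΛ0 S a b g L J T hab h0 hL hL' hL1 hΛ1 hTS hTg hTne heJ
    hbig hmg hEg
  have hm1 : κ * Real.log L ≤ mm Rat.AbsoluteValue.real L d f.F := by
    refine le_trans ?_ hmf
    refine mul_le_mul_of_nonneg_left ?_ hκ.le
    nlinarith
  have hH1m : H1 ≤ mm Rat.AbsoluteValue.real L d f.F := by
    refine le_trans ?_ hm1
    rw [div_le_iff₀ hκ] at hΛ2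
    linarith
  have hm0 : 0 < mm Rat.AbsoluteValue.real L d f.F :=
    lt_of_lt_of_le (mul_pos hκ (by linarith)) hm1
  obtain ⟨cl, hcl⟩ := hup S a f Rat.AbsoluteValue.real L _ huni hL1 (by
      intro z hz
      have h1 := hL z hz
      rw [Rat.AbsoluteValue.real_eq_abs]
      push_cast
      exact h1) rfl hH1m (by
      rw [Rat.AbsoluteValue.real_eq_abs]
      push_cast
      rw [abs_of_nonneg (by linarith)]
      nlinarith) ⟨x, hx, y, hy, hxa, hya, by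
        rw [Rat.AbsoluteValue.real_eq_abs]
        push_cast
        refine le_trans ?_ hxy
        refine mul_le_mul_of_nonneg_left ?_ (by linarith)
        rw [Real.exp_le_exp]
        have := mul_le_mul_of_nonneg_left hm1 hθ1.le
        nlinarith⟩
  refine ⟨cl, hcl.mono hθ'1 hH'1, ?_⟩
  refine hit S a f Rat.AbsoluteValue.real L _ θ' H' cl hcl hθ'2 hH'2 T
    (hTf.trans (Dm_mono _ _ _ (by omega))) ((le_max_left _ _).trans ht) ?_
  refine hEf.trans ?_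
  refine mul_le_mul_of_nonneg_right ?_ (div_nonneg hm0.le (by linarith))
  exact mul_le_mul_of_nonneg_right (by linarith) (by positivity)

end F0744U
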