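import Pool.Agent.Lib.MP_f0744f_nt.D.X3a
import Pool.Agent.Lib.MP_f0744f_nt.D.X3
import Pool.Agent.Lib.MP_f0744f_nt.C.G5
import Pool.Agent.Lib.MP_f0744f_nt.C.Main
import Pool.Agent.Lib.MP_f0744f_nt.U.X1
import Pool.Agent.Lib.MP_f0744f_nt.U.X2
import Pool.Agent.Lib.MP_f0744f_nt.U.X3p
import Pool.Agent.Lib.MP_f0744f_nt.U.X3r

/-! # Row X3: the data of all places -/

set_option autoImplicit false

open Polynomial

namespace F0744U

open F0744C F0744D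

variable {S : Finset ℤ} {a b : ℤ} {d e : ℕ}

/-- Model: `exists_ctx` in `D/X3.lean`. `κ' = min (1 / 32) (κ / (66 (d + e) ^ 2 + 32 d))`; constants `η1, H1, J1, t1` of `tp_U` and `η2, J2, t2` of `tr_U` (with `κ'`) for `K = J + 2`; `η = min (1 / 2) (min η1 η2)`, `Λ0` of `tr_U`; `ε = η κ' / 32`; `H2 = max H1 1` (the `H` of `globU`);
`J3 ≥ max (max J1 J2) (J + 2)` with `1 / 2 ^ J3 ≤ ε / 2`; `T` from `exists_TU f g (J3 + 1)`, `t = T.card` large (`exists_big`; `big_mono` in `C/Main.lean`); `L` from `exists_L`, `log L` is large because `S.card ≤ 2 L + 1` (`card_le`); `B = max B0 (⌈2 L⌉₊, num and den of the leading coefficients)`.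
`globU` (with `J3 + 1`) gives `TT`, `rt`; `tp`: `tp_U`, `tr`: `tr_U` (with `J = J3`). `U` from `exists_U` with `d + e - 1` in place of `e`; `nt`: `2 (d + e) (d + e - 1) 33 κ' + 16 κ' (d - 1) ≤ κ`; `lo`, `up`: `16 κ' ≤ κ`. -/
theorem exists_ctxU (hd : 2 ≤ d) (he : 2 ≤ e) (J : ℕ) {κ θ : ℝ} (hκ : 0 < κ) (hθ : 0 < θ) (H C : ℝ) :
    ∃ N0 : ℕ, ∀ (S : Finset ℤ) (a b : ℤ) (f : PM S a d) (g : PM S b e), a ∈ S → b ∈ S → a ≠ b →
      (0 : ℤ) ∈ S → N0 ≤ S.card → (∀ p : ℕ, p.Prime → ∃ x ∈ S, ∃ y ∈ S, ¬ (p : ℤ) ∣ x - y) →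
      Uni f.F d → ∀ B0 : ℕ, ∃ (L : ℝ) (B : ℕ) (TT : Finset ℕ) (rt : Bool) (T U : Finset ℤ), B0 ≤ B ∧
        CtxU f g J L κ θ H C B TT rt T U := by
  have hd' : (2 : ℝ) ≤ d := by exact_mod_cast hd
  have he' : (2 : ℝ) ≤ e := by exact_mod_cast he
  have hD : (0 : ℝ) < 66 * ((d : ℝ) + e) ^ 2 + 32 * d := by positivity
  obtain ⟨κ', hκ'⟩ : ∃ x : ℝ, x = min (1 / 32) (κ / (66 * ((d : ℝ) + e) ^ 2 + 32 * d)) := ⟨_, rfl⟩
  have hκ'0 : 0 < κ' := by rw [hκ']; exact lt_min (by norm_num) (div_pos hκ hD)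
  have hκ'1 : κ' ≤ 1 / 32 := by rw [hκ']; exact min_le_left _ _
  have hκ'2 : (66 * ((d : ℝ) + e) ^ 2 + 32 * d) * κ' ≤ κ := by
    have : κ' ≤ κ / (66 * ((d : ℝ) + e) ^ 2 + 32 * d) := by rw [hκ']; exact min_le_right _ _
    rw [le_div_iff₀ hD] at this
    linarith
  obtain ⟨η1, H1, J1, t1, hη1p, htp⟩ := tp_U hd he (J + 2) hθ H
  obtain ⟨η2, J2, t2, hη2p, htr⟩ := tr_U hd he (J + 2) hθ hκ'0 (by linarith) H
  obtain ⟨η, hη⟩ : ∃ x : ℝ, x = min (1 / 2) (min η1 η2) := ⟨_, rfl⟩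
  have hηp : 0 < η := by
    rw [hη]; exact lt_min (by norm_num) (lt_min hη1p hη2p)
  have hηh : η ≤ 1 / 2 := by rw [hη]; exact min_le_left _ _
  have hη1 : η ≤ η1 := by rw [hη]; exact (min_le_right _ _).trans (min_le_left _ _)
  have hη2 : η ≤ η2 := by rw [hη]; exact (min_le_right _ _).trans (min_le_right _ _)
  obtain ⟨Λ0, hΛ0⟩ := htr η hηp hη2
  obtain ⟨ε, hε⟩ : ∃ x : ℝ, x = η * κ' / 32 := ⟨_, rfl⟩
  have hεp : 0 < ε := by rw [hε]; positivity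
  have hε32 : 32 * ε ≤ η * κ' := by rw [hε]; linarith
  have hεη : ε / 2 ≤ η := by
    have : η * κ' ≤ η * 1 := mul_le_mul_of_nonneg_left (by linarith) hηp.le
    linarith
  obtain ⟨H2, hH2⟩ : ∃ x : ℝ, x = max H1 1 := ⟨_, rfl⟩
  have hH2p : 0 < H2 := by rw [hH2]; exact lt_of_lt_of_le one_pos (le_max_right _ _)
  have hH21 : H1 ≤ H2 := by rw [hH2]; exact le_max_left _ _
  obtain ⟨J4, hJ4⟩ : ∃ J4 : ℕ, (1 / 2 : ℝ) ^ J4 < ε / 2 :=
    exists_pow_lt_of_lt_one (by positivity) (by norm_num)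
  obtain ⟨J', hJ'⟩ : ∃ x : ℕ, x = J4 + J1 + J2 + J + 2 := ⟨_, rfl⟩
  have hJε : (1 / 2 : ℝ) ^ J' ≤ ε / 2 := by
    refine le_trans ?_ hJ4.le
    exact pow_le_pow_of_le_one (by norm_num) (by norm_num) (by omega)
  obtain ⟨t3, ht3⟩ := exists_big d (2 * J') (ε := ε / 2) (by positivity)
  obtain ⟨t4, ht4⟩ := exists_big e (2 * J') (ε := ε / 2) (by positivity)
  obtain ⟨Y, hY⟩ : ∃ x : ℝ, x = max (max Λ0 (Real.log 2 / ε))
    (max ((Real.exp H2 + 1) * H2 / κ') (C / κ)) := ⟨_, rfl⟩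
  refine ⟨t1 + t2 + t3 + t4 + d + e + 2 * (J' + 1) + 10 + ⌈2 * Real.exp Y + 1⌉₊, ?_⟩
  intro S a b f g ha hb hab h0 hN prim uni B0
  obtain ⟨L, hL1, hL, hL'⟩ := exists_L (S := S) (by omega)
  have hcard := card_le (by linarith : (0 : ℝ) ≤ L) hL
  have hΛ : Y ≤ Real.log L := by
    rw [Real.le_log_iff_exp_le (by linarith)]
    have h1 : (2 * Real.exp Y + 1 : ℝ) ≤ S.card := by
      refine le_trans (Nat.le_ceil _) ?_
      exact_mod_cast le_trans (by omega) hN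
    linarith
  have hΛ1 : Λ0 ≤ Real.log L :=
    le_trans (le_trans (le_max_left _ _) (le_max_left _ _)) (hY ▸ hΛ)
  have hΛ2 : Real.log 2 ≤ ε * Real.log L := by
    have := le_trans (le_trans (le_max_right _ _) (le_max_left _ _)) (hY ▸ hΛ)
    rw [div_le_iff₀ hεp] at this
    linarith
  have hΛ3 : (Real.exp H2 + 1) * H2 ≤ κ' * Real.log L := by
    have := le_trans (le_trans (le_max_left _ _) (le_max_right _ _)) (hY ▸ hΛ)
    rw [div_le_iff₀ hκ'0] at this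
    linarith
  have hΛ4 : C ≤ κ * Real.log L := by
    have := le_trans (le_trans (le_max_right _ _) (le_max_right _ _)) (hY ▸ hΛ)
    rw [div_le_iff₀ hκ] at this
    linarith
  have hlog2 : 0 < Real.log 2 := Real.log_pos (by norm_num)
  have hΛpos : 0 < Real.log L := by
    by_contra hcon
    push Not at hcon
    have : ε * Real.log L ≤ 0 := mul_nonpos_of_nonneg_of_nonpos hεp.le hcon
    linarith
  obtain ⟨T, hTf, hTg, hTa, hgT, hgT2, hTcard⟩ := exists_TU f g (J' + 1)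
  have hTS : ∀ x ∈ T, x ∈ S ∧ x ≠ a := fun x hx => ⟨(hgT x hx).1, hTa x hx⟩
  have hTf' : T ⊆ Dm S a f.ph J' := hTf.trans (Dm_anti _ _)
  have hTg' : T ⊆ Dm S b g.ph J' := hTg.trans (Dm_anti _ _)
  have hTbig : t1 + t2 + t3 + t4 + d + e + 1 ≤ T.card := by omega
  have hTne : T.Nonempty := Finset.card_pos.1 (by omega)
  have hBf : Big d (2 * J') (ε / 2) T.card := ht3 _ (by omega)
  have hBg : Big e (2 * J') (ε / 2) T.card := ht4 _ (by omega)
  obtain ⟨B, hB⟩ : ∃ B : ℕ, B = B0 + ⌈2 * L⌉₊ + f.F.leadingCoeff.num.natAbs +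
    f.F.leadingCoeff.den + g.F.leadingCoeff.den := ⟨_, rfl⟩
  have hB1 : 2 * L ≤ B := by
    refine le_trans (Nat.le_ceil _) ?_
    rw [hB]; exact_mod_cast (by omega)
  have ht : (0 : ℝ) < T.card := by exact_mod_cast Finset.card_pos.2 hTne
  have hJ2' : (1 : ℝ) / 2 ^ J' ≤ ε / 2 := by rw [← one_div_pow]; exact hJε
  obtain ⟨TT, rt, hTTs, hTT, hrt, hlo, hup, hnt, hneg⟩ := globU hd he f g hTf' hTg' hTne hεp hηp hηh
    hε32 hκ'1 hH2p hJ2' hBf hBg hL1 hL hΛ2 hΛ3 hB1 (by omega) (by omega) (by omega)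
  obtain ⟨n, hn⟩ : ∃ n : ℕ, n = d + e - 1 := ⟨_, rfl⟩
  have hn1 : (n : ℝ) + 1 = d + e := by
    have : n + 1 = d + e := by omega
    exact_mod_cast this
  obtain ⟨U, hUT, hUc, hUn⟩ := exists_U (T := T) (X := 33 * κ' * Real.log L) (L := L) (e := n)
    (by positivity) (by omega) (by omega) (Ps B \ TT) rt (by nlinarith [hnt])
  refine ⟨L, B, TT, rt, T, U, by omega, ?_⟩
  have hsq : (16 : ℝ) ≤ ((d : ℝ) + e) ^ 2 := by nlinarith
  have h16 : 16 * κ' ≤ κ := by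
    have h1 : (0 : ℝ) ≤ (66 * ((d : ℝ) + e) ^ 2 + 32 * d - 16) * κ' :=
      mul_nonneg (by linarith) hκ'0.le
    linarith
  have hdL : 0 ≤ ((d : ℝ) - 1) * Real.log L := mul_nonneg (by linarith) hΛpos.le
  refine ⟨hL1, hL, hκ, hθ, hΛ4, hTf.trans (Dm_mono _ _ _ (by omega)), hgT, hgT2, hTTs, ?_, ?_, ?_,
    ?_, hUT, by omega, ?_⟩
  · intro p hp hpT
    obtain ⟨h1, h2, h3, h4⟩ := hTT p hpT
    exact htp S a b f g p J' T η hab uni (prim p hp.out) hTS hTf hTg (by omega) (by omega) hηp hη1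
      (pow_le he (hJε.trans hεη)) (big_mono hεη hBg) (hH21.trans h1) h2 h3 h4
  · intro hr
    obtain ⟨h1, h2, h3, h4⟩ := hrt hr
    exact hΛ0 S a b f g L J' T hab uni h0 hL hL' hL1 hΛ1 hTS hTf hTg (by omega) (by omega)
      (pow_le he (hJε.trans hεη)) (big_mono hεη hBg) h1 h2 h3 h4
  · refine le_trans ?_ hlo
    exact mul_le_mul_of_nonneg_right (by linarith) hdL
  · refine hup.trans ?_
    exact mul_le_mul_of_nonneg_right (by linarith) hdL
  · have h1 : ∑ p ∈ Ps B \ TT, max 0 (-mP p f.F) ≤ ∑ p ∈ Ps B, max 0 (-mP p f.F) :=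
      Finset.sum_le_sum_of_subset_of_nonneg Finset.sdiff_subset (fun _ _ _ => le_max_left _ _)
    have h2 : (if rt = true then (0 : ℝ) else EnX Rat.AbsoluteValue.real L U +
        max 0 (-mm Rat.AbsoluteValue.real L d f.F)) ≤
        (if rt = true then 0 else EnX Rat.AbsoluteValue.real L U) +
          max 0 (-mm Rat.AbsoluteValue.real L d f.F) := by
      split_ifs
      · rw [zero_add]; exact le_max_left _ _
      · exact le_rfl
    rw [Finset.sum_add_distrib]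
    have h3 : (66 * ((d : ℝ) + e) ^ 2 + 32 * d) * κ' * Real.log L ≤ κ * Real.log L :=
      mul_le_mul_of_nonneg_right hκ'2 hΛpos.le
    have h4 : 0 ≤ κ' * Real.log L := by positivity
    have hn2 : (n : ℝ) = (d : ℝ) + e - 1 := by linarith
    have h5 : 2 * ((n : ℝ) + 1) * n * (33 * κ' * Real.log L) ≤
        66 * ((d : ℝ) + e) ^ 2 * (κ' * Real.log L) := by
      rw [hn2]
      have h7 : 0 ≤ 66 * ((d : ℝ) + e) * (κ' * Real.log L) := by positivity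
      nlinarith
    have h6 : 16 * κ' * (((d : ℝ) - 1) * Real.log L) ≤ 32 * d * (κ' * Real.log L) := by
      have h8 : 0 ≤ (16 * (d : ℝ) + 16) * (κ' * Real.log L) := by positivity
      nlinarith
    have h9 : (66 * ((d : ℝ) + e) ^ 2 + 32 * d) * κ' * Real.log L =
        66 * ((d : ℝ) + e) ^ 2 * (κ' * Real.log L) + 32 * d * (κ' * Real.log L) := by ring
    linarith

end F0744U
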