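import Pool.Agent.Lib.MP_f0744f_nt.U.K1
import Pool.Agent.Lib.MP_f0744f_nt.U.K3
import Pool.Agent.Lib.MP_f0744f_nt.U.X3
import Pool.Agent.Lib.MP_f0744f_nt.D.K7

/-! # Row K7a: the shape of g -/

set_option autoImplicit false

open Polynomial

namespace F0744U

open F0744C F0744D

variable {S : Finset ℤ} {a b : ℤ} {d e : ℕ}

/-- the degree of `C c0 + F^k` -/
theorem K7a_deg_add {F : ℚ[X]} (hF : F.natDegree = d) (k : ℕ) (c0 : ℚ) :
    (C c0 + F.comp^[k] X).natDegree = d ^ k := by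
  rw [natDegree_C_add, iter_natDegreeU hF k]

/-- the degree of `C c0 - F^k` -/
theorem K7a_deg_sub {F : ℚ[X]} (hF : F.natDegree = d) (k : ℕ) (c0 : ℚ) :
    (C c0 - F.comp^[k] X).natDegree = d ^ k := by
  rw [sub_eq_add_neg, natDegree_C_add, natDegree_neg, iter_natDegreeU hF k]

/-- Model: the first half of `main_q` in `D/K7.lean`. `J = e` (`e < d ^ e`: `Nat.lt_pow_self`). Constants: `κ, θ` the minima and `H, C` the maxima of the constants of `coef_zeroU`, `coef_unitU`, `shapeU`. `N0` from `exists_ctxU`. `c` from `expandU` for `g.F` (`N = e`). Take a `CtxU` with `B` at least all numerators and denominators of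
the `c n`, `c n ^ (d ! + 1) - c n`, `n ≤ e`: `coef_zeroU`, `coef_unitU`, `shapeU` give `g.F = C c0 ± F.comp^[k] X`, `1 ≤ k < J`; the degree (`iter_natDegreeU`, `g.deg`) gives `d ^ k = e`. -/
theorem form_U {d e : ℕ} (hd : 2 ≤ d) (he : 2 ≤ e) :
    ∃ N0 : ℕ, ∀ (S : Finset ℤ) (a b : ℤ), a ∈ S → b ∈ S → a ≠ b → (0 : ℤ) ∈ S → N0 ≤ S.card →
      (∀ p : ℕ, p.Prime → ∃ x ∈ S, ∃ y ∈ S, ¬ (p : ℤ) ∣ x - y) →
      ∀ (f : PM S a d) (g : PM S b e), Uni f.F d → ∃ (k : ℕ) (c0 : ℚ), 1 ≤ k ∧ k < e ∧ d ^ k = e ∧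
        (g.F = C c0 + f.F.comp^[k] X ∨ g.F = C c0 - f.F.comp^[k] X) := by
  have heJ : e < d ^ e := Nat.lt_pow_self (by omega)
  obtain ⟨κ1, θ1, H1, C1, hκ1, hθ1, Z1⟩ := coef_zeroU hd e e heJ
  obtain ⟨κ2, θ2, H2, C2, hκ2, hθ2, Z2⟩ := coef_unitU hd e e heJ
  obtain ⟨κ3, θ3, H3, C3, hκ3, hθ3, Z3⟩ := shapeU hd e e he heJ
  obtain ⟨κ, hκ, k1, k2, k3⟩ : ∃ κ : ℝ, 0 < κ ∧ κ ≤ κ1 ∧ κ ≤ κ2 ∧ κ ≤ κ3 :=
    ⟨min κ1 (min κ2 κ3), lt_min hκ1 (lt_min hκ2 hκ3), min_le_left _ _,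
      (min_le_right _ _).trans (min_le_left _ _), (min_le_right _ _).trans (min_le_right _ _)⟩
  obtain ⟨θ, hθ, t1, t2, t3⟩ : ∃ θ : ℝ, 0 < θ ∧ θ ≤ θ1 ∧ θ ≤ θ2 ∧ θ ≤ θ3 :=
    ⟨min θ1 (min θ2 θ3), lt_min hθ1 (lt_min hθ2 hθ3), min_le_left _ _,
      (min_le_right _ _).trans (min_le_left _ _), (min_le_right _ _).trans (min_le_right _ _)⟩
  obtain ⟨H, h1, h2, h3⟩ : ∃ H : ℝ, H1 ≤ H ∧ H2 ≤ H ∧ H3 ≤ H :=
    ⟨max H1 (max H2 H3), le_max_left _ _,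
      (le_max_left _ _).trans (le_max_right _ _), (le_max_right _ _).trans (le_max_right _ _)⟩
  obtain ⟨C0, c1, c2, c3⟩ : ∃ C0 : ℝ, C1 ≤ C0 ∧ C2 ≤ C0 ∧ C3 ≤ C0 :=
    ⟨max C1 (max C2 C3), le_max_left _ _,
      (le_max_left _ _).trans (le_max_right _ _), (le_max_right _ _).trans (le_max_right _ _)⟩
  obtain ⟨N0, hN0⟩ := exists_ctxU hd he e hκ hθ H C0
  refine ⟨N0, fun S a b ha hb hab h0 hN hp f g huni => ?_⟩
  obtain ⟨c, hc, hg⟩ := expandU f.deg hd e e g.F g.deg.le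
  obtain ⟨u, hu⟩ : ∃ u : ℕ → ℕ, u = fun n => ((c n).num.natAbs + (c n).den) +
      ((c n ^ (d.factorial + 1) - c n).num.natAbs + (c n ^ (d.factorial + 1) - c n).den) := ⟨_, rfl⟩
  have hub : ∀ n ≤ e, u n ≤ ∑ i ∈ Finset.range (e + 1), u i := fun n hn =>
    Finset.single_le_sum (f := u) (fun i _ => Nat.zero_le _)
      (Finset.mem_range.2 (Nat.lt_succ_of_le hn))
  obtain ⟨L, B, TT, rt, T, U, hB, ctx⟩ := hN0 S a b f g ha hb hab h0 hN hp huni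
    (∑ i ∈ Finset.range (e + 1), u i)
  have hub' : ∀ n ≤ e, ((c n).num.natAbs + (c n).den) +
      ((c n ^ (d.factorial + 1) - c n).num.natAbs + (c n ^ (d.factorial + 1) - c n).den) ≤ B := by
    intro n hn
    have h := (hub n hn).trans hB
    rw [hu] at h
    exact h
  have hz := Z1 S a b f g L κ θ H C0 B TT rt T U ctx k1 t1 h1 c1 c hc hg
    (fun n hn => ⟨by have := hub' n hn; omega, by have := hub' n hn; omega⟩)
  have hq := Z2 S a b f g L κ θ H C0 B TT rt T U ctx k2 t2 h2 c2 c hc hg hz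
    (fun n hn => ⟨by have := hub' n hn; omega, by have := hub' n hn; omega⟩)
  obtain ⟨k, c0, hk1, hkJ, hs⟩ := Z3 S a b f g L κ θ H C0 B TT rt T U ctx k3 t3 h3 c3 c hc hg hz hq
  refine ⟨k, c0, hk1, hkJ, ?_, hs⟩
  rcases hs with hs | hs
  · rw [← K7a_deg_add f.deg k c0, ← hs, g.deg]
  · rw [← K7a_deg_sub f.deg k c0, ← hs, g.deg]

end F0744U
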