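import Pool.Agent.Lib.MP_f0744f_nt.D.N2
import Pool.Agent.Lib.MP_f0744f_nt.U.N1

/-! # Row N2: the coefficients at the other places -/

set_option autoImplicit false

open Polynomial

namespace F0744U

open F0744C F0744D

variable {S : Finset ℤ} {a b : ℤ} {d e : ℕ}

/-- Model: `nt_p` in `D/N2.lean`. `nt_coefU` with `κ = 1`, `R = 1`, `Ω = EnP p U`, `μ = max 0 (- mP)`. -/
theorem nt_pU (f : PM S a d) (hd : 2 ≤ d) {p : ℕ} [Fact p.Prime] {e J : ℕ} {U : Finset ℤ}
    (hU : U ⊆ Dm S a f.ph J) (hc : e + 1 ≤ U.card) (c : ℕ → ℚ)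
    (hG : ∀ x ∈ U, ∃ z : ℤ,
      ∑ n ∈ Finset.range (e + 1), c n * (bp f.F d J n).eval (x : ℚ) = (z : ℚ)) :
    ∀ n ≤ e, Rat.AbsoluteValue.padic p (c n) ≤
      Real.exp (((e : ℝ) + 1) ^ 2 * (EnP p U + max 0 (-mP p f.F))) := by
  intro n hn
  have hp : p.Prime := Fact.out
  have hF : f.F ≠ 0 := by
    intro h
    have := f.deg
    rw [h, natDegree_zero] at this
    omega
  have hΩ0 : 0 ≤ EnP p U := EnP_nonneg hp U
  have hμ0 : (0 : ℝ) ≤ max 0 (-mP p f.F) := le_max_left _ _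
  have h1 := nt_coefU f hd (A := Rat.AbsoluteValue.padic p) (le_refl (1 : ℝ))
    (fun y _ => N2_int p y) (le_refl (1 : ℝ)) (sumLe_padic p (e + 1)) hU hc hΩ0 (by
      intro x hx
      have h2 : ∑ y ∈ U.erase x, max 0 (uu (Rat.AbsoluteValue.padic p) 1 x y) =
          ∑ y ∈ U.erase x, vp p ((x : ℚ) - y) := by
        refine Finset.sum_congr rfl fun y hy => ?_
        rw [uu_padic p (Finset.ne_of_mem_erase hy).symm]
        exact max_eq_right (N2_vp hp x y)
      rw [h2]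
      unfold EnP
      exact Finset.single_le_sum (f := fun x => ∑ y ∈ U.erase x, vp p ((x : ℚ) - y))
        (fun x _ => Finset.sum_nonneg fun y _ => N2_vp hp x y) hx) hμ0 (by
      rw [mm_padic p d hF]
      have := le_max_right (0 : ℝ) (-mP p f.F)
      linarith) c (by
      intro x hx
      obtain ⟨z, hz⟩ := hG x hx
      rw [hz]
      exact N2_int p z) n hn
  rw [one_pow, one_pow, mul_one, mul_one, one_mul, ← Real.exp_nat_mul] at h1
  refine h1.trans (Real.exp_le_exp.2 ?_)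
  have h2 := N2_exp (Nat.cast_nonneg e : (0 : ℝ) ≤ (e : ℝ)) hΩ0 hμ0
  push_cast
  linarith

end F0744U
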