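import Pool.Agent.Lib.MP_f0744f_nt.D.N2
import Pool.Agent.Lib.MP_f0744f_nt.U.B0

/-! # Row N4: the sum of the roots at the other places -/

set_option autoImplicit false

open Polynomial

namespace F0744U

open F0744C F0744D

variable {S : Finset ℤ} {a b : ℤ} {d e : ℕ}

/-- `P = f.F - C α * ∏ x ∈ V, (X - C x)` has degree `< d`, the coefficient of `X ^ (d - 1)` is `α (∑ x - sF)`; `lag_coeff` for the points of `V`. -/
theorem sF_lag (f : PM S a d) (hd : 1 ≤ d) {V : Finset ℤ} (hV : V ⊆ Dm S a f.ph 1) (hc : V.card = d) :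
    f.F.leadingCoeff * ((∑ x ∈ V, (x : ℚ)) - sF f.F d) =
      ∑ x ∈ V, ((f.ph x : ℤ) : ℚ) * (∏ y ∈ V.erase x, ((x : ℚ) - y))⁻¹ := by
  have hF0 : f.F ≠ 0 := by
    intro h
    have h1 := f.deg
    rw [h, natDegree_zero] at h1
    omega
  have hα : f.F.leadingCoeff ≠ 0 := leadingCoeff_ne_zero.2 hF0
  set α := f.F.leadingCoeff with hαd
  have hQm : (∏ x ∈ V, (X - C ((x : ℤ) : ℚ))).Monic := monic_prod_of_monic _ _ fun x _ => monic_X_sub_C _
  have hQd : (∏ x ∈ V, (X - C ((x : ℤ) : ℚ))).natDegree = d := by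
    rw [natDegree_prod_of_monic _ _ fun x _ => monic_X_sub_C _,
      Finset.sum_congr rfl fun x _ => natDegree_X_sub_C _, Finset.sum_const, hc, smul_eq_mul, mul_one]
  have hQ0 : (∏ x ∈ V, (X - C ((x : ℤ) : ℚ))) ≠ 0 := hQm.ne_zero
  have hdeg : (f.F - C α * ∏ x ∈ V, (X - C ((x : ℤ) : ℚ))).natDegree < V.card := by
    rw [hc]
    have h1 : (f.F - C α * ∏ x ∈ V, (X - C ((x : ℤ) : ℚ))).degree < f.F.degree := by
      apply degree_sub_lt_left
      · rw [degree_C_mul hα, degree_eq_natDegree hF0, degree_eq_natDegree hQ0, f.deg, hQd]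
      · exact hF0
      · rw [leadingCoeff_mul, leadingCoeff_C, hQm.leadingCoeff, mul_one]
    rw [degree_eq_natDegree hF0, f.deg] at h1
    by_cases h0 : (f.F - C α * ∏ x ∈ V, (X - C ((x : ℤ) : ℚ))) = 0
    · rw [h0, natDegree_zero]
      omega
    · exact (natDegree_lt_iff_degree_lt h0).2 h1
  have hlag := lag_coeff V (fun x : ℤ => (x : ℚ)) (fun x _ y _ hxy => Int.cast_injective hxy)
    (f.F - C α * ∏ x ∈ V, (X - C ((x : ℤ) : ℚ))) hdeg
  have hco : (∏ x ∈ V, (X - C ((x : ℤ) : ℚ))).coeff (d - 1) = - ∑ x ∈ V, (x : ℚ) := by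
    have h1 := prod_X_sub_C_coeff_card_pred V (fun x : ℤ => (x : ℚ)) (by omega)
    rw [hc] at h1
    exact h1
  rw [hc, coeff_sub, coeff_C_mul, hco] at hlag
  have hev : ∀ x ∈ V, (f.F - C α * ∏ x ∈ V, (X - C ((x : ℤ) : ℚ))).eval (x : ℚ) = ((f.ph x : ℤ) : ℚ) := by
    intro x hx
    have h2 : x ∈ S ∧ x ≠ a := by
      have h1 := Finset.mem_filter.1 (show x ∈ S.filter (fun x => x ≠ a ∧ f.ph x ∈ Dm S a f.ph 0) from hV hx)
      exact ⟨h1.1, h1.2.1⟩
    rw [eval_sub, eval_mul, eval_prod, Finset.prod_eq_zero hx (by simp), mul_zero, sub_zero,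
      f.val x h2.1 h2.2]
  have hs : ∑ x ∈ V, ((f.ph x : ℤ) : ℚ) * (∏ y ∈ V.erase x, ((x : ℚ) - y))⁻¹ =
      f.F.coeff (d - 1) - α * -∑ x ∈ V, (x : ℚ) := by
    rw [← hlag]
    exact Finset.sum_congr rfl fun x hx => by rw [hev x hx]
  rw [hs, sF, ← hαd]
  field_simp
  ring

end F0744U
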