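import Pool.Agent.Lib.MP_f0744f_nt.U.Defs

/-! # Row V1: the difference of two powers -/

set_option autoImplicit false

open Polynomial

namespace F0744U

open F0744C F0744D

variable {S : Finset ℤ} {a b : ℤ} {d e : ℕ}

theorem V1_nat (A : AbsoluteValue ℚ ℝ) (n : ℕ) : A (n : ℚ) ≤ n := by
  induction n with
  | zero => simp
  | succ n ih =>
    have h := A.add_le (n : ℚ) 1
    rw [A.map_one] at h
    push_cast
    linarith

theorem V1_ind (A : AbsoluteValue ℚ ℝ) {u w : ℚ} (hw : A w ≤ A u) (n : ℕ) :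
    A u * A ((u + w) ^ n - u ^ n - n * u ^ (n - 1) * w) ≤
      ((2 : ℝ) ^ n - n - 1) * A u ^ (n - 1) * A w ^ 2 := by
  have hu0 : 0 ≤ A u := A.nonneg u
  have hw0 : 0 ≤ A w := A.nonneg w
  induction n with
  | zero => simp
  | succ n ih =>
    rcases n with _ | m
    · norm_num
    · have e1 : (u + w) ^ (m + 1 + 1) - u ^ (m + 1 + 1) -
          ((m + 1 + 1 : ℕ) : ℚ) * u ^ (m + 1 + 1 - 1) * w =
          (u + w) * ((u + w) ^ (m + 1) - u ^ (m + 1) - ((m + 1 : ℕ) : ℚ) * u ^ (m + 1 - 1) * w) +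
            ((m + 1 : ℕ) : ℚ) * (u ^ m * w ^ 2) := by
        simp only [Nat.add_sub_cancel]
        push_cast
        ring
      rw [e1]
      have h1 := A.add_le ((u + w) * ((u + w) ^ (m + 1) - u ^ (m + 1) - ((m + 1 : ℕ) : ℚ) * u ^ (m + 1 - 1) * w))
        (((m + 1 : ℕ) : ℚ) * (u ^ m * w ^ 2))
      rw [A.map_mul, A.map_mul, A.map_mul, A.map_pow, A.map_pow] at h1
      have h2 := A.add_le u w
      have h3 := V1_nat A (m + 1)
      have h4 : 0 ≤ A ((u + w) ^ (m + 1) - u ^ (m + 1) - ((m + 1 : ℕ) : ℚ) * u ^ (m + 1 - 1) * w) :=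
        A.nonneg _
      have h5 : 0 ≤ A u ^ m * A w ^ 2 := by positivity
      have h6 : A (u + w) * A ((u + w) ^ (m + 1) - u ^ (m + 1) - ((m + 1 : ℕ) : ℚ) * u ^ (m + 1 - 1) * w) ≤
          2 * (A u * A ((u + w) ^ (m + 1) - u ^ (m + 1) - ((m + 1 : ℕ) : ℚ) * u ^ (m + 1 - 1) * w)) := by
        calc _ ≤ (2 * A u) * A ((u + w) ^ (m + 1) - u ^ (m + 1) - ((m + 1 : ℕ) : ℚ) * u ^ (m + 1 - 1) * w) :=
              mul_le_mul_of_nonneg_right (by linarith) h4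
          _ = _ := by ring
      have h7 : A ((m + 1 : ℕ) : ℚ) * (A u ^ m * A w ^ 2) ≤ ((m + 1 : ℕ) : ℝ) * (A u ^ m * A w ^ 2) :=
        mul_le_mul_of_nonneg_right h3 h5
      have h8 : A u * A ((u + w) * ((u + w) ^ (m + 1) - u ^ (m + 1) - ((m + 1 : ℕ) : ℚ) * u ^ (m + 1 - 1) * w) +
          ((m + 1 : ℕ) : ℚ) * (u ^ m * w ^ 2)) ≤ A u * (2 * (((2 : ℝ) ^ (m + 1) - ((m + 1 : ℕ) : ℝ) - 1) * A u ^ (m + 1 - 1) * A w ^ 2) +
            ((m + 1 : ℕ) : ℝ) * (A u ^ m * A w ^ 2)) := by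
        refine mul_le_mul_of_nonneg_left ?_ hu0
        linarith
      refine h8.trans (le_of_eq ?_)
      simp only [Nat.add_sub_cancel]
      push_cast
      ring

/-- `v = u + w`, `w = v - u`: `v ^ d - u ^ d = d u ^ (d - 1) w + ∑_{k ≥ 2} (d choose k) u ^ (d - k) w ^ k` (`add_pow`). Since `A d ≤ d ≤ 2 ^ (d + 1)` we have
`A w ≤ A u`, so the last sum has size at most `2 ^ d A u ^ (d - 2) A w ^ 2 ≤ A u ^ (d - 1) A w (2 ^ d A w / A u) ≤ A d A u ^ (d - 1) A w / 2`. (`d = 1` is trivial.) -/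
theorem pow_sub_ge (A : AbsoluteValue ℚ ℝ) (hd : 1 ≤ d) {u v : ℚ} (hu : u ≠ 0)
    (h : 2 ^ (d + 1) * A (v - u) ≤ A d * A u) :
    A d * A u ^ (d - 1) * A (v - u) ≤ 2 * A (v ^ d - u ^ d) := by
  have hu0 : 0 < A u := A.pos hu
  have hd0 : 0 < A (d : ℚ) := A.pos (by exact_mod_cast (by omega : d ≠ 0))
  have hw0 : 0 ≤ A (v - u) := A.nonneg _
  have hdd : A (d : ℚ) ≤ (2 : ℝ) ^ d := by
    refine (V1_nat A d).trans ?_
    have h1 : d ≤ 2 ^ d := Nat.lt_two_pow_self.le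
    exact_mod_cast h1
  have h2d : (0 : ℝ) < 2 ^ d := by positivity
  have hpow : (2 : ℝ) ^ (d + 1) = 2 * 2 ^ d := by rw [pow_succ]; ring
  have hwu : A (v - u) ≤ A u := by
    have h1 : A (d : ℚ) * A u ≤ 2 ^ d * A u := mul_le_mul_of_nonneg_right hdd hu0.le
    rw [hpow] at h
    have h2 : 2 ^ d * (2 * A (v - u)) ≤ 2 ^ d * A u := by linarith
    have h3 := le_of_mul_le_mul_left h2 h2d
    linarith
  have h1 := V1_ind A hwu d
  have e1 : u + (v - u) = v := by ring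
  rw [e1] at h1
  set w := v - u with hwdef
  have h2 : ((2 : ℝ) ^ d - d - 1) * A u ^ (d - 1) * A w ^ 2 ≤ A u * (A d * A u ^ (d - 1) * A w / 2) := by
    have h3 : ((2 : ℝ) ^ d - d - 1) * A u ^ (d - 1) * A w ^ 2 ≤ (2 : ℝ) ^ d * A u ^ (d - 1) * A w ^ 2 := by
      have h4 : (0 : ℝ) ≤ d := Nat.cast_nonneg d
      have h5 : 0 ≤ A u ^ (d - 1) * A w ^ 2 := by positivity
      nlinarith
    refine h3.trans ?_
    have h6 : 0 ≤ A u ^ (d - 1) * A w := by positivity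
    have h7 : (2 : ℝ) ^ d * A w ≤ A d * A u / 2 := by
      rw [hpow] at h
      linarith
    calc (2 : ℝ) ^ d * A u ^ (d - 1) * A w ^ 2 = (2 ^ d * A w) * (A u ^ (d - 1) * A w) := by ring
      _ ≤ (A d * A u / 2) * (A u ^ (d - 1) * A w) := mul_le_mul_of_nonneg_right h7 h6
      _ = _ := by ring
  have h3 : A (v ^ d - u ^ d - d * u ^ (d - 1) * w) ≤ A d * A u ^ (d - 1) * A w / 2 :=
    le_of_mul_le_mul_left (h1.trans h2) hu0
  have h4 : A (d * u ^ (d - 1) * w) ≤ A (v ^ d - u ^ d) + A (v ^ d - u ^ d - d * u ^ (d - 1) * w) := by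
    have h5 := A.sub_le_add (v ^ d - u ^ d) (v ^ d - u ^ d - d * u ^ (d - 1) * w)
    have e2 : v ^ d - u ^ d - (v ^ d - u ^ d - d * u ^ (d - 1) * w) = d * u ^ (d - 1) * w := by ring
    rwa [e2] at h5
  rw [A.map_mul, A.map_mul, A.map_pow] at h4
  linarith

end F0744U
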