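import Pool.Agent.Lib.MP_f0744f_nt.U.V1

/-! # Row V2: the points are not near the critical point -/

set_option autoImplicit false

open Polynomial

namespace F0744U

open F0744C F0744D

variable {S : Finset ℤ} {a b : ℤ} {d e : ℕ}

/-- `pow_sub_ge` for `u = x - γ`, `v = y - γ` (`A u ≥ δ R / 4`): `A d A u ^ (d - 1) A (v - u) ≤ 2 A (v ^ d - u ^ d) = 2 A (ph x - ph y) / A α`, and `A d ≥ δ`. -/
theorem sim_uni (f : PM S a d) (hd : 1 ≤ d) {A : AbsoluteValue ℚ ℝ} {R δ : ℝ} (hR : 1 ≤ R) (hδ : 0 < δ)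
    (hA : δ ≤ A d) {α γ β : ℚ} (hα : α ≠ 0)
    (hF : f.F = C α * (X - C γ) ^ d + C β) {x y : ℤ} (hx : x ∈ S) (hy : y ∈ S) (hxa : x ≠ a) (hya : y ≠ a)
    (hlo : δ * R / 4 ≤ A ((x : ℚ) - γ)) (hcl : A ((x : ℚ) - y) ≤ R * δ ^ 2 / 2 ^ (d + 3)) :
    A α * R ^ (d - 1) * (δ / 4) ^ d * A ((x : ℚ) - y) ≤ A (((f.ph x : ℤ) : ℚ) - (f.ph y : ℤ)) := by
  have hR0 : 0 < R := by linarith
  have hu0 : 0 < A ((x : ℚ) - γ) := lt_of_lt_of_le (by positivity) hlo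
  have hu : ((x : ℚ) - γ) ≠ 0 := by
    intro h0
    rw [h0, map_zero] at hu0
    exact lt_irrefl _ hu0
  have hvu : ((y : ℚ) - γ) - ((x : ℚ) - γ) = -((x : ℚ) - y) := by ring
  have hAvu : A (((y : ℚ) - γ) - ((x : ℚ) - γ)) = A ((x : ℚ) - y) := by
    rw [hvu, AbsoluteValue.map_neg]
  have h2 : (2 : ℝ) ^ (d + 3) = 4 * 2 ^ (d + 1) := by
    rw [show d + 3 = (d + 1) + 2 by ring, pow_add]; ring
  have h : 2 ^ (d + 1) * A (((y : ℚ) - γ) - ((x : ℚ) - γ)) ≤ A d * A ((x : ℚ) - γ) := by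
    rw [hAvu]
    have hp : (0 : ℝ) < 2 ^ (d + 1) := by positivity
    calc 2 ^ (d + 1) * A ((x : ℚ) - y) ≤ 2 ^ (d + 1) * (R * δ ^ 2 / 2 ^ (d + 3)) :=
          mul_le_mul_of_nonneg_left hcl hp.le
      _ = δ * (δ * R / 4) := by rw [h2]; field_simp
      _ ≤ A d * A ((x : ℚ) - γ) :=
          mul_le_mul hA hlo (by positivity) (le_trans hδ.le hA)
  have hmain := pow_sub_ge A hd hu h
  rw [hAvu] at hmain
  have hph : ((f.ph x : ℤ) : ℚ) - (f.ph y : ℤ)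
      = -(α * (((y : ℚ) - γ) ^ d - ((x : ℚ) - γ) ^ d)) := by
    rw [f.val x hx hxa, f.val y hy hya, hF]
    simp
    ring
  have hAph : A (((f.ph x : ℤ) : ℚ) - (f.ph y : ℤ))
      = A α * A (((y : ℚ) - γ) ^ d - ((x : ℚ) - γ) ^ d) := by
    rw [hph, AbsoluteValue.map_neg, map_mul]
  rw [hAph]
  have hw : 0 ≤ A ((x : ℚ) - y) := A.nonneg _
  have hAα : 0 ≤ A α := A.nonneg _
  have hkey : R ^ (d - 1) * (δ / 4) ^ d ≤ (A d * A ((x : ℚ) - γ) ^ (d - 1)) / 2 := by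
    have h1 : δ * (δ * R / 4) ^ (d - 1) ≤ A d * A ((x : ℚ) - γ) ^ (d - 1) :=
      mul_le_mul hA (pow_le_pow_left₀ (by positivity) hlo _) (by positivity) (le_trans hδ.le hA)
    have h3 : R ^ (d - 1) * (δ / 4) ^ d = δ * (δ * R / 4) ^ (d - 1) / 4 := by
      obtain ⟨e, rfl⟩ : ∃ e, d = e + 1 := ⟨d - 1, by omega⟩
      simp only [Nat.add_sub_cancel]
      rw [pow_succ, div_pow, div_pow, mul_pow]
      ring
    have h4 : 0 ≤ δ * (δ * R / 4) ^ (d - 1) := by positivity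
    rw [h3]
    linarith
  calc A α * R ^ (d - 1) * (δ / 4) ^ d * A ((x : ℚ) - y)
      = A α * ((R ^ (d - 1) * (δ / 4) ^ d) * A ((x : ℚ) - y)) := by ring
    _ ≤ A α * ((A d * A ((x : ℚ) - γ) ^ (d - 1)) / 2 * A ((x : ℚ) - y)) :=
        mul_le_mul_of_nonneg_left (mul_le_mul_of_nonneg_right hkey hw) hAα
    _ ≤ A α * A (((y : ℚ) - γ) ^ d - ((x : ℚ) - γ) ^ d) := by
        refine mul_le_mul_of_nonneg_left ?_ hAα
        have : (A d * A ((x : ℚ) - γ) ^ (d - 1)) / 2 * A ((x : ℚ) - y)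
            = (A d * A ((x : ℚ) - γ) ^ (d - 1) * A ((x : ℚ) - y)) / 2 := by ring
        rw [this]
        linarith

end F0744U
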