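import Pool.Agent.Lib.MP_f0744f_nt.U.V1

/-! # Row V2: the points are not near the critical point -/

set_option autoImplicit false

open Polynomial

namespace F0744U

open F0744C F0744D

variable {S : Finset ℤ} {a b : ℤ} {d e : ℕ}

/-- Suppose `A (x - γ) < δ R / 4` for an `x ∈ S \ {a}`. For all `y ∈ S \ {a}`: `α ((x - γ) ^ d - (y - γ) ^ d) = ph x - ph y` (`f.val`) has size at most `2 R` (`f.maps`), so `A (y - γ) ^ d ≤ A (x - γ) ^ d + 2 R / A α ≤ 2 (δ R / 4) ^ d ≤ (δ R / 2) ^ d`,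
strictly less for the two points of `far`: `A (y - γ) < δ R / 2` (`pow_lt_pow_left₀`, `lt_of_pow_lt_pow_left₀`), a contradiction to `far`. -/
theorem low_uni (f : PM S a d) (hd : 1 ≤ d) {A : AbsoluteValue ℚ ℝ} {R δ : ℝ} (hR : 1 ≤ R) (hδ : 0 < δ)
    (bd : ∀ x ∈ S, A ((x : ℤ) : ℚ) ≤ R) {α γ β : ℚ} (hα : α ≠ 0)
    (hF : f.F = C α * (X - C γ) ^ d + C β) (hs : 2 * R ≤ A α * (δ * R / 4) ^ d)
    (far : ∃ x ∈ S, ∃ y ∈ S, x ≠ a ∧ y ≠ a ∧ δ * R ≤ A ((x : ℚ) - y)) :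
    ∀ x ∈ S, x ≠ a → δ * R / 4 ≤ A ((x : ℚ) - γ) := by
  intro x hx hxa
  by_contra hcon
  rw [not_le] at hcon
  have hA0 : 0 < A α := A.pos hα
  have hδR : 0 < δ * R := mul_pos hδ (by linarith)
  have key : ∀ y ∈ S, y ≠ a → A ((y : ℚ) - γ) < δ * R / 2 := by
    intro y hy hya
    have e1 : ((f.ph x : ℤ) : ℚ) = α * ((x : ℚ) - γ) ^ d + β := by
      rw [f.val x hx hxa, hF]
      simp
    have e2 : ((f.ph y : ℤ) : ℚ) = α * ((y : ℚ) - γ) ^ d + β := by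
      rw [f.val y hy hya, hF]
      simp
    have e3 : α * ((y : ℚ) - γ) ^ d = α * ((x : ℚ) - γ) ^ d +
        (((f.ph y : ℤ) : ℚ) - ((f.ph x : ℤ) : ℚ)) := by
      rw [e1, e2]; ring
    have b1 : A ((f.ph x : ℤ) : ℚ) ≤ R := bd _ (f.maps x hx hxa)
    have b2 : A ((f.ph y : ℤ) : ℚ) ≤ R := bd _ (f.maps y hy hya)
    have e4 : A α * A ((y : ℚ) - γ) ^ d ≤ A α * A ((x : ℚ) - γ) ^ d + 2 * R := by
      have h1 : A (α * ((y : ℚ) - γ) ^ d) = A α * A ((y : ℚ) - γ) ^ d := by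
        rw [map_mul, map_pow]
      have h2 : A (α * ((x : ℚ) - γ) ^ d) = A α * A ((x : ℚ) - γ) ^ d := by
        rw [map_mul, map_pow]
      rw [← h1, ← h2, e3]
      have h3 := A.add_le (α * ((x : ℚ) - γ) ^ d) (((f.ph y : ℤ) : ℚ) - ((f.ph x : ℤ) : ℚ))
      have h4 : A (((f.ph y : ℤ) : ℚ) - ((f.ph x : ℤ) : ℚ)) ≤
          A ((f.ph y : ℤ) : ℚ) + A ((f.ph x : ℤ) : ℚ) := by
        have h5 := A.add_le ((f.ph y : ℤ) : ℚ) (-((f.ph x : ℤ) : ℚ))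
        rw [A.map_neg, ← sub_eq_add_neg] at h5
        exact h5
      linarith
    have e5 : A ((x : ℚ) - γ) ^ d < (δ * R / 4) ^ d :=
      pow_lt_pow_left₀ hcon (A.nonneg _) (by omega)
    have e6 : A ((y : ℚ) - γ) ^ d < 2 * (δ * R / 4) ^ d := by
      have h1 : A α * A ((y : ℚ) - γ) ^ d < A α * (2 * (δ * R / 4) ^ d) := by
        have h2 := mul_lt_mul_of_pos_left e5 hA0
        linarith
      exact lt_of_mul_lt_mul_left h1 hA0.le
    have e7 : 2 * (δ * R / 4) ^ d ≤ (δ * R / 2) ^ d := by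
      have h1 : δ * R / 2 = 2 * (δ * R / 4) := by ring
      rw [h1, mul_pow]
      have h2 : (2 : ℝ) ≤ 2 ^ d := by
        calc (2 : ℝ) = 2 ^ 1 := (pow_one 2).symm
          _ ≤ 2 ^ d := pow_le_pow_right₀ (by norm_num) hd
      exact mul_le_mul_of_nonneg_right h2 (by positivity)
    exact lt_of_pow_lt_pow_left₀ d (by positivity) (e6.trans_le e7)
  obtain ⟨y, hy, z, hz, hya, hza, hyz⟩ := far
  have h1 := key y hy hya
  have h2 := key z hz hza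
  have h3 : A ((y : ℚ) - z) ≤ A ((y : ℚ) - γ) + A ((z : ℚ) - γ) := by
    have h4 := A.add_le ((y : ℚ) - γ) (-((z : ℚ) - γ))
    rw [A.map_neg] at h4
    have h5 : (y : ℚ) - γ + -((z : ℚ) - γ) = (y : ℚ) - z := by ring
    rwa [h5] at h4
  linarith

end F0744U
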