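import Pool.Agent.Lib.MP_f0744f_nt.C.Red2
import Pool.Agent.Lib.MP_f0744f_nt.U.Defs

/-! # Row Z1: unicritical polynomials, conjugation -/

set_option autoImplicit false

open Polynomial

namespace F0744U

open F0744C F0744D

variable {S : Finset ℤ} {a b : ℤ} {d e : ℕ}

/-- `mu (α (mu⁻¹ X + s₀ - γ) ^ d + β - s₀) = (α mu ^ (1 - d)) (X - mu (γ - s₀)) ^ d + mu (β - s₀)` -/
theorem Uni.conj {F : ℚ[X]} (h : Uni F d) (s₀ : ℚ) {mu : ℚ} (hmu : mu ≠ 0) :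
    Uni (C mu * (F.comp (C mu⁻¹ * X + C s₀) - C s₀)) d := by
  obtain ⟨α, γ, β, hα, rfl⟩ := h
  refine ⟨mu * α * mu⁻¹ ^ d, mu * (γ - s₀), mu * (β - s₀), ?_, ?_⟩
  · exact mul_ne_zero (mul_ne_zero hmu hα) (pow_ne_zero _ (inv_ne_zero hmu))
  · have h1 : (C mu⁻¹ * X + C s₀ - C γ : ℚ[X]) = C mu⁻¹ * (X - C (mu * (γ - s₀))) := by
      have h2 : (C mu⁻¹ * C (mu * (γ - s₀)) : ℚ[X]) = C γ - C s₀ := by
        rw [← C_mul, ← mul_assoc, inv_mul_cancel₀ hmu, one_mul, C_sub]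
      rw [mul_sub, h2]
      ring
    simp only [add_comp, mul_comp, pow_comp, sub_comp, X_comp, C_comp]
    rw [h1, mul_pow]
    simp only [C_mul, C_sub, C_pow]
    ring

end F0744U
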