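import Pool.Agent.Lib.MP_f0744f_nt.C.Red2
import Pool.Agent.Lib.MP_f0744f_nt.U.Defs

/-! # Row Z1: unicritical polynomials, conjugation -/

set_option autoImplicit false

open Polynomial

namespace F0744U

open F0744C F0744D

variable {S : Finset ℤ} {a b : ℤ} {d e : ℕ}

/-- `f = α (X - γ) ^ d + β` -/
def UniR (f : ℝ[X]) (d : ℕ) : Prop := ∃ α γ β : ℝ, α ≠ 0 ∧ f = C α * (X - C γ) ^ d + C β

theorem UniR.natDegree {f : ℝ[X]} (hd : 1 ≤ d) (h : UniR f d) : f.natDegree = d := by
  obtain ⟨α, γ, β, hα, rfl⟩ := h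
  rw [natDegree_add_C, natDegree_C_mul hα, natDegree_pow, natDegree_X_sub_C, mul_one]

/-- `α` is the leading coefficient of `F`, `γ = - coeff (d - 1) / (d α)`, `β = F (γ)`: rational numbers. `Polynomial.map_injective`. -/
theorem UniR.rat {F : ℚ[X]} (hd : 2 ≤ d) (h : UniR (F.map (algebraMap ℚ ℝ)) d) : Uni F d := by
  have hdeg := h.natDegree (by omega : 1 ≤ d)
  have hFd : F.natDegree = d := by
    rw [← hdeg]
    exact (natDegree_map_eq_of_injective (algebraMap ℚ ℝ).injective F).symm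
  obtain ⟨α, γ, β, hα, hF⟩ := h
  have hcoe : ∀ k, 1 ≤ k → algebraMap ℚ ℝ (F.coeff k) = α * ((-γ) ^ (d - k) * (d.choose k : ℝ)) := by
    intro k hk
    have h1 : (F.map (algebraMap ℚ ℝ)).coeff k = (C α * (X - C γ) ^ d + C β).coeff k := by rw [hF]
    rw [coeff_map, coeff_add, coeff_C_mul, sub_eq_add_neg, ← C_neg, coeff_X_add_C_pow,
      coeff_C_ne_zero (by omega), add_zero] at h1
    exact h1
  have hlead : algebraMap ℚ ℝ (F.coeff d) = α := by
    rw [hcoe d (by omega), Nat.sub_self, pow_zero, Nat.choose_self, Nat.cast_one, one_mul, mul_one]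
  have hnext : algebraMap ℚ ℝ (F.coeff (d - 1)) = α * (-γ * (d : ℝ)) := by
    rw [hcoe (d - 1) (by omega)]
    have h2 : d - (d - 1) = 1 := by omega
    have h3 : d.choose (d - 1) = d := by
      have h4 := Nat.choose_symm (n := d) (k := 1) (by omega)
      rw [h4, Nat.choose_one_right]
    rw [h2, pow_one, h3]
  have hd0 : (d : ℝ) ≠ 0 := by
    have : d ≠ 0 := by omega
    exact_mod_cast this
  have hγ : algebraMap ℚ ℝ (-(F.coeff (d - 1)) / (F.coeff d * d)) = γ := by
    rw [map_div₀, map_neg, map_mul, hlead, hnext, map_natCast]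
    field_simp
  have hβ : algebraMap ℚ ℝ (F.eval (-(F.coeff (d - 1)) / (F.coeff d * d))) = β := by
    have h1 : (F.map (algebraMap ℚ ℝ)).eval γ = β := by
      rw [hF]
      simp only [eval_add, eval_mul, eval_C, eval_pow, eval_sub, eval_X, sub_self]
      rw [zero_pow (by omega), mul_zero, zero_add]
    rw [← h1, ← hγ, eval_map, eval₂_at_apply]
  refine ⟨F.coeff d, -(F.coeff (d - 1)) / (F.coeff d * d), F.eval (-(F.coeff (d - 1)) / (F.coeff d * d)),
    ?_, ?_⟩
  · intro h0
    rw [h0, map_zero] at hlead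
    exact hα hlead.symm
  · apply map_injective (algebraMap ℚ ℝ) (algebraMap ℚ ℝ).injective
    rw [Polynomial.map_add, Polynomial.map_mul, Polynomial.map_pow, Polynomial.map_sub, map_X, map_C, map_C,
      map_C, hγ, hβ, hlead]
    exact hF

end F0744U
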