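import Pool.Agent.Lib.MP_f0744f_nt.D.Z2
import Pool.Agent.Lib.MP_f0744f_nt.U.Z1
import Pool.Agent.Lib.MP_f0744f_nt.U.K7

/-! # Row Z2: reduction to the integral core -/

set_option autoImplicit false

open Polynomial

namespace F0744U

open F0744C F0744D

variable {S : Finset ℤ} {a b : ℤ} {d e : ℕ}

/-- The same proof as `red_ne'` in `D/Z2a.lean` with `key'`, `exists_PM'`, `conj_iter`, `map_iter`, and `UniR.rat`, `Uni.conj`. -/
theorem red_neU {d e N0 : ℕ} (hd : 2 ≤ d)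
    (h : ∀ (S : Finset ℤ) (a b : ℤ), a ∈ S → b ∈ S → a ≠ b → (0 : ℤ) ∈ S → N0 ≤ S.card →
      (∀ p : ℕ, p.Prime → ∃ x ∈ S, ∃ y ∈ S, ¬ (p : ℤ) ∣ x - y) →
      ∀ (f : PM S a d) (g : PM S b e), Uni f.F d → ∃ k : ℕ, 1 ≤ k ∧ g.F = f.F.comp^[k] X)
    {f g : ℝ[X]} (hf : UniR f d) (hg : g.natDegree = e) {x y : ℕ → ℚ} {m : ℕ}
    (hm : N0 ≤ m + 1) (hmd : d + 1 ≤ m) (hme : e + 1 ≤ m) (hx : F0744.Orb f x (m + 1))
    (hy : F0744.Orb g y (m + 1))
    (himg : (Finset.range (m + 1)).image x = (Finset.range (m + 1)).image y)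
    (hne : x m ≠ y m) : ∃ k : ℕ, 1 ≤ k ∧ g = f.comp^[k] X := by
  set S := (Finset.range (m + 1)).image x with hSdef
  obtain ⟨F, hFf, hF, hmaps, hinj⟩ := key' (hf.natDegree (by omega)) hmd hx hSdef
  obtain ⟨G, hGg, hG, hmaps', hinj'⟩ := key' hg hme hy himg
  have hcard : S.card = m + 1 := by
    rw [hSdef, Finset.card_image_of_injOn (by simpa using hx.inj), Finset.card_range]
  obtain ⟨c, s₀, mu, hs₀, hmu, hc, hprime⟩ := coords0 S (by omega)
  have hcinj : ∀ s ∈ S, ∀ t ∈ S, c s = c t → s = t := by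
    intro s hs t ht he
    have h1 : (c s : ℚ) = c t := by exact_mod_cast he
    rw [hc s hs, hc t ht] at h1
    have := mul_right_cancel₀ hmu h1
    linarith
  have hxm : x m ∈ S := by
    rw [hSdef]; exact Finset.mem_image_of_mem _ (Finset.mem_range.2 (by omega))
  have hym : y m ∈ S := by
    rw [himg]; exact Finset.mem_image_of_mem _ (Finset.mem_range.2 (by omega))
  have h0 : (0 : ℤ) ∈ S.image c := by
    refine Finset.mem_image.2 ⟨s₀, hs₀, ?_⟩
    have h1 : (c s₀ : ℚ) = 0 := by rw [hc s₀ hs₀, sub_self, zero_mul]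
    exact_mod_cast h1
  obtain ⟨P, hP⟩ := exists_PM' S c s₀ mu hmu hc (x m) hF hmaps hinj
  obtain ⟨Q, hQ⟩ := exists_PM' S c s₀ mu hmu hc (y m) hG hmaps' hinj'
  obtain ⟨k, hk1, hk⟩ := h (S.image c) (c (x m)) (c (y m)) (Finset.mem_image_of_mem _ hxm)
    (Finset.mem_image_of_mem _ hym) (fun he => hne (hcinj _ hxm _ hym he)) h0
    (by
      rw [Finset.card_image_of_injOn (fun s hs t ht he => hcinj s hs t ht he), hcard]
      exact hm) hprime P Q (by
      rw [hP]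
      refine Uni.conj ?_ s₀ hmu
      refine UniR.rat hd ?_
      rw [hFf]
      exact hf)
  rw [hQ, hP] at hk
  have hGF := conj_iter hmu hk
  exact ⟨k, hk1, by rw [← hGg, ← hFf, hGF, map_iter]⟩

end F0744U
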